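import Pool.Agent.SWS.Defs

/-!
# SWS: the adjugate of `x - M`

The entries of the adjugate of `x - M`, `M` a rational matrix: symmetry, the diagonal entries are
the characteristic polynomials of the vertex-deleted matrices, the row relation, and the three top
coefficients.
-/

set_option autoImplicit false

namespace SWS

open Finset Polynomial
open scoped Classical

variable {V W : Type}

private theorem adj_mul [Fintype V] (A : Matrix V V ℚ) :
    (X - C A) * matPolyEquiv (Matrix.adjugate (Matrix.charmatrix A)) =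
      A.charpoly.map (algebraMap ℚ (Matrix V V ℚ)) := by
  have h : A.charpoly • (1 : Matrix V V ℚ[X]) =
      Matrix.charmatrix A * Matrix.adjugate (Matrix.charmatrix A) :=
    (Matrix.mul_adjugate _).symm
  apply_fun matPolyEquiv at h
  simp only [map_mul, Matrix.matPolyEquiv_charmatrix] at h
  rw [matPolyEquiv_smul_one] at h
  exact h.symm

private theorem adj_natDegree [Fintype V] [Nonempty V] (A : Matrix V V ℚ) :
    (matPolyEquiv (Matrix.adjugate (Matrix.charmatrix A))).natDegree = Fintype.card V - 1 ∧
      (matPolyEquiv (Matrix.adjugate (Matrix.charmatrix A))).leadingCoeff = 1 := by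
  obtain ⟨Q, hQ⟩ : ∃ Q, Q = matPolyEquiv (Matrix.adjugate (Matrix.charmatrix A)) := ⟨_, rfl⟩
  have h := adj_mul A
  rw [← hQ] at h ⊢
  have hm : (A.charpoly.map (algebraMap ℚ (Matrix V V ℚ))).Monic :=
    (Matrix.charpoly_monic A).map _
  have hX : (X - C A).Monic := monic_X_sub_C A
  have hQ0 : Q ≠ 0 := by
    intro h0
    rw [h0, mul_zero] at h
    exact hm.ne_zero h.symm
  have hd : (A.charpoly.map (algebraMap ℚ (Matrix V V ℚ))).natDegree = Fintype.card V := by
    rw [(Matrix.charpoly_monic A).natDegree_map, Matrix.charpoly_natDegree_eq_dim]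
  have h1 : Q.natDegree = Fintype.card V - 1 := by
    have := hX.natDegree_mul' hQ0
    rw [h, hd, natDegree_X_sub_C] at this
    omega
  have h2 : Q.leadingCoeff = 1 := by
    have := leadingCoeff_monic_mul (p := X - C A) (q := Q) hX
    rw [h, hm.leadingCoeff] at this
    exact this.symm
  exact ⟨h1, h2⟩

theorem adj_symm [Fintype V] {M : Matrix V V ℚ} (hM : M.IsSymm) (a b : V) :
    adj M a b = adj M b a := by
  have h : (Matrix.charmatrix M).transpose = Matrix.charmatrix M := by
    rw [← Matrix.charmatrix_transpose, hM.eq]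
  have h2 := Matrix.adjugate_transpose (Matrix.charmatrix M)
  rw [h] at h2
  unfold adj
  rw [← h2]
  exact (congrFun (congrFun h2 b) a) ▸ rfl

theorem adj_diag [Fintype V] (M : Matrix V V ℚ) (a : V) :
    adj M a a = (M.submatrix (Subtype.val : {x : V // x ≠ a} → V) Subtype.val).charpoly := by
  unfold adj
  rw [Matrix.adjugate_apply, Matrix.twoBlockTriangular_det' _ (fun i => i = a)]
  · have hs : Subsingleton {i : V // i = a} := ⟨fun x y => Subtype.ext (x.2.trans y.2.symm)⟩
    have h1 : (Matrix.toSquareBlockProp ((Matrix.charmatrix M).updateRow a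
        (Pi.single a 1)) (fun i => i = a)) ⟨a, rfl⟩ ⟨a, rfl⟩ = 1 := by
      show ((Matrix.charmatrix M).updateRow a (Pi.single a 1)) a a = 1
      rw [Matrix.updateRow_self, Pi.single_eq_same]
    have h2 : ∀ (i1 : DecidableEq {i : V // i = a}) (i2 : Fintype {i : V // i = a}),
        @Matrix.det _ i1 i2 ℚ[X] _ (Matrix.toSquareBlockProp ((Matrix.charmatrix M).updateRow a
        (Pi.single a 1)) (fun i => i = a)) = 1 := fun i1 i2 =>
      (@Matrix.det_eq_elem_of_subsingleton _ i1 i2 _ _ hs _ (⟨a, rfl⟩ : {i : V // i = a})).trans h1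
    rw [h2, one_mul]
    unfold Matrix.charpoly
    congr 1
    ext1 i j
    have hi : (i : V) ≠ a := i.2
    show ((Matrix.charmatrix M).updateRow a (Pi.single a 1)) (i : V) (j : V) =
      Matrix.charmatrix (M.submatrix (Subtype.val : {x : V // x ≠ a} → V) Subtype.val) i j
    rw [Matrix.updateRow_ne hi]
    by_cases hij : i = j
    · rw [hij, Matrix.charmatrix_apply_eq, Matrix.charmatrix_apply_eq, Matrix.submatrix_apply]
    · rw [Matrix.charmatrix_apply_ne _ _ _ hij, Matrix.charmatrix_apply_ne, Matrix.submatrix_apply]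
      exact fun h => hij (Subtype.ext h)
  · intro i hi j hj
    rw [hi, Matrix.updateRow_self, Pi.single_eq_of_ne hj]

theorem adj_row [Fintype V] (M : Matrix V V ℚ) (a b : V) :
    X * adj M a b - ∑ c, C (M a c) * adj M c b = if a = b then M.charpoly else 0 := by
  have h := congrFun (congrFun (Matrix.mul_adjugate (Matrix.charmatrix M)) a) b
  rw [Matrix.mul_apply, Matrix.smul_apply, Matrix.one_apply] at h
  have h1 : ∀ c : V, Matrix.charmatrix M a c * Matrix.adjugate (Matrix.charmatrix M) c b =
      (if a = c then X * adj M c b else 0) - C (M a c) * adj M c b := by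
    intro c
    by_cases hac : a = c
    · rw [← hac, Matrix.charmatrix_apply_eq, if_pos rfl]
      unfold adj
      ring
    · rw [Matrix.charmatrix_apply_ne _ _ _ hac, if_neg hac]
      unfold adj
      ring
  simp only [h1] at h
  rw [Finset.sum_sub_distrib, Finset.sum_ite_eq, if_pos (Finset.mem_univ a)] at h
  rw [h]
  by_cases hab : a = b
  · rw [if_pos hab, if_pos hab, smul_eq_mul, mul_one]
    rfl
  · rw [if_neg hab, if_neg hab, smul_zero]

theorem adj_rec [Fintype V] (M : Matrix V V ℚ) (k : ℕ) (a b : V) :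
    (adj M a b).coeff k =
      ∑ c, M a c * (adj M c b).coeff (k + 1) + if a = b then M.charpoly.coeff (k + 1) else 0 := by
  have h := congrArg (fun p : ℚ[X] => p.coeff (k + 1)) (adj_row M a b)
  simp only [coeff_sub, coeff_X_mul, finsetSum_coeff, coeff_C_mul] at h
  have h2 : (if a = b then M.charpoly else 0 : ℚ[X]).coeff (k + 1) =
      if a = b then M.charpoly.coeff (k + 1) else 0 := by
    split_ifs <;> simp
  rw [h2] at h
  linarith

theorem adj_top [Fintype V] (M : Matrix V V ℚ) (a b : V) :
    (adj M a b).coeff (Fintype.card V - 1) = if a = b then 1 else 0 := by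
  have : Nonempty V := ⟨a⟩
  obtain ⟨h1, h2⟩ := adj_natDegree M
  have h3 : (matPolyEquiv (Matrix.adjugate (Matrix.charmatrix M))).coeff (Fintype.card V - 1) = 1 := by
    rw [← h1]; exact h2
  have h4 := congrFun (congrFun h3 a) b
  rw [matPolyEquiv_coeff_apply, Matrix.one_apply] at h4
  exact h4

theorem adj_two [Fintype V] (M : Matrix V V ℚ) {a b : V} (h : a ≠ b) :
    (adj M a b).coeff (Fintype.card V - 2) = M a b := by
  have hc : 1 < Fintype.card V := Fintype.one_lt_card_iff.2 ⟨a, b, h⟩
  rw [adj_rec, if_neg h, add_zero]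
  have e : Fintype.card V - 2 + 1 = Fintype.card V - 1 := by omega
  rw [e]
  simp only [adj_top, mul_ite, mul_one, mul_zero]
  rw [Finset.sum_ite_eq', if_pos (Finset.mem_univ b)]

theorem adj_deg [Fintype V] (M : Matrix V V ℚ) {a b : V} (h : a ≠ b) :
    (adj M a b).natDegree ≤ Fintype.card V - 2 := by
  have : Nonempty V := ⟨a⟩
  have hc : 1 < Fintype.card V := Fintype.one_lt_card_iff.2 ⟨a, b, h⟩
  rw [natDegree_le_iff_coeff_eq_zero]
  intro N hN
  by_cases hN1 : N = Fintype.card V - 1
  · rw [hN1, adj_top, if_neg h]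
  · have hlt : (matPolyEquiv (Matrix.adjugate (Matrix.charmatrix M))).natDegree < N := by
      rw [(adj_natDegree M).1]; omega
    have h3 := coeff_eq_zero_of_natDegree_lt hlt
    have h4 := congrFun (congrFun h3 a) b
    rw [matPolyEquiv_coeff_apply, Matrix.zero_apply] at h4
    exact h4

theorem adj_diag_deg [Fintype V] (M : Matrix V V ℚ) (a : V) :
    (adj M a a).Monic ∧ (adj M a a).natDegree = Fintype.card V - 1 := by
  rw [adj_diag]
  refine ⟨Matrix.charpoly_monic _, ?_⟩
  rw [Matrix.charpoly_natDegree_eq_dim]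
  have h := Fintype.card_subtype_compl (fun x : V => x = a)
  rw [Fintype.card_subtype_eq] at h
  exact h

theorem adj_diag_two [Fintype V] {M : Matrix V V ℚ} (hM : ∀ c, M c c = 0) (a : V)
    (hn : 2 ≤ Fintype.card V) : (adj M a a).coeff (Fintype.card V - 2) = 0 := by
  have : Nonempty V := ⟨a⟩
  rw [adj_rec, if_pos rfl]
  have e : Fintype.card V - 2 + 1 = Fintype.card V - 1 := by omega
  rw [e]
  simp only [adj_top, mul_ite, mul_one, mul_zero]
  rw [Finset.sum_ite_eq', if_pos (Finset.mem_univ a), hM, zero_add]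
  have h := Matrix.trace_eq_neg_charpoly_coeff M
  have h0 : Matrix.trace M = 0 := by
    unfold Matrix.trace
    exact Finset.sum_eq_zero (fun i _ => hM i)
  rw [h0] at h
  have h2 : M.charpoly.coeff (Fintype.card V - 1) = 0 := by
    have := neg_eq_zero.1 h.symm
    exact this
  exact h2

theorem adj_three [Fintype V] {M : Matrix V V ℚ} (hM : ∀ c, M c c = 0) {a b : V} (h : a ≠ b)
    (hn : 3 ≤ Fintype.card V) :
    (adj M a b).coeff (Fintype.card V - 3) = (M * M) a b := by
  rw [adj_rec, if_neg h, add_zero, Matrix.mul_apply]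
  have e : Fintype.card V - 3 + 1 = Fintype.card V - 2 := by omega
  rw [e]
  refine Finset.sum_congr rfl (fun c _ => ?_)
  by_cases hcb : c = b
  · rw [hcb, adj_diag_two hM b (by omega), hM]
  · rw [adj_two M hcb]

end SWS
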