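import Pool.Agent.SWS.Defs

/-!
# SWS: two of the rules of the abstract system

Pure algebra in `ℚ[X]` with the prime elements `f1`, `f2`. A pair `i ≠ j` has type P if `f2 ∣ B i j`, otherwise
it has type Q and `f1 ∣ B i j`. The quotients `B i j / f2`, resp. `B i j / f1`, are not `0` and of small degree,
so they are not divisible by `f1` and `f2`, resp. by `f2`. The rules `beta` and `gamma` follow from the
mutations at the vertices of a triangle of type PPQ, resp. at the vertex `i'`.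
-/

set_option autoImplicit false

namespace SWS

open Finset Polynomial
open scoped Classical

variable {V W : Type}

private theorem Ba_small {f p : ℚ[X]} (hp : p ≠ 0) (hd : p.natDegree < f.natDegree) : ¬ f ∣ p := by
  intro h
  have h1 := Polynomial.natDegree_le_of_dvd h hp
  omega

/-- pairs of type P -/
private theorem Ba_P {U : Set (V → V → ℚ[X])} {f1 f2 : ℚ[X]} (h : BSys U f1 f2)
    {B : V → V → ℚ[X]} (hB : B ∈ U) {i j : V} (hij : i ≠ j) (h1 : f2 ∣ B i j) :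
    ∃ p : ℚ[X], B i j = f2 * p ∧ p ≠ 0 ∧ p.natDegree < f1.natDegree ∧ ¬ f1 ∣ p ∧ ¬ f2 ∣ p := by
  obtain ⟨p, hp⟩ := h1
  have h2 := h.ne B hB i j hij
  have h3 := h.deg B hB i j hij
  have hp0 : p ≠ 0 := by
    rintro rfl
    exact h2 (by rw [hp, mul_zero])
  have hf0 : f2 ≠ 0 := h.i2.ne_zero
  rw [hp, Polynomial.natDegree_mul hf0 hp0] at h3
  have h4 : p.natDegree < f1.natDegree := by omega
  have h5 : p.natDegree < f2.natDegree := lt_of_lt_of_le h4 h.le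
  exact ⟨p, hp, hp0, h4, Ba_small hp0 h4, Ba_small hp0 h5⟩

/-- pairs of type Q -/
private theorem Ba_Q {U : Set (V → V → ℚ[X])} {f1 f2 : ℚ[X]} (h : BSys U f1 f2)
    {B : V → V → ℚ[X]} (hB : B ∈ U) {i j : V} (hij : i ≠ j) (h1 : ¬ f2 ∣ B i j) :
    ∃ q : ℚ[X], B i j = f1 * q ∧ q ≠ 0 ∧ ¬ f2 ∣ q := by
  obtain ⟨q, hq⟩ := (h.typ B hB i j hij).resolve_right h1
  have h2 := h.ne B hB i j hij
  have h3 := h.deg B hB i j hij
  have hq0 : q ≠ 0 := by
    rintro rfl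
    exact h2 (by rw [hq, mul_zero])
  have hf0 : f1 ≠ 0 := h.i1.ne_zero
  rw [hq, Polynomial.natDegree_mul hf0 hq0] at h3
  exact ⟨q, hq, hq0, Ba_small hq0 (by omega)⟩

private theorem Ba_two {f : ℚ[X]} (hf : Irreducible f) : ¬ f ∣ 2 := by
  intro h
  have h1 : IsUnit (2 : ℚ[X]) := by
    have h2 : (2 : ℚ[X]) = C 2 := rfl
    rw [h2]
    exact Polynomial.isUnit_C.2 (by norm_num)
  exact hf.not_isUnit (isUnit_of_dvd_unit h h1)

private theorem Ba_dvd {f a b : ℚ[X]} (hf : Irreducible f) (ha : ¬ f ∣ a) (hb : ¬ f ∣ b) : ¬ f ∣ 2 * a * b := by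
  intro h
  rcases hf.prime.dvd_or_dvd h with h1 | h1
  · rcases hf.prime.dvd_or_dvd h1 with h2 | h2
    · exact Ba_two hf h2
    · exact ha h2
  · exact hb h1

/-- cancellation of `f1 * f2` -/
private theorem Ba_cancel {f1 f2 x y a c : ℚ[X]} (h1 : f1 ≠ 0) (h2 : f2 ≠ 0)
    (h : f1 * f2 * (x + y) = 2 * (f2 * a) * (f1 * c)) : x = 2 * a * c - y := by
  have h3 : f1 * f2 * (x + y) = f1 * f2 * (2 * a * c) := by
    rw [h]
    ring
  have h4 := mul_left_cancel₀ (mul_ne_zero h1 h2) h3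
  rw [← h4]
  ring

/-- one mutation in a triangle of type PPQ -/
private theorem Ba_mut {U : Set (V → V → ℚ[X])} {f1 f2 : ℚ[X]} (h : BSys U f1 f2)
    {B : V → V → ℚ[X]} (hB : B ∈ U) {w v y : V} (hwv : w ≠ v) (hwy : w ≠ y) (hvy : v ≠ y) {a b c : ℚ[X]}
    (h1 : B w v = f2 * a) (h2 : B w y = f2 * b) (h3 : B v y = f1 * c) (h4 : ¬ f2 ∣ B v y)
    (ha : ¬ f2 ∣ a) (hc : ¬ f2 ∣ c) : f1 ∣ 2 * a * c - f2 * b := by
  obtain ⟨B', hB', _, _, h5⟩ := h.mt B hB v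
  have h6 : f2 ∣ B v w := by
    rw [h.symm B hB v w, h1]
    exact dvd_mul_right _ _
  have h7 := h5 w y hwv hvy.symm h6 h4
  rw [h.symm B hB v w, h1, h3] at h7
  have h8 := Ba_cancel h.i1.ne_zero h.i2.ne_zero h7
  rw [h2] at h8
  rcases h.typ B' hB' w y hwy with h9 | h9
  · rw [← h8]
    exact h9
  · exfalso
    rw [h8] at h9
    exact Ba_dvd h.i2 ha hc ((dvd_sub_left (dvd_mul_right _ _)).1 h9)

theorem BSys.beta {U : Set (V → V → ℚ[X])} {f1 f2 : ℚ[X]} (h : BSys U f1 f2)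
    {B : V → V → ℚ[X]} (hB : B ∈ U) {w v y : V} (hwv : w ≠ v) (hwy : w ≠ y) (hvy : v ≠ y)
    (h1 : f2 ∣ B w v) (h2 : f2 ∣ B w y) (h3 : ¬ f2 ∣ B v y) :
    B w v = B w y ∧ ¬ f1 * f1 ∣ B v y := by
  obtain ⟨a, ha, ha0, had, ha1, ha2⟩ := Ba_P h hB hwv h1
  obtain ⟨b, hb, hb0, hbd, hb1, hb2⟩ := Ba_P h hB hwy h2
  obtain ⟨c, hc, hc0, hc2⟩ := Ba_Q h hB hvy h3
  have hc' : B y v = f1 * c := by rw [h.symm B hB y v, hc]
  have h3' : ¬ f2 ∣ B y v := by rw [h.symm B hB y v]; exact h3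
  have e1 := Ba_mut h hB hwv hwy hvy ha hb hc h3 ha2 hc2
  have e2 := Ba_mut h hB hwy hwv hvy.symm hb ha hc' h3' hb2 hc2
  have hc1 : ¬ f1 ∣ c := by
    intro h4
    have h5 : f1 ∣ 2 * a * c := Dvd.dvd.mul_left h4 _
    have h6 : f1 ∣ f2 * b := (dvd_sub_right h5).1 e1
    rcases h.i1.prime.dvd_or_dvd h6 with h7 | h7
    · exact h.nd1 h7
    · exact hb1 h7
  constructor
  · have e3 : f1 ∣ 2 * c * ((a - b) * (a + b)) := by
      have e4 := dvd_sub (Dvd.dvd.mul_left e1 a) (Dvd.dvd.mul_left e2 b)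
      have e5 : a * (2 * a * c - f2 * b) - b * (2 * b * c - f2 * a) = 2 * c * ((a - b) * (a + b)) := by ring
      rw [e5] at e4
      exact e4
    have e6 : f1 ∣ (a - b) * (a + b) := by
      rcases h.i1.prime.dvd_or_dvd e3 with h4 | h4
      · rcases h.i1.prime.dvd_or_dvd h4 with h5 | h5
        · exact absurd h5 (Ba_two h.i1)
        · exact absurd h5 hc1
      · exact h4
    rcases h.i1.prime.dvd_or_dvd e6 with h4 | h4
    · have h5 : a - b = 0 := by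
        by_contra h6
        exact Ba_small h6 (lt_of_le_of_lt (Polynomial.natDegree_sub_le a b) (max_lt had hbd)) h4
      rw [ha, hb, sub_eq_zero.1 h5]
    · exfalso
      have h5 : a + b = 0 := by
        by_contra h6
        exact Ba_small h6 (lt_of_le_of_lt (Polynomial.natDegree_add_le a b) (max_lt had hbd)) h4
      apply h.sgn B hB w v w y hwv hwy
      rw [ha, hb, eq_neg_of_add_eq_zero_left h5, mul_neg]
  · intro h4
    rw [hc] at h4
    exact hc1 ((mul_dvd_mul_iff_left h.i1.ne_zero).1 h4)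

theorem BSys.gamma {U : Set (V → V → ℚ[X])} {f1 f2 : ℚ[X]} (h : BSys U f1 f2)
    {B : V → V → ℚ[X]} (hB : B ∈ U) {v i i' y : V} (hi : i ≠ v) (hi' : i' ≠ v) (hy : y ≠ v)
    (h1 : f2 ∣ B v i) (h2 : f2 ∣ B v i') (hne : B v i ≠ B v i') (h3 : ¬ f2 ∣ B v y)
    (h4 : f2 ∣ B i y) : f2 ∣ B i' y := by
  by_contra h5
  have hii : i ≠ i' := by
    rintro rfl
    exact hne rfl
  have hiy : i ≠ y := by
    rintro rfl
    exact h3 h1
  have hiy' : i' ≠ y := by
    rintro rfl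
    exact h3 h2
  have h6 : f2 ∣ B i i' := by
    by_contra h7
    exact hne (h.beta hB hi.symm hi'.symm hii h1 h2 h7).1
  have h7 : ¬ f1 * f1 ∣ B i' y := (h.beta hB hii hiy hiy' h6 h4 h5).2
  have h6' : f2 ∣ B i' i := by rw [h.symm B hB i' i]; exact h6
  have h2' : f2 ∣ B i' v := by rw [h.symm B hB i' v]; exact h2
  obtain ⟨B', hB', m1, m2, m3⟩ := h.mt B hB i'
  obtain ⟨a, ha, -, -, ha1, ha2⟩ := Ba_P h hB hi' h2'
  obtain ⟨e, he, -, -, he1, he2⟩ := Ba_P h hB hii.symm h6'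
  obtain ⟨c, hc, -, hc2⟩ := Ba_Q h hB hiy' h5
  obtain ⟨q, hq, -, -⟩ := Ba_Q h hB hy.symm h3
  obtain ⟨g, hg⟩ := h4
  have hc1 : ¬ f1 ∣ c := by
    intro h8
    apply h7
    rw [hc]
    exact mul_dvd_mul_left _ h8
  have e1 := m3 v y hi'.symm hiy'.symm h2' h5
  rw [ha, hc, hq] at e1
  have e2 := Ba_cancel h.i1.ne_zero h.i2.ne_zero e1
  have e3 := m3 i y hii hiy'.symm h6' h5
  rw [he, hc, hg] at e3
  have e4 := Ba_cancel h.i1.ne_zero h.i2.ne_zero e3
  have e5 : f2 ∣ B' v y := by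
    refine (h.typ B' hB' v y hy.symm).resolve_left ?_
    intro h8
    rw [e2] at h8
    exact Ba_dvd h.i1 ha1 hc1 ((dvd_sub_left (dvd_mul_right _ _)).1 h8)
  have e6 : ¬ f2 ∣ B' i y := by
    intro h8
    rw [e4] at h8
    exact Ba_dvd h.i2 he2 hc2 ((dvd_sub_left (dvd_mul_right _ _)).1 h8)
  have e7 : B' v i = B v i := m2 v i hi'.symm hii ⟨fun _ => h6', fun _ => h2'⟩
  have e8 : B' v i' = B v i' := by
    rw [h.symm B' hB' v i', m1 v, h.symm B hB i' v]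
  have e9 : f2 ∣ B' v i' := by rw [e8]; exact h2
  have e10 : f2 ∣ B' v i := by rw [e7]; exact h1
  have e11 : ¬ f2 ∣ B' y i' := by rw [h.symm B' hB' y i', m1 y]; exact h5
  have e12 : ¬ f2 ∣ B' y i := by rw [h.symm B' hB' y i]; exact e6
  have r1 := (h.beta hB' hy.symm hi'.symm hiy'.symm e5 e9 e11).1
  have r2 := (h.beta hB' hy.symm hi.symm hiy.symm e5 e10 e12).1
  apply hne
  rw [← e7, ← e8, ← r1, ← r2]

end SWS
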