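import Pool.Agent.SWS.Ba

/-!
# SWS: all P-values at a vertex are equal

Notation of module Ba: the pair `i j` is P if `f2 ∣ B i j`, otherwise Q. `delta`: if a vertex `v` has two
P-partners with different values, then there is no P-pair between the P-partners and the Q-partners of `v`
(otherwise by `gamma` and `beta` a Q-partner `y` has the same P-partners as `v` with the same values, against
`rows`). `const`: a vertex with two different P-values lies in a triangle `p q r` of type PPP with two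
vertices at which the values are different; by `delta` and the mutations at `p`, `q` every power of `f1`
divides the values of a Q-partner, against the degree.
-/

set_option autoImplicit false

namespace SWS

open Finset Polynomial
open scoped Classical

variable {V W : Type}

private theorem Bc_claim {U : Set (V → V → ℚ[X])} {f1 f2 : ℚ[X]} (h : BSys U f1 f2)
    {B : V → V → ℚ[X]} (hB : B ∈ U) {v i i' : V} (hi : i ≠ v) (hi' : i' ≠ v)
    (h1 : f2 ∣ B v i) (h2 : f2 ∣ B v i') (hne : B v i ≠ B v i') {j y : V} (hj : j ≠ v)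
    (hy : y ≠ v) (h3 : f2 ∣ B v j) (h4 : ¬ f2 ∣ B v y) (h5 : f2 ∣ B j y) {k : V} (hk : k ≠ v)
    (h6 : f2 ∣ B v k) : f2 ∣ B k y := by
  by_cases h7 : B v k = B v j
  · have h8 : ∃ j', j' ≠ v ∧ f2 ∣ B v j' ∧ B v j' ≠ B v j := by
      by_cases h9 : B v i = B v j
      · exact ⟨i', hi', h2, fun h10 => hne (h9.trans h10.symm)⟩
      · exact ⟨i, hi, h1, h9⟩
    obtain ⟨j', hj', h9, h10⟩ := h8
    have h11 : f2 ∣ B j' y := h.gamma hB hj hj' hy h3 h9 (Ne.symm h10) h4 h5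
    exact h.gamma hB hj' hk hy h9 h6 (by rw [h7]; exact h10) h4 h11
  · exact h.gamma hB hj hk hy h3 h6 (Ne.symm h7) h4 h5

theorem BSys.delta {U : Set (V → V → ℚ[X])} {f1 f2 : ℚ[X]} (h : BSys U f1 f2)
    {B : V → V → ℚ[X]} (hB : B ∈ U) {v i i' : V} (hi : i ≠ v) (hi' : i' ≠ v)
    (h1 : f2 ∣ B v i) (h2 : f2 ∣ B v i') (hne : B v i ≠ B v i') {j y : V} (hj : j ≠ v)
    (hy : y ≠ v) (h3 : f2 ∣ B v j) (h4 : ¬ f2 ∣ B v y) : ¬ f2 ∣ B j y := by
  intro h5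
  have hP : ∀ k, k ≠ v → f2 ∣ B v k → k ≠ y ∧ f2 ∣ B k y ∧ B v k = B y k := by
    intro k hk h6
    have h7 : f2 ∣ B k y := Bc_claim h hB hi hi' h1 h2 hne hj hy h3 h4 h5 hk h6
    have hky : k ≠ y := by
      rintro rfl
      exact h4 h6
    have h6' : f2 ∣ B k v := by rw [h.symm B hB k v]; exact h6
    refine ⟨hky, h7, ?_⟩
    rw [h.symm B hB v k, h.symm B hB y k]
    exact (h.beta hB hk hky hy.symm h6' h7 h4).1
  obtain ⟨a1, a2, a3⟩ := hP i hi h1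
  obtain ⟨b1, b2, b3⟩ := hP i' hi' h2
  have c1 : f2 ∣ B y i := by rw [← a3]; exact h1
  have c2 : f2 ∣ B y i' := by rw [← b3]; exact h2
  have c3 : B y i ≠ B y i' := by rw [← a3, ← b3]; exact hne
  have c4 : ¬ f2 ∣ B y v := by rw [h.symm B hB y v]; exact h4
  have c5 : f2 ∣ B i v := by rw [h.symm B hB i v]; exact h1
  have hf : f1 ∣ B v y := (h.typ B hB v y hy.symm).resolve_right h4
  obtain ⟨k, k1, k2, k3⟩ := h.rows B hB v y hy.symm hf
  apply k3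
  by_cases k4 : f2 ∣ B v k
  · rw [(hP k k1 k4).2.2, sub_self]
    exact dvd_zero _
  · have k5 : ¬ f2 ∣ B y k := by
      intro k6
      have k7 := Bc_claim h hB a1 b1 c1 c2 c3 a1 hy.symm c1 c4 c5 k2 k6
      rw [h.symm B hB k v] at k7
      exact k4 k7
    exact dvd_sub ((h.typ B hB v k k1.symm).resolve_right k4) ((h.typ B hB y k k2.symm).resolve_right k5)

private theorem Bc_two {f : ℚ[X]} (hf : Irreducible f) : ¬ f ∣ 2 := by
  intro h
  have h1 : IsUnit (2 : ℚ[X]) := by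
    have h2 : (2 : ℚ[X]) = C 2 := rfl
    rw [h2]
    exact Polynomial.isUnit_C.2 (by norm_num)
  exact hf.not_isUnit (isUnit_of_dvd_unit h h1)

/-- a P-pair is not divisible by `f1` -/
private theorem Bc_nd {U : Set (V → V → ℚ[X])} {f1 f2 : ℚ[X]} (h : BSys U f1 f2)
    {B : V → V → ℚ[X]} (hB : B ∈ U) {i j : V} (hij : i ≠ j) (h1 : f2 ∣ B i j) : ¬ f1 ∣ B i j := by
  intro h2
  obtain ⟨p, hp⟩ := h1
  rw [hp] at h2
  have h3 : f1 ∣ p := (h.i1.prime.dvd_or_dvd h2).resolve_left h.nd1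
  have h4 : f1 * f2 ∣ B i j := by
    rw [hp, mul_comm f1 f2]
    exact mul_dvd_mul_left _ h3
  have h5 := Polynomial.natDegree_le_of_dvd h4 (h.ne B hB i j hij)
  rw [Polynomial.natDegree_mul h.i1.ne_zero h.i2.ne_zero] at h5
  have h6 := h.deg B hB i j hij
  omega

/-- one more power of `f1` by the mutation at `p` -/
private theorem Bc_one {U : Set (V → V → ℚ[X])} {f1 f2 : ℚ[X]} (h : BSys U f1 f2) (k : ℕ)
    (ih : ∀ B ∈ U, ∀ p q r y : V, p ≠ q → p ≠ r → q ≠ r → y ≠ p → y ≠ q → f2 ∣ B p q → f2 ∣ B p r →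
      f2 ∣ B q r → B p q ≠ B p r → B q p ≠ B q r → ¬ f2 ∣ B p y → ¬ f2 ∣ B q y →
      f1 ^ k ∣ B p y ∧ f1 ^ k ∣ B q y)
    {B : V → V → ℚ[X]} (hB : B ∈ U) {p q r y : V} (hpq : p ≠ q) (hpr : p ≠ r) (hqr : q ≠ r)
    (hyp : y ≠ p) (hyq : y ≠ q) (h1 : f2 ∣ B p q) (h2 : f2 ∣ B p r) (h3 : f2 ∣ B q r)
    (h4 : B p q ≠ B p r) (h5 : B q p ≠ B q r) (h6 : ¬ f2 ∣ B p y) (h7 : ¬ f2 ∣ B q y) :
    f1 ^ (k + 1) ∣ B p y := by
  obtain ⟨B', hB', m1, m2, m3⟩ := h.mt B hB p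
  have e1 : B' q r = B q r := m2 q r hpq.symm hpr.symm ⟨fun _ => h2, fun _ => h1⟩
  have e2 : B' q p = B q p := by rw [h.symm B' hB' q p, m1 q, h.symm B hB q p]
  have g1 : f2 ∣ B' p q := by rw [m1 q]; exact h1
  have g2 : f2 ∣ B' p r := by rw [m1 r]; exact h2
  have g3 : f2 ∣ B' q r := by rw [e1]; exact h3
  have g4 : B' p q ≠ B' p r := by rw [m1 q, m1 r]; exact h4
  have g5 : B' q p ≠ B' q r := by rw [e1, e2]; exact h5
  have g6 : ¬ f2 ∣ B' p y := by rw [m1 y]; exact h6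
  have g7 : ¬ f2 ∣ B' q y := h.delta hB' hpq.symm hpr.symm g1 g2 g4 hpq.symm hyp g1 g6
  have r1 := (ih B hB p q r y hpq hpr hqr hyp hyq h1 h2 h3 h4 h5 h6 h7).2
  have r2 := (ih B' hB' p q r y hpq hpr hqr hyp hyq g1 g2 g3 g4 g5 g6 g7).2
  have r3 := m3 q y hpq.symm hyp h1 h6
  have r4 : f1 ^ (k + 1) ∣ 2 * B p q * B p y := by
    rw [← r3, pow_succ, mul_comm (f1 ^ k) f1, mul_assoc f1 f2]
    exact mul_dvd_mul_left _ (Dvd.dvd.mul_left (dvd_add r2 r1) _)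
  refine h.i1.prime.pow_dvd_of_dvd_mul_left _ ?_ r4
  intro r5
  rcases h.i1.prime.dvd_or_dvd r5 with r6 | r6
  · exact Bc_two h.i1 r6
  · exact Bc_nd h hB hpq h1 r6

private theorem Bc_pow {U : Set (V → V → ℚ[X])} {f1 f2 : ℚ[X]} (h : BSys U f1 f2) (k : ℕ) :
    ∀ B ∈ U, ∀ p q r y : V, p ≠ q → p ≠ r → q ≠ r → y ≠ p → y ≠ q → f2 ∣ B p q → f2 ∣ B p r →
      f2 ∣ B q r → B p q ≠ B p r → B q p ≠ B q r → ¬ f2 ∣ B p y → ¬ f2 ∣ B q y →
      f1 ^ k ∣ B p y ∧ f1 ^ k ∣ B q y := by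
  induction k with
  | zero =>
    intro B _ p q r y _ _ _ _ _ _ _ _ _ _ _ _
    exact ⟨by rw [pow_zero]; exact one_dvd _, by rw [pow_zero]; exact one_dvd _⟩
  | succ k ih =>
    intro B hB p q r y hpq hpr hqr hyp hyq h1 h2 h3 h4 h5 h6 h7
    have h1' : f2 ∣ B q p := by rw [h.symm B hB q p]; exact h1
    exact ⟨Bc_one h k ih hB hpq hpr hqr hyp hyq h1 h2 h3 h4 h5 h6 h7,
      Bc_one h k ih hB hpq.symm hqr hpr hyq hyp h1' h3 h2 h5 h4 h7 h6⟩

private theorem Bc_fin {U : Set (V → V → ℚ[X])} {f1 f2 : ℚ[X]} (h : BSys U f1 f2)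
    {B : V → V → ℚ[X]} (hB : B ∈ U) {p q r : V} (hpq : p ≠ q) (hpr : p ≠ r) (hqr : q ≠ r)
    (h1 : f2 ∣ B p q) (h2 : f2 ∣ B p r) (h3 : f2 ∣ B q r)
    (h4 : B p q ≠ B p r) (h5 : B q p ≠ B q r) : False := by
  obtain ⟨y, hyp, h6⟩ := h.exQ B hB p
  have hyq : y ≠ q := by
    rintro rfl
    exact h6 h1
  have h7 : ¬ f2 ∣ B q y := h.delta hB hpq.symm hpr.symm h1 h2 h4 hpq.symm hyp h1 h6
  have h8 := (Bc_pow h (f1.natDegree + f2.natDegree) B hB p q r y hpq hpr hqr hyp hyq h1 h2 h3 h4 h5 h6 h7).1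
  have h9 := Polynomial.natDegree_le_of_dvd h8 (h.ne B hB p y hyp.symm)
  rw [Polynomial.natDegree_pow] at h9
  have h10 := h.deg B hB p y hyp.symm
  have h11 : 0 < f1.natDegree := h.i1.natDegree_pos
  have h12 : f1.natDegree + f2.natDegree ≤ (f1.natDegree + f2.natDegree) * f1.natDegree :=
    Nat.le_mul_of_pos_right _ h11
  omega

theorem BSys.const {U : Set (V → V → ℚ[X])} {f1 f2 : ℚ[X]} (h : BSys U f1 f2)
    {B : V → V → ℚ[X]} (hB : B ∈ U) {v i i' : V} (hi : i ≠ v) (hi' : i' ≠ v)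
    (h1 : f2 ∣ B v i) (h2 : f2 ∣ B v i') : B v i = B v i' := by
  by_contra hne
  have hii : i ≠ i' := by
    rintro rfl
    exact hne rfl
  have h3 : f2 ∣ B i i' := by
    by_contra h4
    exact hne (h.beta hB hi.symm hi'.symm hii h1 h2 h4).1
  by_cases h4 : B i i' = B v i
  · refine Bc_fin h hB (p := v) (q := i') (r := i) hi'.symm hi.symm hii.symm h2 h1 ?_ (Ne.symm hne) ?_
    · rw [h.symm B hB i' i]
      exact h3
    · rw [h.symm B hB i' v, h.symm B hB i' i, h4]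
      exact Ne.symm hne
  · refine Bc_fin h hB (p := v) (q := i) (r := i') hi.symm hi'.symm hii h1 h2 h3 hne ?_
    rw [h.symm B hB i v]
    exact fun h5 => h4 h5.symm

end SWS
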