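import Pool.Agent.SWS.Un
import Pool.Agent.RGC.Trn
import Pool.Agent.RGC.Eul

/-!
# SWS: the standing assumptions are preserved by isomorphisms

Module Ct. The standing assumptions `Ctx` are symmetric in the two graphs and are preserved by
isomorphisms; they hold for every graph isomorphic to one of the two together with the other one.
-/

set_option autoImplicit false

namespace SWS

open Finset Polynomial RGC
open scoped Classical

variable {V W : Type}

private theorem Ct_ev [Fintype V] {G K : SimpleGraph V} (h : E G = G) (e : G ≃g K) : E K = K := by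
  ext a b
  obtain ⟨a, rfl⟩ := e.surjective a
  obtain ⟨b, rfl⟩ := e.surjective b
  have h1 : s (E K) (e a) (e b) = s (E G) a b :=
    E_iso (G := G) (H := K) e.toEquiv (fun a b c => T_iso e a b c) a b
  rw [← s_eq_one, h1, h, s_eq_one]
  exact e.map_adj_iff.symm

private theorem Ct_sw {G K : SimpleGraph V} (e : G ≃g K) : SwEq G K :=
  swEq_iff.2 ⟨e.toEquiv, fun a b c => T_iso e a b c⟩

private theorem Ct_aj [Fintype V] {G K : SimpleGraph V} {Q : ℚ[X]} (h : ∀ v, Aj G v v = Q) (e : G ≃g K) (v : V) :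
    Aj K v v = Q := by
  obtain ⟨a, rfl⟩ := e.surjective v
  rw [aj_iso e, h]

theorem Ctx.symm [Fintype V] {G H : SimpleGraph V} {P Q : ℚ[X]} (h : Ctx G H P Q) :
    Ctx H G P Q :=
  ⟨h.card, h.odd, h.evH, h.evG, h.deck', h.deck, h.cH, h.cG, h.aH, h.aG, fun h' => h.ne h'.symm⟩

theorem Ctx.iso [Fintype V] {G H K L : SimpleGraph V} {P Q : ℚ[X]} (h : Ctx G H P Q)
    (e : G ≃g K) (f : H ≃g L) : Ctx K L P Q := by
  have hG := Ct_sw e
  have hH := Ct_sw f
  refine ⟨h.card, h.odd, Ct_ev h.evG e, Ct_ev h.evH f, deck_congr hG (deck_congr_right hH h.deck),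
    deck_congr hH (deck_congr_right hG h.deck'), ?_, ?_, Ct_aj h.aG e, Ct_aj h.aH f, fun h' => ?_⟩
  · rw [← chp_swEq hG, h.cG]
  · rw [← chp_swEq hH, h.cH]
  · exact h.ne ((hG.trans h').trans hH.symm)

theorem inU_ctx [Fintype V] {G H K : SimpleGraph V} {P Q : ℚ[X]} (h : Ctx G H P Q) {b : Bool}
    (hK : InU G H b K) : Ctx K (bif b then H else G) P Q := by
  cases b with
  | true =>
    obtain ⟨e⟩ := hK
    exact h.iso e (SimpleGraph.Iso.refl (G := H))
  | false =>
    obtain ⟨e⟩ := hK
    exact h.symm.iso e (SimpleGraph.Iso.refl (G := G))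

end SWS
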