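import Pool.Agent.SWS.Uc
import Pool.Agent.SWS.Ct

/-!
# SWS: the abstract system of two irreducible factors

`exists_B` turns the labelled cuts into polynomials `B i j` with `Q * B i j = f1 * f2 * Aj K i j`; `bsys`
checks the axioms of the abstract system: degrees, types, signs (coefficients `n - 2`, `n - 3` of the
adjugate and evenness), mutations, and the row condition (first row of `charmatrix * adjugate`).
-/

set_option autoImplicit false

namespace SWS

open Finset Polynomial RGC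
open scoped Classical

variable {V W : Type}

private theorem bs_Q [Fintype V] {G H : SimpleGraph V} {P Q : ℚ[X]} (h : Ctx G H P Q) :
    Q.Monic ∧ Q.natDegree = Fintype.card V - 1 := by
  have h1 : 0 < Fintype.card V := by have := h.card; omega
  obtain ⟨v⟩ := Fintype.card_pos_iff.1 h1
  have h2 := adj_diag_deg (SQ G) v
  have h3 : adj (SQ G) v v = Q := h.aG v
  rw [h3] at h2
  exact h2

private theorem bs_cancel {Q a b : ℚ[X]} (hQ : Q ≠ 0) (h : Q * a = Q * b) : a = b :=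
  mul_left_cancel₀ hQ h

theorem exists_B [Fintype V] {G H : SimpleGraph V} {P Q : ℚ[X]} (h : Ctx G H P Q)
    {f1 f2 : ℚ[X]}
    (hL : ∀ (b : Bool) (K : SimpleGraph V), InU G H b K → ∀ v : V,
        ∃ (L : SimpleGraph V) (d : V → ZMod 2), InU G H (!b) L ∧ Mut K L v d Q ∧
          Lab f1 f2 Q K v d) {b : Bool} {K : SimpleGraph V} (hK : InU G H b K) :
    ∃ B : V → V → ℚ[X], ∀ i j, Q * B i j = f1 * f2 * Aj K i j := by
  have key : ∀ i j, ∃ p : ℚ[X], Q * p = f1 * f2 * Aj K i j := by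
    intro i j
    by_cases hij : j = i
    · subst hij
      refine ⟨f1 * f2, ?_⟩
      rw [(inU_ctx h hK).aG j]
      ring
    · obtain ⟨L, d, -, -, hl⟩ := hL b K hK i
      have hl2 := hl j hij
      rcases RGC.z2c (d j) with h0 | h1
      · obtain ⟨p, hp⟩ := hl2.1 h0
        exact ⟨f2 * p, by linear_combination - f2 * hp⟩
      · obtain ⟨p, hp⟩ := hl2.2 h1
        exact ⟨f1 * p, by linear_combination - f1 * hp⟩
  choose B hB using key
  exact ⟨B, hB⟩

private theorem bs_self [Fintype V] {G H : SimpleGraph V} {P Q : ℚ[X]} (h : Ctx G H P Q)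
    {f1 f2 : ℚ[X]} {b : Bool} {K : SimpleGraph V} (hK : InU G H b K) {B : V → V → ℚ[X]}
    (hB : ∀ i j, Q * B i j = f1 * f2 * Aj K i j) (v : V) : B v v = f1 * f2 := by
  apply bs_cancel (bs_Q h).1.ne_zero
  rw [hB, (inU_ctx h hK).aG v]
  ring

private theorem bs_symm [Fintype V] {G H : SimpleGraph V} {P Q : ℚ[X]} (h : Ctx G H P Q)
    {f1 f2 : ℚ[X]} {K : SimpleGraph V} {B : V → V → ℚ[X]}
    (hB : ∀ i j, Q * B i j = f1 * f2 * Aj K i j) (i j : V) : B i j = B j i := by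
  apply bs_cancel (bs_Q h).1.ne_zero
  rw [hB, hB, aj_symm]

private theorem bs_aj_ne [Fintype V] (K : SimpleGraph V) {i j : V} (hij : i ≠ j) :
    Aj K i j ≠ 0 := by
  intro h0
  have h1 := aj_two K hij
  rw [h0, coeff_zero] at h1
  have h2 := sq_mul K hij
  rw [← h1] at h2
  norm_num at h2

private theorem bs_ne [Fintype V] {Q : ℚ[X]}
    {f1 f2 : ℚ[X]} (m1 : f1 ≠ 0) (m2 : f2 ≠ 0) {K : SimpleGraph V} {B : V → V → ℚ[X]}
    (hB : ∀ i j, Q * B i j = f1 * f2 * Aj K i j) {i j : V} (hij : i ≠ j) : B i j ≠ 0 := by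
  intro h0
  have h1 := hB i j
  rw [h0, mul_zero] at h1
  exact mul_ne_zero (mul_ne_zero m1 m2) (bs_aj_ne K hij) h1.symm

private theorem bs_deg [Fintype V] {G H : SimpleGraph V} {P Q : ℚ[X]} (h : Ctx G H P Q)
    {f1 f2 : ℚ[X]} (m1 : f1 ≠ 0) (m2 : f2 ≠ 0) {K : SimpleGraph V} {B : V → V → ℚ[X]}
    (hB : ∀ i j, Q * B i j = f1 * f2 * Aj K i j) {i j : V} (hij : i ≠ j) :
    (B i j).natDegree < f1.natDegree + f2.natDegree := by
  have h1 := congrArg natDegree (hB i j)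
  rw [natDegree_mul (bs_Q h).1.ne_zero (bs_ne m1 m2 hB hij),
    natDegree_mul (mul_ne_zero m1 m2) (bs_aj_ne K hij), natDegree_mul m1 m2, (bs_Q h).2,
    aj_deg K hij] at h1
  have h2 := h.card
  omega

private theorem bs_two [Fintype V] {G H : SimpleGraph V} {P Q : ℚ[X]} (h : Ctx G H P Q)
    {f1 f2 : ℚ[X]} {K : SimpleGraph V} {B : V → V → ℚ[X]}
    (hB : ∀ i j, Q * B i j = f1 * f2 * Aj K i j) {v : V} {d : V → ZMod 2}
    (hl : Lab f1 f2 Q K v d) {a : V} (ha : a ≠ v) :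
    (d a = 0 → f2 ∣ B v a) ∧ (d a = 1 → f1 ∣ B v a) := by
  have hQ0 := (bs_Q h).1.ne_zero
  refine ⟨fun h0 => ?_, fun h1 => ?_⟩
  · obtain ⟨p, hp⟩ := (hl a ha).1 h0
    refine ⟨p, bs_cancel hQ0 ?_⟩
    rw [hB]
    linear_combination f2 * hp
  · obtain ⟨p, hp⟩ := (hl a ha).2 h1
    refine ⟨p, bs_cancel hQ0 ?_⟩
    rw [hB]
    linear_combination f1 * hp

private theorem bs_not [Fintype V] {G H : SimpleGraph V} {P Q : ℚ[X]} (h : Ctx G H P Q)
    {f1 f2 : ℚ[X]} (m1 : f1 ≠ 0) (m2 : f2 ≠ 0) (hc : IsCoprime f1 f2)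
    {K : SimpleGraph V} {B : V → V → ℚ[X]}
    (hB : ∀ i j, Q * B i j = f1 * f2 * Aj K i j) {i j : V} (hij : i ≠ j) :
    ¬ (f1 ∣ B i j ∧ f2 ∣ B i j) := by
  rintro ⟨ha, hb⟩
  have h1 := natDegree_le_of_dvd (hc.mul_dvd ha hb) (bs_ne m1 m2 hB hij)
  rw [natDegree_mul m1 m2] at h1
  have h2 := bs_deg h m1 m2 hB hij
  omega

private theorem bs_iff [Fintype V] {G H : SimpleGraph V} {P Q : ℚ[X]} (h : Ctx G H P Q)
    {f1 f2 : ℚ[X]} (m1 : f1 ≠ 0) (m2 : f2 ≠ 0) (hc : IsCoprime f1 f2)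
    {K : SimpleGraph V} {B : V → V → ℚ[X]}
    (hB : ∀ i j, Q * B i j = f1 * f2 * Aj K i j) {v : V} {d : V → ZMod 2}
    (hl : Lab f1 f2 Q K v d) {a : V} (ha : a ≠ v) :
    f2 ∣ B v a ↔ d a = 0 := by
  have h2 := bs_two h hB hl ha
  refine ⟨fun h3 => ?_, h2.1⟩
  rcases RGC.z2c (d a) with h0 | h1
  · exact h0
  · exact absurd ⟨h2.2 h1, h3⟩ (bs_not h m1 m2 hc hB ha.symm)

private theorem bs_sgn [Fintype V] {G H : SimpleGraph V} {P Q : ℚ[X]} (h : Ctx G H P Q)
    {f1 f2 : ℚ[X]} (m1 : f1 ≠ 0) (m2 : f2 ≠ 0) {b : Bool}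
    {K : SimpleGraph V} (hK : InU G H b K) {B : V → V → ℚ[X]}
    (hB : ∀ i j, Q * B i j = f1 * f2 * Aj K i j) {i j k l : V} (hij : i ≠ j) (hkl : k ≠ l) :
    B i j ≠ - B k l := by
  intro h0
  have h1 : Aj K i j = - Aj K k l := by
    apply mul_left_cancel₀ (mul_ne_zero m1 m2)
    rw [← hB, h0]
    linear_combination - hB k l
  have hn := h.card
  have h2 := congrArg (fun p => p.coeff (Fintype.card V - 2)) h1
  have h3 := congrArg (fun p => p.coeff (Fintype.card V - 3)) h1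
  simp only [coeff_neg] at h2 h3
  rw [aj_two K hij, aj_two K hkl] at h2
  rw [aj_three K hij (by omega), aj_three K hkl (by omega)] at h3
  have h4 := sq_cd K hij
  have h5 := sq_cd K hkl
  have h6 : (cd K i j : ℚ) = cd K k l := by
    rw [h2, h3] at h4
    linarith
  have h7 : cd K i j = cd K k l := by exact_mod_cast h6
  have hE : E K = K := (inU_ctx h hK).evG
  have h8 : s K i j = 1 ↔ s K k l = 1 := by
    have e1 := RGC.s_E_one K hij
    have e2 := RGC.s_E_one K hkl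
    rw [hE] at e1 e2
    rw [e1, e2, h7]
  have h9 : SQ K i j = SQ K k l := by
    rw [sq_s K hij, sq_s K hkl]
    by_cases hs : s K k l = 1
    · rw [if_pos hs, if_pos (h8.2 hs)]
    · rw [if_neg hs, if_neg (fun h' => hs (h8.1 h'))]
  have h10 := sq_mul K hkl
  rw [h9] at h2
  have h11 : SQ K k l = 0 := by linarith
  rw [h11] at h10
  norm_num at h10

private theorem bs_rows [Fintype V] {G H : SimpleGraph V} {P Q : ℚ[X]} (h : Ctx G H P Q)
    {f1 f2 : ℚ[X]} (m2 : f2 ≠ 0) (i1 : Irreducible f1)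
    (hP1 : IsCoprime f1 P) (hQ : f1 * f2 ∣ Q) {b : Bool}
    {K : SimpleGraph V} (hK : InU G H b K) {B : V → V → ℚ[X]}
    (hB : ∀ i j, Q * B i j = f1 * f2 * Aj K i j) {v y : V} (hvy : v ≠ y)
    (hd : f1 ∣ B v y) : ∃ j, j ≠ v ∧ j ≠ y ∧ ¬ f1 ∣ B v j - B y j := by
  by_contra hcon
  push Not at hcon
  have hP : (SQ K).charpoly = P := (inU_ctx h hK).cG
  have r1 := adj_row (SQ K) v v
  have r2 := adj_row (SQ K) v y
  rw [if_pos rfl, hP] at r1
  rw [if_neg hvy] at r2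
  have e1 : Q * (X * (B v v - B v y) - ∑ c, C (SQ K v c) * (B c v - B c y)) = f1 * f2 * P := by
    have s1 : Q * ∑ c, C (SQ K v c) * (B c v - B c y) =
        f1 * f2 * (∑ c, C (SQ K v c) * adj (SQ K) c v - ∑ c, C (SQ K v c) * adj (SQ K) c y) := by
      rw [← sum_sub_distrib, mul_sum, mul_sum]
      refine sum_congr rfl fun c _ => ?_
      have a1 : Q * B c v = f1 * f2 * adj (SQ K) c v := hB c v
      have a2 : Q * B c y = f1 * f2 * adj (SQ K) c y := hB c y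
      linear_combination (C (SQ K v c)) * a1 - (C (SQ K v c)) * a2
    have a1 : Q * B v v = f1 * f2 * adj (SQ K) v v := hB v v
    have a2 : Q * B v y = f1 * f2 * adj (SQ K) v y := hB v y
    rw [mul_sub, s1]
    linear_combination X * a1 - X * a2 + f1 * f2 * r1 - f1 * f2 * r2
  have hself := bs_self h hK hB
  have hsy := bs_symm h hB
  have e2 : f1 ∣ X * (B v v - B v y) - ∑ c, C (SQ K v c) * (B c v - B c y) := by
    apply dvd_sub
    · apply Dvd.dvd.mul_left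
      apply dvd_sub _ hd
      rw [hself]
      exact dvd_mul_right _ _
    · apply dvd_sum
      intro c _
      by_cases hc1 : c = v
      · rw [hc1, sq_diag, C_0, zero_mul]
        exact dvd_zero _
      · apply Dvd.dvd.mul_left
        by_cases hc2 : c = y
        · rw [hc2]
          apply dvd_sub
          · rw [hsy y v]
            exact hd
          · rw [hself]
            exact dvd_mul_right _ _
        · have h3 := hcon c hc1 hc2
          rw [hsy c v, hsy c y]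
          exact h3
  obtain ⟨k, hk⟩ := e2
  obtain ⟨q, hq⟩ := hQ
  rw [hk] at e1
  have h12 : f1 * f2 ≠ 0 := mul_ne_zero i1.ne_zero m2
  have e3 : q * (f1 * k) = P := by
    apply mul_left_cancel₀ h12
    rw [← e1, hq]
    ring
  have e4 : f1 ∣ P := ⟨q * k, by rw [← e3]; ring⟩
  exact i1.not_isUnit (hP1.isUnit_of_dvd' dvd_rfl e4)

theorem bsys [Fintype V] {G H : SimpleGraph V} {P Q : ℚ[X]} (h : Ctx G H P Q)
    {f1 f2 : ℚ[X]} (m1 : f1.Monic) (m2 : f2.Monic) (i1 : Irreducible f1) (i2 : Irreducible f2)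
    (hc : IsCoprime f1 f2) (hle : f1.natDegree ≤ f2.natDegree) (hP1 : IsCoprime f1 P)
    (hQ : f1 * f2 ∣ Q)
    (hL : ∀ (b : Bool) (K : SimpleGraph V), InU G H b K → ∀ v : V,
        ∃ (L : SimpleGraph V) (d : V → ZMod 2), InU G H (!b) L ∧ Mut K L v d Q ∧
          Lab f1 f2 Q K v d) :
    BSys {B | ∃ b K, InU G H b K ∧ ∀ i j, Q * B i j = f1 * f2 * Aj K i j} f1 f2 := by
  have hQ0 : Q ≠ 0 := (bs_Q h).1.ne_zero
  have n1 : f1 ≠ 0 := m1.ne_zero
  have n2 : f2 ≠ 0 := m2.ne_zero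
  refine ⟨i1, i2, ?_, ?_, hle, ?_, ?_, ?_, ?_, ?_, ?_, ?_, ?_⟩
  · intro hd
    exact i1.not_isUnit (hc.isUnit_of_dvd' dvd_rfl hd)
  · intro hd
    exact i2.not_isUnit (hc.isUnit_of_dvd' hd dvd_rfl)
  · rintro B ⟨b, K, hK, hB⟩ i j
    exact bs_symm h hB i j
  · rintro B ⟨b, K, hK, hB⟩ i j hij
    exact bs_ne n1 n2 hB hij
  · rintro B ⟨b, K, hK, hB⟩ i j hij
    exact bs_deg h n1 n2 hB hij
  · rintro B ⟨b, K, hK, hB⟩ i j hij
    obtain ⟨L, d, -, -, hl⟩ := hL b K hK i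
    have h2 := bs_two h hB hl hij.symm
    rcases RGC.z2c (d j) with h0 | h1
    · exact Or.inr (h2.1 h0)
    · exact Or.inl (h2.2 h1)
  · rintro B ⟨b, K, hK, hB⟩ i j k l hij hkl
    exact bs_sgn h n1 n2 hK hB hij hkl
  · rintro B ⟨b, K, hK, hB⟩ v
    obtain ⟨L, d, hLU, hm, hl⟩ := hL b K hK v
    obtain ⟨B', hB'⟩ := exists_B h hL hLU
    refine ⟨B', ⟨!b, L, hLU, hB'⟩, ?_, ?_, ?_⟩
    · intro j
      apply bs_cancel hQ0
      rw [hB', hB, hm.arow]
    · intro i j hi hj hiff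
      rw [bs_iff h n1 n2 hc hB hl hi, bs_iff h n1 n2 hc hB hl hj] at hiff
      have hdd : d i = d j := by
        rcases RGC.z2c (d i) with h0 | h1
        · rw [h0, hiff.1 h0]
        · rcases RGC.z2c (d j) with h2 | h2
          · rw [hiff.2 h2, h2]
          · rw [h1, h2]
      apply bs_cancel hQ0
      rw [hB', hB, hm.same i j hi hj hdd]
    · intro i j hi hj h2i h2j
      rw [bs_iff h n1 n2 hc hB hl hi] at h2i
      rw [bs_iff h n1 n2 hc hB hl hj] at h2j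
      have hdd : d i ≠ d j := fun h' => h2j (by rw [← h', h2i])
      have hdf := hm.diff i j hi hj hdd
      apply mul_left_cancel₀ (mul_ne_zero hQ0 hQ0)
      linear_combination (f1 * f2 * Q) * hB' i j + (f1 * f2 * Q) * hB i j +
        (f1 * f2) ^ 2 * hdf - 2 * (Q * B v j) * hB v i - 2 * (f1 * f2 * Aj K v i) * hB v j
  · rintro B ⟨b, K, hK, hB⟩ v
    obtain ⟨L, d, hLU, hm, hl⟩ := hL b K hK v
    obtain ⟨a, ha, hda⟩ := hm.ex1
    refine ⟨a, ha, fun h' => ?_⟩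
    rw [bs_iff h n1 n2 hc hB hl ha, hda] at h'
    exact one_ne_zero h'
  · rintro B ⟨b, K, hK, hB⟩ v y hvy hd
    exact bs_rows h n2 i1 hP1 hQ hK hB hvy hd

end SWS
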