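import Pool.Agent.SWS.Wk
import Pool.Agent.SWS.Ct

/-!
# SWS: the closing argument

The two universes of adjugates form a system `NSys`: at every vertex the mutation of `NuP` is a step of the system.
The odd walk of `NSys.swap` then gives a graph isomorphic to `H` whose adjugate is that of `G` with the rows of two
vertices exchanged, up to the signs of the leading coefficients, so the transposition is an isomorphism from `G` to a
graph isomorphic to `H`, which is impossible.
-/

set_option autoImplicit false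

namespace SWS

open Finset Polynomial RGC
open scoped Classical

variable {V W : Type}

private theorem Cl_excl {ν s0 : ℚ} {Q p : ℚ[X]} (hs : s0 * s0 = 1) (hQ1 : ¬ (X - C ν) ^ 2 ∣ Q)
    (h1 : (X - C ν) * p = C s0 * Q) (h2 : p.eval ν = 0) : False := by
  obtain ⟨q, hq⟩ := dvd_iff_isRoot.mpr h2
  apply hQ1
  have h0 : s0 ≠ 0 := by
    rintro rfl
    norm_num at hs
  have h3 : (X - C ν) ^ 2 ∣ C s0 * Q := ⟨q, by rw [← h1, hq]; ring⟩
  exact ((isUnit_C.mpr (isUnit_iff_ne_zero.mpr h0)).dvd_mul_left).mp h3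

private theorem Cl_eval {ν s0 : ℚ} {Q p : ℚ[X]} (hQ1 : (X - C ν) ^ 2 ∣ Q)
    (h1 : (X - C ν) * p = C s0 * Q) : p.eval ν = 0 := by
  obtain ⟨q, hq⟩ := hQ1
  have h2 : (X - C ν) * p = (X - C ν) * (C s0 * (X - C ν) * q) := by
    rw [h1, hq]
    ring
  have h3 := mul_left_cancel₀ (X_sub_C_ne_zero ν) h2
  rw [h3, eval_mul, eval_mul, eval_sub, eval_X, eval_C, eval_C, sub_self, mul_zero, zero_mul]

private theorem Cl_cases (x : ZMod 2) : x = 0 ∨ x = 1 := by
  revert x
  decide

private theorem Cl_adj {G L : SimpleGraph V} {a b c d : V} (hab : a ≠ b) (hcd : c ≠ d)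
    (h : SQ L c d = SQ G a b) : L.Adj c d ↔ G.Adj a b := by
  unfold SQ at h
  rw [if_neg hab, if_neg hcd] at h
  constructor
  · intro h1
    by_contra h2
    rw [if_pos h1, if_neg h2] at h
    norm_num at h
  · intro h1
    by_contra h2
    rw [if_pos h1, if_neg h2] at h
    norm_num at h

private theorem Cl_nsys [Fintype V] {G H : SimpleGraph V} {P Q : ℚ[X]} (h : Ctx G H P Q) {ν s0 : ℚ}
    (hN : NuP G H P Q ν s0) :
    NSys (fun b => {A : V → V → ℚ[X] | ∃ K, InU G H b K ∧ ∀ i j, A i j = Aj K i j}) ν s0 Q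
      (Fintype.card V - 2) := by
  obtain ⟨hs, hP, hm⟩ := hN
  have hcard := h.card
  have h0 : s0 ≠ 0 := by
    rintro rfl
    norm_num at hs
  have hne : Nonempty V := by
    rw [← Fintype.card_pos_iff]
    omega
  obtain ⟨v0⟩ := hne
  have hG : InU G H true G := ⟨SimpleGraph.Iso.refl⟩
  have hQm : Q.Monic ∧ Q.natDegree = Fintype.card V - 1 := by
    have h1 := adj_diag_deg (SQ G) v0
    have h2 : adj (SQ G) v0 v0 = Q := h.aG v0
    rw [h2] at h1
    exact h1
  have hQ1 : ¬ (X - C ν) ^ 2 ∣ Q := by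
    intro h2
    obtain ⟨L, d, hL, hM, hd⟩ := hm true G hG v0
    have h3 : ∀ a, (Aj G v0 a).eval ν = 0 := by
      intro a
      by_cases ha : a = v0
      · rw [ha, h.aG v0]
        obtain ⟨q, hq⟩ := h2
        rw [hq, eval_mul, eval_pow, eval_sub, eval_X, eval_C, sub_self]
        ring
      · rcases Cl_cases (d a) with h4 | h4
        · exact Cl_eval h2 ((hd a ha).1 h4)
        · exact (hd a ha).2 h4
    have h5 := adj_row (SQ G) v0 v0
    rw [if_pos rfl, h.cG] at h5
    apply hP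
    rw [← h5, eval_sub, eval_mul, eval_finsetSum]
    have h6 : (adj (SQ G) v0 v0).eval ν = 0 := h3 v0
    rw [h6, mul_zero, zero_sub, neg_eq_zero]
    apply Finset.sum_eq_zero
    intro c _
    have h7 : (adj (SQ G) c v0).eval ν = 0 := by
      have h8 := aj_symm G c v0
      have h9 := h3 c
      rw [← h8] at h9
      exact h9
    rw [eval_mul, h7, mul_zero]
  refine ⟨hs, ?_, ?_, hQ1, ?_, ?_, ?_, ?_⟩
  · rw [hQm.2]
    omega
  · obtain ⟨L, d, hL, hM, hd⟩ := hm true G hG v0
    obtain ⟨a, ha, ha0⟩ := hM.ex0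
    have h1 := (hd a ha).1 ha0
    have h2 := congrArg (eval ν) h1
    rw [eval_mul, eval_mul, eval_sub, eval_X, eval_C, sub_self, zero_mul, eval_C] at h2
    exact (mul_eq_zero.1 h2.symm).resolve_left h0
  · rintro b A ⟨K, hK, hA⟩ i j
    rw [hA, hA, aj_symm]
  · rintro b A ⟨K, hK, hA⟩ i j hij
    rw [hA, aj_deg K hij, aj_two K hij, sq_mul K hij]
    exact ⟨rfl, rfl⟩
  · rintro b A ⟨K, hK, hA⟩ i j hij
    obtain ⟨L, d, hL, hM, hd⟩ := hm b K hK i
    rw [hA]
    rcases Cl_cases (d j) with h4 | h4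
    · exact Or.inl ((hd j hij.symm).1 h4)
    · exact Or.inr ((hd j hij.symm).2 h4)
  · rintro b A ⟨K, hK, hA⟩ v
    obtain ⟨L, d, hL, hM, hd⟩ := hm b K hK v
    have hAP : ∀ i, i ≠ v → (X - C ν) * A v i = C s0 * Q → d i = 0 := by
      intro i hi h1
      rcases Cl_cases (d i) with h4 | h4
      · exact h4
      · rw [hA] at h1
        exact (Cl_excl hs hQ1 h1 ((hd i hi).2 h4)).elim
    have hAR : ∀ i, i ≠ v → (A v i).eval ν = 0 → d i = 1 := by
      intro i hi h1
      rcases Cl_cases (d i) with h4 | h4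
      · rw [hA] at h1
        exact (Cl_excl hs hQ1 ((hd i hi).1 h4) h1).elim
      · exact h4
    refine ⟨fun i j => Aj L i j, ⟨L, hL, fun i j => rfl⟩, fun j => ?_, fun i j hi hj => ⟨?_, ?_⟩⟩
    · rw [hA]
      exact hM.arow j
    · intro h1
      rw [hA]
      apply hM.same i j hi hj
      rcases h1 with ⟨h1, h2⟩ | ⟨h1, h2⟩
      · rw [hAP i hi h1, hAP j hj h2]
      · rw [hAR i hi h1, hAR j hj h2]
    · intro h1 h2
      have h3 : d i ≠ d j := by
        rw [hAP i hi h1, hAR j hj h2]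
        decide
      have h4 := hM.diff i j hi hj h3
      rw [hA] at h1 h2
      rw [hA, hA]
      apply mul_left_cancel₀ hQm.1.ne_zero
      have h5 : C (2 * s0) = 2 * C s0 := by
        rw [C_mul]
        rfl
      calc Q * ((X - C ν) * (Aj L i j + Aj K i j))
          = (X - C ν) * (Q * (Aj L i j + Aj K i j)) := by ring
        _ = (X - C ν) * (2 * Aj K v i * Aj K v j) := by rw [h4]
        _ = 2 * ((X - C ν) * Aj K v i) * Aj K v j := by ring
        _ = 2 * (C s0 * Q) * Aj K v j := by rw [h1]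
        _ = Q * (2 * C s0 * Aj K v j) := by ring
        _ = Q * (C (2 * s0) * Aj K v j) := by rw [h5]

theorem closing [Fintype V] {G H : SimpleGraph V} {P Q : ℚ[X]} (h : Ctx G H P Q) {ν s0 : ℚ}
    (hN : NuP G H P Q ν s0) : False := by
  have hsys := Cl_nsys h hN
  have hcard := h.card
  have hne : Nonempty V := by
    rw [← Fintype.card_pos_iff]
    omega
  obtain ⟨v⟩ := hne
  have hG : InU G H true G := ⟨SimpleGraph.Iso.refl⟩
  obtain ⟨hs, hP, hm⟩ := hN
  obtain ⟨L0, d, hL0, hM, hd⟩ := hm true G hG v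
  obtain ⟨w, hwv, hw0⟩ := hM.ex0
  have hPw := (hd w hwv).1 hw0
  obtain ⟨A', ⟨L, hL, hA'⟩, h1, h2, h3⟩ := hsys.swap true (A := fun i j => Aj G i j)
    ⟨G, hG, fun i j => rfl⟩ hwv.symm hPw
  have e1 : SQ L v w = SQ G v w := by
    rw [← aj_two L hwv.symm, ← aj_two G hwv.symm, ← hA', h1]
  have e2 : ∀ y, y ≠ v → y ≠ w → SQ L v y = SQ G w y := by
    intro y hy1 hy2
    rw [← aj_two L hy1.symm, ← aj_two G hy2.symm, ← hA', (h2 y hy1 hy2).1]
  have e3 : ∀ y, y ≠ v → y ≠ w → SQ L w y = SQ G v y := by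
    intro y hy1 hy2
    rw [← aj_two L hy2.symm, ← aj_two G hy1.symm, ← hA', (h2 y hy1 hy2).2]
  have e4 : ∀ y y', y ≠ v → y ≠ w → y' ≠ v → y' ≠ w → y ≠ y' → SQ L y y' = SQ G y y' := by
    intro y y' hy1 hy2 hy1' hy2' hyy
    rw [← aj_two L hyy, ← aj_two G hyy, ← hA', h3 y y' hy1 hy2 hy1' hy2' hyy]
  have hsL : ∀ a b, SQ L a b = SQ L b a := fun a b => (sq_symm L).apply b a
  have hsG : ∀ a b, SQ G a b = SQ G b a := fun a b => (sq_symm G).apply b a
  have e5 : ∀ a b, a ≠ b → SQ L (Equiv.swap v w a) (Equiv.swap v w b) = SQ G a b := by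
    intro a b hab
    by_cases hav : a = v
    · subst hav
      rw [Equiv.swap_apply_left]
      by_cases hbw : b = w
      · subst hbw
        rw [Equiv.swap_apply_right, hsL, e1]
      · rw [Equiv.swap_apply_of_ne_of_ne hab.symm hbw, e3 b hab.symm hbw]
    · by_cases haw : a = w
      · subst haw
        rw [Equiv.swap_apply_right]
        by_cases hbv : b = v
        · subst hbv
          rw [Equiv.swap_apply_left, e1, hsG]
        · rw [Equiv.swap_apply_of_ne_of_ne hbv hab.symm, e2 b hbv hab.symm]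
      · rw [Equiv.swap_apply_of_ne_of_ne hav haw]
        by_cases hbv : b = v
        · subst hbv
          rw [Equiv.swap_apply_left, hsL, e3 a hav haw, hsG]
        · by_cases hbw : b = w
          · subst hbw
            rw [Equiv.swap_apply_right, hsL, e2 a hav haw, hsG]
          · rw [Equiv.swap_apply_of_ne_of_ne hbv hbw, e4 a b hav haw hbv hbw hab]
  have e : G ≃g L := by
    refine ⟨Equiv.swap v w, fun {a b} => ?_⟩
    by_cases hab : a = b
    · subst hab
      constructor
      · intro h9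
        exact (L.loopless.irrefl _ h9).elim
      · intro h9
        exact (G.loopless.irrefl _ h9).elim
    · exact Cl_adj hab (fun h9 => hab ((Equiv.swap v w).injective h9)) (e5 a b hab)
  obtain ⟨f⟩ : Nonempty (H ≃g L) := hL
  exact h.ne (swEq_iff.2 ⟨(e.trans f.symm).toEquiv, fun a b c => T_iso (e.trans f.symm) a b c⟩)

end SWS
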