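import Pool.Agent.SWS.Un
import Pool.Agent.SWS.Ct
import Pool.Agent.RGC.SeiR
import Pool.Agent.RGC.Trn

/-!
# SWS: the standing assumptions for regular graphs with cospectral cards

A regular graph of odd order is the even graph of its class; together with the even graph of a
hypomorphic class it satisfies the standing assumptions.
-/

set_option autoImplicit false

namespace SWS

open Finset Polynomial RGC
open scoped Classical

variable {V W : Type}

theorem ctx_of [Fintype V] (hn : 10 ≤ Fintype.card V) (ho : Odd (Fintype.card V))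
    {G H : SimpleGraph V} {k : ℕ} (hk : ∀ v, (G.neighborSet v).ncard = k)
    (hc : ∀ u v, Aj G u u = Aj G v v) (hd : DeckEq G H) (hne : ¬ SwEq G H) :
    ∃ Q : ℚ[X], Ctx G (E H) (SQ G).charpoly Q := by
  have hV : Nonempty V := Fintype.card_pos_iff.1 (by omega)
  obtain ⟨v0⟩ := hV
  have hsw : SwEq H (E H) := swEq_of_T fun a b c => T_E ho H a b c
  have hdk : DeckEq G (E H) := deck_congr_right hsw hd
  refine ⟨Aj G v0 v0, hn, ho, E_reg ho hk, ?_, hdk, ?_, rfl, ?_, fun v => hc v v0, fun u => ?_,
    fun h => hne (h.trans hsw.symm)⟩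
  · exact E_unique ho (fun a => deg_E ho H a) (fun _ _ _ => rfl)
  · obtain ⟨π, hπ⟩ := hdk
    refine ⟨π.symm, fun v => ?_⟩
    have h1 := hπ (π.symm v)
    rw [Equiv.apply_symm_apply] at h1
    exact h1.symm
  · rw [← chp_swEq hsw]
    exact (chp_real.1 (charpoly_eq hn ho hd hk)).symm
  · obtain ⟨π, hπ⟩ := hdk
    have h1 := hπ (π.symm u)
    rw [Equiv.apply_symm_apply] at h1
    rw [← aj_card h1]
    exact hc _ _

end SWS
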