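import Pool.Agent.RGC.Defs

/-!
# Spectral criteria for reconstruction of switching classes: definitions (MP_87adae_co, SWS)
-/

set_option autoImplicit false

namespace SWS

open Finset Polynomial RGC
open scoped Classical

variable {V W : Type}

/-- The Seidel matrix of `G` with rational entries: diagonal `0`, entry `-1` for adjacent and `1`
for distinct nonadjacent vertices. -/
noncomputable def SQ (G : SimpleGraph V) : Matrix V V ℚ :=
  fun a b => if a = b then 0 else if G.Adj a b then -1 else 1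

/-- The adjacency matrix of `G` with real entries. -/
noncomputable def AR (G : SimpleGraph V) : Matrix V V ℝ :=
  fun a b => if G.Adj a b then 1 else 0

/-- `G` is walk-regular: for every `j` the number of closed walks of length `j` from `v` to `v` (the
entry `(v, v)` of the `j`-th power of the adjacency matrix) does not depend on `v`. In
particular (`j = 2`) `G` is regular. Vertex-transitive graphs are walk-regular. -/
def WalkRegular [Fintype V] (G : SimpleGraph V) : Prop :=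
  ∀ (j : ℕ) (u v : V), (AR G ^ j) u u = (AR G ^ j) v v

/-! ### working notions -/

/-- The entries of the adjugate of `x - M`. -/
noncomputable def adj [Fintype V] (M : Matrix V V ℚ) (a b : V) : ℚ[X] :=
  Matrix.adjugate (Matrix.charmatrix M) a b

/-- The entries of the adjugate of `x - S`, `S` the Seidel matrix of `G`. -/
noncomputable def Aj [Fintype V] (G : SimpleGraph V) (a b : V) : ℚ[X] := adj (SQ G) a b

/-- The standing assumptions on two hypomorphic even graphs of odd order which are not switching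
equivalent. -/
structure Ctx [Fintype V] (G H : SimpleGraph V) (P Q : ℚ[X]) : Prop where
  card : 10 ≤ Fintype.card V
  odd : Odd (Fintype.card V)
  evG : E G = G
  evH : E H = H
  deck : DeckEq G H
  deck' : DeckEq H G
  cG : (SQ G).charpoly = P
  cH : (SQ H).charpoly = P
  aG : ∀ v, Aj G v v = Q
  aH : ∀ v, Aj H v v = Q
  ne : ¬ SwEq G H

/-- `K` is isomorphic to `G` (`b = true`) or to `H` (`b = false`). -/
def InU (G H : SimpleGraph V) (b : Bool) (K : SimpleGraph V) : Prop :=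
  Nonempty ((bif b then G else H) ≃g K)

/-- `L` is a mutation of `K` at `v` along the cut `d`. -/
structure Mut [Fintype V] (K L : SimpleGraph V) (v : V) (d : V → ZMod 2) (Q : ℚ[X]) : Prop where
  row : ∀ a, s L v a = s K v a
  off : ∀ a b, a ≠ v → b ≠ v → a ≠ b → s L a b = s K a b + d a + d b
  ex0 : ∃ a, a ≠ v ∧ d a = 0
  ex1 : ∃ a, a ≠ v ∧ d a = 1
  arow : ∀ a, Aj L v a = Aj K v a
  same : ∀ a b, a ≠ v → b ≠ v → d a = d b → Aj L a b = Aj K a b
  diff : ∀ a b, a ≠ v → b ≠ v → d a ≠ d b → Q * (Aj L a b + Aj K a b) = 2 * Aj K v a * Aj K v b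
  cut : ∀ a, a ≠ v →
    ∑ c ∈ univ.filter (fun c => c ≠ v ∧ d c ≠ d a), C (SQ K a c) * Aj K v c = 0

/-- The cut `d` at `v` is labelled by the factors `f1`, `f2`. -/
def Lab [Fintype V] (f1 f2 Q : ℚ[X]) (K : SimpleGraph V) (v : V) (d : V → ZMod 2) : Prop :=
  ∀ a, a ≠ v → (d a = 0 → Q ∣ f1 * Aj K v a) ∧ (d a = 1 → Q ∣ f2 * Aj K v a)

/-- Abstract system for the case of two irreducible factors. -/
structure BSys {V : Type} (U : Set (V → V → ℚ[X])) (f1 f2 : ℚ[X]) : Prop where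
  i1 : Irreducible f1
  i2 : Irreducible f2
  nd1 : ¬ f1 ∣ f2
  nd2 : ¬ f2 ∣ f1
  le : f1.natDegree ≤ f2.natDegree
  symm : ∀ B ∈ U, ∀ i j, B i j = B j i
  ne : ∀ B ∈ U, ∀ i j, i ≠ j → B i j ≠ 0
  deg : ∀ B ∈ U, ∀ i j, i ≠ j → (B i j).natDegree < f1.natDegree + f2.natDegree
  typ : ∀ B ∈ U, ∀ i j, i ≠ j → f1 ∣ B i j ∨ f2 ∣ B i j
  sgn : ∀ B ∈ U, ∀ i j k l, i ≠ j → k ≠ l → B i j ≠ - B k l
  mt : ∀ B ∈ U, ∀ v, ∃ B' ∈ U, (∀ j, B' v j = B v j) ∧
    (∀ i j, i ≠ v → j ≠ v → (f2 ∣ B v i ↔ f2 ∣ B v j) → B' i j = B i j) ∧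
    (∀ i j, i ≠ v → j ≠ v → f2 ∣ B v i → ¬ f2 ∣ B v j →
      f1 * f2 * (B' i j + B i j) = 2 * B v i * B v j)
  exQ : ∀ B ∈ U, ∀ v, ∃ j, j ≠ v ∧ ¬ f2 ∣ B v j
  rows : ∀ B ∈ U, ∀ v y, v ≠ y → f1 ∣ B v y → ∃ j, j ≠ v ∧ j ≠ y ∧ ¬ f1 ∣ B v j - B y j

/-- Abstract system for the closing argument. -/
structure NSys {V : Type} (U : Bool → Set (V → V → ℚ[X])) (ν s0 : ℚ) (Q : ℚ[X]) (m : ℕ) :
    Prop where
  hs : s0 * s0 = 1
  hQd : Q.natDegree = m + 1
  hQ0 : Q.eval ν = 0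
  hQ1 : ¬ (X - C ν) ^ 2 ∣ Q
  symm : ∀ b, ∀ A ∈ U b, ∀ i j, A i j = A j i
  deg : ∀ b, ∀ A ∈ U b, ∀ i j, i ≠ j → (A i j).natDegree = m ∧ (A i j).coeff m * (A i j).coeff m = 1
  typ : ∀ b, ∀ A ∈ U b, ∀ i j, i ≠ j → (X - C ν) * A i j = C s0 * Q ∨ (A i j).eval ν = 0
  mt : ∀ b, ∀ A ∈ U b, ∀ v, ∃ A' ∈ U (!b), (∀ j, A' v j = A v j) ∧
    ∀ i j, i ≠ v → j ≠ v →
      ((((X - C ν) * A v i = C s0 * Q ∧ (X - C ν) * A v j = C s0 * Q) ∨
        ((A v i).eval ν = 0 ∧ (A v j).eval ν = 0)) → A' i j = A i j) ∧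
      ((X - C ν) * A v i = C s0 * Q → (A v j).eval ν = 0 →
        (X - C ν) * (A' i j + A i j) = C (2 * s0) * A v j)

/-- The data of the closing argument: at every vertex of every graph of the two classes there is a
mutation whose cut is read off the column of the adjugate at `ν`. -/
def NuP [Fintype V] (G H : SimpleGraph V) (P Q : ℚ[X]) (ν s0 : ℚ) : Prop :=
  s0 * s0 = 1 ∧ P.eval ν ≠ 0 ∧
    ∀ (b : Bool) (K : SimpleGraph V), InU G H b K → ∀ v : V,
      ∃ (L : SimpleGraph V) (d : V → ZMod 2), InU G H (!b) L ∧ Mut K L v d Q ∧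
        ∀ a, a ≠ v → (d a = 0 → (X - C ν) * Aj K v a = C s0 * Q) ∧
          (d a = 1 → (Aj K v a).eval ν = 0)

/-- The real Seidel matrix satisfies `S ^ 3 = e1 S ^ 2 + e2 S + e3 + c J`, `J` the all-one matrix. -/
def Cub [Fintype V] (G : SimpleGraph V) (e1 e2 e3 c : ℝ) : Prop :=
  Sd G ^ 3 = e1 • Sd G ^ 2 + e2 • Sd G + e3 • (1 : Matrix V V ℝ) +
    c • (Matrix.of fun _ _ => (1 : ℝ))

/-- `n - 2` minus twice the codegree -/
noncomputable def gv [Fintype V] (K : SimpleGraph V) (v a : V) : ℝ :=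
  (Fintype.card V : ℝ) - 2 - 2 * cd K v a

/-- A cut of the first type. -/
structure TyI [Fintype V] (K : SimpleGraph V) (v : V) (d : V → ZMod 2) (u al w : ℝ) : Prop where
  z : ∀ a, a ≠ v → d a = 0 → ¬ K.Adj v a ∧ gv K v a = u
  o1 : ∀ a, a ≠ v → d a = 1 → K.Adj v a → gv K v a = al + 2
  o2 : ∀ a, a ≠ v → d a = 1 → ¬ K.Adj v a → gv K v a = w
  nb : ∃ a, K.Adj v a

/-- A cut of the second type. -/
structure TyII [Fintype V] (K : SimpleGraph V) (v : V) (d : V → ZMod 2) (u al w : ℝ) : Prop where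
  z : ∀ a, a ≠ v → d a = 0 → K.Adj v a ∧ gv K v a = u + 2
  o1 : ∀ a, a ≠ v → d a = 1 → ¬ K.Adj v a → gv K v a = al
  o2 : ∀ a, a ≠ v → d a = 1 → K.Adj v a → gv K v a = w - 2
  nb : ∃ a, a ≠ v ∧ ¬ K.Adj v a

/-- `r` is an eigenvalue of the real Seidel matrix with three independent eigenvectors. -/
def Three [Fintype V] (G : SimpleGraph V) (r : ℝ) : Prop :=
  ∃ f : Fin 3 → V → ℝ, LinearIndependent ℝ f ∧ ∀ i, (Sd G).mulVec (f i) = r • f i

end SWS
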