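import Pool.Agent.SWS.Bs
import Pool.Agent.SWS.Bc

/-!
# SWS: the smaller factor is linear

In the abstract system of two irreducible factors all entries of type P (divisible by `f2`) of a row are equal, so
the row equation of the adjugate read modulo `f1` shows that `f1` divides `B i v * (X - C r)` for a P-entry `B i v`;
`f1` does not divide `B i v`, so `f1` divides `X - C r`.
-/

set_option autoImplicit false

namespace SWS

open Finset Polynomial RGC
open scoped Classical

variable {V W : Type}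

private theorem dg_row [Fintype V] {G : SimpleGraph V} {Q f1 f2 : ℚ[X]} (hQ0 : Q ≠ 0)
    {B : V → V → ℚ[X]} (hB : ∀ i j, Q * B i j = f1 * f2 * Aj G i j) {i v : V} (hiv : i ≠ v) :
    X * B i v = ∑ c, C (SQ G i c) * B c v := by
  have r1 := adj_row (SQ G) i v
  rw [if_neg hiv, sub_eq_zero] at r1
  apply mul_left_cancel₀ hQ0
  have a1 : Q * B i v = f1 * f2 * adj (SQ G) i v := hB i v
  have s1 : Q * ∑ c, C (SQ G i c) * B c v = f1 * f2 * ∑ c, C (SQ G i c) * adj (SQ G) c v := by
    rw [mul_sum, mul_sum]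
    refine sum_congr rfl fun c _ => ?_
    have a2 : Q * B c v = f1 * f2 * adj (SQ G) c v := hB c v
    linear_combination (C (SQ G i c)) * a2
  rw [s1, ← r1]
  linear_combination X * a1

theorem deg_one [Fintype V] {G H : SimpleGraph V} {P Q : ℚ[X]} (h : Ctx G H P Q)
    {f1 f2 : ℚ[X]} (m1 : f1.Monic) (m2 : f2.Monic) (i1 : Irreducible f1) (i2 : Irreducible f2)
    (hc : IsCoprime f1 f2) (hle : f1.natDegree ≤ f2.natDegree) (hP1 : IsCoprime f1 P)
    (hQ : f1 * f2 ∣ Q)
    (hL : ∀ (b : Bool) (K : SimpleGraph V), InU G H b K → ∀ v : V,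
        ∃ (L : SimpleGraph V) (d : V → ZMod 2), InU G H (!b) L ∧ Mut K L v d Q ∧
          Lab f1 f2 Q K v d) : f1.natDegree = 1 := by
  have h0 : 0 < Fintype.card V := by have := h.card; omega
  obtain ⟨v⟩ := Fintype.card_pos_iff.1 h0
  have hQm : Q.Monic := by
    have h2 := (adj_diag_deg (SQ G) v).1
    have h3 : adj (SQ G) v v = Q := h.aG v
    rwa [h3] at h2
  have hQ0 : Q ≠ 0 := hQm.ne_zero
  have hG : InU G H true G := ⟨SimpleGraph.Iso.refl⟩
  obtain ⟨L, d, -, hm, hl⟩ := hL true G hG v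
  obtain ⟨B, hB⟩ := exists_B h hL hG
  have hS := bsys h m1 m2 i1 i2 hc hle hP1 hQ hL
  have hBU : B ∈ {B | ∃ b K, InU G H b K ∧ ∀ i j, Q * B i j = f1 * f2 * Aj K i j} := ⟨true, G, hG, hB⟩
  obtain ⟨i, hiv, hi0⟩ := hm.ex0
  have hf2 : f2 ∣ B v i := by
    obtain ⟨p, hp⟩ := (hl i hiv).1 hi0
    refine ⟨p, mul_left_cancel₀ hQ0 ?_⟩
    rw [hB]
    linear_combination f2 * hp
  have hsy := hS.symm B hBU
  have hself : B v v = f1 * f2 := by
    apply mul_left_cancel₀ hQ0
    rw [hB, h.aG v]
    ring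
  have hrow := dg_row hQ0 hB hiv
  set F := univ.filter (fun c => c ≠ v ∧ f2 ∣ B v c) with hF
  set r : ℚ := ∑ c ∈ F, SQ G i c with hr
  have hsum : f1 ∣ ∑ c, C (SQ G i c) * B c v - C r * B i v := by
    have e1 : C r * B i v = ∑ c, if c ∈ F then C (SQ G i c) * B i v else 0 := by
      rw [← sum_filter, hr, map_sum, sum_mul]
      refine sum_congr ?_ fun _ _ => rfl
      ext c
      simp
    rw [e1, ← sum_sub_distrib]
    apply dvd_sum
    intro c _
    by_cases hcv : c = v
    · have h5 : c ∉ F := by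
        rw [hF]
        simp [hcv]
      rw [if_neg h5, sub_zero, hcv, hself]
      exact Dvd.dvd.mul_left (dvd_mul_right _ _) _
    · by_cases hc2 : f2 ∣ B v c
      · have h5 : c ∈ F := by
          rw [hF]
          simp [hcv, hc2]
        rw [if_pos h5, hsy c v, hsy i v, hS.const hBU hcv hiv hc2 hf2, sub_self]
        exact dvd_zero _
      · have h5 : c ∉ F := by
          rw [hF]
          simp [hc2]
        have h6 : f1 ∣ B v c := (hS.typ B hBU v c (Ne.symm hcv)).resolve_right hc2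
        rw [if_neg h5, sub_zero, hsy c v]
        exact Dvd.dvd.mul_left h6 _
  have hdvd : f1 ∣ B i v * (X - C r) := by
    have e2 : B i v * (X - C r) = ∑ c, C (SQ G i c) * B c v - C r * B i v := by
      rw [← hrow]
      ring
    rw [e2]
    exact hsum
  have hn1 : ¬ f1 ∣ B i v := by
    intro h7
    rw [hsy i v] at h7
    have h8 := natDegree_le_of_dvd (hc.mul_dvd h7 hf2) (hS.ne B hBU v i (Ne.symm hiv))
    rw [natDegree_mul m1.ne_zero m2.ne_zero] at h8
    have h9 := hS.deg B hBU v i (Ne.symm hiv)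
    omega
  have h10 : f1 ∣ X - C r := (i1.prime.dvd_or_dvd hdvd).resolve_left hn1
  have h11 := natDegree_le_of_dvd h10 (X_sub_C_ne_zero r)
  rw [natDegree_X_sub_C] at h11
  have h12 := i1.natDegree_pos
  omega

end SWS
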