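import Pool.Agent.SWS.Defs

/-!
# SWS: denominators

MODULE Dn. `y` is a vector of rational polynomials on the set `D` (a set of vertices not containing
`v`) with `(x - M_DD) y = Q b` on `D`, `b a = M v a`, and `M_{aD} y = 0` for `a ≠ v` outside `D`.
The polynomial `f` is the monic generator of the ideal `{g | ∀ a, D a → Q ∣ g * y a}`; for a real root `μ` of `f`
the vector `z = (f y / Q)(μ)` is not zero and satisfies the eigenvector equations outside `v`, and the derivative
of the equation for `f y / Q` shows that `f'(μ)` and `∑ M v c z c` are not zero.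
-/

set_option autoImplicit false

namespace SWS

open Finset Polynomial
open scoped Classical

variable {V W : Type}

/-- the denominator ideal has a monic generator -/
private theorem dn_gen {D : V → Prop} {y : V → ℚ[X]} {Q : ℚ[X]} (hQ : Q.Monic) :
    ∃ f : ℚ[X], f.Monic ∧ f ∣ Q ∧ (∀ a, D a → Q ∣ f * y a) ∧
      ∀ g : ℚ[X], (∀ a, D a → Q ∣ g * y a) → f ∣ g := by
  let I : Ideal ℚ[X] :=
    { carrier := {g | ∀ a, D a → Q ∣ g * y a}
      add_mem' := by
        intro g h hg hh a ha
        rw [add_mul]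
        exact dvd_add (hg a ha) (hh a ha)
      zero_mem' := by
        intro a _
        rw [zero_mul]
        exact dvd_zero _
      smul_mem' := by
        intro c g hg a ha
        rw [smul_eq_mul, mul_assoc]
        exact (hg a ha).mul_left c }
  have hI : ∀ g : ℚ[X], g ∈ I ↔ ∀ a, D a → Q ∣ g * y a := fun g => Iff.rfl
  obtain ⟨f0, hf0⟩ := (IsPrincipalIdealRing.principal I).principal
  have hmem : ∀ g : ℚ[X], g ∈ I ↔ f0 ∣ g := by
    intro g
    rw [hf0]
    exact Ideal.mem_span_singleton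
  have hQI : f0 ∣ Q := (hmem Q).1 ((hI Q).2 fun a _ => Dvd.intro _ rfl)
  have hf00 : f0 ≠ 0 := by
    intro h
    rw [h, zero_dvd_iff] at hQI
    exact hQ.ne_zero hQI
  have hu : IsUnit (C (leadingCoeff f0)⁻¹ : ℚ[X]) :=
    isUnit_C.2 (IsUnit.mk0 _ (inv_ne_zero (leadingCoeff_ne_zero.2 hf00)))
  have hd : ∀ g : ℚ[X], f0 * C (leadingCoeff f0)⁻¹ ∣ g ↔ f0 ∣ g := fun g => hu.mul_right_dvd
  refine ⟨f0 * C (leadingCoeff f0)⁻¹, monic_mul_leadingCoeff_inv hf00, (hd Q).2 hQI, ?_, ?_⟩
  · have h1 : f0 * C (leadingCoeff f0)⁻¹ ∈ I := (hmem _).2 (Dvd.intro _ rfl)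
    exact (hI _).1 h1
  · intro g hg
    exact (hd g).2 ((hmem g).1 ((hI g).2 hg))

theorem denom [Fintype V] {M : Matrix V V ℚ} (hM : M.IsSymm) {v : V} {D : V → Prop}
    (hD : ∀ a, D a → a ≠ v) {y : V → ℚ[X]} {Q : ℚ[X]} (hQ : Q.Monic)
    (h1 : ∀ a, D a →
      X * y a - ∑ c ∈ univ.filter (fun c => D c), C (M a c) * y c = C (M v a) * Q)
    (h2 : ∀ a, a ≠ v → ¬ D a → ∑ c ∈ univ.filter (fun c => D c), C (M a c) * y c = 0) :
    ∃ f : ℚ[X], f.Monic ∧ f ∣ Q ∧ (∀ a, D a → Q ∣ f * y a) ∧
      (∀ g : ℚ[X], (∀ a, D a → Q ∣ g * y a) → f ∣ g) ∧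
      ∀ μ : ℝ, aeval μ f = 0 → aeval μ (derivative f) ≠ 0 ∧
        ∃ z : V → ℝ, (∀ a, ¬ D a → z a = 0) ∧
          (∀ a, a ≠ v → ∑ c, ((M a c : ℚ) : ℝ) * z c = μ * z a) ∧
          ∑ c, ((M v c : ℚ) : ℝ) * z c ≠ 0 := by
  obtain ⟨f, hf, hfQ, hfI, hfm⟩ := dn_gen (D := D) (y := y) hQ
  refine ⟨f, hf, hfQ, hfI, hfm, ?_⟩
  intro μ hμ
  have hQ0 : Q ≠ 0 := hQ.ne_zero
  have hsy : ∀ a c, M a c = M c a := fun a c => hM.apply c a
  -- the quotients
  have hex : ∀ a, D a → ∃ c, f * y a = Q * c := fun a ha => hfI a ha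
  choose! p hp using hex
  have hsum : ∀ a, Q * ∑ c ∈ univ.filter (fun c => D c), C (M a c) * p c =
      f * ∑ c ∈ univ.filter (fun c => D c), C (M a c) * y c := by
    intro a
    rw [Finset.mul_sum, Finset.mul_sum]
    refine Finset.sum_congr rfl fun c hc => ?_
    have hc' : D c := (Finset.mem_filter.1 hc).2
    calc Q * (C (M a c) * p c) = C (M a c) * (Q * p c) := by ring
      _ = C (M a c) * (f * y c) := by rw [hp c hc']
      _ = f * (C (M a c) * y c) := by ring
  have e1 : ∀ a, D a →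
      X * p a - ∑ c ∈ univ.filter (fun c => D c), C (M a c) * p c = C (M v a) * f := by
    intro a ha
    apply mul_left_cancel₀ hQ0
    calc Q * (X * p a - ∑ c ∈ univ.filter (fun c => D c), C (M a c) * p c)
        = X * (Q * p a) - Q * ∑ c ∈ univ.filter (fun c => D c), C (M a c) * p c := by ring
      _ = X * (f * y a) - f * ∑ c ∈ univ.filter (fun c => D c), C (M a c) * y c := by
          rw [hsum, hp a ha]
      _ = f * (X * y a - ∑ c ∈ univ.filter (fun c => D c), C (M a c) * y c) := by ring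
      _ = Q * (C (M v a) * f) := by rw [h1 a ha]; ring
  have e2 : ∀ a, a ≠ v → ¬ D a → ∑ c ∈ univ.filter (fun c => D c), C (M a c) * p c = 0 := by
    intro a hav ha
    apply mul_left_cancel₀ hQ0
    rw [hsum, h2 a hav ha, mul_zero, mul_zero]
  -- the eigenvector
  set z : V → ℝ := fun a => if D a then aeval μ (p a) else 0 with hz
  have hz0 : ∀ a, ¬ D a → z a = 0 := fun a ha => if_neg ha
  have hz1 : ∀ a, D a → z a = aeval μ (p a) := fun a ha => if_pos ha
  have hfs : ∀ w : V → ℝ, ∑ c, w c * z c = ∑ c ∈ univ.filter (fun c => D c), w c * z c := by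
    intro w
    rw [Finset.sum_filter]
    refine Finset.sum_congr rfl fun c _ => ?_
    by_cases hc : D c
    · rw [if_pos hc]
    · rw [if_neg hc, hz0 c hc, mul_zero]
  have hev : ∀ a, aeval μ (∑ c ∈ univ.filter (fun c => D c), C (M a c) * p c) =
      ∑ c, ((M a c : ℚ) : ℝ) * z c := by
    intro a
    rw [hfs, map_sum]
    refine Finset.sum_congr rfl fun c hc => ?_
    rw [hz1 c (Finset.mem_filter.1 hc).2, map_mul, aeval_C, eq_ratCast]
  have g1 : ∀ a, a ≠ v → ∑ c, ((M a c : ℚ) : ℝ) * z c = μ * z a := by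
    intro a hav
    by_cases ha : D a
    · have h3 := congrArg (aeval μ) (e1 a ha)
      rw [map_sub, hev, map_mul, aeval_X, map_mul, hμ, mul_zero, ← hz1 a ha] at h3
      linarith
    · have h3 := congrArg (aeval μ) (e2 a hav ha)
      rw [hev, map_zero] at h3
      rw [h3, hz0 a ha, mul_zero]
  -- it is not zero
  have hint : IsIntegral ℚ μ := ⟨f, hf, by rw [← aeval_def]; exact hμ⟩
  have hne : ∃ a, D a ∧ z a ≠ 0 := by
    by_contra hcon
    push Not at hcon
    have hg0 : minpoly ℚ μ ≠ 0 := minpoly.ne_zero hint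
    obtain ⟨h, hh⟩ := minpoly.dvd ℚ μ hμ
    have hhI : f ∣ h := by
      apply hfm
      intro a ha
      have h3 : aeval μ (p a) = 0 := by
        rw [← hz1 a ha]
        exact hcon a ha
      obtain ⟨k, hk⟩ := minpoly.dvd ℚ μ h3
      refine ⟨k, ?_⟩
      apply mul_left_cancel₀ hg0
      calc minpoly ℚ μ * (h * y a) = f * y a := by rw [hh]; ring
        _ = Q * p a := hp a ha
        _ = minpoly ℚ μ * (Q * k) := by rw [hk]; ring
    have hh0 : h ≠ 0 := by
      intro h0
      rw [h0, mul_zero] at hh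
      exact hf.ne_zero hh
    have h4 := natDegree_le_of_dvd hhI hh0
    have h5 : f.natDegree = (minpoly ℚ μ).natDegree + h.natDegree := by
      conv_lhs => rw [hh]
      exact natDegree_mul hg0 hh0
    have h6 := minpoly.natDegree_pos hint
    omega
  -- the derivative
  have d1 : ∀ a, D a → z a + μ * aeval μ (derivative (p a)) -
      ∑ c ∈ univ.filter (fun c => D c), ((M a c : ℚ) : ℝ) * aeval μ (derivative (p c)) =
      ((M v a : ℚ) : ℝ) * aeval μ (derivative f) := by
    intro a ha
    have h3 := congrArg (fun q => aeval μ (derivative q)) (e1 a ha)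
    simp only [derivative_sub, derivative_mul, derivative_X, derivative_C, derivative_sum, zero_mul,
      zero_add, one_mul, map_sub, map_add, map_mul, map_sum, aeval_X, aeval_C, eq_ratCast] at h3
    rw [hz1 a ha]
    exact h3
  have d2 : ∑ a ∈ univ.filter (fun c => D c), z a * z a =
      aeval μ (derivative f) * ∑ c, ((M v c : ℚ) : ℝ) * z c := by
    have h3 : ∑ a ∈ univ.filter (fun c => D c), z a * (z a + μ * aeval μ (derivative (p a)) -
        ∑ c ∈ univ.filter (fun c => D c), ((M a c : ℚ) : ℝ) * aeval μ (derivative (p c))) =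
        ∑ a ∈ univ.filter (fun c => D c), z a * (((M v a : ℚ) : ℝ) * aeval μ (derivative f)) :=
      Finset.sum_congr rfl fun a ha => by rw [d1 a (Finset.mem_filter.1 ha).2]
    have h4 : ∑ a ∈ univ.filter (fun c => D c), z a *
        ∑ c ∈ univ.filter (fun c => D c), ((M a c : ℚ) : ℝ) * aeval μ (derivative (p c)) =
        ∑ c ∈ univ.filter (fun c => D c), z c * (μ * aeval μ (derivative (p c))) := by
      simp only [Finset.mul_sum]
      rw [Finset.sum_comm]
      refine Finset.sum_congr rfl fun c hc => ?_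
      have hc' : D c := (Finset.mem_filter.1 hc).2
      have h5 := g1 c (hD c hc')
      rw [hfs] at h5
      calc ∑ a ∈ univ.filter (fun c => D c), z a * (((M a c : ℚ) : ℝ) * aeval μ (derivative (p c)))
          = (∑ a ∈ univ.filter (fun c => D c), ((M c a : ℚ) : ℝ) * z a) *
              aeval μ (derivative (p c)) := by
            rw [Finset.sum_mul]
            refine Finset.sum_congr rfl fun a _ => ?_
            rw [hsy a c]
            ring
        _ = z c * (μ * aeval μ (derivative (p c))) := by rw [h5]; ring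
    have h6 : ∑ a ∈ univ.filter (fun c => D c), z a * (z a + μ * aeval μ (derivative (p a)) -
        ∑ c ∈ univ.filter (fun c => D c), ((M a c : ℚ) : ℝ) * aeval μ (derivative (p c))) =
        ∑ a ∈ univ.filter (fun c => D c), z a * z a +
        ∑ a ∈ univ.filter (fun c => D c), z a * (μ * aeval μ (derivative (p a))) -
        ∑ a ∈ univ.filter (fun c => D c), z a *
          ∑ c ∈ univ.filter (fun c => D c), ((M a c : ℚ) : ℝ) * aeval μ (derivative (p c)) := by
      rw [← Finset.sum_add_distrib, ← Finset.sum_sub_distrib]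
      refine Finset.sum_congr rfl fun a _ => ?_
      ring
    rw [h6, h4] at h3
    rw [hfs, Finset.mul_sum]
    have h7 : ∑ a ∈ univ.filter (fun c => D c), z a * (((M v a : ℚ) : ℝ) * aeval μ (derivative f)) =
        ∑ a ∈ univ.filter (fun c => D c), aeval μ (derivative f) * (((M v a : ℚ) : ℝ) * z a) :=
      Finset.sum_congr rfl fun a _ => by ring
    rw [h7] at h3
    linarith
  have d3 : 0 < ∑ a ∈ univ.filter (fun c => D c), z a * z a := by
    obtain ⟨a, ha, hza⟩ := hne
    refine Finset.sum_pos' (fun c _ => mul_self_nonneg _)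
      ⟨a, Finset.mem_filter.2 ⟨Finset.mem_univ _, ha⟩, mul_self_pos.2 hza⟩
  rw [d2] at d3
  refine ⟨fun h0 => ?_, z, hz0, g1, fun h0 => ?_⟩
  · rw [h0, zero_mul] at d3
    exact lt_irrefl _ d3
  · rw [h0, mul_zero] at d3
    exact lt_irrefl _ d3

end SWS
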