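import Pool.Agent.SWS.Defs

/-!
# SWS: eigenvectors of walk-regular matrices do not vanish

If all powers of a symmetric rational matrix `M` have constant diagonal and `μ` is a real root of
its characteristic polynomial, then for every index `v` there is a real eigenvector of `M` for `μ`
which does not vanish at `v`. (Write the minimal polynomial as `(X - μ) h`; then `N = h(M) ≠ 0`
satisfies `M N = μ N` and `N N = h(μ) N` and has constant diagonal squares.)
-/

set_option autoImplicit false

namespace SWS

open Finset Polynomial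
open scoped Classical

variable {V W : Type}

private lemma ev_diag [Fintype V] {M : Matrix V V ℚ}
    (hw : ∀ (j : ℕ) (a b : V), (M ^ j) a a = (M ^ j) b b) (g : ℝ[X]) (a b : V) :
    (aeval ((algebraMap ℚ ℝ).mapMatrix M) g) a a = (aeval ((algebraMap ℚ ℝ).mapMatrix M) g) b b := by
  induction g using Polynomial.induction_on' with
  | add p q hp hq => rw [map_add, Matrix.add_apply, Matrix.add_apply, hp, hq]
  | monomial n c =>
    rw [aeval_monomial, ← map_pow, ← Algebra.smul_def, Matrix.smul_apply, Matrix.smul_apply,
      RingHom.mapMatrix_apply, Matrix.map_apply, Matrix.map_apply, hw n a b]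

private lemma ev_symm [Fintype V] {R : Matrix V V ℝ} (hR : R.transpose = R) (g : ℝ[X]) :
    (aeval R g).transpose = aeval R g := by
  induction g using Polynomial.induction_on' with
  | add p q hp hq => rw [map_add, Matrix.transpose_add, hp, hq]
  | monomial n c =>
    rw [aeval_monomial, ← Algebra.smul_def, Matrix.transpose_smul, Matrix.transpose_pow, hR]

private lemma ev_vec [Fintype V] {R : Matrix V V ℝ} {μ : ℝ} {w : V → ℝ}
    (hw : R.mulVec w = μ • w) (g : ℝ[X]) : (aeval R g).mulVec w = g.eval μ • w := by
  induction g using Polynomial.induction_on' with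
  | add p q hp hq => rw [map_add, Matrix.add_mulVec, hp, hq, eval_add, add_smul]
  | monomial n c =>
    have h : (R ^ n).mulVec w = μ ^ n • w := by
      induction n with
      | zero => simp
      | succ k ih =>
        rw [pow_succ', ← Matrix.mulVec_mulVec, ih, Matrix.mulVec_smul, hw, smul_smul, pow_succ]
    rw [aeval_monomial, ← Algebra.smul_def, Matrix.smul_mulVec, h, eval_monomial, smul_smul]

theorem eig_ne [Fintype V] {M : Matrix V V ℚ} (hM : M.IsSymm)
    (hw : ∀ (j : ℕ) (a b : V), (M ^ j) a a = (M ^ j) b b) {μ : ℝ}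
    (hμ : aeval μ M.charpoly = 0) (v : V) :
    ∃ u : V → ℝ, (∀ a, ∑ c, ((M a c : ℚ) : ℝ) * u c = μ * u a) ∧ u v ≠ 0 := by
  obtain ⟨R, hRdef⟩ : ∃ R : Matrix V V ℝ, R = (algebraMap ℚ ℝ).mapMatrix M := ⟨_, rfl⟩
  have hRs : R.transpose = R := by
    rw [hRdef]
    ext i j
    have := congrFun (congrFun hM.eq i) j
    rw [Matrix.transpose_apply] at this
    rw [Matrix.transpose_apply, RingHom.mapMatrix_apply, Matrix.map_apply, Matrix.map_apply, this]
  have hch : R.charpoly.eval μ = 0 := by
    rw [hRdef, RingHom.mapMatrix_apply, Matrix.charpoly_map, eval_map_algebraMap]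
    exact hμ
  have hdet : (Matrix.scalar V μ - R).det = 0 := by
    rw [← Matrix.eval_charpoly]
    exact hch
  obtain ⟨w, hw0, hw1⟩ := Matrix.exists_mulVec_eq_zero_iff.mpr hdet
  have hw2 : R.mulVec w = μ • w := by
    rw [Matrix.sub_mulVec, sub_eq_zero] at hw1
    rw [← hw1, Matrix.scalar_apply]
    ext i
    rw [Matrix.mulVec_diagonal, Pi.smul_apply, smul_eq_mul]
  have hm0 : (minpoly ℝ R).eval μ = 0 := by
    have := ev_vec hw2 (minpoly ℝ R)
    rw [minpoly.aeval, Matrix.zero_mulVec] at this
    rcases smul_eq_zero.mp this.symm with h | h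
    · exact h
    · exact absurd h hw0
  obtain ⟨h, hh⟩ := dvd_iff_isRoot.mpr hm0
  have hint : IsIntegral ℝ R := Algebra.IsIntegral.isIntegral R
  have hmne : minpoly ℝ R ≠ 0 := minpoly.ne_zero hint
  have hne : h ≠ 0 := by
    intro h0
    rw [h0, mul_zero] at hh
    exact hmne hh
  have hN0 : aeval R h ≠ 0 := by
    intro h0
    have hd := minpoly.dvd ℝ R h0
    have hle := natDegree_le_of_dvd hd hne
    rw [hh, natDegree_mul (X_sub_C_ne_zero μ) hne, natDegree_X_sub_C] at hle
    omega
  have hmul : ∀ g : ℝ[X], aeval R g * aeval R h = g.eval μ • aeval R h := by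
    intro g
    obtain ⟨q, hq⟩ := X_sub_C_dvd_sub_C_eval (a := μ) (p := g)
    have h1 : g * h = minpoly ℝ R * q + C (g.eval μ) * h := by
      have : g = (X - C μ) * q + C (g.eval μ) := by rw [← hq]; ring
      calc g * h = ((X - C μ) * q + C (g.eval μ)) * h := by rw [← this]
        _ = (X - C μ) * h * q + C (g.eval μ) * h := by ring
        _ = _ := by rw [← hh]
    rw [← map_mul, h1, map_add, map_mul, minpoly.aeval, zero_mul, zero_add, map_mul, aeval_C,
      ← Algebra.smul_def]
  have hNs := ev_symm hRs h
  obtain ⟨a, c, hac⟩ : ∃ a c, (aeval R h) a c ≠ 0 := by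
    by_contra hcon
    push Not at hcon
    exact hN0 (by ext i j; exact hcon i j)
  have hpos : 0 < (aeval R h * aeval R h) a a := by
    rw [Matrix.mul_apply]
    refine Finset.sum_pos' (fun j _ => ?_) ⟨c, mem_univ c, ?_⟩
    · have : (aeval R h) j a = (aeval R h) a j := by
        conv_lhs => rw [← hNs]
        rfl
      rw [this]
      exact mul_self_nonneg _
    · have : (aeval R h) c a = (aeval R h) a c := by
        conv_lhs => rw [← hNs]
        rfl
      rw [this]
      exact mul_self_pos.mpr hac
  have hvv : (aeval R h * aeval R h) v v = (aeval R h * aeval R h) a a := by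
    rw [← map_mul, hRdef]
    exact ev_diag hw (h * h) v a
  refine ⟨fun c => (aeval R h) c v, fun b => ?_, ?_⟩
  · have hX := hmul X
    rw [aeval_X, eval_X] at hX
    have := congrFun (congrFun hX b) v
    rw [Matrix.mul_apply, Matrix.smul_apply, smul_eq_mul] at this
    rw [← this]
    refine Finset.sum_congr rfl (fun c _ => ?_)
    rw [hRdef]
    rfl
  · intro h0
    have h1 : (aeval R h * aeval R h) v v = 0 := by
      have h2 : (aeval R h) v v = 0 := h0
      rw [hmul h, Matrix.smul_apply, smul_eq_mul, h2, mul_zero]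
    rw [hvv] at h1
    exact hpos.ne' h1

end SWS
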