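import Pool.Agent.SWS.Ad

/-!
# SWS: adjugate entries and powers

MODULE Pw. The coefficients of the entries of the adjugate of `x - M` in terms of the powers of `M`,
and the derivative of the characteristic polynomial as the sum of the diagonal entries (double
counting of principal minors).
-/

set_option autoImplicit false

namespace SWS

open Finset Polynomial
open scoped Classical

variable {V W : Type}

private theorem pw_top [Fintype V] (M : Matrix V V ℚ) :
    M.charpoly.coeff (Fintype.card V) = 1 := by
  have h := M.charpoly_monic.coeff_natDegree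
  rwa [Matrix.charpoly_natDegree_eq_dim] at h

private theorem pw_zero [Fintype V] (M : Matrix V V ℚ) {m : ℕ} (h : Fintype.card V < m) :
    M.charpoly.coeff m = 0 := by
  apply coeff_eq_zero_of_natDegree_lt
  rwa [Matrix.charpoly_natDegree_eq_dim]

private theorem pw_coeff [Fintype V] (M : Matrix V V ℚ) (j : ℕ) :
    ∀ a b : V, j ≤ Fintype.card V - 1 → (adj M a b).coeff (Fintype.card V - 1 - j) =
      ∑ i ∈ range (j + 1), M.charpoly.coeff (Fintype.card V - j + i) * (M ^ i) a b := by
  induction j with
  | zero =>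
    intro a b _
    rw [Nat.sub_zero, adj_top, zero_add, sum_range_one, pow_zero, Matrix.one_apply, Nat.sub_zero,
      add_zero, pw_top, one_mul]
  | succ j ih =>
    intro a b hj
    have e1 : Fintype.card V - 1 - (j + 1) + 1 = Fintype.card V - 1 - j := by omega
    have e2 : Fintype.card V - 1 - j = Fintype.card V - (j + 1) := by omega
    rw [adj_rec, e1, sum_range_succ']
    congr 1
    · have h1 : ∀ c, M a c * (adj M c b).coeff (Fintype.card V - 1 - j) =
          ∑ i ∈ range (j + 1), M.charpoly.coeff (Fintype.card V - j + i) *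
            (M a c * (M ^ i) c b) := by
        intro c
        rw [ih c b (by omega), mul_sum]
        exact sum_congr rfl fun i _ => by ring
      rw [sum_congr rfl fun c _ => h1 c, sum_comm]
      refine sum_congr rfl fun i _ => ?_
      rw [← mul_sum, pow_succ', Matrix.mul_apply]
      congr 2
      omega
    · rw [e2, pow_zero, Matrix.one_apply, add_zero]
      split_ifs
      · rw [mul_one]
      · rw [mul_zero]

private theorem pw_ch [Fintype V] (M : Matrix V V ℚ) (t : ℕ) (a b : V) :
    (M ^ (t + Fintype.card V)) a b =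
      - ∑ i ∈ range (Fintype.card V), M.charpoly.coeff i * (M ^ (t + i)) a b := by
  have h := Matrix.aeval_self_charpoly M
  rw [aeval_eq_sum_range, Matrix.charpoly_natDegree_eq_dim, sum_range_succ, pw_top, one_smul] at h
  have h2 : M ^ t * (∑ i ∈ range (Fintype.card V), M.charpoly.coeff i • M ^ i +
      M ^ Fintype.card V) = 0 := by rw [h, mul_zero]
  rw [mul_add, ← pow_add, mul_sum] at h2
  have h3 := congrFun (congrFun h2 a) b
  rw [Matrix.add_apply, Matrix.sum_apply, Matrix.zero_apply] at h3
  rw [eq_neg_iff_add_eq_zero, add_comm, ← h3]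
  congr 1
  refine sum_congr rfl fun i _ => ?_
  rw [Matrix.mul_smul, Matrix.smul_apply, ← pow_add, smul_eq_mul]

theorem pow_of_adj [Fintype V] {M N : Matrix V V ℚ} (hp : M.charpoly = N.charpoly) {a b : V}
    (h : adj M a a = adj N b b) (j : ℕ) : (M ^ j) a a = (N ^ j) b b := by
  induction j using Nat.strong_induction_on with
  | _ j ih =>
    by_cases hj : j ≤ Fintype.card V - 1
    · have h1 := pw_coeff M j a a hj
      have h2 := pw_coeff N j b b hj
      rw [h, h2, hp, sum_range_succ, sum_range_succ] at h1
      have h3 : ∑ i ∈ range j, N.charpoly.coeff (Fintype.card V - j + i) * (M ^ i) a a =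
          ∑ i ∈ range j, N.charpoly.coeff (Fintype.card V - j + i) * (N ^ i) b b :=
        sum_congr rfl fun i hi => by rw [ih i (mem_range.1 hi)]
      rw [h3] at h1
      have h4 := add_left_cancel h1
      have hn : 0 < Fintype.card V := Fintype.card_pos_iff.2 ⟨a⟩
      have e : Fintype.card V - j + j = Fintype.card V := by omega
      rw [e, pw_top, one_mul, one_mul] at h4
      exact h4.symm
    · have hn : 0 < Fintype.card V := Fintype.card_pos_iff.2 ⟨a⟩
      obtain ⟨t, rfl⟩ : ∃ t, j = t + Fintype.card V := ⟨j - Fintype.card V, by omega⟩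
      rw [pw_ch, pw_ch, hp]
      congr 1
      refine sum_congr rfl fun i hi => ?_
      have hi' := mem_range.1 hi
      rw [ih (t + i) (by omega)]

theorem adj_of_pow [Fintype V] {M : Matrix V V ℚ} {a b : V}
    (h : ∀ j : ℕ, (M ^ j) a a = (M ^ j) b b) : adj M a a = adj M b b := by
  have hn : 0 < Fintype.card V := Fintype.card_pos_iff.2 ⟨a⟩
  ext k
  by_cases hk : k ≤ Fintype.card V - 1
  · obtain ⟨j, hj⟩ : ∃ j, j = Fintype.card V - 1 - k := ⟨_, rfl⟩
    have e : k = Fintype.card V - 1 - j := by omega
    rw [e, pw_coeff M j a a (by omega), pw_coeff M j b b (by omega)]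
    exact sum_congr rfl fun i _ => by rw [h i]
  · rw [coeff_eq_zero_of_natDegree_lt, coeff_eq_zero_of_natDegree_lt]
    · rw [(adj_diag_deg M b).2]
      omega
    · rw [(adj_diag_deg M a).2]
      omega

/-- sum of the principal minors of size `k` -/
private noncomputable def pw_cf {U : Type} [Fintype U] (A : Matrix U U ℚ) (k : ℕ) : ℚ :=
  ∑ K ∈ (univ : Finset U).powersetCard k, (A.submatrix (Subtype.val : K → U) Subtype.val).det

private theorem pw_cfc {U : Type} [Fintype U] (A : Matrix U U ℚ) {k : ℕ}
    (hk : k ≤ Fintype.card U) :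
    A.charpoly.coeff (Fintype.card U - k) = (-1) ^ k * pw_cf A k :=
  Matrix.charpoly_coeff_eq_sum_minors A k hk

private theorem pw_cfd {U : Type} [Fintype U] (d : DecidableEq U) (A : Matrix U U ℚ) {k : ℕ}
    (hk : k ≤ Fintype.card U) :
    (@Matrix.charpoly ℚ _ U d _ A).coeff (Fintype.card U - k) = (-1) ^ k * pw_cf A k := by
  rw [Subsingleton.elim d (fun a b => Classical.propDecidable (a = b))]
  exact pw_cfc A hk

private theorem pw_dec {U : Type} [Fintype U] (d1 d2 : DecidableEq U) (M : Matrix U U ℚ) :
    @Matrix.det U d1 _ ℚ _ M = @Matrix.det U d2 _ ℚ _ M := by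
  rw [Subsingleton.elim d1 d2]

private theorem pw_sub [Fintype V] (A : Matrix V V ℚ) (v : V) (k : ℕ) :
    pw_cf (A.submatrix (Subtype.val : {x : V // x ≠ v} → V) Subtype.val) k =
      ∑ K ∈ ((univ : Finset V).erase v).powersetCard k,
        (A.submatrix (Subtype.val : K → V) Subtype.val).det := by
  unfold pw_cf
  refine Finset.sum_bij (fun K _ => K.map (Function.Embedding.subtype _)) ?_ ?_ ?_ ?_
  · intro K hK
    rw [mem_powersetCard] at hK ⊢
    refine ⟨?_, by rw [card_map]; exact hK.2⟩
    intro x hx
    rw [mem_map] at hx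
    obtain ⟨y, -, rfl⟩ := hx
    exact mem_erase.2 ⟨y.2, mem_univ _⟩
  · intro K _ K' _ h
    exact map_injective _ h
  · intro K hK
    rw [mem_powersetCard] at hK
    have h1 : ∀ x ∈ K, x ≠ v := fun x hx => (mem_erase.1 (hK.1 hx)).1
    refine ⟨K.subtype (fun x => x ≠ v), ?_, subtype_map_of_mem h1⟩
    rw [mem_powersetCard]
    refine ⟨subset_univ _, ?_⟩
    rw [card_subtype, filter_true_of_mem h1]
    exact hK.2
  · intro K _
    rw [← Matrix.det_submatrix_equiv_self
      (K.equivMap (Function.Embedding.subtype (fun x : V => x ≠ v)))]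
    exact pw_dec _ _ _

private theorem pw_count [Fintype V] (A : Matrix V V ℚ) (k : ℕ) :
    ∑ v : V, pw_cf (A.submatrix (Subtype.val : {x : V // x ≠ v} → V) Subtype.val) k =
      ((Fintype.card V - k : ℕ) : ℚ) * pw_cf A k := by
  simp only [pw_sub]
  rw [Finset.sum_comm' (s' := fun K => Kᶜ) (t' := (univ : Finset V).powersetCard k)]
  · unfold pw_cf
    rw [mul_sum]
    refine sum_congr rfl fun K hK => ?_
    rw [mem_powersetCard] at hK
    rw [sum_const, nsmul_eq_mul, card_compl, hK.2]
  · intro v K
    simp only [mem_univ, true_and, mem_powersetCard, mem_compl, subset_univ]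
    constructor
    · rintro ⟨h1, h2⟩
      exact ⟨fun h => (mem_erase.1 (h1 h)).1 rfl, h2⟩
    · rintro ⟨h1, h2⟩
      exact ⟨fun x hx => mem_erase.2 ⟨fun h => h1 (h ▸ hx), mem_univ _⟩, h2⟩

theorem adj_sum [Fintype V] (M : Matrix V V ℚ) : ∑ a, adj M a a = derivative M.charpoly := by
  ext m
  rw [finsetSum_coeff, coeff_derivative]
  by_cases hm : Fintype.card V ≤ m
  · rw [pw_zero M (by omega), zero_mul]
    refine sum_eq_zero fun a _ => ?_
    apply coeff_eq_zero_of_natDegree_lt
    rw [(adj_diag_deg M a).2]
    have hn : 0 < Fintype.card V := Fintype.card_pos_iff.2 ⟨a⟩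
    omega
  · push Not at hm
    obtain ⟨k, hk⟩ : ∃ k, k = Fintype.card V - 1 - m := ⟨_, rfl⟩
    have e1 : m + 1 = Fintype.card V - k := by omega
    have h1 : ∀ a : V, (adj M a a).coeff m = (-1) ^ k *
        pw_cf (M.submatrix (Subtype.val : {x : V // x ≠ a} → V) Subtype.val) k := by
      intro a
      have h2 : Fintype.card {x : V // x ≠ a} = Fintype.card V - 1 := by
        rw [Fintype.card_subtype_compl, Fintype.card_subtype_eq]
      have e2 : m = Fintype.card {x : V // x ≠ a} - k := by omega
      rw [adj_diag, e2]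
      exact pw_cfd _ _ (by omega)
    rw [sum_congr rfl fun a _ => h1 a, ← mul_sum, pw_count, e1, pw_cfc M (by omega)]
    have e3 : ((Fintype.card V - k : ℕ) : ℚ) = (m : ℚ) + 1 := by
      rw [← e1]
      push_cast
      ring
    rw [e3]
    ring

end SWS
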