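import Pool.Agent.SWS.Un
import Pool.Agent.RGC.Even

/-!
# SWS: codegrees and odd triples in terms of the Seidel matrix

For `w ≠ a, b` the product `SQ a b * SQ a w * SQ w b` is `-1` for an odd triple `a, b, w` and `1` otherwise; for
`w = a` or `w = b` it is `0`. Summing over `w` gives the codegree of `a, b`, and summing over `b` the number of
odd triples through `a`.
-/

set_option autoImplicit false

namespace SWS

open Finset Polynomial RGC
open scoped Classical

variable {V W : Type}

private theorem Uc_sgn (x y z : ZMod 2) :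
    (if x = 1 then (-1 : ℚ) else 1) * ((if z = 1 then (-1 : ℚ) else 1) *
      (if y = 1 then (-1 : ℚ) else 1)) = 1 - 2 * (if x + y + z = 1 then (1 : ℚ) else 0) := by
  have h0 : ∀ x y z : ZMod 2, x = 1 → y = 1 → z = 1 → x + y + z = 1 := by decide
  have h1 : ∀ x y z : ZMod 2, x = 1 → y = 1 → z ≠ 1 → x + y + z ≠ 1 := by decide
  have h2 : ∀ x y z : ZMod 2, x = 1 → y ≠ 1 → z = 1 → x + y + z ≠ 1 := by decide
  have h3 : ∀ x y z : ZMod 2, x = 1 → y ≠ 1 → z ≠ 1 → x + y + z = 1 := by decide
  have h4 : ∀ x y z : ZMod 2, x ≠ 1 → y = 1 → z = 1 → x + y + z ≠ 1 := by decide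
  have h5 : ∀ x y z : ZMod 2, x ≠ 1 → y = 1 → z ≠ 1 → x + y + z = 1 := by decide
  have h6 : ∀ x y z : ZMod 2, x ≠ 1 → y ≠ 1 → z = 1 → x + y + z = 1 := by decide
  have h7 : ∀ x y z : ZMod 2, x ≠ 1 → y ≠ 1 → z ≠ 1 → x + y + z ≠ 1 := by decide
  by_cases hx : x = 1
  · by_cases hy : y = 1
    · by_cases hz : z = 1
      · rw [if_pos hx, if_pos hy, if_pos hz, if_pos (h0 x y z hx hy hz)]; norm_num
      · rw [if_pos hx, if_pos hy, if_neg hz, if_neg (h1 x y z hx hy hz)]; norm_num
    · by_cases hz : z = 1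
      · rw [if_pos hx, if_neg hy, if_pos hz, if_neg (h2 x y z hx hy hz)]; norm_num
      · rw [if_pos hx, if_neg hy, if_neg hz, if_pos (h3 x y z hx hy hz)]; norm_num
  · by_cases hy : y = 1
    · by_cases hz : z = 1
      · rw [if_neg hx, if_pos hy, if_pos hz, if_neg (h4 x y z hx hy hz)]; norm_num
      · rw [if_neg hx, if_pos hy, if_neg hz, if_pos (h5 x y z hx hy hz)]; norm_num
    · by_cases hz : z = 1
      · rw [if_neg hx, if_neg hy, if_pos hz, if_pos (h6 x y z hx hy hz)]; norm_num
      · rw [if_neg hx, if_neg hy, if_neg hz, if_neg (h7 x y z hx hy hz)]; norm_num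

private theorem Uc_term (G : SimpleGraph V) {a b : V} (h : a ≠ b) (w : V) :
    SQ G a b * (SQ G a w * SQ G w b) =
      1 - (if w = a then (1 : ℚ) else 0) - (if w = b then (1 : ℚ) else 0) -
        2 * (if T G a b w = 1 then (1 : ℚ) else 0) := by
  by_cases ha : w = a
  · rw [ha, sq_diag, if_pos rfl, if_neg h, T_outer, if_neg (by decide)]
    norm_num
  · by_cases hb : w = b
    · rw [hb, sq_diag, if_neg (Ne.symm h), if_pos rfl, T_right, if_neg (by decide)]
      norm_num
    · rw [if_neg ha, if_neg hb, sq_s G h, sq_s G (Ne.symm ha), sq_s G hb, sub_zero, sub_zero,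
        Uc_sgn, s_comm G w b]
      rfl

theorem sq_cd [Fintype V] (G : SimpleGraph V) {a b : V} (h : a ≠ b) :
    SQ G a b * (SQ G * SQ G) a b = (Fintype.card V : ℚ) - 2 - 2 * cd G a b := by
  rw [Matrix.mul_apply, mul_sum, sum_congr rfl (fun w _ => Uc_term G h w), sum_sub_distrib,
    sum_sub_distrib, sum_sub_distrib, sum_ite_eq', sum_ite_eq', if_pos (mem_univ _),
    if_pos (mem_univ _), ← mul_sum, sum_const, card_univ, nsmul_eq_mul, mul_one, sum_boole]
  unfold cd
  ring

private theorem Uc_comm (G : SimpleGraph V) (a b : V) : SQ G a b = SQ G b a :=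
  (sq_symm G).apply b a

theorem sq_thr [Fintype V] (G : SimpleGraph V) (v : V) :
    (SQ G ^ 3) v v =
      ((Fintype.card V : ℚ) - 1) * ((Fintype.card V : ℚ) - 2) - 4 * oddThrough G v := by
  have h1 : (SQ G ^ 3) v v = ∑ a, SQ G v a * (SQ G * SQ G) v a := by
    rw [pow_succ, pow_two, Matrix.mul_apply]
    refine sum_congr rfl fun a _ => ?_
    rw [Uc_comm G a v, mul_comm]
  have hcd : cd G v v = 0 := by
    unfold cd
    rw [card_eq_zero, filter_eq_empty_iff]
    intro w _
    rw [T_left]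
    decide
  have h2 : ∀ a, SQ G v a * (SQ G * SQ G) v a =
      ((Fintype.card V : ℚ) - 2) - (if a = v then ((Fintype.card V : ℚ) - 2) else 0) -
        2 * (cd G v a : ℚ) := by
    intro a
    by_cases ha : a = v
    · rw [ha, sq_diag, if_pos rfl, hcd]
      norm_num
    · rw [sq_cd G (Ne.symm ha), if_neg ha, sub_zero]
  have h3 : (2 : ℚ) * oddThrough G v = ∑ a, (cd G v a : ℚ) := by
    have h4 := two_oddThrough G v
    exact_mod_cast h4
  rw [h1, sum_congr rfl (fun a _ => h2 a), sum_sub_distrib, sum_sub_distrib, sum_ite_eq',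
    if_pos (mem_univ _), ← mul_sum, ← h3, sum_const, card_univ, nsmul_eq_mul]
  ring

end SWS
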