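import Pool.Agent.SWS.Mu
import Pool.Agent.SWS.Uc
import Pool.Agent.SWS.Pw
import Pool.Agent.SWS.Ct
import Pool.Agent.RGC.Off

/-!
# SWS: mutations exist

MODULE Ex. By `inU_ctx` reduce to `K = G`, i.e. prove for every `Ctx G H P Q` and `v`: there are
`L`, `d` with `Nonempty (H ≃g L)` and `Mut G L v d Q`. By `RGC.transport h.deck`: `L ≃g H` with
`OffEq G L v`. `L` satisfies `E L = L`, charpoly `P`, diagonal `Q` (`Ctx.iso`). Row: for `u ≠ v`,
`RGC.off_cd`: `cd L u v + oddThrough G u = cd G u v + oddThrough L u`; `oddThrough G u = oddThrough L u`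
by `sq_thr` and `pow_of_adj` (`j = 3`); so `cd L u v = cd G u v`, and `RGC.s_E_one` with `E G = G`,
`E L = L` gives `s L u v = s G u v` (`RGC.z2c`, `RGC.s_comm`). `d` from `RGC.cut` (for `a, b ≠ v`:
`T L v a b = T G v a b + d a + d b`; unfold `T`, rows at `v` are equal) : field `off`. If `d` were
constant off `v`, `RGC.T_eq_of_cut` and `RGC.swEq_of_T` would give `SwEq G L`, so `SwEq G H`: so both
values are taken (`RGC.z2c`). `arow`, `same`, `diff`: `mut_adj` with `A = SQ G`, `B = SQ L`,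
`ε a = 1` if `d a = 0` and `-1` otherwise (`sq_s`, and `off`). `cut`: for `a ≠ v` compare `adj_row`
(third index `v`, `adj_symm`) for `SQ G` and `SQ L`: the columns at `v` agree, so
`∑ c, C (SQ G a c) * Aj G c v = ∑ c, C (SQ L a c) * Aj G c v`; the terms with `c = v` or `d c = d a` are
equal, those with `d c ≠ d a`, `c ≠ v` are opposite, so twice the sum is `0`.
-/

set_option autoImplicit false

namespace SWS

open Finset Polynomial RGC
open scoped Classical

variable {V W : Type}

private theorem Ex_thr [Fintype V] {K L : SimpleGraph V} {P Q : ℚ[X]} (h : Ctx K L P Q) (u : V) :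
    oddThrough L u = oddThrough K u := by
  have h1 : (SQ K ^ 3) u u = (SQ L ^ 3) u u :=
    pow_of_adj (h.cG.trans h.cH.symm) ((h.aG u).trans (h.aH u).symm) 3
  rw [sq_thr, sq_thr] at h1
  have h2 : (oddThrough L u : ℚ) = oddThrough K u := by linarith
  exact_mod_cast h2

private theorem Ex_row [Fintype V] {K L : SimpleGraph V} {P Q : ℚ[X]} (h : Ctx K L P Q) {v : V}
    (ho : OffEq K L v) (a : V) : s L v a = s K v a := by
  by_cases ha : a = v
  · rw [ha, s_self, s_self]
  have h1 := off_cd ho ha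
  rw [Ex_thr h a] at h1
  have h2 : cd L a v = cd K a v := Nat.add_right_cancel h1
  have h3 := s_E_one K ha
  have h4 := s_E_one L ha
  rw [h.evG] at h3
  rw [h.evH, h2] at h4
  rw [s_comm L v a, s_comm K v a]
  have h5 : s L a v = 1 ↔ s K a v = 1 := h4.trans h3.symm
  rcases z2c (s L a v) with h6 | h6
  · rcases z2c (s K a v) with h7 | h7
    · rw [h6, h7]
    · rw [h7, h5.2 h7]
  · rw [h6, h5.1 h6]

private theorem Ex_eps {d : V → ZMod 2} {a b : V} :
    (if d a = 0 then (1 : ℚ) else -1) = (if d b = 0 then (1 : ℚ) else -1) ↔ d a = d b := by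
  constructor
  · intro h
    rcases z2c (d a) with h1 | h1 <;> rcases z2c (d b) with h2 | h2
    · rw [h1, h2]
    · rw [h1, h2, if_pos rfl, if_neg one_ne_zero] at h
      norm_num at h
    · rw [h1, h2, if_neg one_ne_zero, if_pos rfl] at h
      norm_num at h
    · rw [h1, h2]
  · intro h
    rw [h]

private theorem Ex_sq {K L : SimpleGraph V} {v : V} {d : V → ZMod 2}
    (hoff : ∀ a b, a ≠ v → b ≠ v → a ≠ b → s L a b = s K a b + d a + d b) (a b : V) (ha : a ≠ v)
    (hb : b ≠ v) : SQ L a b =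
      (if d a = 0 then (1 : ℚ) else -1) * (if d b = 0 then (1 : ℚ) else -1) * SQ K a b := by
  by_cases hab : a = b
  · rw [hab, sq_diag, sq_diag, mul_zero]
  rw [sq_s L hab, sq_s K hab, hoff a b ha hb hab]
  have h01 : (0 : ZMod 2) ≠ 1 := by decide
  have h10 : (1 : ZMod 2) ≠ 0 := by decide
  have h11 : (1 : ZMod 2) + 1 = 0 := by decide
  rcases z2c (d a) with h1 | h1 <;> rcases z2c (d b) with h2 | h2 <;>
    rcases z2c (s K a b) with h3 | h3 <;>
    simp only [h1, h2, h3, add_zero, zero_add, h11, if_neg h01, if_neg h10] <;>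
    norm_num

private theorem Ex_core [Fintype V] {K L : SimpleGraph V} {P Q : ℚ[X]} (h : Ctx K L P Q) {v : V}
    (ho : OffEq K L v) : ∃ d : V → ZMod 2, Mut K L v d Q := by
  obtain ⟨d, hdv, hd⟩ := RGC.cut ho
  have hrow := Ex_row h ho
  have hoff : ∀ a b, a ≠ v → b ≠ v → a ≠ b → s L a b = s K a b + d a + d b := by
    intro a b ha hb _
    have h1 := hd a b ha hb
    unfold T at h1
    rw [hrow a, hrow b] at h1
    have key : ∀ x y z p q r : ZMod 2, x + p + y = x + q + y + z + r → p = q + z + r := by decide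
    exact key _ _ _ _ _ _ h1
  have hex : ∃ a b, a ≠ v ∧ b ≠ v ∧ d a ≠ d b := by
    by_contra hcon
    refine h.ne (swEq_of_T (T_eq_of_cut ho hd fun a b ha hb => ?_))
    by_contra hab
    exact hcon ⟨a, b, ha, hb, hab⟩
  obtain ⟨x, y, hx, hy, hxy⟩ := hex
  have hex01 : (∃ a, a ≠ v ∧ d a = 0) ∧ ∃ a, a ≠ v ∧ d a = 1 := by
    rcases z2c (d x) with h1 | h1 <;> rcases z2c (d y) with h2 | h2
    · exact (hxy (h1.trans h2.symm)).elim
    · exact ⟨⟨x, hx, h1⟩, ⟨y, hy, h2⟩⟩
    · exact ⟨⟨y, hy, h2⟩, ⟨x, hx, h1⟩⟩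
    · exact (hxy (h1.trans h2.symm)).elim
  have hvrow : ∀ a, SQ L v a = SQ K v a := by
    intro a
    by_cases ha : v = a
    · rw [← ha, sq_diag, sq_diag]
    · rw [sq_s L ha, sq_s K ha, hrow a]
  have hsq := Ex_sq (K := K) (L := L) hoff
  obtain ⟨m1, m2, m3⟩ := mut_adj (sq_symm K) (sq_symm L) (h.cG.trans h.cH.symm) h.aG h.aH v
    (ε := fun a => if d a = 0 then (1 : ℚ) else -1) (fun a => by split_ifs <;> norm_num) hsq hvrow
    (fun a ha h0 => by
      have h1 := sq_mul K (fun h2 => ha h2.symm : v ≠ a)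
      rw [h0] at h1
      norm_num at h1)
  refine ⟨d, hrow, hoff, hex01.1, hex01.2, m1, fun a b ha hb hab => m2 a b ha hb (Ex_eps.2 hab),
    fun a b ha hb hab => m3 a b ha hb fun h2 => hab (Ex_eps.1 h2), ?_⟩
  intro a ha
  have r1 := adj_row (SQ K) a v
  have r2 := adj_row (SQ L) a v
  rw [if_neg ha] at r1 r2
  have c1 : ∀ c, adj (SQ K) c v = Aj K v c := fun c => adj_symm (sq_symm K) c v
  have c2 : ∀ c, adj (SQ L) c v = Aj K v c := fun c => (adj_symm (sq_symm L) c v).trans (m1 c)
  simp only [c1] at r1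
  simp only [c2] at r2
  have e1 : ∑ c, (C (SQ K a c) * Aj K v c - C (SQ L a c) * Aj K v c) = 0 := by
    rw [Finset.sum_sub_distrib]
    linear_combination r2 - r1
  have e2 : ∀ c, C (SQ K a c) * Aj K v c - C (SQ L a c) * Aj K v c =
      if c ≠ v ∧ d c ≠ d a then 2 * (C (SQ K a c) * Aj K v c) else 0 := by
    intro c
    by_cases hc : c = v
    · rw [if_neg (fun h2 => h2.1 hc), hc]
      have e3 : SQ L a v = SQ K a v := by
        have e4 : SQ L a v = SQ L v a := (sq_symm L).apply v a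
        have e5 : SQ K a v = SQ K v a := (sq_symm K).apply v a
        rw [e4, e5, hvrow]
      rw [e3, sub_self]
    · have e3 := hsq a c ha hc
      by_cases hdc : d c = d a
      · rw [if_neg (fun h2 => h2.2 hdc)]
        have e4 : SQ L a c = SQ K a c := by
          rw [e3, hdc]
          split_ifs <;> ring
        rw [e4, sub_self]
      · rw [if_pos ⟨hc, hdc⟩]
        have e4 : SQ L a c = -SQ K a c := by
          rw [e3]
          rcases z2c (d a) with h1 | h1 <;> rcases z2c (d c) with h2 | h2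
          · exact (hdc (h2.trans h1.symm)).elim
          · rw [h1, h2, if_pos rfl, if_neg one_ne_zero]
            ring
          · rw [h1, h2, if_neg one_ne_zero, if_pos rfl]
            ring
          · exact (hdc (h2.trans h1.symm)).elim
        rw [e4, C_neg]
        ring
  rw [Finset.sum_congr rfl fun c _ => e2 c, ← Finset.sum_filter, ← Finset.mul_sum] at e1
  rcases mul_eq_zero.1 e1 with h2 | h2
  · exact (two_ne_zero h2).elim
  · exact h2

theorem exists_mut [Fintype V] {G H K : SimpleGraph V} {P Q : ℚ[X]} (h : Ctx G H P Q) {b : Bool}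
    (hK : InU G H b K) (v : V) :
    ∃ (L : SimpleGraph V) (d : V → ZMod 2), InU G H (!b) L ∧ Mut K L v d Q := by
  have h1 := inU_ctx h hK
  obtain ⟨π, hπ⟩ := RGC.transport h1.deck
  obtain ⟨L, e, -, ho⟩ := hπ v
  have h2 : Ctx K L P Q := h1.iso (SimpleGraph.Iso.refl (G := K)) e.symm
  obtain ⟨d, hd⟩ := Ex_core h2 ho
  refine ⟨L, d, ?_, hd⟩
  cases b with
  | true => exact ⟨e.symm⟩
  | false => exact ⟨e.symm⟩

end SWS
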