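import Pool.Agent.SWS.Defs

/-!
# SWS: real roots

`real_root`: a nonunit divisor of the characteristic polynomial of a symmetric rational matrix has a
real root, since this polynomial splits over the reals. `coprime_real`: a divisor of it without
a common real root with `g` is coprime to `g`.
-/

set_option autoImplicit false

namespace SWS

open Finset Polynomial
open scoped Classical

variable {V W : Type}

theorem real_root [Fintype V] {M : Matrix V V ℚ} (hM : M.IsSymm) {g : ℚ[X]}
    (hg : g ∣ M.charpoly) (hu : ¬ IsUnit g) : ∃ μ : ℝ, aeval μ g = 0 := by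
  have hR : (M.map (algebraMap ℚ ℝ)).IsHermitian := by
    ext i j
    have := hM.apply i j
    simp [Matrix.conjTranspose_apply, this]
  have hs := hR.splits_charpoly
  rw [Matrix.charpoly_map] at hs
  have h0 : M.charpoly.map (algebraMap ℚ ℝ) ≠ 0 := ((Matrix.charpoly_monic M).map _).ne_zero
  have hg0 : g ≠ 0 := by
    rintro rfl
    exact (Matrix.charpoly_monic M).ne_zero (zero_dvd_iff.1 hg)
  have hd : g.map (algebraMap ℚ ℝ) ∣ M.charpoly.map (algebraMap ℚ ℝ) :=
    Polynomial.map_dvd _ hg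
  have hsg := hs.of_dvd h0 hd
  have hdeg : (g.map (algebraMap ℚ ℝ)).degree ≠ 0 := by
    rw [Polynomial.degree_map]
    intro h
    exact hu (Polynomial.isUnit_iff_degree_eq_zero.2 h)
  obtain ⟨μ, hμ⟩ := hsg.exists_eval_eq_zero hdeg
  exact ⟨μ, by rwa [Polynomial.eval_map_algebraMap] at hμ⟩

theorem coprime_real [Fintype V] {M : Matrix V V ℚ} (hM : M.IsSymm) {f g : ℚ[X]}
    (hf : f ∣ M.charpoly) (h : ∀ μ : ℝ, aeval μ f = 0 → aeval μ g ≠ 0) : IsCoprime f g := by
  by_contra hc
  have hu : ¬ IsUnit (EuclideanDomain.gcd f g) := fun h => hc (EuclideanDomain.gcd_isUnit_iff.1 h)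
  obtain ⟨μ, hμ⟩ := real_root hM ((EuclideanDomain.gcd_dvd_left f g).trans hf) hu
  obtain ⟨a, ha⟩ := EuclideanDomain.gcd_dvd_left f g
  obtain ⟨b, hb⟩ := EuclideanDomain.gcd_dvd_right f g
  have h1 : aeval μ f = 0 := by rw [ha, map_mul, hμ, zero_mul]
  have h2 : aeval μ g = 0 := by rw [hb, map_mul, hμ, zero_mul]
  exact h μ h1 h2

end SWS
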