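import Pool.Agent.SWS.Fk
import Pool.Agent.SWS.Rr
import Pool.Agent.SWS.Ex

/-!
# SWS: the two factors of a cut

The two sides of a cut give coprime factors `f0`, `f1` of the diagonal entry `Q` of the adjugate (`side`); common
real roots are excluded by an eigenvector built from the two sides, and `derivative P = n * Q`.
-/

set_option autoImplicit false

namespace SWS

open Finset Polynomial RGC
open scoped Classical

variable {V W : Type}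

private theorem Fa_cop {U : Type} [Fintype U] [hd : DecidableEq U] {M : Matrix U U ℚ} (hM : M.IsSymm)
    {f g : ℚ[X]} (hf : f ∣ M.charpoly) (h : ∀ μ : ℝ, aeval μ f = 0 → aeval μ g ≠ 0) :
    IsCoprime f g := by
  have e : hd = fun a b => Classical.propDecidable (a = b) := Subsingleton.elim _ _
  subst e
  exact coprime_real hM hf h

private theorem Fa_z2 {x y z : ZMod 2} (h : y ≠ x) : (z = x ↔ z ≠ y) := by
  revert x y z
  decide

private theorem Fa_side [Fintype V] {K L : SimpleGraph V} {P Q : ℚ[X]} (hn : 10 ≤ Fintype.card V)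
    (hP : (SQ K).charpoly = P) (hQ : ∀ v, Aj K v v = Q) {v : V} {d : V → ZMod 2}
    (hm : Mut K L v d Q) (x : ZMod 2) (hx : ∃ a, a ≠ v ∧ d a = x) :
    ∃ f : ℚ[X], f.Monic ∧ 1 ≤ f.natDegree ∧ f ∣ Q ∧ (∀ a, a ≠ v → d a = x → Q ∣ f * Aj K v a) ∧
      (∀ g : ℚ[X], (∀ a, a ≠ v → d a = x → Q ∣ g * Aj K v a) → f ∣ g) ∧
      ∀ μ : ℝ, aeval μ f = 0 → aeval μ P ≠ 0 ∧
        ∃ z : V → ℝ, (∀ a, ¬ (a ≠ v ∧ d a = x) → z a = 0) ∧
          (∀ a, a ≠ v → ∑ c, ((SQ K a c : ℚ) : ℝ) * z c = μ * z a) ∧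
          ∑ c, ((SQ K v c : ℚ) : ℝ) * z c ≠ 0 := by
  obtain ⟨f, h1, h2, h3, h4, h5, h6⟩ := side (K := K) (v := v) (D := fun a => a ≠ v ∧ d a = x)
    hn hP hQ (fun a h => h.1) hx
    (fun a ha => by
      have hc := hm.cut a ha.1
      refine (Finset.sum_congr ?_ fun _ _ => rfl).trans hc
      ext c
      simp only [mem_filter, mem_univ, true_and]
      rw [ha.2]
      exact ⟨fun h => ⟨h.1, fun h' => h.2 ⟨h.1, h'⟩⟩, fun h => ⟨h.1, fun h' => h.2 h'.2⟩⟩)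
    (fun a ha hna => by
      have hc := hm.cut a ha
      have hda : d a ≠ x := fun h => hna ⟨ha, h⟩
      refine (Finset.sum_congr ?_ fun _ _ => rfl).trans hc
      ext c
      simp only [mem_filter, mem_univ, true_and]
      exact ⟨fun h => ⟨h.1, (Fa_z2 hda).1 h.2⟩, fun h => ⟨h.1, (Fa_z2 hda).2 h.2⟩⟩)
  exact ⟨f, h1, h2, h3, fun a ha hd => h4 a ⟨ha, hd⟩,
    fun g hg => h5 g (fun a ha => hg a ha.1 ha.2), h6⟩

private theorem Fa_eig [Fintype V] {K : SimpleGraph V} {μ : ℝ} {z : V → ℝ} (hz : ∃ c, z c ≠ 0)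
    (h : ∀ a, ∑ c, ((SQ K a c : ℚ) : ℝ) * z c = μ * z a) : aeval μ (SQ K).charpoly = 0 := by
  have h1 : (∃ w : V → ℝ, w ≠ 0 ∧
      (Matrix.scalar V μ - (SQ K).map (algebraMap ℚ ℝ)).mulVec w = 0) := by
    refine ⟨z, fun h0 => ?_, ?_⟩
    · obtain ⟨c, hc⟩ := hz
      rw [h0] at hc
      exact hc rfl
    · funext a
      rw [Matrix.sub_mulVec, Pi.sub_apply, Pi.zero_apply, sub_eq_zero]
      have h2 : ((SQ K).map (algebraMap ℚ ℝ)).mulVec z a = μ * z a := by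
        rw [← h a]
        rfl
      rw [h2]
      simp [Matrix.scalar_apply, Matrix.mulVec_diagonal]
  have h2 := Matrix.exists_mulVec_eq_zero_iff.1 h1
  rw [← Matrix.eval_charpoly, Matrix.charpoly_map, eval_map] at h2
  exact h2

private theorem Fa_no [Fintype V] {K : SimpleGraph V} {P : ℚ[X]} (hP : (SQ K).charpoly = P)
    {v : V} {d : V → ZMod 2} {μ : ℝ} (hμ : aeval μ P ≠ 0) {z0 z1 : V → ℝ}
    (a0 : ∀ a, ¬ (a ≠ v ∧ d a = 0) → z0 a = 0) (a1 : ∀ a, ¬ (a ≠ v ∧ d a = 1) → z1 a = 0)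
    (b0 : ∀ a, a ≠ v → ∑ c, ((SQ K a c : ℚ) : ℝ) * z0 c = μ * z0 a)
    (b1 : ∀ a, a ≠ v → ∑ c, ((SQ K a c : ℚ) : ℝ) * z1 c = μ * z1 a)
    (c0 : ∑ c, ((SQ K v c : ℚ) : ℝ) * z0 c ≠ 0) (c1 : ∑ c, ((SQ K v c : ℚ) : ℝ) * z1 c ≠ 0) :
    False := by
  obtain ⟨α, hα⟩ : ∃ α, α = ∑ c, ((SQ K v c : ℚ) : ℝ) * z0 c := ⟨_, rfl⟩
  obtain ⟨β, hβ⟩ : ∃ β, β = ∑ c, ((SQ K v c : ℚ) : ℝ) * z1 c := ⟨_, rfl⟩
  have hs : ∀ a, ∑ c, ((SQ K a c : ℚ) : ℝ) * (β * z0 c - α * z1 c) =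
      β * (∑ c, ((SQ K a c : ℚ) : ℝ) * z0 c) - α * ∑ c, ((SQ K a c : ℚ) : ℝ) * z1 c := by
    intro a
    rw [Finset.mul_sum, Finset.mul_sum, ← Finset.sum_sub_distrib]
    exact Finset.sum_congr rfl fun c _ => by ring
  apply hμ
  rw [← hP]
  refine Fa_eig (z := fun c => β * z0 c - α * z1 c) ?_ (fun a => ?_)
  · have h1 : ∃ c, z0 c ≠ 0 := by
      by_contra hcon
      apply c0
      refine Finset.sum_eq_zero fun c _ => ?_
      have h2 : z0 c = 0 := by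
        by_contra h3
        exact hcon ⟨c, h3⟩
      rw [h2, mul_zero]
    obtain ⟨c, hc⟩ := h1
    refine ⟨c, ?_⟩
    have hD : c ≠ v ∧ d c = 0 := by
      by_contra h2
      exact hc (a0 c h2)
    have h2 : z1 c = 0 := a1 c (fun h => by
      rw [hD.2] at h
      exact absurd h.2 (by decide))
    show β * z0 c - α * z1 c ≠ 0
    rw [h2, mul_zero, sub_zero]
    rw [← hβ] at c1
    exact mul_ne_zero c1 hc
  · rw [hs]
    by_cases ha : a = v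
    · rw [ha, ← hα, ← hβ]
      show β * α - α * β = μ * (β * z0 v - α * z1 v)
      rw [a0 v (fun h => h.1 rfl), a1 v (fun h => h.1 rfl)]
      ring
    · rw [b0 a ha, b1 a ha]
      ring

theorem factors [Fintype V] {G H K L : SimpleGraph V} {P Q : ℚ[X]} (h : Ctx G H P Q) {b : Bool}
    (hK : InU G H b K) {v : V} {d : V → ZMod 2} (hm : Mut K L v d Q) :
    ∃ f0 f1 : ℚ[X], f0.Monic ∧ f1.Monic ∧ 1 ≤ f0.natDegree ∧ 1 ≤ f1.natDegree ∧
      IsCoprime f0 P ∧ IsCoprime f1 P ∧ IsCoprime f0 f1 ∧ f0 * f1 ∣ Q ∧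
      f0 * f1 * EuclideanDomain.gcd P (derivative P) ∣ derivative P ∧
      Lab f0 f1 Q K v d ∧
      (∀ g : ℚ[X], (∀ a, a ≠ v → d a = 0 → Q ∣ g * Aj K v a) → f0 ∣ g) ∧
      (∀ g : ℚ[X], (∀ a, a ≠ v → d a = 1 → Q ∣ g * Aj K v a) → f1 ∣ g) := by
  have hctx := inU_ctx h hK
  have hn : 10 ≤ Fintype.card V := h.card
  have hP : (SQ K).charpoly = P := hctx.cG
  have hQ : ∀ v, Aj K v v = Q := hctx.aG
  obtain ⟨f0, m0, n0, q0, l0, g0, r0⟩ := Fa_side hn hP hQ hm 0 hm.ex0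
  obtain ⟨f1, m1, n1, q1, l1, g1, r1⟩ := Fa_side hn hP hQ hm 1 hm.ex1
  have hQc : Q = ((SQ K).submatrix (Subtype.val : {x : V // x ≠ v} → V) Subtype.val).charpoly := by
    rw [← adj_diag]
    exact (hQ v).symm
  have hsym : ((SQ K).submatrix (Subtype.val : {x : V // x ≠ v} → V) Subtype.val).IsSymm :=
    (sq_symm K).submatrix _
  have p0 : IsCoprime f0 P := Fa_cop hsym (hQc ▸ q0) (fun μ hμ => (r0 μ hμ).1)
  have p1 : IsCoprime f1 P := Fa_cop hsym (hQc ▸ q1) (fun μ hμ => (r1 μ hμ).1)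
  have p01 : IsCoprime f0 f1 := Fa_cop hsym (hQc ▸ q0) (fun μ hμ hμ1 => by
    obtain ⟨e0, z0, a0, b0, c0⟩ := r0 μ hμ
    obtain ⟨_, z1, a1, b1, c1⟩ := r1 μ hμ1
    exact Fa_no hP e0 a0 a1 b0 b1 c0 c1)
  have hd : derivative P = (Fintype.card V : ℚ[X]) * Q := by
    rw [← hP, ← adj_sum]
    have h1 : ∀ a, adj (SQ K) a a = Q := hQ
    rw [Finset.sum_congr rfl (fun a _ => h1 a), Finset.sum_const, Finset.card_univ, nsmul_eq_mul]
  have hdQ : f0 * f1 ∣ Q := p01.mul_dvd q0 q1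
  refine ⟨f0, f1, m0, m1, n0, n1, p0, p1, p01, hdQ, ?_, fun a ha => ⟨l0 a ha, l1 a ha⟩, g0, g1⟩
  have hg : EuclideanDomain.gcd P (derivative P) ∣ P := EuclideanDomain.gcd_dvd_left _ _
  refine IsCoprime.mul_dvd ((p0.mul_left p1).of_isCoprime_of_dvd_right hg) ?_
    (EuclideanDomain.gcd_dvd_right _ _)
  rw [hd]
  exact hdQ.mul_left _

end SWS
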