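import Pool.Agent.SWS.Ad
import Pool.Agent.RGC.Sei

/-!
# SWS: the rational Seidel matrix

Entries of the Seidel matrix with rational entries, its characteristic polynomial under switching, and
the entries of the adjugate of `x - S` under isomorphisms and for the cards.
-/

set_option autoImplicit false

namespace SWS

open Finset Polynomial RGC
open scoped Classical

variable {V W : Type}

theorem sq_symm (G : SimpleGraph V) : (SQ G).IsSymm := by
  ext a b
  show SQ G b a = SQ G a b
  unfold SQ
  have h2 : (b = a) = (a = b) := propext eq_comm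
  rw [h2, G.adj_comm b a]

theorem sq_diag (G : SimpleGraph V) (a : V) : SQ G a a = 0 := by
  unfold SQ
  rw [if_pos rfl]

theorem sq_s (G : SimpleGraph V) {a b : V} (h : a ≠ b) :
    SQ G a b = if s G a b = 1 then -1 else 1 := by
  unfold SQ
  rw [if_neg h]
  by_cases h1 : G.Adj a b
  · rw [if_pos h1, if_pos (s_eq_one.2 h1)]
  · rw [if_neg h1, if_neg (fun h2 => h1 (s_eq_one.1 h2))]

theorem sq_mul (G : SimpleGraph V) {a b : V} (h : a ≠ b) : SQ G a b * SQ G a b = 1 := by
  rw [sq_s G h]
  split_ifs <;> norm_num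

theorem sq_map (G : SimpleGraph V) (a b : V) : ((SQ G a b : ℚ) : ℝ) = Sd G a b := by
  unfold SQ Sd
  split_ifs <;> norm_num

theorem chp_real [Fintype V] [Fintype W] {G : SimpleGraph V} {H : SimpleGraph W} :
    (Sd G).charpoly = (Sd H).charpoly ↔ (SQ G).charpoly = (SQ H).charpoly := by
  have hG : Sd G = (SQ G).map (algebraMap ℚ ℝ) := by
    ext a b
    rw [Matrix.map_apply, ← sq_map]
    rfl
  have hH : Sd H = (SQ H).map (algebraMap ℚ ℝ) := by
    ext a b
    rw [Matrix.map_apply, ← sq_map]
    rfl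
  rw [hG, hH, Matrix.charpoly_map, Matrix.charpoly_map]
  exact (Polynomial.map_injective _ (algebraMap ℚ ℝ).injective).eq_iff

theorem chp_swEq [Fintype V] [Fintype W] {G : SimpleGraph V} {H : SimpleGraph W}
    (h : SwEq G H) : (SQ G).charpoly = (SQ H).charpoly :=
  chp_real.1 (sd_swEq h)

private theorem Un_inst {U : Type} (f f' : Fintype U) (i j : DecidableEq U) (M : Matrix U U ℚ) :
    @Matrix.charpoly ℚ _ U i f M = @Matrix.charpoly ℚ _ U j f' M := by
  have h1 : i = j := Subsingleton.elim i j
  have h2 : f = f' := Subsingleton.elim f f'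
  subst h1
  subst h2
  rfl

private theorem Un_card (G : SimpleGraph V) (v : V) :
    SQ (cardOf G v) = (SQ G).submatrix Subtype.val Subtype.val := by
  ext a b
  show SQ (cardOf G v) a b = SQ G a.1 b.1
  unfold SQ
  have h2 : (a = b) = (a.1 = b.1) := propext Subtype.ext_iff
  rw [h2]
  rfl

theorem aj_card [Fintype V] {G H : SimpleGraph V} {v w : V}
    (h : SwEq (cardOf G v) (cardOf H w)) : Aj G v v = Aj H w w := by
  have h1 := chp_swEq h
  rw [Un_card, Un_card] at h1
  unfold Aj
  rw [adj_diag, adj_diag]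
  exact (Un_inst _ _ _ _ _).trans (h1.trans (Un_inst _ _ _ _ _))

theorem aj_iso [Fintype V] {G K : SimpleGraph V} (e : G ≃g K) (a b : V) :
    Aj K (e a) (e b) = Aj G a b := by
  have h1 : SQ K = Matrix.reindex e.toEquiv e.toEquiv (SQ G) := by
    ext x y
    show SQ K x y = SQ G (e.toEquiv.symm x) (e.toEquiv.symm y)
    unfold SQ
    have h2 : (e.toEquiv.symm x = e.toEquiv.symm y) = (x = y) :=
      propext e.toEquiv.symm.injective.eq_iff
    have h3 : G.Adj (e.toEquiv.symm x) (e.toEquiv.symm y) = K.Adj x y :=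
      propext e.symm.map_adj_iff
    rw [h2, h3]
  unfold Aj adj
  rw [h1, Matrix.charmatrix_reindex, Matrix.adjugate_reindex]
  show (SQ G).charmatrix.adjugate (e.toEquiv.symm (e.toEquiv a)) (e.toEquiv.symm (e.toEquiv b)) =
    (SQ G).charmatrix.adjugate a b
  rw [Equiv.symm_apply_apply, Equiv.symm_apply_apply]

theorem aj_symm [Fintype V] (G : SimpleGraph V) (a b : V) : Aj G a b = Aj G b a :=
  adj_symm (sq_symm G) a b

theorem aj_two [Fintype V] (G : SimpleGraph V) {a b : V} (h : a ≠ b) :
    (Aj G a b).coeff (Fintype.card V - 2) = SQ G a b :=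
  adj_two (SQ G) h

theorem aj_deg [Fintype V] (G : SimpleGraph V) {a b : V} (h : a ≠ b) :
    (Aj G a b).natDegree = Fintype.card V - 2 := by
  refine le_antisymm (adj_deg (SQ G) h) (le_natDegree_of_ne_zero ?_)
  rw [aj_two G h]
  intro h0
  have h1 := sq_mul G h
  rw [h0] at h1
  norm_num at h1

theorem aj_three [Fintype V] (G : SimpleGraph V) {a b : V} (h : a ≠ b)
    (hn : 3 ≤ Fintype.card V) :
    (Aj G a b).coeff (Fintype.card V - 3) = (SQ G * SQ G) a b :=
  adj_three (fun c => sq_diag G c) h hn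

end SWS
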