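import Pool.Agent.SWS.Dn
import Pool.Agent.SWS.Ev
import Pool.Agent.SWS.Un
import Pool.Agent.SWS.Pw

/-!
# SWS: the factor of one side of a cut

`denom` applied to the column `v` of the adjugate of `x - S` on one side `D` of the cut at `v`. The degree of the
denominator `f` is positive by comparison of degrees. A common real root `μ` of `f` and the characteristic
polynomial `P` has an eigenvector which does not vanish at `v` (walk-regularity), which is not orthogonal to
the image of the vector `z` of `denom`: a contradiction.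
-/

set_option autoImplicit false

namespace SWS

open Finset Polynomial RGC
open scoped Classical

variable {V W : Type}

theorem side [Fintype V] {K : SimpleGraph V} {P Q : ℚ[X]} (hn : 10 ≤ Fintype.card V)
    (hP : (SQ K).charpoly = P) (hQ : ∀ v, Aj K v v = Q) {v : V} {D : V → Prop}
    (hD : ∀ a, D a → a ≠ v) (hne : ∃ a, D a)
    (hc1 : ∀ a, D a →
      ∑ c ∈ univ.filter (fun c => c ≠ v ∧ ¬ D c), C (SQ K a c) * Aj K v c = 0)
    (hc2 : ∀ a, a ≠ v → ¬ D a →
      ∑ c ∈ univ.filter (fun c => D c), C (SQ K a c) * Aj K v c = 0) :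
    ∃ f : ℚ[X], f.Monic ∧ 1 ≤ f.natDegree ∧ f ∣ Q ∧ (∀ a, D a → Q ∣ f * Aj K v a) ∧
      (∀ g : ℚ[X], (∀ a, D a → Q ∣ g * Aj K v a) → f ∣ g) ∧
      ∀ μ : ℝ, aeval μ f = 0 → aeval μ P ≠ 0 ∧
        ∃ z : V → ℝ, (∀ a, ¬ D a → z a = 0) ∧
          (∀ a, a ≠ v → ∑ c, ((SQ K a c : ℚ) : ℝ) * z c = μ * z a) ∧
          ∑ c, ((SQ K v c : ℚ) : ℝ) * z c ≠ 0 := by
  have hsy : ∀ a c, SQ K a c = SQ K c a := fun a c => (sq_symm K).apply c a
  have hQa := adj_diag_deg (SQ K) v
  have hQv : Aj K v v = Q := hQ v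
  have hQm : Q.Monic := by
    rw [← hQv]
    exact hQa.1
  have hQd : Q.natDegree = Fintype.card V - 1 := by
    rw [← hQv]
    exact hQa.2
  have hDv : ¬ D v := fun h => hD v h rfl
  have hrow : ∀ a, a ≠ v → X * Aj K v a = ∑ c, C (SQ K a c) * Aj K v c := by
    intro a ha
    have h := adj_row (SQ K) a v
    rw [if_neg ha] at h
    have h2 : ∑ c, C (SQ K a c) * Aj K v c = ∑ c, C (SQ K a c) * Aj K c v :=
      sum_congr rfl fun c _ => by rw [aj_symm K v c]
    rw [aj_symm K v a, h2]
    exact sub_eq_zero.1 h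
  have hsplit : ∀ F : V → ℚ[X], ∑ c, F c = ∑ c ∈ univ.filter (fun c => D c), F c +
      (F v + ∑ c ∈ univ.filter (fun c => c ≠ v ∧ ¬ D c), F c) := by
    intro F
    have h1 : univ.filter (fun c => ¬ D c) = insert v (univ.filter (fun c => c ≠ v ∧ ¬ D c)) := by
      ext c
      simp only [mem_filter, mem_univ, true_and, mem_insert]
      constructor
      · intro h
        by_cases hc : c = v
        · exact Or.inl hc
        · exact Or.inr ⟨hc, h⟩
      · rintro (h | h)
        · rw [h]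
          exact hDv
        · exact h.2
    have h2 : v ∉ univ.filter (fun c => c ≠ v ∧ ¬ D c) := by
      simp
    rw [← sum_insert h2, ← h1]
    exact (sum_filter_add_sum_filter_not univ (fun c => D c) F).symm
  have h1 : ∀ a, D a → X * Aj K v a - ∑ c ∈ univ.filter (fun c => D c), C (SQ K a c) * Aj K v c =
      C (SQ K v a) * Q := by
    intro a ha
    rw [hrow a (hD a ha), hsplit, hc1 a ha, hQv, hsy a v]
    ring
  obtain ⟨f, hf, hfQ, hfI, hfm, hfr⟩ := denom (sq_symm K) hD hQm h1 hc2
  refine ⟨f, hf, ?_, hfQ, hfI, hfm, ?_⟩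
  · by_contra hcon
    obtain ⟨a, ha⟩ := hne
    have h0 : f.natDegree = 0 := by omega
    have h2 : f = 1 := Polynomial.eq_one_of_monic_natDegree_zero hf h0
    have h3 := hfI a ha
    rw [h2, one_mul] at h3
    have h4 := aj_deg K (hD a ha).symm
    have h5 : Aj K v a ≠ 0 := by
      intro h6
      rw [h6, natDegree_zero] at h4
      omega
    have h6 := natDegree_le_of_dvd h3 h5
    omega
  · intro μ hμ
    obtain ⟨-, z, hz0, hz1, hz2⟩ := hfr μ hμ
    refine ⟨fun hP0 => ?_, z, hz0, hz1, hz2⟩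
    have hw : ∀ (j : ℕ) (a b : V), (SQ K ^ j) a a = (SQ K ^ j) b b := fun j a b =>
      pow_of_adj rfl ((hQ a).trans (hQ b).symm) j
    obtain ⟨u, hu, huv⟩ := eig_ne (sq_symm K) hw (μ := μ) (by rw [hP]; exact hP0) v
    have e1 : ∑ a, u a * ∑ c, ((SQ K a c : ℚ) : ℝ) * z c = ∑ a, μ * (u a * z a) := by
      simp only [mul_sum]
      rw [sum_comm]
      refine sum_congr rfl fun c _ => ?_
      calc ∑ a, u a * (((SQ K a c : ℚ) : ℝ) * z c) = (∑ a, ((SQ K c a : ℚ) : ℝ) * u a) * z c := by
            rw [sum_mul]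
            refine sum_congr rfl fun a _ => ?_
            rw [hsy a c]
            ring
        _ = μ * (u c * z c) := by
            rw [hu c]
            ring
    have e2 : ∑ a, u a * ∑ c, ((SQ K a c : ℚ) : ℝ) * z c =
        ∑ a, μ * (u a * z a) + u v * ∑ c, ((SQ K v c : ℚ) : ℝ) * z c := by
      have h3 : ∀ a, u a * ∑ c, ((SQ K a c : ℚ) : ℝ) * z c =
          μ * (u a * z a) + if a = v then u v * ∑ c, ((SQ K v c : ℚ) : ℝ) * z c else 0 := by
        intro a
        by_cases ha : a = v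
        · rw [if_pos ha, ha, hz0 v hDv]
          ring
        · rw [if_neg ha, hz1 a ha]
          ring
      rw [sum_congr rfl fun a _ => h3 a, sum_add_distrib, sum_ite_eq' univ v, if_pos (mem_univ v)]
    rw [e1] at e2
    have e3 : u v * ∑ c, ((SQ K v c : ℚ) : ℝ) * z c = 0 := by linarith
    rcases mul_eq_zero.1 e3 with h3 | h3
    · exact huv h3
    · exact hz2 h3

end SWS
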