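import Pool.Agent.SWS.Uc
import Pool.Agent.RGC.Main

/-!
# SWS: classes with two codegrees

If all numbers `gv G a b` with `a ≠ b` take at most two values, then a graph of odd order at least
ten has a reconstructible switching class (`RGC.recon_gap`): two codegrees differing by one would be
the two values, so the parity of the smaller one is always the same.
-/

set_option autoImplicit false

namespace SWS

open Finset Polynomial RGC
open scoped Classical

variable {V W : Type}

theorem gap_two [Fintype V] {G : SimpleGraph V} (hn : 10 ≤ Fintype.card V)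
    (ho : Odd (Fintype.card V)) {x y : ℝ} (h : ∀ a b : V, a ≠ b → gv G a b = x ∨ gv G a b = y) :
    Recon G := by
  apply recon_gap G hn ho
  by_contra hc
  rw [not_or] at hc
  obtain ⟨h1, h2⟩ := hc
  push Not at h1 h2
  obtain ⟨a, b, c, d, hab, hcd, e1, o1⟩ := h1
  obtain ⟨a', b', c', d', hab', hcd', e2, o2⟩ := h2
  rw [codeg_eq] at e1 o1 e2 o2
  rw [codeg_eq] at e1 e2
  have r1 : (cd G c d : ℝ) = cd G a b + 1 := by exact_mod_cast e1
  have r2 : (cd G c' d' : ℝ) = cd G a' b' + 1 := by exact_mod_cast e2
  have key : (cd G a b : ℝ) = cd G a' b' := by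
    have k1 := h a b hab
    have k2 := h c d hcd
    have k3 := h a' b' hab'
    have k4 := h c' d' hcd'
    unfold gv at k1 k2 k3 k4
    rcases k1 with k1 | k1 <;> rcases k2 with k2 | k2 <;> rcases k3 with k3 | k3 <;>
      rcases k4 with k4 | k4 <;> linarith
  have key' : cd G a b = cd G a' b' := by exact_mod_cast key
  rw [key'] at o1
  simp_all [Nat.not_even_iff_odd]

end SWS
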