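import Pool.Agent.SWS.Ad

/-!
# SWS: two by two minors of the adjugate

Jacobi: `adj v v * adj a b - adj a v * adj v b` is a multiple of `det (x - M) = charpoly M`. With `c = adj v v`, the
determinant of `x - M` with row and column `v` removed, the matrix `N` of these minors (`a, b ≠ v`) satisfies
`C0 * N = (charpoly M * c) • 1`; multiply by the adjugate of `C0` and cancel `c`.
-/

set_option autoImplicit false

namespace SWS

open Finset Polynomial
open scoped Classical

variable {V W : Type}

private theorem Ja_sub [Fintype V] (M : Matrix V V ℚ) (v : V) (i j : {x : V // x ≠ v}) :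
    Matrix.charmatrix (M.submatrix (Subtype.val : {x : V // x ≠ v} → V) Subtype.val) i j =
      Matrix.charmatrix M i j := by
  by_cases hij : i = j
  · rw [hij, Matrix.charmatrix_apply_eq, Matrix.charmatrix_apply_eq, Matrix.submatrix_apply]
  · rw [Matrix.charmatrix_apply_ne _ _ _ hij, Matrix.charmatrix_apply_ne, Matrix.submatrix_apply]
    exact fun h => hij (Subtype.ext h)

private theorem Ja_N [Fintype V] (M : Matrix V V ℚ) (v : V) (a b : {x : V // x ≠ v}) :
    ∑ x : {x : V // x ≠ v}, Matrix.charmatrix M a x *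
      (adj M v v * adj M x b - adj M x v * adj M v b) =
      if a = b then M.charpoly * adj M v v else 0 := by
  have hm : Matrix.charmatrix M * Matrix.adjugate (Matrix.charmatrix M) =
      M.charpoly • (1 : Matrix V V ℚ[X]) := Matrix.mul_adjugate _
  have e : ∀ x y : V, ∑ z, Matrix.charmatrix M x z * adj M z y = if x = y then M.charpoly else 0 := by
    intro x y
    have h := congrFun (congrFun hm x) y
    rw [Matrix.mul_apply, Matrix.smul_apply, Matrix.one_apply, smul_eq_mul] at h
    unfold adj
    rw [h]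
    split_ifs <;> simp
  have hs := Fintype.sum_eq_add_sum_subtype_ne (fun x : V => Matrix.charmatrix M a x *
      (adj M v v * adj M x b - adj M x v * adj M v b)) v
  rw [sub_self, mul_zero, zero_add] at hs
  rw [← hs]
  have h1 : ∀ x : V, Matrix.charmatrix M a x * (adj M v v * adj M x b - adj M x v * adj M v b) =
      adj M v v * (Matrix.charmatrix M a x * adj M x b) - (Matrix.charmatrix M a x * adj M x v) * adj M v b := by
    intro x; ring
  simp only [h1]
  rw [Finset.sum_sub_distrib, ← Finset.mul_sum, ← Finset.sum_mul, e, e, if_neg a.2, zero_mul, sub_zero]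
  by_cases hab : a = b
  · rw [if_pos (congrArg Subtype.val hab), if_pos hab, mul_comm]
  · rw [if_neg (fun h => hab (Subtype.ext h)), if_neg hab, mul_zero]

theorem jac [Fintype V] (M : Matrix V V ℚ) (v a b : V) :
    M.charpoly ∣ adj M v v * adj M a b - adj M a v * adj M v b := by
  by_cases ha : a = v
  · rw [ha, sub_self]
    exact dvd_zero _
  by_cases hb : b = v
  · rw [hb, mul_comm, sub_self]
    exact dvd_zero _
  obtain ⟨N, hN⟩ : ∃ N : Matrix {x : V // x ≠ v} {x : V // x ≠ v} ℚ[X],
      ∀ x y, N x y = adj M v v * adj M x y - adj M x v * adj M v y := ⟨fun x y => _, fun x y => rfl⟩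
  obtain ⟨C0, hC0⟩ : ∃ C0, C0 = Matrix.charmatrix
      (M.submatrix (Subtype.val : {x : V // x ≠ v} → V) Subtype.val) := ⟨_, rfl⟩
  have h1 : C0 * N = (M.charpoly * adj M v v) • (1 : Matrix {x : V // x ≠ v} {x : V // x ≠ v} ℚ[X]) := by
    ext1 x y
    rw [Matrix.mul_apply, Matrix.smul_apply, Matrix.one_apply, smul_eq_mul]
    have h := Ja_N M v x y
    have h2 : ∀ z : {x : V // x ≠ v}, C0 x z * N z y =
        Matrix.charmatrix M x z * (adj M v v * adj M z y - adj M z v * adj M v y) := by
      intro z
      rw [hC0, Ja_sub, hN]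
    rw [Finset.sum_congr rfl fun z _ => h2 z, h]
    split_ifs <;> simp
  have h3 : C0.det = adj M v v := by
    rw [adj_diag, hC0]
    rfl
  have h4 := congrArg (fun Z => Matrix.adjugate C0 * Z) h1
  beta_reduce at h4
  rw [← Matrix.mul_assoc, Matrix.adjugate_mul, Matrix.smul_mul, Matrix.one_mul, Matrix.mul_smul, Matrix.mul_one,
    h3] at h4
  have h5 := congrFun (congrFun h4 ⟨a, ha⟩) ⟨b, hb⟩
  rw [Matrix.smul_apply, Matrix.smul_apply, smul_eq_mul, smul_eq_mul, hN] at h5
  have h6 : adj M v v ≠ 0 := (adj_diag_deg M v).1.ne_zero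
  refine ⟨Matrix.adjugate C0 ⟨a, ha⟩ ⟨b, hb⟩, mul_left_cancel₀ h6 ?_⟩
  rw [h5]
  ring

end SWS
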