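import Pool.Agent.SWS.Ad

/-!
# SWS: powers dividing the adjugate

If the characteristic polynomial of a symmetric rational matrix `M` is `(X - a)^k g`, then `(X - a)^(k - 1)` divides
every entry of the adjugate of `X - M`: `m = (X - a) g` annihilates `M` (a symmetric nilpotent rational matrix is zero),
so `X - M` divides `m` (polynomials in a second variable evaluated at `M`), and one compares with the adjugate.
-/

set_option autoImplicit false

namespace SWS

open Finset Polynomial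
open scoped Classical

variable {V W : Type}

private theorem Jb_sq [Fintype V] {T : Matrix V V ℚ} (hT : T.IsSymm) (h : T * T = 0) : T = 0 := by
  ext a b
  have h1 : (T * T) a a = 0 := by rw [h]; rfl
  rw [Matrix.mul_apply] at h1
  have h2 : ∑ c, T a c ^ 2 = 0 := by
    rw [← h1]
    refine Finset.sum_congr rfl fun c _ => ?_
    rw [hT.apply a c, sq]
  rw [Finset.sum_eq_zero_iff_of_nonneg (fun c _ => sq_nonneg _)] at h2
  have h3 := h2 b (Finset.mem_univ b)
  exact pow_eq_zero_iff (two_ne_zero) |>.mp h3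

private theorem Jb_pow [Fintype V] {N : Matrix V V ℚ} (hN : N.IsSymm) (j : ℕ) (h : N ^ (2 ^ j) = 0) : N = 0 := by
  induction j with
  | zero => simpa using h
  | succ j ih =>
    apply ih
    refine Jb_sq (hN.pow _) ?_
    rw [← pow_add, ← two_mul, ← pow_succ', h]

private theorem Jb_symm [Fintype V] {M : Matrix V V ℚ} (hM : M.IsSymm) (m : ℚ[X]) : (aeval M m).IsSymm := by
  induction m using Polynomial.induction_on' with
  | add p q hp hq => rw [map_add]; exact hp.add hq
  | monomial n c =>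
    rw [aeval_monomial, ← Algebra.smul_def]
    exact (hM.pow n).smul c

private theorem Jb_zero [Fintype V] {M : Matrix V V ℚ} (hM : M.IsSymm) {a : ℚ} {g : ℚ[X]} {k : ℕ}
    (hP : M.charpoly = (X - C a) ^ (k + 1) * g) : aeval M ((X - C a) * g) = 0 := by
  have h1 : M.charpoly ∣ ((X - C a) * g) ^ (k + 1) := by
    rw [hP, mul_pow]
    exact mul_dvd_mul_left _ (dvd_pow_self g (Nat.succ_ne_zero k))
  have h2 : (aeval M ((X - C a) * g)) ^ (k + 1) = 0 := by
    rw [← map_pow]
    obtain ⟨r, hr⟩ := h1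
    rw [hr, map_mul, Matrix.aeval_self_charpoly, zero_mul]
  have h3 : k + 1 ≤ 2 ^ (k + 1) := (Nat.lt_two_pow_self).le
  refine Jb_pow (Jb_symm hM _) (k + 1) ?_
  obtain ⟨c, hc⟩ := Nat.exists_eq_add_of_le h3
  rw [hc, pow_add, h2, zero_mul]

private theorem Jb_fac [Fintype V] {M : Matrix V V ℚ} {m : ℚ[X]} (hm : aeval M m = 0) :
    ∃ B : Matrix V V ℚ[X], Matrix.charmatrix M * B = m • (1 : Matrix V V ℚ[X]) := by
  obtain ⟨q, hq⟩ := Polynomial.X_sub_C_dvd_sub_C_eval (a := (X : ℚ[X])) (p := m.map C)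
  have h1 : eval X (m.map C) = m := by rw [eval_map, eval₂_C_X]
  rw [h1] at hq
  have h2 := congrArg (aeval (M.map (C : ℚ → ℚ[X]))) hq
  have h3 : aeval (M.map (C : ℚ → ℚ[X])) (m.map C) = 0 := by
    have h4 : (m.map (C : ℚ →+* ℚ[X])) = m.map (algebraMap ℚ ℚ[X]) := rfl
    rw [h4, aeval_map_algebraMap]
    have h5 : M.map (C : ℚ → ℚ[X]) = (Algebra.ofId ℚ ℚ[X]).mapMatrix M := rfl
    rw [h5, aeval_algHom_apply, hm, map_zero]
  rw [map_sub, map_mul, map_sub, h3, aeval_X, aeval_C, aeval_C, Algebra.algebraMap_eq_smul_one,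
    Algebra.algebraMap_eq_smul_one, zero_sub] at h2
  refine ⟨aeval (M.map (C : ℚ → ℚ[X])) q, ?_⟩
  have h6 : Matrix.charmatrix M = (X : ℚ[X]) • (1 : Matrix V V ℚ[X]) - M.map (C : ℚ → ℚ[X]) := by
    ext i j
    rw [Matrix.charmatrix_apply, Matrix.sub_apply, Matrix.smul_apply, Matrix.map_apply, Matrix.diagonal_apply,
      Matrix.one_apply]
    split_ifs <;> simp
  rw [h6, ← neg_sub, neg_mul, ← h2, neg_neg]

theorem div_pow [Fintype V] {M : Matrix V V ℚ} (hM : M.IsSymm) {a : ℚ} {g : ℚ[X]} {k : ℕ}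
    (hP : M.charpoly = (X - C a) ^ k * g) (i j : V) :
    (X - C a) ^ (k - 1) ∣ adj M i j := by
  rcases k with _ | k
  · simp
  obtain ⟨B, hB⟩ := Jb_fac (Jb_zero hM hP)
  have h1 : Matrix.charmatrix M * ((X - C a) ^ k • B) = M.charpoly • (1 : Matrix V V ℚ[X]) := by
    rw [Matrix.mul_smul, hB, smul_smul, ← mul_assoc, ← pow_succ, hP]
  have h2 := congrArg (fun Z => Matrix.adjugate (Matrix.charmatrix M) * Z) h1
  beta_reduce at h2
  rw [← Matrix.mul_assoc, Matrix.adjugate_mul, Matrix.smul_mul, Matrix.one_mul, Matrix.mul_smul, Matrix.mul_one] at h2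
  have h3 : M.charpoly ≠ 0 := M.charpoly_monic.ne_zero
  have h4 := congrFun (congrFun h2 i) j
  rw [Matrix.smul_apply, Matrix.smul_apply, Matrix.smul_apply, smul_eq_mul, smul_eq_mul, smul_eq_mul] at h4
  have h5 : (X - C a) ^ k * B i j = Matrix.adjugate (Matrix.charmatrix M) i j := mul_left_cancel₀ h3 h4
  rw [Nat.succ_sub_one]
  exact ⟨B i j, h5.symm⟩

end SWS
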