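import Pool.Agent.SWS.Ja
import Pool.Agent.SWS.Jb
import Pool.Agent.SWS.Un
import Pool.Agent.RGC.Trn

/-!
# SWS: one irreducible factor (Tutte type)

If the common characteristic polynomial of the Seidel matrices is a power of a linear factor times an irreducible
polynomial, hypomorphic graphs are switching equivalent: the off-diagonal entries of the adjugates agree up to signs
(`jac`, `div_pow` and a degree count), and the product of the three signs of a triangle is `1`.
-/

set_option autoImplicit false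

namespace SWS

open Finset Polynomial RGC
open scoped Classical

variable {V W : Type}

private theorem Jc_sg (x y z x' y' z' : ZMod 2)
    (h : ((if x = 1 then (-1 : ℚ) else 1) * (if y = 1 then (-1 : ℚ) else 1) *
        (if z = 1 then (-1 : ℚ) else 1)) =
      ((if x' = 1 then (-1 : ℚ) else 1) * (if y' = 1 then (-1 : ℚ) else 1) *
        (if z' = 1 then (-1 : ℚ) else 1))) : x + y + z = x' + y' + z' := by
  have key : ∀ x y z : ZMod 2, ((if x = 1 then (-1 : ℚ) else 1) * (if y = 1 then (-1 : ℚ) else 1) *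
      (if z = 1 then (-1 : ℚ) else 1)) = if x + y + z = 1 then -1 else 1 := by
    intro x y z
    rcases z2c x with rfl | rfl <;> rcases z2c y with rfl | rfl <;> rcases z2c z with rfl | rfl <;>
      norm_num [show (0 : ZMod 2) ≠ 1 by decide]
    all_goals decide
  rw [key, key] at h
  rcases z2c (x + y + z) with h1 | h1 <;> rcases z2c (x' + y' + z') with h2 | h2 <;> rw [h1, h2] at h ⊢ <;>
    norm_num [show (0 : ZMod 2) ≠ 1 by decide] at h

/-- the closing degree argument -/
private theorem Jc_zero {n k : ℕ} {a : ℚ} {g P z : ℚ[X]} (hg : Irreducible g)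
    (hP : P = (X - C a) ^ k * g) (hd : P.natDegree = n) (hco : ¬ (X - C a) ∣ g)
    (h1 : (X - C a) ^ (k - 1) ∣ z) (h2 : g ∣ z) (h3 : z.natDegree + 2 ≤ n) : z = 0 := by
  by_contra hz
  have hX : Irreducible (X - C a) := irreducible_X_sub_C a
  have hcop : IsCoprime ((X - C a) ^ (k - 1)) g := IsCoprime.pow_left ((hX.coprime_iff_not_dvd).2 hco)
  have hdv : (X - C a) ^ (k - 1) * g ∣ z := hcop.mul_dvd h1 h2
  have hle := natDegree_le_of_dvd hdv hz
  have hne1 : (X - C a) ^ (k - 1) ≠ 0 := pow_ne_zero _ (X_sub_C_ne_zero a)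
  have hne2 : (X - C a) ^ k ≠ 0 := pow_ne_zero _ (X_sub_C_ne_zero a)
  rw [natDegree_mul hne1 hg.ne_zero, natDegree_pow, natDegree_X_sub_C] at hle
  rw [hP, natDegree_mul hne2 hg.ne_zero, natDegree_pow, natDegree_X_sub_C] at hd
  omega

private theorem Jc_triple [Fintype V] (K : SimpleGraph V) (u v w : V) :
    (SQ K).charpoly ∣ Aj K v v * Aj K w w * Aj K u u - Aj K v w * Aj K w u * Aj K u v := by
  have h1 := (jac (SQ K) w v u).mul_left (Aj K u v)
  have h2 := (jac (SQ K) v u u).mul_left (Aj K w w)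
  have h3 := dvd_add h1 h2
  have h4 : Aj K v v * Aj K w w * Aj K u u - Aj K v w * Aj K w u * Aj K u v =
      Aj K u v * (adj (SQ K) w w * adj (SQ K) v u - adj (SQ K) v w * adj (SQ K) w u) +
        Aj K w w * (adj (SQ K) v v * adj (SQ K) u u - adj (SQ K) u v * adj (SQ K) v u) := by
    unfold Aj
    ring
  rw [h4]
  exact h3

private theorem Jc_core [Fintype V] {G H : SimpleGraph V} (hd : ∀ v, Aj G v v = Aj H v v)
    {a : ℚ} {k : ℕ} {g : ℚ[X]} (hg : Irreducible g)
    (hP : (SQ G).charpoly = (X - C a) ^ k * g) (hP' : (SQ H).charpoly = (X - C a) ^ k * g)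
    {u v w : V} (huv : u ≠ v) (hvw : v ≠ w) (huw : u ≠ w) :
    SQ H v w * SQ H w u * SQ H u v = SQ G v w * SQ G w u * SQ G u v := by
  set n := Fintype.card V with hn
  have hn2 : 2 ≤ n := by
    have := Fintype.one_lt_card_iff.2 ⟨u, v, huv⟩
    omega
  have hPd : ((X - C a) ^ k * g).natDegree = n := by
    rw [← hP, Matrix.charpoly_natDegree_eq_dim]
  have hne2 : (X - C a) ^ k ≠ 0 := pow_ne_zero _ (X_sub_C_ne_zero a)
  have hnz : ∀ (K : SimpleGraph V) (x y : V), x ≠ y → Aj K x y ≠ 0 := by
    intro K x y hxy h0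
    have h1 := aj_two K hxy
    rw [h0, coeff_zero] at h1
    have h2 := sq_mul K hxy
    rw [← h1] at h2
    norm_num at h2
  have hco : ¬ (X - C a) ∣ g := by
    intro hdv
    have hX : Irreducible (X - C a) := irreducible_X_sub_C a
    obtain ⟨t, ht⟩ := hdv
    have htu : IsUnit t := by
      rcases hg.isUnit_or_isUnit ht with h1 | h1
      · exact absurd h1 hX.not_isUnit
      · exact h1
    have hP2 : (SQ G).charpoly = (X - C a) ^ (k + 1) * t := by
      rw [hP, ht, pow_succ]
      ring
    have h1 := div_pow (sq_symm G) hP2 u v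
    rw [Nat.add_sub_cancel] at h1
    have h2 := natDegree_le_of_dvd h1 (hnz G u v huv)
    rw [natDegree_pow, natDegree_X_sub_C, mul_one] at h2
    have h3 := aj_deg G huv
    have h4 : Aj G u v = adj (SQ G) u v := rfl
    rw [h4] at h3
    have h2' : k ≤ (adj (SQ G) u v).natDegree := h2
    rw [h3] at h2'
    have h5 : ((X - C a) ^ k * g).natDegree = k + 1 := by
      have hne3 : (X - C a) ^ (k + 1) ≠ 0 := pow_ne_zero _ (X_sub_C_ne_zero a)
      rw [← hP, hP2, natDegree_mul hne3 htu.ne_zero, natDegree_pow, natDegree_X_sub_C,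
        natDegree_eq_zero_of_isUnit htu]
      ring
    rw [h5] at hPd
    omega
  have hpg : Prime g := hg.prime
  have hgP : g ∣ (X - C a) ^ k * g := dvd_mul_left g _
  have hdvG : ∀ x y, (X - C a) ^ (k - 1) ∣ Aj G x y := fun x y => div_pow (sq_symm G) hP x y
  have hdvH : ∀ x y, (X - C a) ^ (k - 1) ∣ Aj H x y := fun x y => div_pow (sq_symm H) hP' x y
  have hng : ∀ x y, x ≠ y → ¬ g ∣ Aj G x y := by
    intro x y hxy h1
    refine hnz G x y hxy (Jc_zero hg rfl hPd hco (hdvG x y) h1 ?_)
    rw [aj_deg G hxy]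
    omega
  have step : ∀ x y, x ≠ y → ∃ e : ℚ, (e = 1 ∨ e = -1) ∧ Aj H x y = C e * Aj G x y := by
    intro x y hxy
    have h1 : g ∣ Aj G x x * Aj G y y - Aj G y x * Aj G x y := by
      have := jac (SQ G) x y y
      rw [hP] at this
      exact hgP.trans this
    have h2 : g ∣ Aj H x x * Aj H y y - Aj H y x * Aj H x y := by
      have := jac (SQ H) x y y
      rw [hP'] at this
      exact hgP.trans this
    have h3 := dvd_sub h1 h2
    rw [← hd x, ← hd y, aj_symm G y x, aj_symm H y x] at h3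
    have h4 : Aj G x x * Aj G y y - Aj G x y * Aj G x y -
        (Aj G x x * Aj G y y - Aj H x y * Aj H x y) = (Aj H x y - Aj G x y) * (Aj H x y + Aj G x y) := by
      ring
    rw [h4] at h3
    have hdeg1 : (Aj H x y - Aj G x y).natDegree + 2 ≤ n := by
      have := natDegree_sub_le (Aj H x y) (Aj G x y)
      rw [aj_deg G hxy, aj_deg H hxy, max_self] at this
      omega
    have hdeg2 : (Aj H x y + Aj G x y).natDegree + 2 ≤ n := by
      have := natDegree_add_le (Aj H x y) (Aj G x y)
      rw [aj_deg G hxy, aj_deg H hxy, max_self] at this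
      omega
    rcases hpg.dvd_or_dvd h3 with h5 | h5
    · refine ⟨1, Or.inl rfl, ?_⟩
      have h6 := Jc_zero hg rfl hPd hco (dvd_sub (hdvH x y) (hdvG x y)) h5 hdeg1
      rw [C_1, one_mul]
      exact sub_eq_zero.1 h6
    · refine ⟨-1, Or.inr rfl, ?_⟩
      have h6 := Jc_zero hg rfl hPd hco (dvd_add (hdvH x y) (hdvG x y)) h5 hdeg2
      rw [C_neg, C_1, neg_one_mul]
      exact eq_neg_of_add_eq_zero_left h6
  have hsq : ∀ x y, x ≠ y → ∀ e : ℚ, Aj H x y = C e * Aj G x y → SQ H x y = e * SQ G x y := by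
    intro x y hxy e he
    rw [← aj_two H hxy, ← aj_two G hxy, he, coeff_C_mul]
  obtain ⟨e1, he1, hA1⟩ := step v w hvw
  obtain ⟨e2, he2, hA2⟩ := step w u huw.symm
  obtain ⟨e3, he3, hA3⟩ := step u v huv
  have hprod : e1 * e2 * e3 = 1 := by
    have hcases : e1 * e2 * e3 = 1 ∨ e1 * e2 * e3 = -1 := by
      rcases he1 with rfl | rfl <;> rcases he2 with rfl | rfl <;> rcases he3 with rfl | rfl <;> norm_num
    rcases hcases with h1 | h1
    · exact h1
    · exfalso
      have h2 : g ∣ Aj G v v * Aj G w w * Aj G u u - Aj G v w * Aj G w u * Aj G u v := by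
        have := Jc_triple G u v w
        rw [hP] at this
        exact hgP.trans this
      have h3 : g ∣ Aj H v v * Aj H w w * Aj H u u - Aj H v w * Aj H w u * Aj H u v := by
        have := Jc_triple H u v w
        rw [hP'] at this
        exact hgP.trans this
      have h4 := dvd_sub h3 h2
      rw [← hd v, ← hd w, ← hd u, hA1, hA2, hA3] at h4
      have h5 : Aj G v v * Aj G w w * Aj G u u - C e1 * Aj G v w * (C e2 * Aj G w u) * (C e3 * Aj G u v) -
          (Aj G v v * Aj G w w * Aj G u u - Aj G v w * Aj G w u * Aj G u v) =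
          C (1 - e1 * e2 * e3) * (Aj G v w * Aj G w u * Aj G u v) := by
        rw [C_sub, C_1, C_mul, C_mul]
        ring
      rw [h5, h1] at h4
      have h6 : IsUnit (C (1 - -1 : ℚ)) := isUnit_C.2 (by norm_num)
      have h7 : g ∣ Aj G v w * Aj G w u * Aj G u v := (h6.dvd_mul_left).1 h4
      rcases hpg.dvd_or_dvd h7 with h8 | h8
      · rcases hpg.dvd_or_dvd h8 with h9 | h9
        · exact hng v w hvw h9
        · exact hng w u huw.symm h9
      · exact hng u v huv h8
  rw [hsq v w hvw e1 hA1, hsq w u huw.symm e2 hA2, hsq u v huv e3 hA3]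
  calc e1 * SQ G v w * (e2 * SQ G w u) * (e3 * SQ G u v)
      = (e1 * e2 * e3) * (SQ G v w * SQ G w u * SQ G u v) := by ring
    _ = SQ G v w * SQ G w u * SQ G u v := by rw [hprod, one_mul]

theorem tutte [Fintype V] {G H : SimpleGraph V} (h : DeckEq G H)
    (hc : (SQ G).charpoly = (SQ H).charpoly) {a : ℚ} {k : ℕ} {g : ℚ[X]} (hg : Irreducible g)
    (hP : (SQ G).charpoly = (X - C a) ^ k * g) : SwEq G H := by
  obtain ⟨π, hπ⟩ := h
  have hTT : ∀ x y z, T H (π x) (π y) (π z) = T (H.comap π) x y z := fun x y z => rfl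
  have hsw : SwEq (H.comap π) H := swEq_iff.2 ⟨π, hTT⟩
  have hcard : ∀ v, SwEq (cardOf G v) (cardOf (H.comap π) v) := fun v =>
    (hπ v).trans (card_congr π hTT v).symm
  have hd : ∀ v, Aj G v v = Aj (H.comap π) v v := fun v => aj_card (hcard v)
  have hP' : (SQ (H.comap π)).charpoly = (X - C a) ^ k * g := by
    rw [chp_swEq hsw, ← hc, hP]
  refine SwEq.trans (swEq_of_T fun x y z => ?_) hsw
  by_cases hxy : x = y
  · subst hxy
    rw [T_left, T_left]
  by_cases hyz : y = z
  · subst hyz
    rw [T_right, T_right]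
  by_cases hxz : x = z
  · subst hxz
    rw [T_outer, T_outer]
  have key := Jc_core hd hg hP hP' (u := x) (v := y) (w := z) hxy hyz hxz
  rw [sq_s _ hyz, sq_s _ (Ne.symm hxz), sq_s _ hxy, sq_s _ hyz, sq_s _ (Ne.symm hxz), sq_s _ hxy] at key
  have h1 := Jc_sg _ _ _ _ _ _ key
  unfold T
  rw [s_comm _ x z, s_comm G x z]
  linear_combination h1

end SWS
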