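import Pool.Agent.SWS.Fa

/-!
# SWS: two irreducible factors

MODULE La. `Mut.flip`: the cut `d + 1`. `labels`: by `hf` the two factors of a cut (`factors`) are irreducible, and the
cofactor of `f0 f1` in `P' / gcd P P'` is a unit, so the factors of all cuts are the same two polynomials, up to their order; the
order is corrected by `Mut.flip`.
-/

set_option autoImplicit false

namespace SWS

open Finset Polynomial RGC
open scoped Classical

variable {V W : Type}

theorem Mut.flip [Fintype V] {K L : SimpleGraph V} {v : V} {d : V → ZMod 2} {Q : ℚ[X]}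
    (h : Mut K L v d Q) : Mut K L v (fun a => d a + 1) Q := by
  have h2 : (1 : ZMod 2) + 1 = 0 := by decide
  refine ⟨h.row, fun a b ha hb hab => ?_, ?_, ?_, h.arow, fun a b ha hb hd => ?_, fun a b ha hb hd => ?_,
    fun a ha => ?_⟩
  · rw [h.off a b ha hb hab]
    linear_combination -h2
  · obtain ⟨a, ha, h1⟩ := h.ex1
    exact ⟨a, ha, by rw [h1]; exact h2⟩
  · obtain ⟨a, ha, h1⟩ := h.ex0
    exact ⟨a, ha, by rw [h1, zero_add]⟩
  · exact h.same a b ha hb (add_right_cancel hd)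
  · exact h.diff a b ha hb fun e => hd (by rw [e])
  · have h1 := h.cut a ha
    simpa only [ne_eq, add_left_inj] using h1

/-- the factors of a cut -/
private structure La_Two (P f g : ℚ[X]) : Prop where
  m0 : f.Monic
  m1 : g.Monic
  d0 : 1 ≤ f.natDegree
  d1 : 1 ≤ g.natDegree
  co : IsCoprime f g
  dv : f * g * EuclideanDomain.gcd P (derivative P) ∣ derivative P

private theorem La_Two.symm {P f g : ℚ[X]} (h : La_Two P f g) : La_Two P g f :=
  ⟨h.m1, h.m0, h.d1, h.d0, h.co.symm, by rw [mul_comm g f]; exact h.dv⟩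

private theorem La_not_unit {f : ℚ[X]} (h : 1 ≤ f.natDegree) : ¬ IsUnit f := by
  intro hu
  have h1 := Polynomial.natDegree_eq_zero_of_isUnit hu
  omega

private theorem La_irr {P f g : ℚ[X]}
    (hf : ∀ a b c : ℚ[X], a * b * c * EuclideanDomain.gcd P (derivative P) ∣ derivative P →
      IsUnit a ∨ IsUnit b ∨ IsUnit c) (h : La_Two P f g) : Irreducible f := by
  refine ⟨La_not_unit h.d0, fun a b hab => ?_⟩
  rcases hf a b g (by rw [← hab]; exact h.dv) with h1 | h1 | h1
  · exact Or.inl h1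
  · exact Or.inr h1
  · exact absurd h1 (La_not_unit h.d1)

private theorem La_uniq {P f0 f1 g0 g1 : ℚ[X]} (hP : derivative P ≠ 0)
    (hf : ∀ a b c : ℚ[X], a * b * c * EuclideanDomain.gcd P (derivative P) ∣ derivative P →
      IsUnit a ∨ IsUnit b ∨ IsUnit c) (hF : La_Two P f0 f1) (hG : La_Two P g0 g1) :
    (g0 = f0 ∧ g1 = f1) ∨ (g0 = f1 ∧ g1 = f0) := by
  have if0 := La_irr hf hF
  have if1 := La_irr hf hF.symm
  have ig0 := La_irr hf hG
  have ig1 := La_irr hf hG.symm
  have hg : EuclideanDomain.gcd P (derivative P) ≠ 0 := by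
    intro h0
    exact hP (EuclideanDomain.gcd_eq_zero_iff.1 h0).2
  obtain ⟨F, hFe⟩ : EuclideanDomain.gcd P (derivative P) ∣ derivative P := EuclideanDomain.gcd_dvd_right _ _
  have h1 : f0 * f1 ∣ F := by
    have h4 : f0 * f1 * EuclideanDomain.gcd P (derivative P) ∣ F * EuclideanDomain.gcd P (derivative P) := by
      rw [mul_comm F, ← hFe]
      exact hF.dv
    exact (mul_dvd_mul_iff_right hg).1 h4
  have h2 : g0 * g1 ∣ F := by
    have h4 : g0 * g1 * EuclideanDomain.gcd P (derivative P) ∣ F * EuclideanDomain.gcd P (derivative P) := by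
      rw [mul_comm F, ← hFe]
      exact hG.dv
    exact (mul_dvd_mul_iff_right hg).1 h4
  obtain ⟨e, he⟩ := h1
  have hu : IsUnit e := by
    rcases hf f0 f1 e (by rw [← he, mul_comm F, ← hFe]) with h3 | h3 | h3
    · exact absurd h3 (La_not_unit hF.d0)
    · exact absurd h3 (La_not_unit hF.d1)
    · exact h3
  rw [he] at h2
  have h3 : g0 * g1 ∣ f0 * f1 := (IsUnit.dvd_mul_right hu).1 h2
  have hcase : ∀ g : ℚ[X], g.Monic → Irreducible g → g ∣ f0 * f1 → g = f0 ∨ g = f1 := by
    intro g hgm hgi hgd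
    rcases hgi.prime.dvd_or_dvd hgd with h4 | h4
    · exact Or.inl (Polynomial.eq_of_monic_of_associated hgm hF.m0 ((hgi.dvd_irreducible_iff_associated if0).1 h4))
    · exact Or.inr (Polynomial.eq_of_monic_of_associated hgm hF.m1 ((hgi.dvd_irreducible_iff_associated if1).1 h4))
  have hne : g0 ≠ g1 := by
    intro h4
    have h5 := hG.co
    rw [h4, isCoprime_self] at h5
    exact La_not_unit hG.d1 h5
  rcases hcase g0 hG.m0 ig0 ((Dvd.intro _ rfl).trans h3) with h4 | h4 <;>
    rcases hcase g1 hG.m1 ig1 ((Dvd.intro_left _ rfl).trans h3) with h5 | h5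
  · exact absurd (h4.trans h5.symm) hne
  · exact Or.inl ⟨h4, h5⟩
  · exact Or.inr ⟨h4, h5⟩
  · exact absurd (h4.trans h5.symm) hne

private theorem La_fin [Fintype V] {G H : SimpleGraph V} {P Q : ℚ[X]} (h : Ctx G H P Q) (hP : derivative P ≠ 0)
    (hf : ∀ a b c : ℚ[X], a * b * c * EuclideanDomain.gcd P (derivative P) ∣ derivative P →
      IsUnit a ∨ IsUnit b ∨ IsUnit c) {f g : ℚ[X]} (hF : La_Two P f g) (b : Bool) (K : SimpleGraph V)
    (hK : InU G H b K) (v : V) :
    ∃ (L : SimpleGraph V) (d : V → ZMod 2), InU G H (!b) L ∧ Mut K L v d Q ∧ Lab f g Q K v d := by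
  obtain ⟨L, d, hL, hm⟩ := exists_mut h hK v
  obtain ⟨g0, g1, m0, m1, d0, d1, -, -, co, -, dv, lab, -, -⟩ := factors h hK hm
  rcases La_uniq hP hf hF ⟨m0, m1, d0, d1, co, dv⟩ with ⟨h1, h2⟩ | ⟨h1, h2⟩
  · subst h1
    subst h2
    exact ⟨L, d, hL, hm, lab⟩
  · subst h1
    subst h2
    refine ⟨L, fun a => d a + 1, hL, hm.flip, fun a ha => ⟨fun h3 => ?_, fun h3 => ?_⟩⟩
    · refine (lab a ha).2 ?_
      have h4 : d a + 1 = 0 := h3
      have h5 : (1 : ZMod 2) + 1 = 0 := by decide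
      exact add_right_cancel (h4.trans h5.symm)
    · refine (lab a ha).1 ?_
      have h4 : d a + 1 = 1 := h3
      exact add_right_cancel (h4.trans (zero_add _).symm)

theorem labels [Fintype V] {G H : SimpleGraph V} {P Q : ℚ[X]} (h : Ctx G H P Q)
    (hf : ∀ a b c : ℚ[X], a * b * c * EuclideanDomain.gcd P (derivative P) ∣ derivative P →
      IsUnit a ∨ IsUnit b ∨ IsUnit c) :
    ∃ f1 f2 : ℚ[X], f1.Monic ∧ f2.Monic ∧ Irreducible f1 ∧ Irreducible f2 ∧ IsCoprime f1 f2 ∧
      f1.natDegree ≤ f2.natDegree ∧ IsCoprime f1 P ∧ IsCoprime f2 P ∧ f1 * f2 ∣ Q ∧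
      ∀ (b : Bool) (K : SimpleGraph V), InU G H b K → ∀ v : V,
        ∃ (L : SimpleGraph V) (d : V → ZMod 2), InU G H (!b) L ∧ Mut K L v d Q ∧
          Lab f1 f2 Q K v d := by
  have hcard := h.card
  have : Nonempty V := Fintype.card_pos_iff.1 (by omega)
  have hP : derivative P ≠ 0 := by
    intro h0
    have h1 := Polynomial.derivative_eq_zero.1 h0
    rw [← h.cG, Matrix.charpoly_natDegree_eq_dim] at h1
    omega
  have v0 : V := Classical.arbitrary V
  have hG : InU G H true G := ⟨SimpleGraph.Iso.refl⟩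
  obtain ⟨L, d, hL, hm⟩ := exists_mut h hG v0
  obtain ⟨f0, f1, m0, m1, d0, d1, c0, c1, co, hQ, dv, -, -, -⟩ := factors h hG hm
  have hF : La_Two P f0 f1 := ⟨m0, m1, d0, d1, co, dv⟩
  rcases le_total f0.natDegree f1.natDegree with hle | hle
  · exact ⟨f0, f1, m0, m1, La_irr hf hF, La_irr hf hF.symm, co, hle, c0, c1, hQ, La_fin h hP hf hF⟩
  · exact ⟨f1, f0, m1, m0, La_irr hf hF.symm, La_irr hf hF, co.symm, hle, c1, c0, by rw [mul_comm]; exact hQ,
      La_fin h hP hf hF.symm⟩

end SWS
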