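import Pool.Agent.SWS.Uc
import Pool.Agent.SWS.Ct

/-!
# SWS: the linear factor

If the factor `f1` of the diagonal of the adjugate is linear, `f1 = X - C ν`, then the number `ν` gives the
codegree `(n - 2 - ν) / 2` of `v` and the vertices on the zero side of every cut at `v`, so these vertices are
all adjacent to `v` or all nonadjacent to `v`, with the same sign `s0` for all vertices and all graphs of the two
classes. On the other side of the cut the column of the adjugate vanishes at `ν`.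
-/

set_option autoImplicit false

namespace SWS

open Finset Polynomial RGC
open scoped Classical

variable {V W : Type}

private theorem Nu_lin {f : ℚ[X]} (m : f.Monic) (d : f.natDegree = 1) :
    f = X - C (-f.coeff 0) := by
  have h1 := eq_X_add_C_of_natDegree_le_one (p := f) (by omega)
  have h2 : f.coeff 1 = 1 := by
    have h3 : f.coeff f.natDegree = 1 := m
    rwa [d] at h3
  rw [h2, C_1, one_mul] at h1
  rw [C_neg, sub_neg_eq_add]
  exact h1

private theorem Nu_eq {n : ℕ} (hn : 3 ≤ n) {A Q : ℚ[X]} {ν : ℚ} (hA : A.natDegree = n - 2)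
    (hA0 : A ≠ 0) (hQm : Q.Monic) (hQd : Q.natDegree = n - 1) (hQ2 : Q.coeff (n - 2) = 0)
    (hdvd : Q ∣ (X - C ν) * A) :
    (X - C ν) * A = C (A.coeff (n - 2)) * Q ∧
      A.coeff (n - 3) - ν * A.coeff (n - 2) = 0 := by
  obtain ⟨B, hB⟩ := hdvd
  have hB0 : B ≠ 0 := by
    intro h0
    rw [h0, mul_zero] at hB
    rcases mul_eq_zero.1 hB with h1 | h1
    · exact X_sub_C_ne_zero ν h1
    · exact hA0 h1
  have hdeg : ((X - C ν) * A).natDegree = n - 1 := by
    rw [natDegree_mul (X_sub_C_ne_zero ν) hA0, natDegree_X_sub_C, hA]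
    omega
  have hBd : B.natDegree = 0 := by
    rw [hB, natDegree_mul hQm.ne_zero hB0, hQd] at hdeg
    omega
  obtain ⟨c, hc⟩ := natDegree_eq_zero.1 hBd
  have e1 : n - 1 = (n - 2) + 1 := by omega
  have e2 : n - 2 = (n - 3) + 1 := by omega
  have hA1 : A.coeff (n - 1) = 0 := coeff_eq_zero_of_natDegree_lt (by omega)
  have h1 : ((X - C ν) * A).coeff (n - 1) = A.coeff (n - 2) := by
    rw [sub_mul, coeff_sub, coeff_C_mul, hA1, mul_zero, sub_zero, e1, coeff_X_mul]
  have h2 : ((X - C ν) * A).coeff (n - 2) = A.coeff (n - 3) - ν * A.coeff (n - 2) := by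
    rw [sub_mul, coeff_sub, coeff_C_mul]
    congr 1
    rw [e2, coeff_X_mul]
  have hQn : Q.coeff (n - 1) = 1 := by
    have h3 : Q.coeff Q.natDegree = 1 := hQm
    rwa [hQd] at h3
  rw [hB, ← hc, mul_comm, coeff_C_mul, hQn, mul_one] at h1
  rw [hB, ← hc, mul_comm, coeff_C_mul, hQ2, mul_zero] at h2
  refine ⟨?_, h2.symm⟩
  rw [hB, ← hc, mul_comm, h1]

private theorem Nu_par {n : ℕ} {ν : ℚ} {k l : ℕ} (hk : (n : ℚ) - 2 - 2 * k = ν)
    (hl : (n : ℚ) - 2 - 2 * l = ν) : k = l := by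
  have h : (k : ℚ) = l := by linarith
  exact_mod_cast h

private theorem Nu_row [Fintype V] {G H : SimpleGraph V} {P Q : ℚ[X]} (h : Ctx G H P Q) {ν : ℚ}
    {b : Bool} {K : SimpleGraph V} (hK : InU G H b K) {v a : V} (hva : v ≠ a)
    (hdvd : Q ∣ (X - C ν) * Aj K v a) :
    (X - C ν) * Aj K v a = C (SQ K v a) * Q ∧
      (Fintype.card V : ℚ) - 2 - 2 * cd K v a = ν ∧
        SQ K v a = if Odd (cd K v a) then -1 else 1 := by
  have hC := inU_ctx h hK
  have hn := h.card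
  have hA0 : Aj K v a ≠ 0 := by
    intro h0
    have h1 := aj_two K hva
    have h2 := sq_mul K hva
    rw [← h1, h0, coeff_zero, mul_zero] at h2
    norm_num at h2
  have hQm : Q.Monic ∧ Q.natDegree = Fintype.card V - 1 := by
    rw [← hC.aG v]
    exact adj_diag_deg (SQ K) v
  have hQ2 : Q.coeff (Fintype.card V - 2) = 0 := by
    rw [← hC.aG v]
    exact adj_diag_two (fun c => sq_diag K c) v (by omega)
  obtain ⟨h1, h2⟩ := Nu_eq (n := Fintype.card V) (by omega) (aj_deg K hva) hA0 hQm.1 hQm.2 hQ2 hdvd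
  rw [aj_two K hva] at h1 h2
  rw [aj_three K hva (by omega)] at h2
  refine ⟨h1, ?_, ?_⟩
  · rw [← sq_cd K hva]
    have h3 := sq_mul K hva
    linear_combination (SQ K v a) * h2 + ν * h3
  · rw [sq_s K hva]
    have h4 : (s K v a = 1) = Odd (cd K v a) := by
      have h5 := s_E_one K hva
      rw [hC.evG] at h5
      exact propext h5
    rw [if_congr (iff_of_eq h4) rfl rfl]

theorem nu_of_labels [Fintype V] {G H : SimpleGraph V} {P Q : ℚ[X]} (h : Ctx G H P Q)
    {f1 f2 : ℚ[X]} (m1 : f1.Monic) (d1 : f1.natDegree = 1)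
    (hc : IsCoprime f1 f2) (hP1 : IsCoprime f1 P) (hQ : f1 * f2 ∣ Q)
    (hL : ∀ (b : Bool) (K : SimpleGraph V), InU G H b K → ∀ v : V,
        ∃ (L : SimpleGraph V) (d : V → ZMod 2), InU G H (!b) L ∧ Mut K L v d Q ∧
          Lab f1 f2 Q K v d) : ∃ ν s0 : ℚ, NuP G H P Q ν s0 := by
  have hf := Nu_lin m1 d1
  obtain ⟨ν, hν⟩ : ∃ ν : ℚ, f1 = X - C ν := ⟨_, hf⟩
  subst hν
  obtain ⟨v0⟩ : Nonempty V := Fintype.card_pos_iff.1 (by have := h.card; omega)
  have hG : InU G H true G := ⟨SimpleGraph.Iso.refl⟩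
  obtain ⟨L0, d0, -, hm0, hl0⟩ := hL true G hG v0
  obtain ⟨a0, ha0, hd0⟩ := hm0.ex0
  obtain ⟨-, r2, r3⟩ := Nu_row h hG (Ne.symm ha0) ((hl0 a0 ha0).1 hd0)
  refine ⟨ν, SQ G v0 a0, sq_mul G (Ne.symm ha0), ?_, ?_⟩
  · obtain ⟨x, y, hxy⟩ := hP1
    intro h0
    have h1 := congrArg (Polynomial.eval ν) hxy
    rw [eval_add, eval_mul, eval_mul, h0, eval_sub, eval_X, eval_C, sub_self, mul_zero, mul_zero,
      add_zero, eval_one] at h1
    exact zero_ne_one h1
  · intro b K hK v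
    obtain ⟨L, d, hL1, hm, hl⟩ := hL b K hK v
    refine ⟨L, d, hL1, hm, fun a ha => ⟨fun hda => ?_, fun hda => ?_⟩⟩
    · obtain ⟨t1, t2, t3⟩ := Nu_row h hK (Ne.symm ha) ((hl a ha).1 hda)
      rw [t1, t3, r3, Nu_par t2 r2]
    · have h1 : (X - C ν) ∣ f2 * Aj K v a :=
        ((Dvd.intro f2 rfl).trans hQ).trans ((hl a ha).2 hda)
      have h2 : (X - C ν) ∣ Aj K v a := hc.dvd_of_dvd_mul_left h1
      exact dvd_iff_isRoot.1 h2

end SWS
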