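import Pool.Agent.SWS.Un
import Pool.Agent.SWS.Pw
import Pool.Agent.RGC.Eul

/-!
# SWS: walk-regular graphs

In a walk-regular graph (in particular in a graph with a transitive group of automorphisms) the
diagonal entries of the adjugate of `x - S` (`S` the Seidel matrix) are equal: the powers of the real
Seidel matrix are combinations of the powers of the adjacency matrix and of the all-one matrix.
-/

set_option autoImplicit false

namespace SWS

open Finset Polynomial RGC
open scoped Classical

variable {V W : Type}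

private theorem ar_sq [Fintype V] (G : SimpleGraph V) (v : V) :
    (AR G ^ 2) v v = ((G.neighborSet v).ncard : ℝ) := by
  have h1 : ∀ w, AR G v w * AR G w v = if G.Adj v w then (1 : ℝ) else 0 := by
    intro w
    unfold AR
    rw [G.adj_comm w v]
    split_ifs <;> norm_num
  rw [pow_two, Matrix.mul_apply]
  simp_rw [h1]
  rw [Finset.sum_boole, Set.ncard_eq_toFinset_card']
  congr 2
  ext w
  simp

theorem wr_reg [Fintype V] {G : SimpleGraph V} (h : WalkRegular G) (u v : V) :
    (G.neighborSet u).ncard = (G.neighborSet v).ncard := by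
  have h1 := h 2 u v
  rw [ar_sq, ar_sq] at h1
  exact_mod_cast h1

private theorem wr_real [Fintype V] {G : SimpleGraph V} (h : WalkRegular G) (j : ℕ) :
    ∀ u v : V, (Sd G ^ j) u u = (Sd G ^ j) v v := by
  set A : Matrix V V ℝ := AR G with hA
  set J : Matrix V V ℝ := Matrix.of fun _ _ => (1 : ℝ) with hJ
  have hS : Sd G = J - 1 - (2 : ℝ) • A := by
    ext a b
    rw [Matrix.sub_apply, Matrix.sub_apply, Matrix.smul_apply, hJ, hA, Matrix.of_apply]
    unfold Sd AR
    by_cases hab : a = b
    · subst hab
      simp
    · rw [Matrix.one_apply_ne hab, if_neg hab]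
      split_ifs <;> norm_num
  let S : Set (Matrix V V ℝ) := Set.range (fun i : ℕ => A ^ i) ∪ {J}
  have hmem : ∀ j : ℕ, Sd G ^ j ∈ Submodule.span ℝ S := by
    intro j
    induction j with
    | zero =>
      rw [pow_zero]
      exact Submodule.subset_span (Or.inl ⟨0, pow_zero A⟩)
    | succ j ih =>
      rw [pow_succ']
      have hJm : J ∈ Submodule.span ℝ S := Submodule.subset_span (Or.inr rfl)
      have hcol : ∀ i : ℕ, ∃ c : ℝ, J * A ^ i = c • J := by
        intro i
        induction i with
        | zero => exact ⟨1, by rw [pow_zero, mul_one, one_smul]⟩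
        | succ i ih =>
          obtain ⟨c, hc⟩ := ih
          have hJA : ∃ k : ℝ, J * A = k • J := by
            rcases isEmpty_or_nonempty V with hV | ⟨⟨v0⟩⟩
            · exact ⟨0, by ext a; exact (hV.false a).elim⟩
            · refine ⟨((G.neighborSet v0).ncard : ℝ), ?_⟩
              ext a b
              rw [Matrix.mul_apply, Matrix.smul_apply, hJ, Matrix.of_apply]
              simp only [Matrix.of_apply, one_mul, smul_eq_mul, mul_one]
              rw [wr_reg h v0 b, ← ar_sq, pow_two, Matrix.mul_apply]
              refine Finset.sum_congr rfl fun w _ => ?_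
              rw [hA]
              unfold AR
              rw [G.adj_comm b w]
              split_ifs <;> norm_num
          obtain ⟨k, hk⟩ := hJA
          refine ⟨c * k, ?_⟩
          rw [pow_succ, ← mul_assoc, hc, Matrix.smul_mul, hk, smul_smul]
      have hJJ : J * J = (Fintype.card V : ℝ) • J := by
        ext a b
        rw [Matrix.mul_apply, Matrix.smul_apply, hJ]
        simp [Matrix.of_apply]
      have hAJ : ∃ k : ℝ, A * J = k • J := by
        rcases isEmpty_or_nonempty V with hV | ⟨⟨v0⟩⟩
        · exact ⟨0, by ext a; exact (hV.false a).elim⟩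
        · refine ⟨((G.neighborSet v0).ncard : ℝ), ?_⟩
          ext a b
          rw [Matrix.mul_apply, Matrix.smul_apply, hJ, Matrix.of_apply]
          simp only [Matrix.of_apply, smul_eq_mul, mul_one]
          rw [wr_reg h v0 a, ← ar_sq, pow_two, Matrix.mul_apply]
          refine Finset.sum_congr rfl fun w _ => ?_
          rw [hA]
          unfold AR
          rw [G.adj_comm w a]
          split_ifs <;> norm_num
      refine Submodule.span_induction (p := fun M _ => Sd G * M ∈ Submodule.span ℝ S)
        ?_ ?_ ?_ ?_ ih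
      · rintro M (⟨i, rfl⟩ | rfl)
        · obtain ⟨c, hc⟩ := hcol i
          show Sd G * A ^ i ∈ _
          rw [hS, sub_mul, sub_mul, one_mul, hc, Matrix.smul_mul, ← pow_succ']
          exact Submodule.sub_mem _ (Submodule.sub_mem _ (Submodule.smul_mem _ _ hJm)
            (Submodule.subset_span (Or.inl ⟨i, rfl⟩)))
            (Submodule.smul_mem _ _ (Submodule.subset_span (Or.inl ⟨i + 1, rfl⟩)))
        · obtain ⟨k, hk⟩ := hAJ
          rw [hS, sub_mul, sub_mul, one_mul, hJJ, Matrix.smul_mul, hk]
          exact Submodule.sub_mem _ (Submodule.sub_mem _ (Submodule.smul_mem _ _ hJm) hJm)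
            (Submodule.smul_mem _ _ (Submodule.smul_mem _ _ hJm))
      · rw [mul_zero]
        exact Submodule.zero_mem _
      · intro x y _ _ hx hy
        rw [mul_add]
        exact Submodule.add_mem _ hx hy
      · intro a x _ hx
        rw [Matrix.mul_smul]
        exact Submodule.smul_mem _ _ hx
  intro u v
  refine Submodule.span_induction (p := fun M _ => M u u = M v v) ?_ ?_ ?_ ?_ (hmem j)
  · rintro M (⟨i, rfl⟩ | rfl)
    · exact h i u v
    · rfl
  · rfl
  · intro x y _ _ hx hy
    rw [Matrix.add_apply, Matrix.add_apply, hx, hy]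
  · intro a x _ hx
    rw [Matrix.smul_apply, Matrix.smul_apply, hx]

theorem wr_pow [Fintype V] {G : SimpleGraph V} (h : WalkRegular G) (j : ℕ) (u v : V) :
    (SQ G ^ j) u u = (SQ G ^ j) v v := by
  have hG : Sd G = (SQ G).map (algebraMap ℚ ℝ) := by
    ext a b
    rw [Matrix.map_apply, ← sq_map]
    rfl
  have h1 : ∀ a : V, (Sd G ^ j) a a = algebraMap ℚ ℝ ((SQ G ^ j) a a) := by
    intro a
    have h2 := map_pow (RingHom.mapMatrix (m := V) (algebraMap ℚ ℝ)) (SQ G) j
    rw [RingHom.mapMatrix_apply, RingHom.mapMatrix_apply] at h2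
    rw [hG, ← h2, Matrix.map_apply]
  have h3 := wr_real h j u v
  rw [h1, h1] at h3
  exact (algebraMap ℚ ℝ).injective h3

theorem wr_aj [Fintype V] {G : SimpleGraph V} (h : WalkRegular G) (u v : V) :
    Aj G u u = Aj G v v := adj_of_pow fun j => wr_pow h j u v

private theorem tr_iso [Fintype V] {G : SimpleGraph V} (hE : E G = G) (g : Equiv.Perm V)
    (hg : ∀ a b c, T G (g a) (g b) (g c) = T G a b c) (a b : V) :
    G.Adj (g a) (g b) ↔ G.Adj a b := by
  have h1 := E_iso (G := G) (H := G) g hg a b
  rw [hE] at h1
  rw [← s_eq_one, ← s_eq_one, h1]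

theorem tr_reg [Fintype V] {G : SimpleGraph V} (hE : E G = G)
    (h : ∀ u v, ∃ g : Equiv.Perm V, (∀ a b c, T G (g a) (g b) (g c) = T G a b c) ∧ g u = v)
    (u v : V) : (G.neighborSet u).ncard = (G.neighborSet v).ncard := by
  obtain ⟨g, hg, rfl⟩ := h u v
  have h1 : G.neighborSet (g u) = g '' G.neighborSet u := by
    ext w
    constructor
    · intro hw
      refine ⟨g.symm w, ?_, g.apply_symm_apply w⟩
      show G.Adj u (g.symm w)
      rw [← tr_iso hE g hg, Equiv.apply_symm_apply]
      exact hw
    · rintro ⟨x, hx, rfl⟩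
      exact (tr_iso hE g hg u x).2 hx
  rw [h1, Set.ncard_image_of_injective _ g.injective]

theorem tr_aj [Fintype V] {G : SimpleGraph V} (hE : E G = G)
    (h : ∀ u v, ∃ g : Equiv.Perm V, (∀ a b c, T G (g a) (g b) (g c) = T G a b c) ∧ g u = v)
    (u v : V) : Aj G u u = Aj G v v := by
  obtain ⟨g, hg, rfl⟩ := h u v
  let e : G ≃g G := ⟨g, fun {a b} => tr_iso hE g hg a b⟩
  exact (aj_iso e u u).symm

end SWS
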