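import Pool.Agent.SWS.La
import Pool.Agent.SWS.Dg
import Pool.Agent.SWS.Nu
import Pool.Agent.SWS.Cl
import Pool.Agent.SWS.Cx
import Pool.Agent.SWS.Wr

/-!
# SWS: at most two irreducible factors
-/

set_option autoImplicit false

namespace SWS

open Finset Polynomial RGC
open scoped Classical

variable {V W : Type}

theorem two_of_aj [Fintype V] (hn : 10 ≤ Fintype.card V) (ho : Odd (Fintype.card V))
    {G : SimpleGraph V} {k : ℕ} (hk : ∀ v, (G.neighborSet v).ncard = k)
    (hc : ∀ u v, Aj G u u = Aj G v v)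
    (hf : ∀ a b c : ℚ[X], a * b * c *
      EuclideanDomain.gcd (SQ G).charpoly (derivative (SQ G).charpoly) ∣
        derivative (SQ G).charpoly → IsUnit a ∨ IsUnit b ∨ IsUnit c) : Recon G := by
  intro H hd
  by_contra hne
  obtain ⟨Q, hC⟩ := ctx_of hn ho hk hc hd hne
  obtain ⟨f1, f2, m1, m2, i1, i2, h12, hle, hP1, -, hQ, hL⟩ := labels hC hf
  have h1 := deg_one hC m1 m2 i1 i2 h12 hle hP1 hQ hL
  obtain ⟨ν, s0, hN⟩ := nu_of_labels hC m1 h1 h12 hP1 hQ hL
  exact closing hC hN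

theorem recon_wr [Fintype V] (hn : 10 ≤ Fintype.card V) (ho : Odd (Fintype.card V))
    {G : SimpleGraph V} (hw : WalkRegular G)
    (hf : ∀ a b c : ℚ[X], a * b * c *
      EuclideanDomain.gcd (SQ G).charpoly (derivative (SQ G).charpoly) ∣
        derivative (SQ G).charpoly → IsUnit a ∨ IsUnit b ∨ IsUnit c) : Recon G := by
  obtain ⟨v0⟩ : Nonempty V := Fintype.card_pos_iff.1 (by omega)
  exact two_of_aj hn ho (fun v => wr_reg hw v v0) (wr_aj hw) hf

theorem recon_tr [Fintype V] (hn : 10 ≤ Fintype.card V) (ho : Odd (Fintype.card V))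
    {G : SimpleGraph V}
    (ht : ∀ u v, ∃ g : Equiv.Perm V,
      (∀ a b c, OddTriple G (g a) (g b) (g c) ↔ OddTriple G a b c) ∧ g u = v)
    (hf : ∀ a b c : ℚ[X], a * b * c *
      EuclideanDomain.gcd (SQ G).charpoly (derivative (SQ G).charpoly) ∣
        derivative (SQ G).charpoly → IsUnit a ∨ IsUnit b ∨ IsUnit c) : Recon G := by
  obtain ⟨v0⟩ : Nonempty V := Fintype.card_pos_iff.1 (by omega)
  have hsw : SwEq G (E G) := swEq_of_T fun a b c => T_E ho G a b c
  have hEE : E (E G) = E G := E_unique ho (fun a => deg_E ho G a) (fun _ _ _ => rfl)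
  have ht' : ∀ u v, ∃ g : Equiv.Perm V,
      (∀ a b c, T (E G) (g a) (g b) (g c) = T (E G) a b c) ∧ g u = v := by
    intro u v
    obtain ⟨g, hg, hgu⟩ := ht u v
    refine ⟨g, fun a b c => ?_, hgu⟩
    have := hg a b c
    rw [oddTriple_iff, oddTriple_iff] at this
    rw [T_E ho, T_E ho]
    have key : ∀ x y : ZMod 2, (x = 1 ↔ y = 1) → x = y := by decide
    exact key _ _ this
  have hp := chp_swEq hsw
  rw [hp] at hf
  have hR : Recon (E G) := two_of_aj hn ho (fun v => tr_reg hEE ht' v v0) (tr_aj hEE ht') hf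
  intro H hd
  exact hsw.trans (hR H (deck_congr hsw hd))

end SWS
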