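import Pool.Agent.SWS.Un
import Pool.Agent.SWS.Pw
import Pool.Agent.SWS.Ct

/-!
# SWS: the cubic relation of the mate

Module Qb. A cubic relation of the real Seidel matrix modulo the all-one matrix is preserved by
isomorphisms, and it passes from a regular graph to a regular hypomorphic mate: the traces of all
powers of the two Seidel matrices agree, so the symmetric matrix `q(SH) - c J` has trace of the square
zero.
-/

set_option autoImplicit false

namespace SWS

open Finset Polynomial RGC
open scoped Classical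

variable {V W : Type}

private noncomputable abbrev Qb_J (V : Type) : Matrix V V ℝ := Matrix.of fun _ _ => (1 : ℝ)

private noncomputable def Qb_q (e1 e2 e3 : ℝ) : ℝ[X] := X ^ 3 - (C e1 * X ^ 2 + C e2 * X + C e3)

private theorem Qb_aeval [Fintype V] (e1 e2 e3 : ℝ) (S : Matrix V V ℝ) :
    aeval S (Qb_q e1 e2 e3) = S ^ 3 - (e1 • S ^ 2 + e2 • S + e3 • (1 : Matrix V V ℝ)) := by
  unfold Qb_q
  simp only [map_sub, map_add, map_mul, aeval_C, aeval_X, map_pow, Algebra.algebraMap_eq_smul_one,
    smul_mul_assoc, one_mul]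

private theorem Qb_tr [Fintype V] {M N : Matrix V V ℝ} (h : ∀ j : ℕ, (M ^ j).trace = (N ^ j).trace)
    (g : ℝ[X]) : (aeval M g).trace = (aeval N g).trace := by
  induction g using Polynomial.induction_on' with
  | add p q hp hq => rw [map_add, map_add, Matrix.trace_add, Matrix.trace_add, hp, hq]
  | monomial j a =>
    rw [aeval_monomial, aeval_monomial, ← Algebra.smul_def, ← Algebra.smul_def, Matrix.trace_smul,
      Matrix.trace_smul, h j]

private theorem Qb_map (G : SimpleGraph V) : Sd G = (SQ G).map (algebraMap ℚ ℝ) := by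
  ext a b
  rw [Matrix.map_apply, ← sq_map]
  rfl

private theorem Qb_pow [Fintype V] (G : SimpleGraph V) (j : ℕ) (v : V) :
    (Sd G ^ j) v v = (algebraMap ℚ ℝ) ((SQ G ^ j) v v) := by
  rw [Qb_map G, ← Matrix.map_pow, Matrix.map_apply]

private theorem Qb_row [Fintype V] (G : SimpleGraph V) {k : ℕ} (a : V)
    (h : (G.neighborSet a).ncard = k) :
    ∑ b, Sd G a b = (Fintype.card V : ℝ) - 1 - 2 * k := by
  have h1 : ∀ b, Sd G a b = 1 - (if a = b then 1 else 0) - 2 * (if G.Adj a b then 1 else 0) := by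
    intro b
    unfold Sd
    by_cases h1 : a = b
    · have h2 : ¬ G.Adj a b := fun h => h.ne h1
      rw [if_pos h1, if_pos h1, if_neg h2]
      norm_num
    · by_cases h2 : G.Adj a b
      · rw [if_neg h1, if_neg h1, if_pos h2, if_pos h2]
        norm_num
      · rw [if_neg h1, if_neg h1, if_neg h2, if_neg h2]
        norm_num
  have h2 : (univ.filter fun b => G.Adj a b).card = k := by
    rw [← h, Set.ncard_eq_toFinset_card']
    congr 1
    ext b
    simp
  have h3 : ∑ b, (if G.Adj a b then (1 : ℝ) else 0) = k := by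
    rw [Finset.sum_boole, h2]
  rw [Finset.sum_congr rfl fun b _ => h1 b, Finset.sum_sub_distrib, Finset.sum_sub_distrib,
    ← Finset.mul_sum, h3]
  simp

private theorem Qb_mulJ [Fintype V] (G : SimpleGraph V) {k : ℕ}
    (h : ∀ v, (G.neighborSet v).ncard = k) :
    Sd G * Qb_J V = ((Fintype.card V : ℝ) - 1 - 2 * k) • Qb_J V := by
  ext a b
  rw [Matrix.mul_apply, Matrix.smul_apply, ← Qb_row G a (h a)]
  simp [Matrix.of_apply]

private theorem Qb_powJ [Fintype V] {S : Matrix V V ℝ} {r : ℝ} (h : S * Qb_J V = r • Qb_J V)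
    (g : ℝ[X]) : aeval S g * Qb_J V = g.eval r • Qb_J V := by
  have hp : ∀ j : ℕ, S ^ j * Qb_J V = r ^ j • Qb_J V := by
    intro j
    induction j with
    | zero => rw [pow_zero, pow_zero, one_mul, one_smul]
    | succ j ih => rw [pow_succ, Matrix.mul_assoc, h, Matrix.mul_smul, ih, smul_smul, pow_succ, mul_comm]
  induction g using Polynomial.induction_on' with
  | add p q hp hq => rw [map_add, Matrix.add_mul, hp, hq, eval_add, add_smul]
  | monomial j a =>
    rw [aeval_monomial, ← Algebra.smul_def, Matrix.smul_mul, hp, smul_smul, eval_monomial]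

private theorem Qb_JJ [Fintype V] : Qb_J V * Qb_J V = (Fintype.card V : ℝ) • Qb_J V := by
  ext a b
  rw [Matrix.mul_apply, Matrix.smul_apply]
  simp [Matrix.of_apply]

private theorem Qb_trJ [Fintype V] : (Qb_J V).trace = (Fintype.card V : ℝ) := by
  unfold Matrix.trace
  simp [Matrix.of_apply]

private theorem Qb_symm (G : SimpleGraph V) : (Sd G).transpose = Sd G := by
  ext a b
  show Sd G b a = Sd G a b
  unfold Sd
  have h2 : (b = a) = (a = b) := propext eq_comm
  rw [h2, G.adj_comm b a]

private theorem Qb_cub [Fintype V] {G : SimpleGraph V} {e1 e2 e3 c : ℝ} :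
    Cub G e1 e2 e3 c ↔ aeval (Sd G) (Qb_q e1 e2 e3) = c • Qb_J V := by
  rw [Qb_aeval, sub_eq_iff_eq_add]
  unfold Cub
  constructor
  · intro h
    rw [h, add_comm]
  · intro h
    rw [h, add_comm]

theorem cub_iso [Fintype V] {G K : SimpleGraph V} (e : G ≃g K) {e1 e2 e3 c : ℝ}
    (h : Cub G e1 e2 e3 c) : Cub K e1 e2 e3 c := by
  have hK : Sd K = Matrix.reindexAlgEquiv ℝ ℝ e.toEquiv (Sd G) := by
    ext a b
    obtain ⟨a, rfl⟩ := e.surjective a
    obtain ⟨b, rfl⟩ := e.surjective b
    have h1 : Matrix.reindexAlgEquiv ℝ ℝ e.toEquiv (Sd G) (e a) (e b) = Sd G a b := by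
      show Sd G (e.toEquiv.symm (e.toEquiv a)) (e.toEquiv.symm (e.toEquiv b)) = Sd G a b
      rw [Equiv.symm_apply_apply, Equiv.symm_apply_apply]
    rw [h1]
    unfold Sd
    have h2 : (e a = e b) = (a = b) := propext e.injective.eq_iff
    have h3 : K.Adj (e a) (e b) = G.Adj a b := propext e.map_adj_iff
    rw [h2, h3]
  have hJ : Matrix.reindexAlgEquiv ℝ ℝ e.toEquiv (Matrix.of fun _ _ => (1 : ℝ)) =
      (Matrix.of fun _ _ => (1 : ℝ)) := rfl
  unfold Cub at h ⊢
  rw [hK, ← map_pow, h, map_add, map_add, map_add, map_smul, map_smul, map_smul, map_smul, map_pow,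
    map_one, hJ]

theorem cub_mate [Fintype V] {G H : SimpleGraph V} {P Q : ℚ[X]} (h : Ctx G H P Q) {k : ℕ}
    (hG : ∀ v, (G.neighborSet v).ncard = k) (hH : ∀ v, (H.neighborSet v).ncard = k)
    {e1 e2 e3 c : ℝ} (hc : Cub G e1 e2 e3 c) : Cub H e1 e2 e3 c := by
  rw [Qb_cub] at hc ⊢
  set q := Qb_q e1 e2 e3 with hq
  set n : ℝ := (Fintype.card V : ℝ) with hn
  have hn0 : n ≠ 0 := by
    have h1 := h.card
    have h2 : (Fintype.card V : ℝ) ≠ 0 := by
      have h3 : Fintype.card V ≠ 0 := by omega
      exact_mod_cast h3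
    exact h2
  have hJ0 : Qb_J V ≠ 0 := by
    intro h0
    have h1 := congrArg Matrix.trace h0
    rw [Qb_trJ, Matrix.trace_zero] at h1
    exact hn0 h1
  -- eigenvalue of the all-one matrix
  have hr : q.eval (n - 1 - 2 * k) = c * n := by
    have h1 := Qb_powJ (Qb_mulJ G hG) q
    rw [hc, Matrix.smul_mul, Qb_JJ, smul_smul] at h1
    exact (smul_left_injective ℝ hJ0 h1).symm
  have hHJ : aeval (Sd H) q * Qb_J V = (c * n) • Qb_J V := by
    rw [Qb_powJ (Qb_mulJ H hH) q, ← hr]
  -- traces
  have htr : ∀ j : ℕ, (Sd H ^ j).trace = (Sd G ^ j).trace := by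
    intro j
    unfold Matrix.trace
    refine Finset.sum_congr rfl fun v _ => ?_
    show (Sd H ^ j) v v = (Sd G ^ j) v v
    rw [Qb_pow, Qb_pow]
    congr 1
    exact pow_of_adj (h.cH.trans h.cG.symm) ((h.aH v).trans (h.aG v).symm) j
  have h1 : (aeval (Sd H) q * aeval (Sd H) q).trace = c * (c * (n * n)) := by
    rw [← map_mul, Qb_tr htr, map_mul, hc, Matrix.smul_mul, Matrix.mul_smul, Qb_JJ,
      Matrix.trace_smul, Matrix.trace_smul, Matrix.trace_smul, Qb_trJ]
    simp only [smul_eq_mul]
    ring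
  have h2 : (aeval (Sd H) q * Qb_J V).trace = c * (n * n) := by
    rw [hHJ, Matrix.trace_smul, Qb_trJ, smul_eq_mul]
    ring
  set N := aeval (Sd H) q - c • Qb_J V with hN
  have hsq : (aeval (Sd H) q).transpose = aeval (Sd H) q := by
    rw [hq, Qb_aeval, Matrix.transpose_sub, Matrix.transpose_add, Matrix.transpose_add,
      Matrix.transpose_smul, Matrix.transpose_smul, Matrix.transpose_smul, Matrix.transpose_pow,
      Matrix.transpose_pow, Matrix.transpose_one, Qb_symm]
  have hNs : N.transpose = N := by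
    rw [hN, Matrix.transpose_sub, hsq, Matrix.transpose_smul]
    rfl
  have hNt : (N.transpose * N).trace = 0 := by
    rw [hNs, hN, Matrix.sub_mul, Matrix.mul_sub, Matrix.mul_sub, Matrix.trace_sub, Matrix.trace_sub,
      Matrix.trace_sub, h1, Matrix.mul_smul, Matrix.trace_smul, h2, Matrix.smul_mul,
      Matrix.trace_smul, Matrix.trace_mul_comm, h2, Matrix.smul_mul, Matrix.mul_smul, Qb_JJ,
      Matrix.trace_smul, Matrix.trace_smul, Matrix.trace_smul, Qb_trJ]
    simp only [smul_eq_mul]
    ring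
  have hN0 : ∀ i j, N i j = 0 := by
    have h3 : (N.transpose * N).trace = ∑ j, ∑ i, N i j * N i j := by
      unfold Matrix.trace
      refine Finset.sum_congr rfl fun j _ => ?_
      show (N.transpose * N) j j = _
      rw [Matrix.mul_apply]
      rfl
    rw [h3] at hNt
    intro i j
    have h4 := (Finset.sum_eq_zero_iff_of_nonneg
      (fun j _ => Finset.sum_nonneg fun i _ => mul_self_nonneg (N i j))).1 hNt j (mem_univ j)
    have h5 := (Finset.sum_eq_zero_iff_of_nonneg
      (fun i _ => mul_self_nonneg (N i j))).1 h4 i (mem_univ i)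
    exact mul_self_eq_zero.1 h5
  have hN1 : N = 0 := by
    ext i j
    exact hN0 i j
  exact sub_eq_zero.1 hN1

end SWS
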