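import Pool.Agent.SWS.Fa

/-!
# SWS: a cut with constant codegree on one side

If on the side `D` (`d = 0`) of the cut at `v` the sign `SQ K v a` is constant, equal to `s0`, and the
codegrees are constant (`SQ K v a * (SQ K * SQ K) v a = ν`), then the row sums of the Seidel matrix on `D`
are `ν` (coefficient `n - 2` of the cut identity), hence `(X - ν) * Aj K v a = s0 * Q` on `D` (the
characteristic matrix of the submatrix on `D` is injective), the factor of the side `D` is `X - ν`,
`ν` is no root of `P`, and the entries `Aj K v a` on the other side vanish at `ν`.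
-/

set_option autoImplicit false

namespace SWS

open Finset Polynomial RGC
open scoped Classical

variable {V W : Type}

private theorem Qf_split [Fintype V] {R : Type} [AddCommMonoid R] (v a : V) (d : V → ZMod 2) (f : V → R) :
    ∑ c, f c = f v + (∑ c ∈ univ.filter (fun c => c ≠ v ∧ d c ≠ d a), f c +
      ∑ c ∈ univ.filter (fun c => c ≠ v ∧ d c = d a), f c) := by
  rw [← Finset.add_sum_erase univ f (Finset.mem_univ v)]
  congr 1
  rw [← Finset.sum_filter_add_sum_filter_not (univ.erase v) (fun c => d c ≠ d a) f]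
  congr 1
  · refine Finset.sum_congr ?_ (fun _ _ => rfl)
    ext c
    simp only [Finset.mem_filter, Finset.mem_erase, Finset.mem_univ, and_true, true_and]
  · refine Finset.sum_congr ?_ (fun _ _ => rfl)
    ext c
    simp only [Finset.mem_filter, Finset.mem_erase, Finset.mem_univ, and_true, true_and, not_not]

private theorem Qf_ker [Fintype V] (M : Matrix V V ℚ) (D : Finset V) (w : V → ℚ[X])
    (h : ∀ a ∈ D, X * w a - ∑ c ∈ D, C (M a c) * w c = 0) : ∀ a ∈ D, w a = 0 := by
  have hdet : (Matrix.charmatrix (M.submatrix (Subtype.val : {x : V // x ∈ D} → V) Subtype.val)).det ≠ 0 :=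
    (Matrix.charpoly_monic (M.submatrix (Subtype.val : {x : V // x ∈ D} → V) Subtype.val)).ne_zero
  have hk := Matrix.eq_zero_of_mulVec_eq_zero hdet (v := fun x : {x : V // x ∈ D} => w x.1) (by
    funext x
    have hx := h x.1 x.2
    show ∑ y : {x : V // x ∈ D}, Matrix.charmatrix (M.submatrix (Subtype.val : {x : V // x ∈ D} → V)
      Subtype.val) x y * w y.1 = 0
    have e1 : ∀ y : {x : V // x ∈ D}, Matrix.charmatrix (M.submatrix (Subtype.val : {x : V // x ∈ D} → V)
        Subtype.val) x y * w y.1 = (if x = y then X * w x.1 else 0) - C (M x.1 y.1) * w y.1 := by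
      intro y
      rw [Matrix.charmatrix_apply, sub_mul, Matrix.submatrix_apply, Matrix.diagonal_apply]
      congr 1
      by_cases hxy : x = y
      · rw [if_pos hxy, if_pos hxy, hxy]
      · rw [if_neg hxy, if_neg hxy, zero_mul]
    rw [Finset.sum_congr rfl (fun y _ => e1 y), Finset.sum_sub_distrib, Finset.sum_ite_eq,
      if_pos (Finset.mem_univ x), ← hx]
    congr 1
    exact Finset.sum_coe_sort D (fun y => C (M x.1 y) * w y))
  intro a ha
  exact congrFun hk ⟨a, ha⟩

theorem nu_side [Fintype V] {G H K L : SimpleGraph V} {P Q : ℚ[X]} (h : Ctx G H P Q) {b : Bool}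
    (hK : InU G H b K) {v : V} {d : V → ZMod 2} (hm : Mut K L v d Q) {ν s0 : ℚ}
    (hD : ∀ a, a ≠ v → d a = 0 →
      SQ K v a = s0 ∧ SQ K v a * (SQ K * SQ K) v a = ν) :
    P.eval ν ≠ 0 ∧ ∀ a, a ≠ v → (d a = 0 → (X - C ν) * Aj K v a = C s0 * Q) ∧
      (d a = 1 → (Aj K v a).eval ν = 0) := by
  have hc := inU_ctx h hK
  have hsym : ∀ a c, SQ K a c = SQ K c a := fun a c => ((sq_symm K).apply a c).symm
  have hs2 : ∀ a, a ≠ v → d a = 0 → s0 * s0 = 1 := by
    intro a ha h0
    rw [← (hD a ha h0).1]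
    exact sq_mul K ha.symm
  -- row sums on the side
  have hrow : ∀ a, a ≠ v → d a = 0 →
      ∑ c ∈ univ.filter (fun c => c ≠ v ∧ d c = d a), SQ K a c = ν := by
    intro a ha h0
    have h1 := congrArg (fun p : ℚ[X] => p.coeff (Fintype.card V - 2)) (hm.cut a ha)
    simp only [Polynomial.finsetSum_coeff, Polynomial.coeff_C_mul, Polynomial.coeff_zero] at h1
    have h2 : ∑ c ∈ univ.filter (fun c => c ≠ v ∧ d c ≠ d a), SQ K v c * SQ K c a = 0 := by
      rw [← h1]
      refine Finset.sum_congr rfl (fun c hcm => ?_)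
      have hcv : c ≠ v := (Finset.mem_filter.mp hcm).2.1
      rw [aj_two K hcv.symm, hsym c a, mul_comm]
    have h3 : (SQ K * SQ K) v a = ∑ c, SQ K v c * SQ K c a := Matrix.mul_apply
    rw [Qf_split v a d, sq_diag, zero_mul, zero_add, h2, zero_add] at h3
    have h4 : ∑ c ∈ univ.filter (fun c => c ≠ v ∧ d c = d a), SQ K v c * SQ K c a =
        s0 * ∑ c ∈ univ.filter (fun c => c ≠ v ∧ d c = d a), SQ K a c := by
      rw [Finset.mul_sum]
      refine Finset.sum_congr rfl (fun c hcm => ?_)
      have hcv := (Finset.mem_filter.mp hcm).2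
      rw [(hD c hcv.1 (hcv.2.trans h0)).1, hsym c a]
    have h5 := (hD a ha h0).2
    rw [(hD a ha h0).1, h3, h4, ← mul_assoc, hs2 a ha h0, one_mul] at h5
    exact h5
  -- the identity on the side
  have hw : ∀ a, (a ≠ v ∧ d a = 0) → (X - C ν) * Aj K v a - C s0 * Q = 0 := by
    intro a0 ha0
    refine Qf_ker (SQ K) (univ.filter (fun c => c ≠ v ∧ d c = 0))
      (fun a => (X - C ν) * Aj K v a - C s0 * Q) ?_ a0 (Finset.mem_filter.mpr ⟨Finset.mem_univ a0, ha0⟩)
    intro a hamem
    have ha : a ≠ v ∧ d a = 0 := (Finset.mem_filter.mp hamem).2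
    have hset : univ.filter (fun c => c ≠ v ∧ d c = d a) = univ.filter (fun c => c ≠ v ∧ d c = 0) := by
      rw [ha.2]
    have h1 := adj_row (SQ K) a v
    rw [if_neg ha.1] at h1
    have h2 : X * Aj K v a - ∑ c, C (SQ K a c) * Aj K v c = 0 := by
      rw [← h1]
      rw [aj_symm K v a]
      congr 1
      refine Finset.sum_congr rfl (fun c _ => ?_)
      rw [aj_symm K v c]
      rfl
    rw [Qf_split v a d, hm.cut a ha.1, zero_add, hset, hc.aG v, hsym a v, (hD a ha.1 ha.2).1] at h2
    have h3 : ∑ c ∈ univ.filter (fun c => c ≠ v ∧ d c = 0), C (SQ K a c) = C ν := by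
      rw [← hset, ← hrow a ha.1 ha.2, map_sum]
    have h4 : ∑ c ∈ univ.filter (fun c => c ≠ v ∧ d c = 0),
        C (SQ K a c) * ((X - C ν) * Aj K v c - C s0 * Q) =
        (X - C ν) * ∑ c ∈ univ.filter (fun c => c ≠ v ∧ d c = 0), C (SQ K a c) * Aj K v c -
        C ν * (C s0 * Q) := by
      rw [← h3, Finset.mul_sum, Finset.sum_mul, ← Finset.sum_sub_distrib]
      refine Finset.sum_congr rfl (fun c _ => ?_)
      rw [h3]
      ring
    rw [h4]
    linear_combination (X - C ν) * h2
  obtain ⟨f0, f1, m0, m1, n0, n1, cp0, cp1, c01, hdiv, hdd, hlab, hmin0, hmin1⟩ := factors h hK hm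
  have hf0d : f0 ∣ X - C ν := by
    refine hmin0 (X - C ν) (fun a ha h0 => ?_)
    rw [sub_eq_zero.mp (hw a ⟨ha, h0⟩)]
    exact dvd_mul_left Q (C s0)
  have hf0 : f0 = X - C ν := by
    refine (Polynomial.eq_of_monic_of_dvd_of_natDegree_le m0 (Polynomial.monic_X_sub_C ν) hf0d ?_).symm
    rw [Polynomial.natDegree_X_sub_C]
    exact n0
  rw [hf0] at cp0 c01 hdiv
  refine ⟨?_, fun a ha => ⟨fun h0 => sub_eq_zero.mp (hw a ⟨ha, h0⟩), fun h1 => ?_⟩⟩
  · intro he
    obtain ⟨u, w, huw⟩ := cp0
    have := congrArg (Polynomial.eval ν) huw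
    rw [Polynomial.eval_add, Polynomial.eval_mul, Polynomial.eval_mul, he, Polynomial.eval_sub,
      Polynomial.eval_X, Polynomial.eval_C, sub_self, mul_zero, mul_zero, zero_add,
      Polynomial.eval_one] at this
    exact zero_ne_one this
  · have h2 := (hlab a ha).2 h1
    have h3 : X - C ν ∣ f1 * Aj K v a := (dvd_of_mul_right_dvd hdiv).trans h2
    have h4 : X - C ν ∣ Aj K v a := c01.dvd_of_dvd_mul_left h3
    exact Polynomial.dvd_iff_isRoot.mp h4

end SWS
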