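import Pool.Agent.SWS.Qm
import Pool.Agent.RGC.Dist

/-!
# SWS: all cuts are of the same type

Module Qs. If neither all vertices have cuts of the first type nor all have cuts of the second type, the sums of
the numbers `gv` give two equations; if `al = u` all codegrees take two values, otherwise the two types cannot occur in
the same graph, and the equality of the sets of codegrees gives a contradiction.
-/

set_option autoImplicit false

namespace SWS

open Finset Polynomial RGC
open scoped Classical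

variable {V W : Type}

private theorem Qs_comm [Fintype V] (K : SimpleGraph V) (a b : V) : gv K a b = gv K b a := by
  unfold gv
  rw [cd_comm]

private theorem Qs_I [Fintype V] {K : SimpleGraph V} {v : V} {d : V → ZMod 2} {u al w : ℝ}
    (h : TyI K v d u al w) {a : V} (ha : a ≠ v) : (K.Adj v a → gv K v a = al + 2) ∧
      (¬ K.Adj v a → (d a = 0 ∧ gv K v a = u) ∨ (d a ≠ 0 ∧ gv K v a = w)) := by
  have hz : ∀ x : ZMod 2, x ≠ 0 → x = 1 := by decide
  constructor
  · intro h1
    have h2 : d a ≠ 0 := fun h2 => (h.z a ha h2).1 h1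
    exact h.o1 a ha (hz _ h2) h1
  · intro h1
    by_cases h2 : d a = 0
    · exact Or.inl ⟨h2, (h.z a ha h2).2⟩
    · exact Or.inr ⟨h2, h.o2 a ha (hz _ h2) h1⟩

private theorem Qs_II [Fintype V] {K : SimpleGraph V} {v : V} {d : V → ZMod 2} {u al w : ℝ}
    (h : TyII K v d u al w) {a : V} (ha : a ≠ v) : (¬ K.Adj v a → gv K v a = al) ∧
      (K.Adj v a → (d a = 0 ∧ gv K v a = u + 2) ∨ (d a ≠ 0 ∧ gv K v a = w - 2)) := by
  have hz : ∀ x : ZMod 2, x ≠ 0 → x = 1 := by decide
  constructor
  · intro h1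
    have h2 : d a ≠ 0 := fun h2 => h1 (h.z a ha h2).1
    exact h.o1 a ha (hz _ h2) h1
  · intro h1
    by_cases h2 : d a = 0
    · exact Or.inl ⟨h2, (h.z a ha h2).2⟩
    · exact Or.inr ⟨h2, h.o2 a ha (hz _ h2) h1⟩

private theorem Qs_sum (F : Finset V) (g : V → ℝ) (d : V → ZMod 2) (x y : ℝ)
    (h : ∀ a ∈ F, (d a = 0 ∧ g a = x) ∨ (d a ≠ 0 ∧ g a = y)) :
    ∑ a ∈ F, g a = ((F.filter fun a => d a = 0).card : ℝ) * x +
      ((F.card : ℝ) - ((F.filter fun a => d a = 0).card : ℝ)) * y := by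
  have h1 : ∑ a ∈ F.filter (fun a => d a = 0), g a = ((F.filter fun a => d a = 0).card : ℝ) * x := by
    rw [Finset.sum_congr rfl (g := fun _ => x), Finset.sum_const, nsmul_eq_mul]
    intro a ha
    rw [mem_filter] at ha
    rcases h a ha.1 with h2 | h2
    · exact h2.2
    · exact absurd ha.2 h2.1
  have h2 : ∑ a ∈ F.filter (fun a => ¬ d a = 0), g a =
      ((F.filter fun a => ¬ d a = 0).card : ℝ) * y := by
    rw [Finset.sum_congr rfl (g := fun _ => y), Finset.sum_const, nsmul_eq_mul]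
    intro a ha
    rw [mem_filter] at ha
    rcases h a ha.1 with h2 | h2
    · exact absurd h2.1 ha.2
    · exact h2.2
  have h3 := Finset.sum_filter_add_sum_filter_not F (fun a => d a = 0) (fun _ => (1 : ℝ))
  simp only [Finset.sum_const, nsmul_eq_mul, mul_one] at h3
  rw [← Finset.sum_filter_add_sum_filter_not F (fun a => d a = 0), h1, h2, ← h3]
  ring

private theorem Qs_lt (F : Finset V) (d : V → ZMod 2) {a : V} (ha : a ∈ F) (hd : d a ≠ 0) :
    ((F.filter fun a => d a = 0).card : ℝ) < F.card := by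
  have h1 : (F.filter fun a => d a = 0).card < F.card :=
    Finset.card_lt_card (Finset.filter_ssubset.2 ⟨a, ha, hd⟩)
  exact_mod_cast h1

private theorem Qs_pos (F : Finset V) (d : V → ZMod 2) {a : V} (ha : a ∈ F) (hd : d a = 0) :
    (0 : ℝ) < ((F.filter fun a => d a = 0).card : ℝ) := by
  have h1 : 0 < (F.filter fun a => d a = 0).card := Finset.card_pos.2 ⟨a, mem_filter.2 ⟨ha, hd⟩⟩
  exact_mod_cast h1

private theorem Qs_avI [Fintype V] {K : SimpleGraph V} {v : V} {d : V → ZMod 2} {u al w S0 S1 : ℝ}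
    (h : TyI K v d u al w)
    (h1 : ∑ a ∈ univ.filter (fun a => K.Adj v a), gv K v a = S1)
    (h0 : ∑ a ∈ univ.filter (fun a => a ≠ v ∧ ¬ K.Adj v a), gv K v a = S0) :
    S1 = ((univ.filter (fun a => K.Adj v a)).card : ℝ) * (al + 2) ∧
    S0 = (((univ.filter (fun a => a ≠ v ∧ ¬ K.Adj v a)).filter fun a => d a = 0).card : ℝ) * u +
      (((univ.filter (fun a => a ≠ v ∧ ¬ K.Adj v a)).card : ℝ) -
        (((univ.filter (fun a => a ≠ v ∧ ¬ K.Adj v a)).filter fun a => d a = 0).card : ℝ)) * w := by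
  constructor
  · rw [← h1, Finset.sum_congr rfl (g := fun _ => al + 2), Finset.sum_const, nsmul_eq_mul]
    intro a ha
    have h2 := (mem_filter.1 ha).2
    exact (Qs_I h h2.ne.symm).1 h2
  · rw [← h0]
    refine Qs_sum _ _ d _ _ fun a ha => ?_
    have h2 := (mem_filter.1 ha).2
    exact (Qs_I h h2.1).2 h2.2

private theorem Qs_avII [Fintype V] {K : SimpleGraph V} {v : V} {d : V → ZMod 2} {u al w S0 S1 : ℝ}
    (h : TyII K v d u al w)
    (h1 : ∑ a ∈ univ.filter (fun a => K.Adj v a), gv K v a = S1)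
    (h0 : ∑ a ∈ univ.filter (fun a => a ≠ v ∧ ¬ K.Adj v a), gv K v a = S0) :
    S0 = ((univ.filter (fun a => a ≠ v ∧ ¬ K.Adj v a)).card : ℝ) * al ∧
    S1 = (((univ.filter (fun a => K.Adj v a)).filter fun a => d a = 0).card : ℝ) * (u + 2) +
      (((univ.filter (fun a => K.Adj v a)).card : ℝ) -
        (((univ.filter (fun a => K.Adj v a)).filter fun a => d a = 0).card : ℝ)) * (w - 2) := by
  constructor
  · rw [← h0, Finset.sum_congr rfl (g := fun _ => al), Finset.sum_const, nsmul_eq_mul]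
    intro a ha
    have h2 := (mem_filter.1 ha).2
    exact (Qs_II h h2.1).1 h2.2
  · rw [← h1]
    refine Qs_sum _ _ d _ _ fun a ha => ?_
    have h2 := (mem_filter.1 ha).2
    exact (Qs_II h h2.ne.symm).2 h2

private theorem Qs_adj [Fintype V] {K : SimpleGraph V} (hE : E K = K) {a b : V} (h : a ≠ b) :
    K.Adj a b ↔ Odd (cd K a b) := by
  rw [← s_E_one K h, s_eq_one, hE]

/-- every codegree of `L` is a codegree of `K` -/
private theorem Qs_mem [Fintype V] {G H : SimpleGraph V} {P Q : ℚ[X]} (h : Ctx G H P Q) {b c : Bool}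
    {K L : SimpleGraph V} (hK : InU G H b K) (hL : InU G H c L) {x y : V} (hxy : x ≠ y) :
    ∃ a b : V, a ≠ b ∧ cd K a b = cd L x y := by
  have hsame : ∀ e : L ≃g K, ∃ a b : V, a ≠ b ∧ cd K a b = cd L x y := fun e =>
    ⟨e x, e y, fun h1 => hxy (e.injective h1), cd_iso e.toEquiv (fun a b c => T_iso e a b c) x y⟩
  cases b with
  | true =>
    cases c with
    | true =>
      obtain ⟨e⟩ := hK
      obtain ⟨f⟩ := hL
      exact hsame (f.symm.trans e)
    | false =>
      obtain ⟨e⟩ := hK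
      obtain ⟨f⟩ := hL
      exact cd_mem h.card (h.iso e f).deck hxy
  | false =>
    cases c with
    | true =>
      obtain ⟨e⟩ := hK
      obtain ⟨f⟩ := hL
      exact cd_mem h.card (h.symm.iso e f).deck hxy
    | false =>
      obtain ⟨e⟩ := hK
      obtain ⟨f⟩ := hL
      exact hsame (f.symm.trans e)

private theorem Qs_no [Fintype V] {K : SimpleGraph V} {x y : V} {d e : V → ZMod 2} {u al w : ℝ}
    (hI : TyI K x d u al w) (hII : TyII K y e u al w) (h1 : al ≠ u) (h2 : al ≠ w)
    (h3 : al + 2 ≠ w - 2) : False := by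
  have h4 : al + 2 ≠ u + 2 := fun h => h1 (by linarith)
  by_cases hxy : x = y
  · subst hxy
    obtain ⟨a, ha⟩ := hI.nb
    have hax : a ≠ x := ha.ne.symm
    have h5 := (Qs_I hI hax).1 ha
    rcases (Qs_II hII hax).2 ha with h6 | h6
    · exact h4 (h5.symm.trans h6.2)
    · exact h3 (h5.symm.trans h6.2)
  · by_cases ha : K.Adj x y
    · have h5 := (Qs_I hI (Ne.symm hxy)).1 ha
      rw [Qs_comm] at h5
      rcases (Qs_II hII hxy).2 ha.symm with h6 | h6
      · exact h4 (h5.symm.trans h6.2)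
      · exact h3 (h5.symm.trans h6.2)
    · have h5 := (Qs_II hII hxy).1 (fun h => ha h.symm)
      rw [Qs_comm] at h5
      rcases (Qs_I hI (Ne.symm hxy)).2 ha with h6 | h6
      · exact h1 (h5.symm.trans h6.2)
      · exact h2 (h5.symm.trans h6.2)

theorem trich [Fintype V] {G H : SimpleGraph V} {P Q : ℚ[X]} (h : Ctx G H P Q) {k : ℕ}
    (hG : ∀ v, (G.neighborSet v).ncard = k) (hH : ∀ v, (H.neighborSet v).ncard = k)
    {u al w : ℝ}
    (hT : ∀ (b : Bool) (K : SimpleGraph V), InU G H b K → ∀ v : V,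
      ∃ (L : SimpleGraph V) (d : V → ZMod 2), InU G H (!b) L ∧ Mut K L v d Q ∧
        (TyI K v d u al w ∨ TyII K v d u al w)) :
    (∀ (b : Bool) (K : SimpleGraph V), InU G H b K → ∀ v : V,
      ∃ (L : SimpleGraph V) (d : V → ZMod 2), InU G H (!b) L ∧ Mut K L v d Q ∧
        TyI K v d u al w) ∨
    (∀ (b : Bool) (K : SimpleGraph V), InU G H b K → ∀ v : V,
      ∃ (L : SimpleGraph V) (d : V → ZMod 2), InU G H (!b) L ∧ Mut K L v d Q ∧
        TyII K v d u al w) ∨
    (∀ a b : V, a ≠ b → gv G a b = al + 2 ∨ gv G a b = al) := by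
  by_cases hA : (∀ (b : Bool) (K : SimpleGraph V), InU G H b K → ∀ v : V,
      ∃ (L : SimpleGraph V) (d : V → ZMod 2), InU G H (!b) L ∧ Mut K L v d Q ∧
        TyI K v d u al w)
  · exact Or.inl hA
  by_cases hB : (∀ (b : Bool) (K : SimpleGraph V), InU G H b K → ∀ v : V,
      ∃ (L : SimpleGraph V) (d : V → ZMod 2), InU G H (!b) L ∧ Mut K L v d Q ∧
        TyII K v d u al w)
  · exact Or.inr (Or.inl hB)
  refine Or.inr (Or.inr ?_)
  obtain ⟨S0, S1, hS⟩ := sums h hG hH
  -- a vertex with a cut of the second type, a vertex with a cut of the first type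
  obtain ⟨b1, K1, hK1, v1, L1, d1, hm1, ht1⟩ : ∃ (b : Bool) (K : SimpleGraph V) (_ : InU G H b K) (v : V)
      (L : SimpleGraph V) (d : V → ZMod 2), Mut K L v d Q ∧ TyII K v d u al w := by
    by_contra hcon
    apply hA
    intro b K hK v
    obtain ⟨L, d, hL, hm, ht⟩ := hT b K hK v
    rcases ht with ht | ht
    · exact ⟨L, d, hL, hm, ht⟩
    · exact absurd ⟨b, K, hK, v, L, d, hm, ht⟩ hcon
  obtain ⟨b2, K2, hK2, v2, L2, d2, hm2, ht2⟩ : ∃ (b : Bool) (K : SimpleGraph V) (_ : InU G H b K) (v : V)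
      (L : SimpleGraph V) (d : V → ZMod 2), Mut K L v d Q ∧ TyI K v d u al w := by
    by_contra hcon
    apply hB
    intro b K hK v
    obtain ⟨L, d, hL, hm, ht⟩ := hT b K hK v
    rcases ht with ht | ht
    · exact absurd ⟨b, K, hK, v, L, d, hm, ht⟩ hcon
    · exact ⟨L, d, hL, hm, ht⟩
  obtain ⟨s1, s0, c1, c0⟩ := hS b1 K1 hK1 v1
  obtain ⟨t1, t0, e1, e0⟩ := hS b2 K2 hK2 v2
  obtain ⟨p0, p1⟩ := Qs_avII ht1 s1 s0
  obtain ⟨q1, q0⟩ := Qs_avI ht2 t1 t0
  have hcard : ∀ (b : Bool) (K : SimpleGraph V), InU G H b K → ∀ v : V,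
      ((univ.filter (fun a => K.Adj v a)).card : ℝ) = k ∧
      ((univ.filter (fun a => a ≠ v ∧ ¬ K.Adj v a)).card : ℝ) = (Fintype.card V : ℝ) - 1 - k := by
    intro b K hK v
    obtain ⟨-, -, r1, r0⟩ := hS b K hK v
    refine ⟨by rw [r1], ?_⟩
    have r2 : ((univ.filter (fun a => a ≠ v ∧ ¬ K.Adj v a)).card : ℝ) + k + 1 = Fintype.card V := by
      exact_mod_cast r0
    linarith
  obtain ⟨n1, n0⟩ := hcard b1 K1 hK1 v1
  obtain ⟨m1, m0⟩ := hcard b2 K2 hK2 v2
  rw [n0] at p0
  rw [m1] at q1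
  rw [m0] at q0
  rw [n1] at p1
  by_cases hal : al = u
  · -- all codegrees take two values
    have key : ∀ a b : V, a ≠ b → (G.Adj a b → gv G a b = al + 2) ∧ (¬ G.Adj a b → gv G a b = al) := by
      intro a b hab
      have hGU : InU G H true G := ⟨SimpleGraph.Iso.refl⟩
      obtain ⟨L, d, hL, hm, ht⟩ := hT true G hGU a
      obtain ⟨r1, r0, -, -⟩ := hS true G hGU a
      obtain ⟨g1, g0⟩ := hcard true G hGU a
      rcases ht with ht | ht
      · refine ⟨(Qs_I ht hab.symm).1, fun hna => ?_⟩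
        rcases (Qs_I ht hab.symm).2 hna with h1 | h1
        · rw [h1.2, hal]
        · have h2 := (Qs_avI ht r1 r0).2
          have h3 := Qs_lt (univ.filter (fun c => c ≠ a ∧ ¬ G.Adj a c)) d
            (mem_filter.2 ⟨mem_univ _, hab.symm, hna⟩) h1.1
          rw [g0] at h2 h3
          rw [p0] at h2
          have h4 : (((Fintype.card V : ℝ) - 1 - k) -
              (((univ.filter (fun c => c ≠ a ∧ ¬ G.Adj a c)).filter fun c => d c = 0).card : ℝ)) *
                (w - u) = 0 := by
            rw [hal] at h2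
            linear_combination -h2
          rcases mul_eq_zero.1 h4 with h5 | h5
          · linarith
          · rw [h1.2, hal]
            linarith
      · refine ⟨fun ha => ?_, (Qs_II ht hab.symm).1⟩
        rcases (Qs_II ht hab.symm).2 ha with h1 | h1
        · rw [h1.2, hal]
        · have h2 := (Qs_avII ht r1 r0).2
          have h3 := Qs_lt (univ.filter (fun c => G.Adj a c)) d
            (mem_filter.2 ⟨mem_univ _, ha⟩) h1.1
          rw [g1] at h2 h3
          rw [q1] at h2
          have h4 : ((k : ℝ) - (((univ.filter (fun c => G.Adj a c)).filter fun c => d c = 0).card : ℝ)) *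
                (w - 2 - (u + 2)) = 0 := by
            rw [hal] at h2
            linear_combination -h2
          rcases mul_eq_zero.1 h4 with h5 | h5
          · linarith
          · rw [h1.2, hal]
            linarith
    intro a b hab
    by_cases ha : G.Adj a b
    · exact Or.inl ((key a b hab).1 ha)
    · exact Or.inr ((key a b hab).2 ha)
  · exfalso
    obtain ⟨i, hi, hdi⟩ := hm2.ex0
    obtain ⟨j, hj, hdj⟩ := hm1.ex0
    have hiz := ht2.z i hi hdi
    have hjz := ht1.z j hj hdj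
    have hq := Qs_pos (univ.filter (fun c => c ≠ v2 ∧ ¬ K2.Adj v2 c)) d2
      (mem_filter.2 ⟨mem_univ _, hi, hiz.1⟩) hdi
    have hp := Qs_pos (univ.filter (fun c => K1.Adj v1 c)) d1 (mem_filter.2 ⟨mem_univ _, hjz.1⟩) hdj
    have hw : al ≠ w := by
      intro h1
      rw [p0, ← h1] at q0
      have h2 : (((univ.filter (fun c => c ≠ v2 ∧ ¬ K2.Adj v2 c)).filter fun c => d2 c = 0).card : ℝ) *
          (u - al) = 0 := by
        linear_combination -q0
      rcases mul_eq_zero.1 h2 with h3 | h3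
      · linarith
      · exact hal (by linarith)
    have hw2 : al + 2 ≠ w - 2 := by
      intro h1
      rw [q1, ← h1] at p1
      have h2 : (((univ.filter (fun c => K1.Adj v1 c)).filter fun c => d1 c = 0).card : ℝ) *
          (u - al) = 0 := by
        linear_combination -p1
      rcases mul_eq_zero.1 h2 with h3 | h3
      · linarith
      · exact hal (by linarith)
    have hall : ∀ a b : V, a ≠ b → ¬ K1.Adj a b → gv K1 a b = al := by
      intro a b hab hna
      obtain ⟨L, d, hL, hm, ht⟩ := hT b1 K1 hK1 a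
      rcases ht with ht | ht
      · exact (Qs_no ht ht1 hal hw hw2).elim
      · exact (Qs_II ht hab.symm).1 hna
    obtain ⟨a, b, hab, hcd⟩ := Qs_mem h hK1 hK2 (Ne.symm hi)
    have hev1 : E K1 = K1 := (inU_ctx h hK1).evG
    have hev2 : E K2 = K2 := (inU_ctx h hK2).evG
    have hna : ¬ K1.Adj a b := by
      intro h1
      rw [Qs_adj hev1 hab, hcd, ← Qs_adj hev2 (Ne.symm hi)] at h1
      exact hiz.1 h1
    have h1 := hall a b hab hna
    have h2 := hiz.2
    unfold gv at h1 h2
    rw [hcd] at h1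
    exact hal (h1.symm.trans h2)

end SWS
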