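import Pool.Agent.SWS.Qc
import Pool.Agent.SWS.La

/-!
# SWS: the two types of cuts

Let `β a = Sd K v a`. For `i ≠ v` let `P'` be the set of `c ≠ v` with `d c ≠ d i`. The row sums of `Sd K` and `Sd L` are
equal, hence `∑ c ∈ P', Sd K i c = 0`; the coefficient `n - 2` of `hm.cut` gives `∑ c ∈ P', Sd K i c * β c = 0`. By
`cub_cut` one of the four combinations of `d` and `β` does not occur; after replacing `d` by `d + 1` if necessary, `β` is
constant on `d = 0`, and the two sums give the values of `gv`.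
-/

set_option autoImplicit false

namespace SWS

open Finset Polynomial RGC
open scoped Classical

variable {V W : Type}

private theorem Qt_sd (G : SimpleGraph V) {a b : V} (h : a ≠ b) :
    Sd G a b = if s G a b = 1 then -1 else 1 := by
  rw [← sq_map, sq_s G h]
  split_ifs <;> norm_num

private theorem Qt_symm (G : SimpleGraph V) (a b : V) : Sd G a b = Sd G b a := by
  rw [← sq_map, ← sq_map, (sq_symm G).apply b a]

private theorem Qt_diag (G : SimpleGraph V) (a : V) : Sd G a a = 0 := by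
  unfold Sd
  rw [if_pos rfl]

private theorem Qt_row [Fintype V] {G : SimpleGraph V} {k : ℕ}
    (hG : ∀ v, (G.neighborSet v).ncard = k) (i : V) :
    ∑ c, Sd G i c = (Fintype.card V : ℝ) - 1 - 2 * k := by
  have h1 : ∀ c, Sd G i c = 1 - (if i = c then (1 : ℝ) else 0) - 2 * (if G.Adj i c then 1 else 0) := by
    intro c
    unfold Sd
    by_cases h : i = c
    · subst h
      rw [if_pos rfl, if_pos rfl, if_neg (G.irrefl)]
      norm_num
    · rw [if_neg h, if_neg h]
      by_cases h2 : G.Adj i c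
      · rw [if_pos h2, if_pos h2]
        norm_num
      · rw [if_neg h2, if_neg h2]
        norm_num
  have h2 : (univ.filter fun c => G.Adj i c).card = k := by
    rw [← hG i, ← Set.ncard_coe_finset]
    congr 1
    ext c
    simp
  have h3 : ∑ c, (if G.Adj i c then (1 : ℝ) else 0) = k := by
    rw [Finset.sum_boole, h2]
  rw [Finset.sum_congr rfl fun c _ => h1 c, Finset.sum_sub_distrib, Finset.sum_sub_distrib,
    ← Finset.mul_sum, h3, Finset.sum_ite_eq, if_pos (mem_univ _), Finset.sum_const,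
    Finset.card_univ, nsmul_eq_mul, mul_one]

private theorem Qt_z1 : ∀ x y z : ZMod 2, z ≠ y → (x + y + z = 1 ↔ ¬ x = 1) := by decide

private theorem Qt_z2 : ∀ x y : ZMod 2, x + y + y = x := by decide

private theorem Qt_one [Fintype V] {K L : SimpleGraph V} {Q : ℚ[X]} {k : ℕ}
    (hK : ∀ v, (K.neighborSet v).ncard = k) (hL : ∀ v, (L.neighborSet v).ncard = k) {v : V}
    {d : V → ZMod 2} (hm : Mut K L v d Q) {i : V} (hi : i ≠ v) :
    ∑ c ∈ univ.filter (fun c => c ≠ v ∧ d c ≠ d i), Sd K i c = 0 := by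
  have h1 : ∑ c, (Sd K i c - Sd L i c) = 0 := by
    rw [Finset.sum_sub_distrib, Qt_row hK, Qt_row hL, sub_self]
  have h2 : ∀ c, Sd K i c - Sd L i c = if (c ≠ v ∧ d c ≠ d i) then 2 * Sd K i c else 0 := by
    intro c
    by_cases hc : c ≠ v ∧ d c ≠ d i
    · rw [if_pos hc]
      have hic : i ≠ c := fun h => hc.2 (by rw [h])
      rw [Qt_sd K hic, Qt_sd L hic, hm.off i c hi hc.1 hic]
      have h3 := Qt_z1 (s K i c) (d i) (d c) hc.2
      by_cases h4 : s K i c = 1
      · rw [if_pos h4, if_neg (fun h5 => (h3.1 h5) h4)]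
        norm_num
      · rw [if_neg h4, if_pos (h3.2 h4)]
        norm_num
    · rw [if_neg hc]
      by_cases hcv : c = v
      · subst hcv
        rw [Qt_symm K i c, Qt_symm L i c, Qt_sd K (Ne.symm hi), Qt_sd L (Ne.symm hi), hm.row i, sub_self]
      · have hd : d c = d i := by
          by_contra h
          exact hc ⟨hcv, h⟩
        by_cases hic : i = c
        · rw [← hic, Qt_diag, Qt_diag, sub_self]
        · rw [Qt_sd K hic, Qt_sd L hic, hm.off i c hi hcv hic, hd, Qt_z2, sub_self]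
  rw [Finset.sum_congr rfl fun c _ => h2 c, ← Finset.sum_filter, ← Finset.mul_sum] at h1
  linarith

private theorem Qt_two [Fintype V] {K L : SimpleGraph V} {Q : ℚ[X]} {v : V} {d : V → ZMod 2}
    (hm : Mut K L v d Q) {i : V} (hi : i ≠ v) :
    ∑ c ∈ univ.filter (fun c => c ≠ v ∧ d c ≠ d i), Sd K i c * Sd K v c = 0 := by
  have h1 := congrArg (fun p : ℚ[X] => p.coeff (Fintype.card V - 2)) (hm.cut i hi)
  simp only [finsetSum_coeff, coeff_C_mul, coeff_zero] at h1
  have h2 : ∑ c ∈ univ.filter (fun c => c ≠ v ∧ d c ≠ d i), SQ K i c * SQ K v c = 0 := by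
    refine (Finset.sum_congr rfl fun c hc => ?_).trans h1
    rw [mem_filter] at hc
    rw [aj_two K (Ne.symm hc.2.1)]
  have h3 := congrArg (fun x : ℚ => (x : ℝ)) h2
  simp only [Rat.cast_sum, Rat.cast_mul, sq_map, Rat.cast_zero] at h3
  exact h3

private theorem Qt_gv [Fintype V] (K : SimpleGraph V) {v i : V} (hi : i ≠ v) :
    gv K v i = Sd K v i * ∑ c, Sd K v c * Sd K i c := by
  have h1 := congrArg (fun x : ℚ => (x : ℝ)) (sq_cd K (Ne.symm hi))
  simp only [Matrix.mul_apply, Rat.cast_sum, Rat.cast_mul, sq_map, Rat.cast_sub, Rat.cast_natCast,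
    Rat.cast_ofNat] at h1
  unfold gv
  rw [← h1]
  congr 1
  exact Finset.sum_congr rfl fun c _ => by rw [Qt_symm K c i]

private theorem Qt_val (K : SimpleGraph V) {v a : V} (h : a ≠ v) :
    (K.Adj v a ∧ Sd K v a = -1) ∨ (¬ K.Adj v a ∧ Sd K v a = 1) := by
  unfold Sd
  rw [if_neg (Ne.symm h)]
  by_cases h1 : K.Adj v a
  · left
    exact ⟨h1, by rw [if_pos h1]⟩
  · right
    exact ⟨h1, by rw [if_neg h1]⟩

private theorem Qt_le (K : SimpleGraph V) (a b : V) : -1 ≤ Sd K a b ∧ Sd K a b ≤ 1 := by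
  unfold Sd
  split_ifs <;> norm_num

/-- the sums over the opposite side, weighted by `1 - t * β` -/
private theorem Qt_sum [Fintype V] {K L : SimpleGraph V} {Q : ℚ[X]} {k : ℕ}
    (hK : ∀ v, (K.neighborSet v).ncard = k) (hL : ∀ v, (L.neighborSet v).ncard = k) {v : V}
    {d : V → ZMod 2} (hm : Mut K L v d Q) {t : ℝ} (ht : t * t = 1)
    (h0 : ∀ a, a ≠ v → d a = 0 → Sd K v a = t) {i : V} (hi : i ≠ v) (hd : d i = 0) :
    gv K v i = (Fintype.card V : ℝ) - 1 - 2 * k - t := by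
  have h1 := Qt_one hK hL hm hi
  have h2 := Qt_two hm hi
  have h3 : ∑ c, Sd K i c * (1 - t * Sd K v c) = t := by
    have h4 : ∀ c, Sd K i c * (1 - t * Sd K v c) =
        (if (c ≠ v ∧ d c ≠ d i) then Sd K i c * (1 - t * Sd K v c) else 0) +
          if v = c then t else 0 := by
      intro c
      by_cases hcv : c = v
      · subst hcv
        rw [if_neg (fun h => h.1 rfl), if_pos rfl, Qt_diag, Qt_symm K i c, h0 i hi hd]
        ring
      · rw [if_neg (Ne.symm hcv), add_zero]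
        by_cases hdc : d c = d i
        · rw [if_neg (fun h => h.2 hdc), h0 c hcv (hdc.trans hd), ht]
          ring
        · rw [if_pos ⟨hcv, hdc⟩]
    rw [Finset.sum_congr rfl fun c _ => h4 c, Finset.sum_add_distrib, ← Finset.sum_filter,
      Finset.sum_ite_eq, if_pos (mem_univ _)]
    have h5 : ∑ c ∈ univ.filter (fun c => c ≠ v ∧ d c ≠ d i), Sd K i c * (1 - t * Sd K v c) = 0 := by
      have h6 : ∀ c, Sd K i c * (1 - t * Sd K v c) = Sd K i c - t * (Sd K i c * Sd K v c) := by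
        intro c
        ring
      rw [Finset.sum_congr rfl fun c _ => h6 c, Finset.sum_sub_distrib, ← Finset.mul_sum, h1, h2]
      ring
    rw [h5, zero_add]
  have h7 : ∀ c, Sd K i c * (1 - t * Sd K v c) = Sd K i c - t * (Sd K v c * Sd K i c) := by
    intro c
    ring
  rw [Finset.sum_congr rfl fun c _ => h7 c, Finset.sum_sub_distrib, ← Finset.mul_sum,
    Qt_row hK i] at h3
  rw [Qt_gv K hi, h0 i hi hd]
  linear_combination -h3

/-- if all the entries of the row `i` are equal, the opposite side is empty -/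
private theorem Qt_full [Fintype V] {K L : SimpleGraph V} {Q : ℚ[X]} {k : ℕ}
    (hK : ∀ v, (K.neighborSet v).ncard = k) (hL : ∀ v, (L.neighborSet v).ncard = k) {v : V}
    {d : V → ZMod 2} (hm : Mut K L v d Q) {t : ℝ} (ht : t ≠ 0) {i : V} (hi : i ≠ v) (hd : d i = 0)
    (h0 : ∀ c, i ≠ c → Sd K i c = t) : False := by
  have h1 := Qt_one hK hL hm hi
  have h2 : ∀ c ∈ univ.filter (fun c => c ≠ v ∧ d c ≠ d i), Sd K i c = t := by
    intro c hc
    rw [mem_filter] at hc
    exact h0 c (fun h => hc.2.2 (by rw [h]))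
  rw [Finset.sum_congr rfl h2, Finset.sum_const, nsmul_eq_mul] at h1
  rcases mul_eq_zero.1 h1 with h3 | h3
  · have h4 := Finset.card_eq_zero.1 (Nat.cast_eq_zero.1 h3)
    obtain ⟨b, hb, hdb⟩ := hm.ex1
    have h5 : b ∈ univ.filter (fun c => c ≠ v ∧ d c ≠ d i) := by
      rw [mem_filter]
      refine ⟨mem_univ _, hb, ?_⟩
      rw [hdb, hd]
      decide
    rw [h4] at h5
    exact absurd h5 (Finset.notMem_empty _)
  · exact ht h3

private theorem Qt_typ1 [Fintype V] {K L : SimpleGraph V} {Q : ℚ[X]} {k : ℕ}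
    (hK : ∀ v, (K.neighborSet v).ncard = k) (hL : ∀ v, (L.neighborSet v).ncard = k)
    {e1 e2 e3 c : ℝ} (cK : Cub K e1 e2 e3 c) (cL : Cub L e1 e2 e3 c) {v : V}
    {d : V → ZMod 2} (hm : Mut K L v d Q) (h0 : ∀ a, a ≠ v → d a = 0 → Sd K v a = 1) :
    TyI K v d ((Fintype.card V : ℝ) - 2 - 2 * k)
      (e1 - c - ((Fintype.card V : ℝ) - 2 - 2 * k) - 2)
      (e1 + c - ((Fintype.card V : ℝ) - 2 - 2 * k)) := by
  have z : ∀ a, a ≠ v → d a = 0 → gv K v a = (Fintype.card V : ℝ) - 2 - 2 * k := by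
    intro a ha hd
    rw [Qt_sum hK hL hm (by norm_num : (1 : ℝ) * 1 = 1) h0 ha hd]
    ring
  obtain ⟨i, hi, hdi⟩ := hm.ex0
  have hz := z i hi hdi
  have cut : ∀ a, a ≠ v → d a = 1 →
      Sd K v a * (((Fintype.card V : ℝ) - 2 - 2 * k) + gv K v a - e1) = c := by
    intro a ha hd
    have h := cub_cut cK cL hm.row hm.off hi ha (by rw [hdi, hd]; decide)
    rw [h0 i hi hdi, hz, one_mul] at h
    exact h
  refine ⟨fun a ha hd => ⟨?_, z a ha hd⟩, fun a ha hd hadj => ?_, fun a ha hd hadj => ?_, ?_⟩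
  · rcases Qt_val K ha with ⟨h1, h2⟩ | ⟨h1, h2⟩
    · rw [h0 a ha hd] at h2
      norm_num at h2
    · exact h1
  · have h := cut a ha hd
    rcases Qt_val K ha with ⟨h1, h2⟩ | ⟨h1, h2⟩
    · rw [h2] at h
      linarith
    · exact absurd hadj h1
  · have h := cut a ha hd
    rcases Qt_val K ha with ⟨h1, h2⟩ | ⟨h1, h2⟩
    · exact absurd h1 hadj
    · rw [h2] at h
      linarith
  · by_contra hno
    push Not at hno
    have h1 : K.neighborSet v = ∅ := by
      ext a
      simp [hno a]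
    have h2 := hK v
    rw [h1, Set.ncard_empty] at h2
    have h3 := hK i
    rw [← h2, Set.ncard_eq_zero (Set.toFinite _)] at h3
    refine Qt_full hK hL hm one_ne_zero hi hdi fun c hc => ?_
    unfold Sd
    rw [if_neg hc, if_neg]
    intro h4
    have h5 : c ∈ K.neighborSet i := h4
    rw [h3] at h5
    exact h5

private theorem Qt_typ2 [Fintype V] {K L : SimpleGraph V} {Q : ℚ[X]} {k : ℕ}
    (hK : ∀ v, (K.neighborSet v).ncard = k) (hL : ∀ v, (L.neighborSet v).ncard = k)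
    {e1 e2 e3 c : ℝ} (cK : Cub K e1 e2 e3 c) (cL : Cub L e1 e2 e3 c) {v : V}
    {d : V → ZMod 2} (hm : Mut K L v d Q) (h0 : ∀ a, a ≠ v → d a = 0 → Sd K v a = -1) :
    TyII K v d ((Fintype.card V : ℝ) - 2 - 2 * k)
      (e1 - c - ((Fintype.card V : ℝ) - 2 - 2 * k) - 2)
      (e1 + c - ((Fintype.card V : ℝ) - 2 - 2 * k)) := by
  have z : ∀ a, a ≠ v → d a = 0 → gv K v a = (Fintype.card V : ℝ) - 2 - 2 * k + 2 := by
    intro a ha hd
    rw [Qt_sum hK hL hm (by norm_num : (-1 : ℝ) * -1 = 1) h0 ha hd]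
    ring
  obtain ⟨i, hi, hdi⟩ := hm.ex0
  have hz := z i hi hdi
  have cut : ∀ a, a ≠ v → d a = 1 →
      -1 * Sd K v a * (((Fintype.card V : ℝ) - 2 - 2 * k + 2) + gv K v a - e1) = c := by
    intro a ha hd
    have h := cub_cut cK cL hm.row hm.off hi ha (by rw [hdi, hd]; decide)
    rw [h0 i hi hdi, hz] at h
    exact h
  refine ⟨fun a ha hd => ⟨?_, z a ha hd⟩, fun a ha hd hadj => ?_, fun a ha hd hadj => ?_, ?_⟩
  · rcases Qt_val K ha with ⟨h1, h2⟩ | ⟨h1, h2⟩
    · exact h1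
    · rw [h0 a ha hd] at h2
      norm_num at h2
  · have h := cut a ha hd
    rcases Qt_val K ha with ⟨h1, h2⟩ | ⟨h1, h2⟩
    · exact absurd h1 hadj
    · rw [h2] at h
      linarith
  · have h := cut a ha hd
    rcases Qt_val K ha with ⟨h1, h2⟩ | ⟨h1, h2⟩
    · rw [h2] at h
      linarith
    · exact absurd hadj h1
  · by_contra hno
    push Not at hno
    have h1 : K.neighborSet v = {v}ᶜ := by
      ext a
      rw [SimpleGraph.mem_neighborSet, Set.mem_compl_iff, Set.mem_singleton_iff]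
      exact ⟨fun h => Ne.symm h.ne, fun h => hno a h⟩
    have h2 := hK v
    rw [h1, Set.ncard_compl, Set.ncard_singleton] at h2
    have h3 := hK i
    have h4 : K.neighborSet i = {i}ᶜ := by
      refine Set.eq_of_subset_of_ncard_le (fun a ha => ?_) ?_ (Set.toFinite _)
      · rw [SimpleGraph.mem_neighborSet] at ha
        rw [Set.mem_compl_iff, Set.mem_singleton_iff]
        exact Ne.symm ha.ne
      · rw [Set.ncard_compl, Set.ncard_singleton, h3, h2]
    refine Qt_full hK hL hm (by norm_num : (-1 : ℝ) ≠ 0) hi hdi fun c hc => ?_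
    unfold Sd
    rw [if_neg hc, if_pos]
    have h5 : c ∈ K.neighborSet i := by
      rw [h4, Set.mem_compl_iff, Set.mem_singleton_iff]
      exact Ne.symm hc
    exact h5

private theorem Qt_side [Fintype V] {K L : SimpleGraph V} {Q : ℚ[X]} {k : ℕ}
    (hK : ∀ v, (K.neighborSet v).ncard = k) (hL : ∀ v, (L.neighborSet v).ncard = k)
    {e1 e2 e3 c : ℝ} (cK : Cub K e1 e2 e3 c) (cL : Cub L e1 e2 e3 c) {v : V}
    {d : V → ZMod 2} (hm : Mut K L v d Q)
    (h0 : (∀ a, a ≠ v → d a = 0 → Sd K v a = 1) ∨ (∀ a, a ≠ v → d a = 0 → Sd K v a = -1)) :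
    ∃ d' : V → ZMod 2, Mut K L v d' Q ∧
      (TyI K v d' ((Fintype.card V : ℝ) - 2 - 2 * k)
          (e1 - c - ((Fintype.card V : ℝ) - 2 - 2 * k) - 2)
          (e1 + c - ((Fintype.card V : ℝ) - 2 - 2 * k)) ∨
        TyII K v d' ((Fintype.card V : ℝ) - 2 - 2 * k)
          (e1 - c - ((Fintype.card V : ℝ) - 2 - 2 * k) - 2)
          (e1 + c - ((Fintype.card V : ℝ) - 2 - 2 * k))) := by
  rcases h0 with h | h
  · exact ⟨d, hm, Or.inl (Qt_typ1 hK hL cK cL hm h)⟩
  · exact ⟨d, hm, Or.inr (Qt_typ2 hK hL cK cL hm h)⟩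

theorem types [Fintype V] {K L : SimpleGraph V} {Q : ℚ[X]} {k : ℕ}
    (hK : ∀ v, (K.neighborSet v).ncard = k) (hL : ∀ v, (L.neighborSet v).ncard = k)
    {e1 e2 e3 c : ℝ} (cK : Cub K e1 e2 e3 c) (cL : Cub L e1 e2 e3 c) (hc : c ≠ 0) {v : V}
    {d : V → ZMod 2} (hm : Mut K L v d Q) :
    ∃ d' : V → ZMod 2, Mut K L v d' Q ∧
      (TyI K v d' ((Fintype.card V : ℝ) - 2 - 2 * k)
          (e1 - c - ((Fintype.card V : ℝ) - 2 - 2 * k) - 2)
          (e1 + c - ((Fintype.card V : ℝ) - 2 - 2 * k)) ∨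
        TyII K v d' ((Fintype.card V : ℝ) - 2 - 2 * k)
          (e1 - c - ((Fintype.card V : ℝ) - 2 - 2 * k) - 2)
          (e1 + c - ((Fintype.card V : ℝ) - 2 - 2 * k))) := by
  by_cases h0 : (∀ a, a ≠ v → d a = 0 → Sd K v a = 1) ∨ (∀ a, a ≠ v → d a = 0 → Sd K v a = -1)
  · exact Qt_side hK hL cK cL hm h0
  by_cases h1 : (∀ a, a ≠ v → d a = 1 → Sd K v a = 1) ∨ (∀ a, a ≠ v → d a = 1 → Sd K v a = -1)
  · have hz : ∀ x : ZMod 2, x + 1 = 0 → x = 1 := by decide
    refine Qt_side hK hL cK cL hm.flip ?_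
    rcases h1 with h | h
    · exact Or.inl fun a ha hd => h a ha (hz _ hd)
    · exact Or.inr fun a ha hd => h a ha (hz _ hd)
  exfalso
  push Not at h0 h1
  obtain ⟨⟨a0, n0, d0, s0⟩, a1, n1, d1, s1⟩ := h0
  obtain ⟨⟨b0, m0, f0, t0⟩, b1, m1, f1, t1⟩ := h1
  have ha0 : Sd K v a0 = -1 := by
    rcases Qt_val K n0 with ⟨-, h⟩ | ⟨-, h⟩
    · exact h
    · exact absurd h s0
  have ha1 : Sd K v a1 = 1 := by
    rcases Qt_val K n1 with ⟨-, h⟩ | ⟨-, h⟩
    · exact absurd h s1
    · exact h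
  have hb0 : Sd K v b0 = -1 := by
    rcases Qt_val K m0 with ⟨-, h⟩ | ⟨-, h⟩
    · exact h
    · exact absurd h t0
  have hb1 : Sd K v b1 = 1 := by
    rcases Qt_val K m1 with ⟨-, h⟩ | ⟨-, h⟩
    · exact absurd h t1
    · exact h
  have hx : (0 : ZMod 2) ≠ 1 := by decide
  have e00 := cub_cut cK cL hm.row hm.off n0 m0 (by rw [d0, f0]; exact hx)
  have e01 := cub_cut cK cL hm.row hm.off n0 m1 (by rw [d0, f1]; exact hx)
  have e10 := cub_cut cK cL hm.row hm.off n1 m0 (by rw [d1, f0]; exact hx)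
  have e11 := cub_cut cK cL hm.row hm.off n1 m1 (by rw [d1, f1]; exact hx)
  rw [ha0, hb0] at e00
  rw [ha0, hb1] at e01
  rw [ha1, hb0] at e10
  rw [ha1, hb1] at e11
  apply hc
  linarith

end SWS
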