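import Pool.Agent.SWS.Qa
import Pool.Agent.SWS.Qb
import Pool.Agent.SWS.Qt
import Pool.Agent.SWS.Qs
import Pool.Agent.SWS.Qf
import Pool.Agent.SWS.Cl
import Pool.Agent.SWS.Cx
import Pool.Agent.SWS.Ga

/-!
# SWS: regular graphs with a cubic relation, main case
-/

set_option autoImplicit false

namespace SWS

open Finset Polynomial RGC
open scoped Classical

variable {V W : Type}

private theorem t3_val [Fintype V] {K : SimpleGraph V} {v a : V} (h : a ≠ v) :
    ((SQ K v a * (SQ K * SQ K) v a : ℚ) : ℝ) = gv K v a := by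
  rw [sq_cd K h.symm]
  unfold gv
  push_cast
  ring

theorem cub_odd [Fintype V] (hn : 10 ≤ Fintype.card V) (ho : Odd (Fintype.card V))
    {G : SimpleGraph V} {k : ℕ} (hk : ∀ v, (G.neighborSet v).ncard = k) {e1 e2 e3 c : ℝ}
    (hG : Cub G e1 e2 e3 c) (hc : c ≠ 0) : Recon G := by
  intro H hd
  by_contra hne
  obtain ⟨Q, hC⟩ := ctx_of hn ho hk (cub_diag hk hG) hd hne
  have hkH := reg_E hn ho hd hk
  have hH := cub_mate hC hk hkH hG
  have hU : ∀ (b : Bool) (K : SimpleGraph V), InU G (E H) b K → Cub K e1 e2 e3 c := by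
    rintro (_ | _) K ⟨e⟩
    · exact cub_iso e hH
    · exact cub_iso e hG
  have hT : ∀ (b : Bool) (K : SimpleGraph V), InU G (E H) b K → ∀ v : V,
      ∃ (L : SimpleGraph V) (d : V → ZMod 2), InU G (E H) (!b) L ∧ Mut K L v d Q ∧
        (TyI K v d ((Fintype.card V : ℝ) - 2 - 2 * k)
          (e1 - c - ((Fintype.card V : ℝ) - 2 - 2 * k) - 2)
          (e1 + c - ((Fintype.card V : ℝ) - 2 - 2 * k)) ∨
        TyII K v d ((Fintype.card V : ℝ) - 2 - 2 * k)
          (e1 - c - ((Fintype.card V : ℝ) - 2 - 2 * k) - 2)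
          (e1 + c - ((Fintype.card V : ℝ) - 2 - 2 * k))) := by
    intro b K hK v
    obtain ⟨L, d, hL, hm⟩ := exists_mut hC hK v
    obtain ⟨d', hm', ht⟩ := types (reg_inU hk hkH hK) (reg_inU hk hkH hL) (hU b K hK) (hU _ L hL)
      hc hm
    exact ⟨L, d', hL, hm', ht⟩
  have hnb : Nonempty V := Fintype.card_pos_iff.1 (by omega)
  obtain ⟨v0⟩ := hnb
  have hG0 : InU G (E H) true G := ⟨SimpleGraph.Iso.refl⟩
  rcases trich hC hk hkH hT with h1 | h2 | h3
  · have key : ∀ (b : Bool) (K : SimpleGraph V), InU G (E H) b K → ∀ v : V,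
        ∃ (L : SimpleGraph V) (d : V → ZMod 2), InU G (E H) (!b) L ∧ Mut K L v d Q ∧
          ((SQ G).charpoly.eval ((Fintype.card V : ℚ) - 2 - 2 * k) ≠ 0 ∧
            ∀ a, a ≠ v →
              (d a = 0 → (X - C ((Fintype.card V : ℚ) - 2 - 2 * k)) * Aj K v a = C 1 * Q) ∧
              (d a = 1 → (Aj K v a).eval ((Fintype.card V : ℚ) - 2 - 2 * k) = 0)) := by
      intro b K hK v
      obtain ⟨L, d, hL, hm, ht⟩ := h1 b K hK v
      refine ⟨L, d, hL, hm, nu_side hC hK hm ?_⟩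
      intro a ha hda
      obtain ⟨h5, h6⟩ := ht.z a ha hda
      refine ⟨?_, ?_⟩
      · rw [sq_s K ha.symm, if_neg (fun h7 => h5 (s_eq_one.1 h7))]
      · have := t3_val (K := K) ha
        rw [h6] at this
        exact_mod_cast this
    obtain ⟨_, _, _, _, hP, _⟩ := key true G hG0 v0
    refine closing hC (ν := (Fintype.card V : ℚ) - 2 - 2 * k) (s0 := 1) ⟨by norm_num, hP, ?_⟩
    intro b K hK v
    obtain ⟨L, d, hL, hm, -, h8⟩ := key b K hK v
    exact ⟨L, d, hL, hm, h8⟩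
  · have key : ∀ (b : Bool) (K : SimpleGraph V), InU G (E H) b K → ∀ v : V,
        ∃ (L : SimpleGraph V) (d : V → ZMod 2), InU G (E H) (!b) L ∧ Mut K L v d Q ∧
          ((SQ G).charpoly.eval ((Fintype.card V : ℚ) - 2 * k) ≠ 0 ∧
            ∀ a, a ≠ v →
              (d a = 0 → (X - C ((Fintype.card V : ℚ) - 2 * k)) * Aj K v a = C (-1) * Q) ∧
              (d a = 1 → (Aj K v a).eval ((Fintype.card V : ℚ) - 2 * k) = 0)) := by
      intro b K hK v
      obtain ⟨L, d, hL, hm, ht⟩ := h2 b K hK v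
      refine ⟨L, d, hL, hm, nu_side hC hK hm ?_⟩
      intro a ha hda
      obtain ⟨h5, h6⟩ := ht.z a ha hda
      refine ⟨?_, ?_⟩
      · rw [sq_s K ha.symm, if_pos (s_eq_one.2 h5)]
      · have := t3_val (K := K) ha
        rw [h6] at this
        have h7 : ((SQ K v a * (SQ K * SQ K) v a : ℚ) : ℝ) = (((Fintype.card V : ℚ) - 2 * k : ℚ) : ℝ) := by
          rw [this]
          push_cast
          ring
        exact_mod_cast h7
    obtain ⟨_, _, _, _, hP, _⟩ := key true G hG0 v0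
    refine closing hC (ν := (Fintype.card V : ℚ) - 2 * k) (s0 := -1) ⟨by norm_num, hP, ?_⟩
    intro b K hK v
    obtain ⟨L, d, hL, hm, -, h8⟩ := key b K hK v
    exact ⟨L, d, hL, hm, h8⟩
  · exact hne (gap_two hn ho h3 H hd)

end SWS
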