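import Pool.Agent.SWS.Un

/-!
# SWS: eigenvalues of multiplicity three

Eigenvalues of multiplicity at least three of the real Seidel matrix: by a cubic relation with at least ten
vertices, and by a triple root of the characteristic polynomial. The eigenvectors are taken from the
orthonormal eigenvector basis.
-/

set_option autoImplicit false

namespace SWS

open Finset Polynomial RGC
open scoped Classical

variable {V W : Type}

private theorem Ra_herm (G : SimpleGraph V) : (Sd G).IsHermitian := by
  rw [Matrix.IsHermitian, Matrix.conjTranspose_eq_transpose_of_trivial]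
  exact sd_symm G

private theorem Ra_card [Fintype V] {G : SimpleGraph V} (hA : (Sd G).IsHermitian) {r : ℝ}
    {t : Finset V} (ht : 3 ≤ t.card) (h : ∀ i ∈ t, hA.eigenvalues i = r) : Three G r := by
  have h1 : Fintype.card (Fin 3) ≤ Fintype.card t := by
    rw [Fintype.card_fin, Fintype.card_coe]
    exact ht
  obtain ⟨e⟩ := Function.Embedding.nonempty_of_card_le h1
  refine ⟨fun i => (WithLp.linearEquiv 2 ℝ (V → ℝ)) (hA.eigenvectorBasis (e i).1), ?_, ?_⟩
  · have h2 : LinearIndependent ℝ (fun i : Fin 3 => hA.eigenvectorBasis (e i).1) :=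
      hA.eigenvectorBasis.orthonormal.linearIndependent.comp (fun i : Fin 3 => (e i).1)
        (fun i j hij => e.injective (Subtype.ext hij))
    exact h2.map' (WithLp.linearEquiv 2 ℝ (V → ℝ)).toLinearMap
      (LinearMap.ker_eq_bot.2 (WithLp.linearEquiv 2 ℝ (V → ℝ)).injective)
  · intro i
    have h3 := hA.mulVec_eigenvectorBasis (e i).1
    rw [h (e i).1 (e i).2] at h3
    exact h3

theorem three_of_cub [Fintype V] {G : SimpleGraph V} (hn : 10 ≤ Fintype.card V)
    {e1 e2 e3 : ℝ} (h : Cub G e1 e2 e3 0) : ∃ r : ℝ, Three G r := by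
  have hA := Ra_herm G
  have hq : (X ^ 3 - C e1 * X ^ 2 - C e2 * X - C e3 : ℝ[X]).natDegree = 3 := by compute_degree!
  set q : ℝ[X] := X ^ 3 - C e1 * X ^ 2 - C e2 * X - C e3 with hqd
  have hq0 : q ≠ 0 := by
    intro h0
    rw [h0, natDegree_zero] at hq
    omega
  have hr : ∀ i ∈ (univ : Finset V), hA.eigenvalues i ∈ q.roots.toFinset := by
    intro i _
    rw [Multiset.mem_toFinset, mem_roots hq0, IsRoot.def]
    set v : V → ℝ := (hA.eigenvectorBasis i).ofLp with hv
    have h1 : (Sd G).mulVec v = hA.eigenvalues i • v := hA.mulVec_eigenvectorBasis i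
    have h2 : (Sd G ^ 2).mulVec v = (hA.eigenvalues i) ^ 2 • v := by
      rw [pow_two, ← Matrix.mulVec_mulVec, h1, Matrix.mulVec_smul, h1, smul_smul, pow_two]
    have h3 : (Sd G ^ 3).mulVec v = (hA.eigenvalues i) ^ 3 • v := by
      rw [pow_succ, ← Matrix.mulVec_mulVec, h1, Matrix.mulVec_smul, h2, smul_smul]
      congr 1
      ring
    have h4 : Sd G ^ 3 = e1 • Sd G ^ 2 + e2 • Sd G + e3 • (1 : Matrix V V ℝ) := by
      have := h
      unfold Cub at this
      rw [zero_smul, add_zero] at this
      exact this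
    rw [h4, Matrix.add_mulVec, Matrix.add_mulVec, Matrix.smul_mulVec, Matrix.smul_mulVec,
      Matrix.smul_mulVec, h1, h2, Matrix.one_mulVec, smul_smul, smul_smul, ← add_smul,
      ← add_smul] at h3
    have h5 : v ≠ 0 := by
      intro h0
      have h6 := hA.eigenvectorBasis.orthonormal.ne_zero i
      apply h6
      ext x
      have := congrFun h0 x
      exact this
    have h7 := smul_left_injective ℝ h5 h3
    simp only [hqd, eval_sub, eval_mul, eval_pow, eval_X, eval_C]
    linarith
  have hc : (q.roots.toFinset).card * 2 < (univ : Finset V).card := by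
    have h8 : (q.roots.toFinset).card ≤ 3 := by
      calc _ ≤ q.roots.card := Multiset.toFinset_card_le _
        _ ≤ q.natDegree := card_roots' q
        _ = 3 := hq
    rw [Finset.card_univ]
    omega
  obtain ⟨r, _, hr2⟩ := Finset.exists_lt_card_fiber_of_mul_lt_card_of_maps_to hr hc
  refine ⟨r, Ra_card hA (t := univ.filter (fun i => hA.eigenvalues i = r)) hr2 ?_⟩
  intro i hi
  exact (Finset.mem_filter.1 hi).2

theorem three_of_pow [Fintype V] {G : SimpleGraph V} {a : ℚ}
    (hP : (X - C a) ^ 3 ∣ (SQ G).charpoly) : Three G (a : ℝ) := by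
  have hA := Ra_herm G
  have hG : Sd G = (SQ G).map (algebraMap ℚ ℝ) := by
    ext x y
    rw [Matrix.map_apply, ← sq_map]
    rfl
  have h1 : (X - C (a : ℝ)) ^ 3 ∣ (Sd G).charpoly := by
    rw [hG, Matrix.charpoly_map]
    have h2 := Polynomial.map_dvd (algebraMap ℚ ℝ) hP
    rw [Polynomial.map_pow, Polynomial.map_sub, map_X, map_C] at h2
    exact h2
  rw [hA.charpoly_eq] at h1
  have h3 : 3 ≤ (∏ i, (X - C (hA.eigenvalues i)) : ℝ[X]).rootMultiplicity (a : ℝ) := by
    refine (le_rootMultiplicity_iff ?_).2 ?_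
    · exact Finset.prod_ne_zero_iff.2 fun i _ => X_sub_C_ne_zero _
    · exact h1
  have h4 : (∏ i, (X - C (hA.eigenvalues i)) : ℝ[X]).roots =
      (univ : Finset V).val.map (fun i => hA.eigenvalues i) := by
    have := roots_multiset_prod_X_sub_C ((univ : Finset V).val.map (fun i => hA.eigenvalues i))
    rw [Multiset.map_map] at this
    exact this
  rw [← count_roots, h4, Multiset.count_map] at h3
  refine Ra_card hA (t := univ.filter (fun i => (a : ℝ) = hA.eigenvalues i)) ?_ ?_
  · exact h3
  · intro i hi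
    exact (Finset.mem_filter.1 hi).2.symm

end SWS
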