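import Pool.Agent.SWS.Un
import Pool.Agent.RGC.SeiK
import Pool.Agent.RGC.Trn

/-!
# SWS: a triple eigenvalue makes the characteristic polynomial reconstructible

If the Seidel matrix of `G` has an eigenvalue `r` of multiplicity at least three, some eigenvector vanishes at `v`
and is orthogonal to the row of `v` in the (switched) mate; so `r` is an eigenvalue of both Seidel matrices, and
the two characteristic polynomials differ by a constant.
-/

set_option autoImplicit false

namespace SWS

open Finset Polynomial RGC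
open scoped Classical

variable {V W : Type}

private theorem Rb_two (a b : ZMod 2) : (a ≠ b → 1 = a + b) ∧ (a = b → 0 = a + b) := by
  revert a b
  decide

private theorem Rb_ind {P : Prop} [Decidable P] {a b : ZMod 2} (h : P ↔ a ≠ b) :
    (if P then (1 : ZMod 2) else 0) = a + b := by
  by_cases hP : P
  · rw [if_pos hP]
    exact (Rb_two a b).1 (h.1 hP)
  · rw [if_neg hP]
    exact (Rb_two a b).2 (not_not.1 fun h1 => hP (h.2 h1))

private theorem Rb_alg (p q a b c d : ZMod 2) (h : a + p + b = c + q + d) :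
    p + (a + c) + (b + d) = q := by
  revert a b c d p q
  decide

private theorem Rb_off {G H : SimpleGraph V} {v : V} (h : OffEq G H v) :
    ∃ K : SimpleGraph V, SwEq H K ∧ ∀ a b : V, a ≠ v → b ≠ v → (Sd K) a b = (Sd G) a b := by
  by_cases hV : ∃ c : V, c ≠ v
  · obtain ⟨c, hc⟩ := hV
    refine ⟨sw H {a | s H c a ≠ s G c a}, swEq_of_T fun a b d => T_sw H _ a b d, ?_⟩
    intro a b ha hb
    by_cases hab : a = b
    · subst hab
      unfold Sd
      rw [if_pos rfl, if_pos rfl]
    · have h1 := s_sw H {a | s H c a ≠ s G c a} hab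
      have h2 : a ∈ {a | s H c a ≠ s G c a} ↔ s H c a ≠ s G c a := Iff.rfl
      have h3 : b ∈ {a | s H c a ≠ s G c a} ↔ s H c b ≠ s G c b := Iff.rfl
      rw [@Rb_ind _ (Classical.propDecidable _) _ _ h2, @Rb_ind _ (Classical.propDecidable _) _ _ h3] at h1
      have h4 : s H c a + s H a b + s H c b = s G c a + s G a b + s G c b := h c a b hc ha hb
      rw [Rb_alg _ _ _ _ _ _ h4] at h1
      have h5 : (sw H {a | s H c a ≠ s G c a}).Adj a b ↔ G.Adj a b := by
        rw [← s_eq_one, ← s_eq_one, h1]
      unfold Sd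
      rw [if_neg hab, if_neg hab]
      by_cases h6 : G.Adj a b
      · rw [if_pos h6, if_pos (h5.2 h6)]
      · rw [if_neg h6, if_neg (fun h7 => h6 (h5.1 h7))]
  · refine ⟨H, swEq_of_T fun _ _ _ => rfl, ?_⟩
    intro a b ha _
    exact absurd ⟨a, ha⟩ hV

private theorem Rb_root [Fintype V] {M : Matrix V V ℝ} {r : ℝ} {x : V → ℝ} (hx : x ≠ 0)
    (h : M.mulVec x = r • x) : M.charpoly.eval r = 0 := by
  rw [Matrix.eval_charpoly]
  refine Matrix.exists_mulVec_eq_zero_iff.1 ⟨x, hx, ?_⟩
  rw [Matrix.sub_mulVec, h]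
  funext a
  rw [Pi.sub_apply, Pi.zero_apply]
  simp [Matrix.scalar_apply, Matrix.mulVec_diagonal]

theorem chp_mate [Fintype V] {G H : SimpleGraph V} (h : DeckEq G H) {r : ℝ}
    (hr : Three G r) : (Sd G).charpoly = (Sd H).charpoly := by
  obtain ⟨f, hf, hfr⟩ := hr
  have hf0 : f 0 ≠ 0 := hf.ne_zero 0
  obtain ⟨v, -⟩ : ∃ v, f 0 v ≠ 0 := by
    by_contra hcon
    push Not at hcon
    exact hf0 (funext hcon)
  obtain ⟨π, hπ⟩ := transport h
  obtain ⟨H', e, -, hoff⟩ := hπ v
  obtain ⟨K, hK, hKG⟩ := Rb_off hoff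
  have hHK : (Sd H).charpoly = (Sd K).charpoly := by
    rw [← sd_swEq hK]
    exact (sd_swEq (swEq_iff.2 ⟨e.toEquiv, fun a b c => T_iso e a b c⟩)).symm
  obtain ⟨α, hα, hMα⟩ : ∃ α : Fin 3 → ℝ, α ≠ 0 ∧
      (Matrix.of fun i j : Fin 3 => if i = 0 then f j v else if i = 1 then (Sd K).mulVec (f j) v
        else (0 : ℝ)).mulVec α = 0 := by
    refine Matrix.exists_mulVec_eq_zero_iff.2 ?_
    refine Matrix.det_eq_zero_of_row_eq_zero 2 fun j => ?_
    rw [Matrix.of_apply, if_neg (by decide), if_neg (by decide)]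
  have hx : ∑ i, α i • f i ≠ 0 := by
    intro h0
    apply hα
    funext i
    exact Fintype.linearIndependent_iff.1 hf α h0 i
  have hv : (∑ i, α i • f i) v = 0 := by
    have h1 := congrFun hMα 0
    have h2 : ∑ j, f j v * α j = 0 := by
      have h3 : (Matrix.of fun i j : Fin 3 => if i = 0 then f j v else if i = 1 then
        (Sd K).mulVec (f j) v else (0 : ℝ)).mulVec α 0 = ∑ j, f j v * α j := by
        have h4 : ∀ j, (Matrix.of fun i j : Fin 3 => if i = 0 then f j v else if i = 1 then
            (Sd K).mulVec (f j) v else (0 : ℝ)) 0 j = f j v := by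
          intro j
          rw [Matrix.of_apply, if_pos rfl]
        show ∑ j, (Matrix.of fun i j : Fin 3 => if i = 0 then f j v else if i = 1 then
            (Sd K).mulVec (f j) v else (0 : ℝ)) 0 j * α j = _
        exact sum_congr rfl fun j _ => by rw [h4]
      rw [← h3, h1]
      rfl
    rw [Finset.sum_apply, ← h2]
    refine sum_congr rfl fun j _ => ?_
    rw [Pi.smul_apply, smul_eq_mul, mul_comm]
  have hKv : (Sd K).mulVec (∑ i, α i • f i) v = 0 := by
    have h1 := congrFun hMα 1
    have h2 : ∑ j, (Sd K).mulVec (f j) v * α j = 0 := by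
      have h3 : (Matrix.of fun i j : Fin 3 => if i = 0 then f j v else if i = 1 then
        (Sd K).mulVec (f j) v else (0 : ℝ)).mulVec α 1 = ∑ j, (Sd K).mulVec (f j) v * α j := by
        have h4 : ∀ j, (Matrix.of fun i j : Fin 3 => if i = 0 then f j v else if i = 1 then
            (Sd K).mulVec (f j) v else (0 : ℝ)) 1 j = (Sd K).mulVec (f j) v := by
          intro j
          rw [Matrix.of_apply, if_neg (by decide), if_pos rfl]
        show ∑ j, (Matrix.of fun i j : Fin 3 => if i = 0 then f j v else if i = 1 then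
            (Sd K).mulVec (f j) v else (0 : ℝ)) 1 j * α j = _
        exact sum_congr rfl fun j _ => by rw [h4]
      rw [← h3, h1]
      rfl
    rw [← h2, Matrix.mulVec_sum, Finset.sum_apply]
    refine sum_congr rfl fun j _ => ?_
    rw [Matrix.mulVec_smul, Pi.smul_apply, smul_eq_mul, mul_comm]
  have hGx : (Sd G).mulVec (∑ i, α i • f i) = r • ∑ i, α i • f i := by
    rw [Matrix.mulVec_sum, Finset.smul_sum]
    refine sum_congr rfl fun j _ => ?_
    rw [Matrix.mulVec_smul, hfr j, smul_comm]
  have hKx : (Sd K).mulVec (∑ i, α i • f i) = r • ∑ i, α i • f i := by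
    funext a
    by_cases ha : a = v
    · subst ha
      rw [hKv, Pi.smul_apply, hv, smul_zero]
    · rw [← hGx]
      refine sum_congr rfl fun c _ => ?_
      by_cases hc : c = v
      · subst hc
        rw [hv, mul_zero, mul_zero]
      · show (Sd K) a c * _ = (Sd G) a c * _
        rw [hKG a c ha hc]
  have h2 : (Sd G).charpoly.eval r = 0 := Rb_root hx hGx
  have h3 : (Sd H).charpoly.eval r = 0 := by
    rw [hHK]
    exact Rb_root hx hKx
  have h4 : (Sd G).charpoly - (Sd H).charpoly
      = Polynomial.C (((Sd G).charpoly - (Sd H).charpoly).coeff 0) := by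
    ext j
    rw [Polynomial.coeff_C]
    split_ifs with hj
    · rw [hj]
    · rw [Polynomial.coeff_sub, coeff_eq h hj, sub_self]
  have h5 := congrArg (Polynomial.eval r) h4
  rw [Polynomial.eval_sub, h2, h3, sub_self, Polynomial.eval_C] at h5
  rw [← h5, Polynomial.C_0] at h4
  exact sub_eq_zero.1 h4

end SWS
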