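import Pool.Agent.SWS.Jc
import Pool.Agent.SWS.Ra
import Pool.Agent.SWS.Rb
import Pool.Agent.RGC.SeiR

/-!
# SWS: one irreducible factor
-/

set_option autoImplicit false

namespace SWS

open Finset Polynomial RGC
open scoped Classical

variable {V W : Type}

theorem recon_tutte [Fintype V] {G : SimpleGraph V} {a : ℚ} {k : ℕ} {g : ℚ[X]}
    (hg : Irreducible g) (hP : (SQ G).charpoly = (X - C a) ^ k * g)
    (hk : 3 ≤ k ∨ (10 ≤ Fintype.card V ∧ Odd (Fintype.card V) ∧
      ∀ u v, (G.neighborSet u).ncard = (G.neighborSet v).ncard)) : Recon G := by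
  intro H hd
  refine tutte hd ?_ hg hP
  rcases hk with hk | ⟨hn, ho, hr⟩
  · refine chp_real.1 (chp_mate hd (three_of_pow (a := a) ?_))
    rw [hP]
    exact dvd_mul_of_dvd_left (pow_dvd_pow _ hk) _
  · obtain ⟨v0⟩ : Nonempty V := Fintype.card_pos_iff.1 (by omega)
    exact chp_real.1 (charpoly_eq hn ho hd (fun v => hr v v0))

end SWS
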