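import Pool.Agent.SWS.T1
import Pool.Agent.SWS.T2
import Pool.Agent.SWS.T3
import Pool.Agent.SWS.T4

/-!
# SWS: assembly
-/

set_option autoImplicit false

namespace SWS

open Finset Polynomial RGC
open scoped Classical

variable {V W : Type}

/-- regular graphs whose adjacency matrix satisfies a cubic relation modulo the all-one matrix -/
theorem recon_cubic [Fintype V] {G : SimpleGraph V} (hn : 10 ≤ Fintype.card V)
    (hr : ∀ u v, (G.neighborSet u).ncard = (G.neighborSet v).ncard) {x y z t : ℝ}
    (h : AR G ^ 3 = x • AR G ^ 2 + y • AR G + z • (1 : Matrix V V ℝ) +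
      t • (Matrix.of fun _ _ => (1 : ℝ))) : Recon G := by
  rcases Nat.even_or_odd (Fintype.card V) with hV | ho
  · exact recon_degrees G hV hn fun u v => by rw [hr u v]
  obtain ⟨v0⟩ : Nonempty V := Fintype.card_pos_iff.1 (by omega)
  have hk : ∀ v, (G.neighborSet v).ncard = (G.neighborSet v0).ncard := fun v => hr v v0
  obtain ⟨e1, e2, e3, c, hG⟩ := cub_of_adj hk h
  by_cases hc : c = 0
  · subst hc
    exact recon_three hn hG
  · exact cub_odd hn ho hk hG hc

end SWS
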