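import Pool.Agent.SWS.Ad

/-!
# SWS: the mutation identity for matrices

Two symmetric matrices with the same characteristic polynomial and equal principal minors, whose
rows at `v` agree and whose remainders are conjugate by the diagonal matrix of the signs `ε`. The
relation `Q * adj B x y - adj B x v * adj B v y = ε x * (Q * adj A x y - adj A x v * adj A v y) * ε y`
holds off `v`, and the rows of the adjugates at `v` agree.
-/

set_option autoImplicit false

namespace SWS

open Finset Polynomial
open scoped Classical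

variable {V W : Type}

/-- the relation for the matrix with row and column `v` removed -/
private theorem mu_N [Fintype V] (A : Matrix V V ℚ) (v : V) {c p : ℚ[X]}
    (hp : A.charpoly = p) (hc : (Matrix.adjugate (Matrix.charmatrix A)) v v = c)
    (a b : {x : V // x ≠ v}) :
    ∑ x : {x : V // x ≠ v}, Matrix.charmatrix A a x *
      (c * (Matrix.adjugate (Matrix.charmatrix A)) x b -
        (Matrix.adjugate (Matrix.charmatrix A)) x v * (Matrix.adjugate (Matrix.charmatrix A)) v b) =
      if a = b then p * c else 0 := by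
  obtain ⟨P, hP⟩ : ∃ P, P = Matrix.adjugate (Matrix.charmatrix A) := ⟨_, rfl⟩
  have hm : Matrix.charmatrix A * P = p • (1 : Matrix V V ℚ[X]) := by
    rw [hP, Matrix.mul_adjugate, ← hp]
    rfl
  rw [← hP] at hc ⊢
  have e : ∀ x y : V, ∑ z, Matrix.charmatrix A x z * P z y = if x = y then p else 0 := by
    intro x y
    have := congrFun (congrFun hm x) y
    rw [Matrix.mul_apply, Matrix.smul_apply, Matrix.one_apply, smul_eq_mul] at this
    rw [this]
    split_ifs <;> simp
  have hs := Fintype.sum_eq_add_sum_subtype_ne (fun x : V => Matrix.charmatrix A a x *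
      (c * P x b - P x v * P v b)) v
  rw [hc, sub_self, mul_zero, zero_add] at hs
  rw [← hs]
  have h1 : ∀ x : V, Matrix.charmatrix A a x * (c * P x b - P x v * P v b) =
      c * (Matrix.charmatrix A a x * P x b) - (Matrix.charmatrix A a x * P x v) * P v b := by
    intro x; ring
  simp only [h1]
  rw [Finset.sum_sub_distrib, ← Finset.mul_sum, ← Finset.sum_mul, e, e, if_neg a.2, zero_mul, sub_zero]
  by_cases hab : a = b
  · rw [if_pos (congrArg Subtype.val hab), if_pos hab, mul_comm]
  · rw [if_neg (fun h => hab (Subtype.ext h)), if_neg hab, mul_zero]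

theorem mut_adj [Fintype V] {A B : Matrix V V ℚ} (hA : A.IsSymm) (hB : B.IsSymm)
    (hc : A.charpoly = B.charpoly) {Q : ℚ[X]} (hAa : ∀ a, adj A a a = Q)
    (hBa : ∀ a, adj B a a = Q) (v : V) {ε : V → ℚ} (hε : ∀ a, ε a * ε a = 1)
    (hoff : ∀ a b, a ≠ v → b ≠ v → B a b = ε a * ε b * A a b)
    (hv : ∀ a, B v a = A v a) (hne : ∀ a, a ≠ v → A v a ≠ 0) :
    (∀ a, adj B v a = adj A v a) ∧
    (∀ a b, a ≠ v → b ≠ v → ε a = ε b → adj B a b = adj A a b) ∧
    (∀ a b, a ≠ v → b ≠ v → ε a ≠ ε b →
      Q * (adj B a b + adj A a b) = 2 * adj A v a * adj A v b) := by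
  have nA := fun x y => mu_N A v rfl (hAa v) x y
  have nB := fun x y => mu_N B v rfl (hBa v) x y
  obtain ⟨PA, hPA⟩ : ∃ P, P = Matrix.adjugate (Matrix.charmatrix A) := ⟨_, rfl⟩
  obtain ⟨PB, hPB⟩ : ∃ P, P = Matrix.adjugate (Matrix.charmatrix B) := ⟨_, rfl⟩
  have eA : ∀ x y, adj A x y = PA x y := fun x y => by rw [hPA]; rfl
  have eB : ∀ x y, adj B x y = PB x y := fun x y => by rw [hPB]; rfl
  rw [← hPA] at nA
  rw [← hPB] at nB
  rw [← hc] at nB
  have dA : ∀ x, PA x x = Q := fun x => by rw [← eA, hAa]
  have dB : ∀ x, PB x x = Q := fun x => by rw [← eB, hBa]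
  have sA : ∀ x y, PA x y = PA y x := fun x y => by rw [← eA, ← eA]; exact adj_symm hA x y
  have sB : ∀ x y, PB x y = PB y x := fun x y => by rw [← eB, ← eB]; exact adj_symm hB x y
  -- the twisted matrix
  have hM : ∀ x y : {x : V // x ≠ v}, Matrix.charmatrix B x y =
      C (ε x) * Matrix.charmatrix A x y * C (ε y) := by
    intro x y
    have h1 := hoff x y x.2 y.2
    by_cases hxy : (x : V) = y
    · rw [hxy, Matrix.charmatrix_apply_eq, Matrix.charmatrix_apply_eq]
      rw [hxy] at h1
      have h2 : B (y : V) y = A (y : V) y := by rw [h1, hε, one_mul]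
      have h3 : (C (ε y) : ℚ[X]) * C (ε y) = 1 := by rw [← C_mul, hε, C_1]
      rw [h2]
      calc X - C (A (y : V) y) = (C (ε y) * C (ε y)) * (X - C (A (y : V) y)) := by rw [h3, one_mul]
        _ = _ := by ring
    · rw [Matrix.charmatrix_apply_ne _ _ _ hxy, Matrix.charmatrix_apply_ne _ _ _ hxy, h1]
      simp only [C_mul]
      ring
  have hεC : ∀ x, (C (ε x) : ℚ[X]) * C (ε x) = 1 := fun x => by rw [← C_mul, hε, C_1]
  have hN : ∀ x y : {x : V // x ≠ v}, Q * PB x y - PB x v * PB v y =
      C (ε x) * (Q * PA x y - PA x v * PA v y) * C (ε y) := by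
    intro x y
    obtain ⟨w, hw⟩ : ∃ w : {x : V // x ≠ v} → ℚ[X], w = fun x : {x : V // x ≠ v} =>
      (Q * PB x y - PB x v * PB v y) - C (ε x) * (Q * PA x y - PA x v * PA v y) * C (ε y) := ⟨_, rfl⟩
    have hdet : ((Matrix.charmatrix B).submatrix (Subtype.val : {x : V // x ≠ v} → V)
        Subtype.val).det ≠ 0 := by
      have h1 : (Matrix.charmatrix B).submatrix (Subtype.val : {x : V // x ≠ v} → V)
          Subtype.val = Matrix.charmatrix (B.submatrix (Subtype.val : {x : V // x ≠ v} → V)
          Subtype.val) := by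
        ext1 i j
        by_cases hij : i = j
        · rw [hij, Matrix.submatrix_apply, Matrix.charmatrix_apply_eq, Matrix.charmatrix_apply_eq,
            Matrix.submatrix_apply]
        · rw [Matrix.submatrix_apply, Matrix.charmatrix_apply_ne _ _ _ hij,
            Matrix.charmatrix_apply_ne, Matrix.submatrix_apply]
          exact fun h => hij (Subtype.ext h)
      rw [h1]
      exact (Matrix.charpoly_monic _).ne_zero
    have hz : w = 0 := by
      refine Matrix.eq_zero_of_mulVec_eq_zero hdet ?_
      funext z
      have hA1 : ∑ x : {x : V // x ≠ v}, Matrix.charmatrix B z x *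
          (C (ε x) * (Q * PA x y - PA x v * PA v y) * C (ε y)) =
          if z = y then A.charpoly * Q else 0 := by
        have h1 : ∀ x : {x : V // x ≠ v}, Matrix.charmatrix B z x *
            (C (ε x) * (Q * PA x y - PA x v * PA v y) * C (ε y)) =
            C (ε z) * C (ε y) * (Matrix.charmatrix A z x * (Q * PA x y - PA x v * PA v y)) := by
          intro x
          rw [hM]
          calc C (ε z) * Matrix.charmatrix A z x * C (ε x) *
                (C (ε x) * (Q * PA x y - PA x v * PA v y) * C (ε y)) =
                (C (ε x) * C (ε x)) * (C (ε z) * C (ε y) *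
                  (Matrix.charmatrix A z x * (Q * PA x y - PA x v * PA v y))) := by ring
            _ = _ := by rw [hεC, one_mul]
        simp only [h1]
        rw [← Finset.mul_sum, nA]
        by_cases hzy : z = y
        · rw [if_pos hzy, hzy, hεC, one_mul]
        · rw [if_neg hzy, mul_zero]
      rw [Matrix.mulVec, dotProduct, Pi.zero_apply]
      simp only [hw, Matrix.submatrix_apply, mul_sub]
      rw [Finset.sum_sub_distrib]
      have h5 := nB z y
      simp only [mul_sub] at h5 hA1
      rw [h5, hA1, sub_self]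
    have := congrFun hz x
    rw [hw] at this
    exact sub_eq_zero.mp this
  -- the columns are equal
  have hcol : ∀ x, PB x v = PA x v := by
    intro x
    by_cases hx : x = v
    · rw [hx, dB, dA]
    have h1 := hN ⟨x, hx⟩ ⟨x, hx⟩
    simp only at h1
    rw [dB, dA, sB v x, sA v x] at h1
    have h2 : PB x v * PB x v = PA x v * PA x v := by
      have h3 : C (ε x) * (Q * Q - PA x v * PA x v) * C (ε x) =
          (C (ε x) * C (ε x)) * (Q * Q - PA x v * PA x v) := by ring
      rw [h3, hεC, one_mul] at h1
      linear_combination -h1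
    rcases mul_self_eq_mul_self_iff.mp h2 with h3 | h3
    · exact h3
    exfalso
    have k3 := adj_two B hx
    have k4 := adj_two A hx
    rw [eA] at k4
    rw [eB, h3, coeff_neg, k4] at k3
    have k5 : B x v = A x v := by
      have e1 : B x v = B v x := hB.apply v x
      have e2 : A x v = A v x := hA.apply v x
      rw [e1, e2]; exact hv x
    have k6 : A x v ≠ 0 := by
      have e2 : A x v = A v x := hA.apply v x
      rw [e2]; exact hne x hx
    rw [k5] at k3
    exact k6 (by linarith)
  have hrow : ∀ x, PB v x = PA v x := fun x => by rw [sB v x, sA v x, hcol]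
  have hQ : Q ≠ 0 := by
    have h := (adj_diag_deg A v).1
    rw [hAa] at h
    exact h.ne_zero
  refine ⟨fun a => by rw [eA, eB, hrow], fun a b ha hb hab => ?_, fun a b ha hb hab => ?_⟩
  · have h1 := hN ⟨a, ha⟩ ⟨b, hb⟩
    simp only at h1
    rw [hcol, hrow, hab] at h1
    have h2 := hεC b
    rw [eA, eB]
    refine mul_left_cancel₀ hQ ?_
    linear_combination h1 + (Q * PA a b - PA a v * PA v b) * h2
  · have h1 := hN ⟨a, ha⟩ ⟨b, hb⟩
    simp only at h1
    have h3 : ε a * ε b = -1 := by
      have p1 := mul_self_eq_one_iff.mp (hε a)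
      have p2 := mul_self_eq_one_iff.mp (hε b)
      rcases p1 with p1 | p1 <;> rcases p2 with p2 | p2
      · exact absurd (p1.trans p2.symm) hab
      · rw [p1, p2]; norm_num
      · rw [p1, p2]; norm_num
      · exact absurd (p1.trans p2.symm) hab
    have h2 : (C (ε a) : ℚ[X]) * C (ε b) = -1 := by
      rw [← C_mul, h3, C_neg, C_1]
    rw [hcol, hrow] at h1
    rw [eA, eA, eA, eB, sA v a]
    linear_combination h1 + (Q * PA a b - PA a v * PA v b) * h2

end SWS
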