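import Pool.Agent.SWS.Un
import Pool.Agent.SWS.Pw

/-!
# SWS: regular graphs with a cubic relation

For a `k`-regular graph a cubic relation for the adjacency matrix (modulo the all-one matrix) gives one for
the Seidel matrix (`cub_of_adj`), and such a relation makes all diagonal entries of the powers of the
Seidel matrix, hence of the adjugate of `x - S`, constant (`cub_diag`).
-/

set_option autoImplicit false

namespace SWS

open Finset Polynomial RGC
open scoped Classical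

variable {V W : Type}

private theorem Qa_row [Fintype V] {G : SimpleGraph V} {k : ℕ}
    (hk : ∀ v, (G.neighborSet v).ncard = k) (a : V) : ∑ b, AR G a b = k := by
  unfold AR
  rw [Finset.sum_boole, ← hk a]
  congr 1
  rw [← Set.ncard_coe_finset]
  congr 1
  ext b
  simp

private theorem Qa_symm (G : SimpleGraph V) (a b : V) : AR G a b = AR G b a := by
  unfold AR
  rw [G.adj_comm]

private theorem Qa_AJ [Fintype V] {G : SimpleGraph V} {k : ℕ}
    (hk : ∀ v, (G.neighborSet v).ncard = k) :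
    AR G * (Matrix.of fun _ _ => (1 : ℝ)) = (k : ℝ) • (Matrix.of fun _ _ => (1 : ℝ)) := by
  ext a b
  rw [Matrix.mul_apply, Matrix.smul_apply]
  simp only [Matrix.of_apply, mul_one, smul_eq_mul]
  exact Qa_row hk a

private theorem Qa_JA [Fintype V] {G : SimpleGraph V} {k : ℕ}
    (hk : ∀ v, (G.neighborSet v).ncard = k) :
    (Matrix.of fun _ _ => (1 : ℝ)) * AR G = (k : ℝ) • (Matrix.of fun _ _ => (1 : ℝ)) := by
  ext a b
  rw [Matrix.mul_apply, Matrix.smul_apply]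
  simp only [Matrix.of_apply, mul_one, one_mul, smul_eq_mul]
  rw [← Qa_row hk b]
  exact Finset.sum_congr rfl fun c _ => Qa_symm G c b

private theorem Qa_JJ [Fintype V] :
    (Matrix.of fun _ _ => (1 : ℝ)) * (Matrix.of fun _ _ => (1 : ℝ)) =
      (Fintype.card V : ℝ) • (Matrix.of fun (_ _ : V) => (1 : ℝ)) := by
  ext a b
  rw [Matrix.mul_apply, Matrix.smul_apply]
  simp

private theorem Qa_S [Fintype V] (G : SimpleGraph V) :
    Sd G = (Matrix.of fun _ _ => (1 : ℝ)) - 1 - (2 : ℝ) • AR G := by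
  ext a b
  rw [Matrix.sub_apply, Matrix.sub_apply, Matrix.smul_apply, Matrix.of_apply, Matrix.one_apply]
  unfold Sd AR
  by_cases h : a = b
  · subst h
    simp
  · rw [if_neg h, if_neg h]
    by_cases h2 : G.Adj a b
    · rw [if_pos h2, if_pos h2]
      norm_num
    · rw [if_neg h2, if_neg h2]
      norm_num

theorem cub_of_adj [Fintype V] {G : SimpleGraph V} {k : ℕ}
    (hk : ∀ v, (G.neighborSet v).ncard = k) {x y z t : ℝ}
    (h : AR G ^ 3 = x • AR G ^ 2 + y • AR G + z • (1 : Matrix V V ℝ) +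
      t • (Matrix.of fun _ _ => (1 : ℝ))) : ∃ e1 e2 e3 c : ℝ, Cub G e1 e2 e3 c := by
  have hAJ := Qa_AJ hk
  have hJA := Qa_JA hk
  have hJJ := Qa_JJ (V := V)
  have hS := Qa_S G
  set J : Matrix V V ℝ := Matrix.of fun _ _ => (1 : ℝ) with hJ
  set A : Matrix V V ℝ := AR G with hA
  set n : ℝ := (Fintype.card V : ℝ) with hn
  set κ : ℝ := (k : ℝ) with hκ
  have hS2 : Sd G ^ 2 = (4 : ℝ) • A ^ 2 + (4 : ℝ) • A + (1 : ℝ) • (1 : Matrix V V ℝ) + (n - 2 - 4 * κ) • J := by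
    rw [hS, sq, sq]
    simp only [sub_mul, mul_sub, mul_one, one_mul, smul_mul_assoc, mul_smul_comm, hAJ, hJA, hJJ]
    module
  have hA2J : A ^ 2 * J = (κ * κ) • J := by
    rw [sq, mul_assoc, hAJ, mul_smul_comm, hAJ, smul_smul]
  have hS3 : Sd G ^ 3 = (-8 : ℝ) • A ^ 3 + (-12 : ℝ) • A ^ 2 + (-6 : ℝ) • A + (-1 : ℝ) • (1 : Matrix V V ℝ) +
      (4 * (κ * κ) + 4 * κ + 1 + (n - 2 - 4 * κ) * n - (n - 2 - 4 * κ) - 2 * (n - 2 - 4 * κ) * κ) • J := by
    rw [pow_succ, hS2, hS]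
    simp only [add_mul, mul_sub, mul_one, one_mul, smul_mul_assoc, mul_smul_comm, hAJ, hJA, hJJ, hA2J]
    have e1 : A ^ 2 * A = A ^ 3 := (pow_succ A 2).symm
    have e2 : A * A = A ^ 2 := (sq A).symm
    rw [e1, e2]
    module
  refine ⟨-2 * x - 3, -4 * x + 4 * y - 3, -8 * z - 1 - (-2 * x - 3) + (-4 * x + 4 * y - 3),
    -8 * t + (4 * (κ * κ) + 4 * κ + 1 + (n - 2 - 4 * κ) * n - (n - 2 - 4 * κ) - 2 * (n - 2 - 4 * κ) * κ)
      - (-2 * x - 3) * (n - 2 - 4 * κ) - (-4 * x + 4 * y - 3), ?_⟩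
  show Sd G ^ 3 = _ • Sd G ^ 2 + _ • Sd G + _ • (1 : Matrix V V ℝ) + _ • J
  rw [hS3, hS2, h, hS]
  module

private theorem Qa_sq [Fintype V] (G : SimpleGraph V) (v : V) :
    (Sd G ^ 2) v v = (Fintype.card V : ℝ) - 1 := by
  rw [sq, Matrix.mul_apply]
  have h1 : ∀ c ∈ (univ : Finset V), Sd G v c * Sd G c v = 1 - if v = c then 1 else 0 := by
    intro c _
    unfold Sd
    by_cases h : v = c
    · rw [if_pos h, if_pos h]
      norm_num
    · rw [if_neg h, if_neg h, if_neg (Ne.symm h), G.adj_comm c v]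
      split_ifs <;> norm_num
  rw [Finset.sum_congr rfl h1, Finset.sum_sub_distrib]
  simp

private theorem Qa_SJ [Fintype V] {G : SimpleGraph V} {k : ℕ}
    (hk : ∀ v, (G.neighborSet v).ncard = k) :
    (Matrix.of fun _ _ => (1 : ℝ)) * Sd G =
      ((Fintype.card V : ℝ) - 1 - 2 * k) • (Matrix.of fun _ _ => (1 : ℝ)) := by
  rw [Qa_S G, mul_sub, mul_sub, mul_one, mul_smul_comm, Qa_JJ, Qa_JA hk]
  module

private theorem Qa_pow [Fintype V] {G : SimpleGraph V} {k : ℕ}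
    (hk : ∀ v, (G.neighborSet v).ncard = k) {e1 e2 e3 c : ℝ} (h : Cub G e1 e2 e3 c) (j : ℕ) :
    ∃ x y z t : ℝ, Sd G ^ j = x • Sd G ^ 2 + y • Sd G + z • (1 : Matrix V V ℝ) +
      t • (Matrix.of fun _ _ => (1 : ℝ)) := by
  induction j with
  | zero => exact ⟨0, 0, 1, 0, by rw [pow_zero]; module⟩
  | succ j ih =>
    obtain ⟨x, y, z, t, hj⟩ := ih
    refine ⟨x * e1 + y, x * e2 + z, x * e3, x * c + t * ((Fintype.card V : ℝ) - 1 - 2 * k), ?_⟩
    have e4 : Sd G ^ 2 * Sd G = Sd G ^ 3 := (pow_succ _ 2).symm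
    have e5 : Sd G * Sd G = Sd G ^ 2 := (sq _).symm
    rw [pow_succ, hj, add_mul, add_mul, add_mul, smul_mul_assoc, smul_mul_assoc, smul_mul_assoc,
      smul_mul_assoc, e4, e5, one_mul, Qa_SJ hk]
    have h' : Sd G ^ 3 = e1 • Sd G ^ 2 + e2 • Sd G + e3 • (1 : Matrix V V ℝ) +
      c • (Matrix.of fun _ _ => (1 : ℝ)) := h
    rw [h']
    module

private theorem Qa_cast [Fintype V] (G : SimpleGraph V) (j : ℕ) (a b : V) :
    (((SQ G ^ j) a b : ℚ) : ℝ) = (Sd G ^ j) a b := by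
  have hG : Sd G = (SQ G).map (algebraMap ℚ ℝ) := by
    ext a b
    rw [Matrix.map_apply, ← sq_map]
    rfl
  rw [hG]
  have h1 : ((SQ G).map (algebraMap ℚ ℝ)) ^ j = (SQ G ^ j).map (algebraMap ℚ ℝ) := by
    rw [Matrix.map_pow]
  rw [h1, Matrix.map_apply]
  rfl

theorem cub_diag [Fintype V] {G : SimpleGraph V} {k : ℕ}
    (hk : ∀ v, (G.neighborSet v).ncard = k) {e1 e2 e3 c : ℝ} (h : Cub G e1 e2 e3 c) (u v : V) :
    Aj G u u = Aj G v v := by
  refine adj_of_pow fun j => ?_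
  obtain ⟨x, y, z, t, hj⟩ := Qa_pow hk h j
  have key : ∀ w : V, (Sd G ^ j) w w = x * ((Fintype.card V : ℝ) - 1) + z + t := by
    intro w
    rw [hj, Matrix.add_apply, Matrix.add_apply, Matrix.add_apply, Matrix.smul_apply,
      Matrix.smul_apply, Matrix.smul_apply, Matrix.smul_apply, Qa_sq, Matrix.one_apply_eq,
      Matrix.of_apply]
    have h0 : Sd G w w = 0 := by
      unfold Sd
      rw [if_pos rfl]
    rw [h0]
    simp only [smul_eq_mul]
    ring
  have h2 : (((SQ G ^ j) u u : ℚ) : ℝ) = (((SQ G ^ j) v v : ℚ) : ℝ) := by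
    rw [Qa_cast, Qa_cast, key u, key v]
  exact_mod_cast h2

end SWS
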