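import Pool.Agent.SWS.Uc

/-!
# SWS: comparing two cubic relations

Both Seidel matrices satisfy the same cubic relation and differ by signs off the vertex `v`. Splitting the
entries of the square and of the cube at `v`, the parts off `v` differ by the sign of the pair only; for equal
arguments this gives the codegrees with `v`, and for a pair separated by the cut the sum of the two relations.
-/

set_option autoImplicit false

namespace SWS

open Finset Polynomial RGC
open scoped Classical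

variable {V W : Type}

private theorem Qc_sq [Fintype V] (M : Matrix V V ℝ) (hs : ∀ x y, M x y = M y x) (v a b : V) :
    (M ^ 2) a b = M v a * M v b + ∑ c ∈ univ.erase v, M a c * M c b := by
  rw [pow_two, Matrix.mul_apply, ← add_sum_erase _ _ (mem_univ v), hs a v]

private theorem Qc_cube [Fintype V] (M : Matrix V V ℝ) (hs : ∀ x y, M x y = M y x) (v a b : V)
    (h0 : M v v = 0) :
    (M ^ 3) a b = M v a * (∑ c ∈ univ.erase v, M b c * M v c) +
      (∑ c ∈ univ.erase v, M a c * M v c) * M v b +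
        ∑ c ∈ univ.erase v, M a c * ∑ e ∈ univ.erase v, M c e * M e b := by
  have h3 : (M ^ 3) a b = ∑ c, M a c * (M ^ 2) c b := by
    rw [pow_succ', Matrix.mul_apply]
  have h1 : (M ^ 2) v b = ∑ c ∈ univ.erase v, M b c * M v c := by
    rw [Qc_sq M hs v v b, h0, zero_mul, zero_add]
    refine sum_congr rfl fun c _ => ?_
    rw [hs c b, mul_comm]
  have h2 : ∑ c ∈ univ.erase v, M a c * (M ^ 2) c b =
      (∑ c ∈ univ.erase v, M a c * M v c) * M v b +
        ∑ c ∈ univ.erase v, M a c * ∑ e ∈ univ.erase v, M c e * M e b := by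
    rw [sum_mul, ← sum_add_distrib]
    refine sum_congr rfl fun c _ => ?_
    rw [Qc_sq M hs v c b]
    ring
  rw [h3, ← add_sum_erase _ _ (mem_univ v), h1, h2, hs a v]
  ring

private theorem Qc_symm (G : SimpleGraph V) (a b : V) : Sd G a b = Sd G b a := by
  rw [← sq_map, ← sq_map, (sq_symm G).apply b a]

private theorem Qc_diag (G : SimpleGraph V) (a : V) : Sd G a a = 0 := by
  rw [← sq_map, sq_diag]
  norm_num

private theorem Qc_s (G : SimpleGraph V) {a b : V} (h : a ≠ b) :
    Sd G a b = if s G a b = 1 then -1 else 1 := by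
  rw [← sq_map, sq_s G h]
  split_ifs <;> norm_num

private theorem Qc_one (G : SimpleGraph V) {a b : V} (h : a ≠ b) : Sd G a b * Sd G a b = 1 := by
  rw [Qc_s G h]
  split_ifs <;> norm_num

private theorem Qc_sgn (x y z : ZMod 2) :
    (if x + y + z = 1 then (-1 : ℝ) else 1) =
      (if y = 0 then 1 else -1) * (if z = 0 then 1 else -1) * (if x = 1 then -1 else 1) := by
  have h2 : ∀ t : ZMod 2, t = 0 ∨ t = 1 := by decide
  have e1 : (1 : ZMod 2) ≠ 0 := by decide
  have e2 : (0 : ZMod 2) ≠ 1 := by decide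
  have e3 : (1 : ZMod 2) + 1 = 0 := by decide
  rcases h2 x with rfl | rfl <;> rcases h2 y with rfl | rfl <;> rcases h2 z with rfl | rfl <;>
    simp [e1, e2, e3]

private theorem Qc_gv [Fintype V] (K : SimpleGraph V) {v a : V} (ha : a ≠ v) :
    Sd K v a * (∑ c ∈ univ.erase v, Sd K a c * Sd K v c) = gv K v a := by
  have h1 := sq_cd K (Ne.symm ha)
  have h2 : (((SQ K v a * (SQ K * SQ K) v a : ℚ)) : ℝ) =
      Sd K v a * (∑ c ∈ univ.erase v, Sd K a c * Sd K v c) := by
    rw [Matrix.mul_apply]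
    push_cast
    simp only [sq_map]
    rw [← add_sum_erase _ _ (mem_univ v), Qc_diag, zero_mul, zero_add]
    congr 1
    refine sum_congr rfl fun c _ => ?_
    rw [Qc_symm K c a, mul_comm]
  rw [← h2, h1]
  unfold gv
  push_cast
  ring

/-- the relation of `K` at the entry `(a, b)`, split at `v`. -/
private theorem Qc_rel [Fintype V] {K : SimpleGraph V} {e1 e2 e3 c : ℝ} (hK : Cub K e1 e2 e3 c)
    {v a b : V} (ha : a ≠ v) (hb : b ≠ v) :
    (∑ x ∈ univ.erase v, Sd K a x * ∑ y ∈ univ.erase v, Sd K x y * Sd K y b) -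
      e1 * (∑ y ∈ univ.erase v, Sd K a y * Sd K y b) - e2 * Sd K a b -
        e3 * (if a = b then 1 else 0) =
      c - Sd K v a * Sd K v b * (gv K v a + gv K v b - e1) := by
  have h1 := congrFun (congrFun hK a) b
  rw [Matrix.add_apply, Matrix.add_apply, Matrix.add_apply, Matrix.smul_apply, Matrix.smul_apply,
    Matrix.smul_apply, Matrix.smul_apply, Matrix.of_apply, Matrix.one_apply,
    Qc_cube (Sd K) (Qc_symm K) v a b (Qc_diag K v), Qc_sq (Sd K) (Qc_symm K) v a b] at h1
  simp only [smul_eq_mul] at h1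
  rw [← Qc_gv K ha, ← Qc_gv K hb]
  have oa := Qc_one K (Ne.symm ha)
  have ob := Qc_one K (Ne.symm hb)
  set P := ∑ c ∈ univ.erase v, Sd K b c * Sd K v c with hP
  set R := ∑ c ∈ univ.erase v, Sd K a c * Sd K v c with hR
  have k1 : Sd K v a * Sd K v b * (Sd K v a * R + Sd K v b * P - e1) =
      (Sd K v a * Sd K v a) * (Sd K v b * R) + (Sd K v b * Sd K v b) * (Sd K v a * P) -
        Sd K v a * Sd K v b * e1 := by ring
  rw [k1, oa, ob]
  linarith

private theorem Qc_main [Fintype V] {K L : SimpleGraph V} {e1 e2 e3 c : ℝ} (hK : Cub K e1 e2 e3 c)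
    (hL : Cub L e1 e2 e3 c) {v : V} {d : V → ZMod 2} (hrow : ∀ a, s L v a = s K v a)
    (hoff : ∀ a b, a ≠ v → b ≠ v → a ≠ b → s L a b = s K a b + d a + d b) {a b : V}
    (ha : a ≠ v) (hb : b ≠ v) :
    ((if d a = 0 then 1 else -1) * (if d b = 0 then 1 else -1)) *
        (c - Sd K v a * Sd K v b * (gv K v a + gv K v b - e1)) =
      c - Sd K v a * Sd K v b * (gv L v a + gv L v b - e1) := by
  set ε : V → ℝ := fun x => if d x = 0 then 1 else -1 with hε
  have hεε : ∀ x, ε x * ε x = 1 := by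
    intro x
    simp only [hε]
    split_ifs <;> norm_num
  have hS : ∀ x y, x ≠ v → y ≠ v → Sd L x y = ε x * ε y * Sd K x y := by
    intro x y hx hy
    by_cases hxy : x = y
    · rw [hxy, Qc_diag, Qc_diag, mul_zero]
    · rw [Qc_s L hxy, Qc_s K hxy, hoff x y hx hy hxy, Qc_sgn]
  have hr : ∀ x, x ≠ v → Sd L v x = Sd K v x := by
    intro x hx
    rw [Qc_s L (Ne.symm hx), Qc_s K (Ne.symm hx), hrow x]
  have F2 : ∀ x, x ≠ v → ∑ y ∈ univ.erase v, Sd L x y * Sd L y b =
      ε x * ε b * ∑ y ∈ univ.erase v, Sd K x y * Sd K y b := by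
    intro x hx
    rw [mul_sum]
    refine sum_congr rfl fun y hy => ?_
    have hy' : y ≠ v := ne_of_mem_erase hy
    rw [hS x y hx hy', hS y b hy' hb]
    have k : ε x * ε y * Sd K x y * (ε y * ε b * Sd K y b) =
        (ε y * ε y) * (ε x * ε b * (Sd K x y * Sd K y b)) := by ring
    rw [k, hεε y, one_mul]
  have F3 : ∑ x ∈ univ.erase v, Sd L a x * ∑ y ∈ univ.erase v, Sd L x y * Sd L y b =
      ε a * ε b * ∑ x ∈ univ.erase v, Sd K a x * ∑ y ∈ univ.erase v, Sd K x y * Sd K y b := by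
    rw [mul_sum]
    refine sum_congr rfl fun x hx => ?_
    have hx' : x ≠ v := ne_of_mem_erase hx
    rw [F2 x hx', hS a x ha hx']
    have k : ∀ t : ℝ, ε a * ε x * Sd K a x * (ε x * ε b * t) =
        (ε x * ε x) * (ε a * ε b * (Sd K a x * t)) := fun t => by ring
    rw [k, hεε x, one_mul]
  have rK := Qc_rel hK ha hb
  have rL := Qc_rel hL ha hb
  rw [F3, F2 a ha, hS a b ha hb, hr a ha, hr b hb] at rL
  have hδ : (if a = b then (1 : ℝ) else 0) = ε a * ε b * (if a = b then 1 else 0) := by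
    split_ifs with hab
    · rw [hab, hεε b, one_mul]
    · rw [mul_zero]
  rw [hδ] at rL
  rw [← rL, ← rK]
  ring

theorem cub_gv [Fintype V] {K L : SimpleGraph V} {e1 e2 e3 c : ℝ} (hK : Cub K e1 e2 e3 c)
    (hL : Cub L e1 e2 e3 c) {v : V} {d : V → ZMod 2} (hrow : ∀ a, s L v a = s K v a)
    (hoff : ∀ a b, a ≠ v → b ≠ v → a ≠ b → s L a b = s K a b + d a + d b) {a : V}
    (ha : a ≠ v) : gv L v a = gv K v a := by
  have h1 := Qc_main hK hL hrow hoff ha ha
  rw [Qc_one K (Ne.symm ha)] at h1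
  split_ifs at h1 <;> linarith

theorem cub_cut [Fintype V] {K L : SimpleGraph V} {e1 e2 e3 c : ℝ} (hK : Cub K e1 e2 e3 c)
    (hL : Cub L e1 e2 e3 c) {v : V} {d : V → ZMod 2} (hrow : ∀ a, s L v a = s K v a)
    (hoff : ∀ a b, a ≠ v → b ≠ v → a ≠ b → s L a b = s K a b + d a + d b) {a b : V}
    (ha : a ≠ v) (hb : b ≠ v) (hab : d a ≠ d b) :
    Sd K v a * Sd K v b * (gv K v a + gv K v b - e1) = c := by
  have h1 := Qc_main hK hL hrow hoff ha hb
  rw [cub_gv hK hL hrow hoff ha, cub_gv hK hL hrow hoff hb] at h1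
  have h2 : ∀ x y : ZMod 2, x ≠ y → (x = 0 ∧ y ≠ 0) ∨ (x ≠ 0 ∧ y = 0) := by decide
  rcases h2 _ _ hab with ⟨h3, h4⟩ | ⟨h3, h4⟩
  · rw [if_pos h3, if_neg h4] at h1
    linarith
  · rw [if_neg h3, if_pos h4] at h1
    linarith

end SWS
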