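import Pool.Agent.SWS.Uc
import Pool.Agent.SWS.Ct
import Pool.Agent.SWS.Pw

/-!
# SWS: sums of codegrees

Module Qm. For a graph `K` isomorphic to one of two hypomorphic `k`-regular graphs: `K` is `k`-regular, and the sums
of the numbers `gv K v a` over the neighbours and over the non-neighbours of `v` do not depend on `K` and `v`
(the diagonal of the third power of the Seidel matrix is constant, and the row sums of its square are known).
-/

set_option autoImplicit false

namespace SWS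

open Finset Polynomial RGC
open scoped Classical

variable {V W : Type}

private theorem Qm_iso [Fintype V] {G K : SimpleGraph V} {k : ℕ}
    (hG : ∀ v, (G.neighborSet v).ncard = k) (e : G ≃g K) (v : V) :
    (K.neighborSet v).ncard = k := by
  obtain ⟨u, rfl⟩ := e.surjective v
  rw [← hG u, ← Nat.card_coe_set_eq, ← Nat.card_coe_set_eq]
  exact (Nat.card_congr (e.mapNeighborSet u)).symm

theorem reg_inU [Fintype V] {G H : SimpleGraph V} {k : ℕ}
    (hG : ∀ v, (G.neighborSet v).ncard = k) (hH : ∀ v, (H.neighborSet v).ncard = k) {b : Bool}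
    {K : SimpleGraph V} (hK : InU G H b K) (v : V) : (K.neighborSet v).ncard = k := by
  cases b with
  | true =>
    obtain ⟨e⟩ := hK
    exact Qm_iso hG e v
  | false =>
    obtain ⟨e⟩ := hK
    exact Qm_iso hH e v

private theorem Qm_split [Fintype V] {M : Type} [AddCommMonoid M] (K : SimpleGraph V) (v : V)
    (F : V → M) : ∑ a, F a = F v + (∑ a ∈ univ.filter (fun a => K.Adj v a), F a +
      ∑ a ∈ univ.filter (fun a => a ≠ v ∧ ¬ K.Adj v a), F a) := by
  have h1 : (univ : Finset V) = insert v (univ.filter (fun a => K.Adj v a) ∪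
      univ.filter (fun a => a ≠ v ∧ ¬ K.Adj v a)) := by
    ext a
    simp only [mem_univ, mem_insert, mem_union, mem_filter, true_and, true_iff]
    by_cases h2 : a = v
    · exact Or.inl h2
    · by_cases h3 : K.Adj v a
      · exact Or.inr (Or.inl h3)
      · exact Or.inr (Or.inr ⟨h2, h3⟩)
  have h2 : v ∉ univ.filter (fun a => K.Adj v a) ∪
      univ.filter (fun a => a ≠ v ∧ ¬ K.Adj v a) := by
    simp
  have h3 : Disjoint (univ.filter (fun a => K.Adj v a))
      (univ.filter (fun a => a ≠ v ∧ ¬ K.Adj v a)) := by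
    rw [Finset.disjoint_left]
    intro a h4 h5
    exact (mem_filter.1 h5).2.2 (mem_filter.1 h4).2
  conv_lhs => rw [h1]
  rw [sum_insert h2, sum_union h3]

private theorem Qm_card [Fintype V] {K : SimpleGraph V} {k : ℕ}
    (hK : ∀ v, (K.neighborSet v).ncard = k) (v : V) :
    (univ.filter (fun a => K.Adj v a)).card = k ∧
      (univ.filter (fun a => a ≠ v ∧ ¬ K.Adj v a)).card + k + 1 = Fintype.card V := by
  have h1 : (univ.filter (fun a => K.Adj v a)).card = k := by
    rw [← hK v, ← Set.ncard_coe_finset]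
    congr 1
    ext a
    simp
  refine ⟨h1, ?_⟩
  have h2 := Qm_split K v (fun _ => 1)
  rw [← card_eq_sum_ones, ← card_eq_sum_ones, ← card_eq_sum_ones, h1, card_univ] at h2
  omega

private theorem Qm_row [Fintype V] {K : SimpleGraph V} {k : ℕ}
    (hK : ∀ v, (K.neighborSet v).ncard = k) (v : V) :
    ∑ a, SQ K v a = (Fintype.card V : ℚ) - 1 - 2 * k := by
  obtain ⟨h1, h2⟩ := Qm_card hK v
  rw [Qm_split K v]
  have h3 : ∑ a ∈ univ.filter (fun a => K.Adj v a), SQ K v a = -(k : ℚ) := by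
    rw [sum_congr rfl (g := fun _ => (-1 : ℚ))]
    · rw [sum_const, h1]
      simp
    · intro a ha
      have h4 := (mem_filter.1 ha).2
      show (if v = a then (0 : ℚ) else if K.Adj v a then -1 else 1) = -1
      rw [if_neg h4.ne, if_pos h4]
  have h4 : ∑ a ∈ univ.filter (fun a => a ≠ v ∧ ¬ K.Adj v a), SQ K v a =
      ((univ.filter (fun a => a ≠ v ∧ ¬ K.Adj v a)).card : ℚ) := by
    rw [sum_congr rfl (g := fun _ => (1 : ℚ))]
    · rw [sum_const]
      simp
    · intro a ha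
      have h5 := (mem_filter.1 ha).2
      show (if v = a then (0 : ℚ) else if K.Adj v a then -1 else 1) = 1
      rw [if_neg h5.1.symm, if_neg h5.2]
  rw [h3, h4, sq_diag]
  have h5 : ((univ.filter (fun a => a ≠ v ∧ ¬ K.Adj v a)).card : ℚ) + k + 1 =
      Fintype.card V := by
    exact_mod_cast h2
  linarith

private theorem Qm_key [Fintype V] {K : SimpleGraph V} {k : ℕ}
    (hK : ∀ v, (K.neighborSet v).ncard = k) (v : V) (n : ℚ) (hn : n = Fintype.card V) :
    ∑ a ∈ univ.filter (fun a => K.Adj v a), (n - 2 - 2 * (cd K v a : ℚ)) =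
        ((SQ K ^ 3) v v - ((n - 1 - 2 * k) ^ 2 - (n - 1))) / 2 ∧
      ∑ a ∈ univ.filter (fun a => a ≠ v ∧ ¬ K.Adj v a), (n - 2 - 2 * (cd K v a : ℚ)) =
        ((SQ K ^ 3) v v + ((n - 1 - 2 * k) ^ 2 - (n - 1))) / 2 := by
  obtain ⟨h1, h2⟩ := Qm_card hK v
  have hA : ∀ a ∈ univ.filter (fun a => K.Adj v a),
      (SQ K * SQ K) v a = -(n - 2 - 2 * (cd K v a : ℚ)) := by
    intro a ha
    have h4 := (mem_filter.1 ha).2
    rw [hn, ← sq_cd K h4.ne]
    have h5 : SQ K v a = -1 := by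
      show (if v = a then (0 : ℚ) else if K.Adj v a then -1 else 1) = -1
      rw [if_neg h4.ne, if_pos h4]
    rw [h5]
    ring
  have hB : ∀ a ∈ univ.filter (fun a => a ≠ v ∧ ¬ K.Adj v a),
      (SQ K * SQ K) v a = n - 2 - 2 * (cd K v a : ℚ) := by
    intro a ha
    have h4 := (mem_filter.1 ha).2
    rw [hn, ← sq_cd K h4.1.symm]
    have h5 : SQ K v a = 1 := by
      show (if v = a then (0 : ℚ) else if K.Adj v a then -1 else 1) = 1
      rw [if_neg h4.1.symm, if_neg h4.2]
    rw [h5]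
    ring
  have hs : ∀ a b, SQ K a b = SQ K b a := fun a b => by
    have := congrFun (congrFun (sq_symm K) b) a
    exact this
  have h3 : (SQ K ^ 3) v v = ∑ a, SQ K v a * (SQ K * SQ K) v a := by
    have h4 : SQ K ^ 3 = (SQ K * SQ K) * SQ K := by
      rw [pow_succ, pow_two]
    rw [h4, Matrix.mul_apply]
    refine sum_congr rfl (fun a _ => ?_)
    rw [hs a v, mul_comm]
  have h5 : (SQ K ^ 3) v v = ∑ a ∈ univ.filter (fun a => K.Adj v a), (n - 2 - 2 * (cd K v a : ℚ)) +
      ∑ a ∈ univ.filter (fun a => a ≠ v ∧ ¬ K.Adj v a), (n - 2 - 2 * (cd K v a : ℚ)) := by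
    rw [h3, Qm_split K v, sq_diag, zero_mul, zero_add]
    congr 1
    · refine sum_congr rfl (fun a ha => ?_)
      rw [hn]
      exact sq_cd K (mem_filter.1 ha).2.ne
    · refine sum_congr rfl (fun a ha => ?_)
      rw [hn]
      exact sq_cd K (mem_filter.1 ha).2.1.symm
  have h6 : ∑ a, (SQ K * SQ K) v a = (n - 1 - 2 * k) ^ 2 := by
    have h7 : ∀ a, (SQ K * SQ K) v a = ∑ c, SQ K v c * SQ K c a := fun a => Matrix.mul_apply
    rw [sum_congr rfl (fun a _ => h7 a), sum_comm]
    have h8 : ∀ c, ∑ a, SQ K v c * SQ K c a = SQ K v c * (n - 1 - 2 * k) := by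
      intro c
      rw [← mul_sum, Qm_row hK c, hn]
    rw [sum_congr rfl (fun c _ => h8 c), ← sum_mul, Qm_row hK v, hn]
    ring
  have h7 : (SQ K * SQ K) v v = n - 1 := by
    rw [Matrix.mul_apply, Qm_split K v, sq_diag, zero_mul, zero_add]
    have h8 : ∀ a, a ≠ v → SQ K v a * SQ K a v = 1 := by
      intro a ha
      rw [hs a v]
      exact sq_mul K ha.symm
    rw [sum_congr rfl (g := fun _ => (1 : ℚ)) (fun a ha => h8 a (mem_filter.1 ha).2.ne.symm),
      sum_congr rfl (g := fun _ => (1 : ℚ)) (fun a ha => h8 a (mem_filter.1 ha).2.1),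
      sum_const, sum_const, h1]
    have h5 : ((univ.filter (fun a => a ≠ v ∧ ¬ K.Adj v a)).card : ℚ) + k + 1 =
        Fintype.card V := by
      exact_mod_cast h2
    simp only [nsmul_eq_mul, mul_one]
    rw [hn]
    linarith
  rw [Qm_split K v, h7, sum_congr rfl hA, sum_congr rfl hB, sum_neg_distrib] at h6
  constructor
  · linarith
  · linarith

theorem sums [Fintype V] {G H : SimpleGraph V} {P Q : ℚ[X]} (h : Ctx G H P Q) {k : ℕ}
    (hG : ∀ v, (G.neighborSet v).ncard = k) (hH : ∀ v, (H.neighborSet v).ncard = k) :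
    ∃ S0 S1 : ℝ, ∀ (b : Bool) (K : SimpleGraph V), InU G H b K → ∀ v : V,
      ∑ a ∈ univ.filter (fun a => K.Adj v a), gv K v a = S1 ∧
      ∑ a ∈ univ.filter (fun a => a ≠ v ∧ ¬ K.Adj v a), gv K v a = S0 ∧
      (univ.filter (fun a => K.Adj v a)).card = k ∧
      (univ.filter (fun a => a ≠ v ∧ ¬ K.Adj v a)).card + k + 1 = Fintype.card V := by
  have hc := h.card
  obtain ⟨v0⟩ : Nonempty V := Fintype.card_pos_iff.1 (by omega)
  refine ⟨((((SQ G ^ 3) v0 v0 + (((Fintype.card V : ℚ) - 1 - 2 * k) ^ 2 -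
    ((Fintype.card V : ℚ) - 1))) / 2 : ℚ) : ℝ), ((((SQ G ^ 3) v0 v0 -
    (((Fintype.card V : ℚ) - 1 - 2 * k) ^ 2 - ((Fintype.card V : ℚ) - 1))) / 2 : ℚ) : ℝ), ?_⟩
  intro b K hK v
  have hr : ∀ v, (K.neighborSet v).ncard = k := fun v => reg_inU hG hH hK v
  have hctx := inU_ctx h hK
  have h3 : (SQ K ^ 3) v v = (SQ G ^ 3) v0 v0 :=
    pow_of_adj (hctx.cG.trans h.cG.symm) ((hctx.aG v).trans (h.aG v0).symm) 3
  obtain ⟨h4, h5⟩ := Qm_key hr v (Fintype.card V : ℚ) rfl
  rw [h3] at h4 h5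
  have h6 : ∀ s : Finset V, ∑ a ∈ s, gv K v a =
      ((∑ a ∈ s, ((Fintype.card V : ℚ) - 2 - 2 * (cd K v a : ℚ)) : ℚ) : ℝ) := by
    intro s
    push_cast
    rfl
  refine ⟨?_, ?_, Qm_card hr v⟩
  · rw [h6, h4]
  · rw [h6, h5]

end SWS
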