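import Pool.Agent.SWS.Qb
import Pool.Agent.RGC.Sei

/-!
# SWS: the polynomial relation of a cospectral mate

`cub_cosp`: the relation without all-one term passes to a cospectral mate (the eigenvalues are the
same and the mate is diagonalisable). `cub_T`: it passes to switching equivalent graphs. `rep`: the
representative of an extension of a card with the same row at `v`.
-/

set_option autoImplicit false

namespace SWS

open Finset Polynomial RGC
open scoped Classical

variable {V W : Type}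

private theorem Rc_pow [Fintype V] (M : Matrix V V ℝ) {x : V → ℝ} {r : ℝ}
    (h : M.mulVec x = r • x) (n : ℕ) : (M ^ n).mulVec x = r ^ n • x := by
  induction n with
  | zero => rw [pow_zero, pow_zero, Matrix.one_mulVec, one_smul]
  | succ n ih => rw [pow_succ, ← Matrix.mulVec_mulVec, h, Matrix.mulVec_smul, ih, smul_smul, pow_succ, mul_comm]

private theorem Rc_aev [Fintype V] (M : Matrix V V ℝ) {x : V → ℝ} {r : ℝ}
    (h : M.mulVec x = r • x) (q : ℝ[X]) : (aeval M q).mulVec x = q.eval r • x := by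
  induction q using Polynomial.induction_on' with
  | add p q hp hq => rw [map_add, Matrix.add_mulVec, hp, hq, eval_add, add_smul]
  | monomial n a =>
    rw [aeval_monomial, eval_monomial, Algebra.algebraMap_eq_smul_one, smul_mul_assoc, one_mul,
      Matrix.smul_mulVec, Rc_pow M h, smul_smul]

private theorem Rc_root [Fintype V] (M : Matrix V V ℝ) (r : ℝ) :
    M.charpoly.eval r = 0 ↔ ∃ x : V → ℝ, x ≠ 0 ∧ M.mulVec x = r • x := by
  rw [Matrix.eval_charpoly, ← Matrix.exists_mulVec_eq_zero_iff]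
  refine exists_congr fun x => and_congr_right fun _ => ?_
  have h1 : (Matrix.scalar V r - M).mulVec x = r • x - M.mulVec x := by
    rw [Matrix.sub_mulVec]
    congr 1
    ext i
    simp [Matrix.scalar, Matrix.mulVec_diagonal]
  rw [h1, sub_eq_zero]
  exact eq_comm

private noncomputable def Rc_q (e1 e2 e3 : ℝ) : ℝ[X] := X ^ 3 - C e1 * X ^ 2 - C e2 * X - C e3

private theorem Rc_cub [Fintype V] (G : SimpleGraph V) (e1 e2 e3 : ℝ) :
    Cub G e1 e2 e3 0 ↔ aeval (Sd G) (Rc_q e1 e2 e3) = 0 := by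
  have h1 : aeval (Sd G) (Rc_q e1 e2 e3) =
      Sd G ^ 3 - e1 • Sd G ^ 2 - e2 • Sd G - e3 • (1 : Matrix V V ℝ) := by
    unfold Rc_q
    simp only [map_sub, map_mul, map_pow, aeval_X, aeval_C, Algebra.algebraMap_eq_smul_one,
      smul_mul_assoc, one_mul]
  unfold Cub
  rw [h1, zero_smul, add_zero]
  constructor
  · intro h
    rw [h]
    abel
  · intro h
    rw [sub_sub, sub_sub, sub_eq_zero] at h
    rw [h]
    abel

theorem cub_cosp [Fintype V] {G H : SimpleGraph V} (h : (Sd G).charpoly = (Sd H).charpoly)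
    {e1 e2 e3 : ℝ} (hG : Cub G e1 e2 e3 0) : Cub H e1 e2 e3 0 := by
  rw [Rc_cub] at hG ⊢
  have hB : (Sd H).IsHermitian := by
    unfold Matrix.IsHermitian
    rw [Matrix.conjTranspose_eq_transpose_of_trivial]
    exact sd_symm H
  have hev : ∀ i, (Rc_q e1 e2 e3).eval (hB.eigenvalues i) = 0 := by
    intro i
    have h1 : (Sd H).charpoly.eval (hB.eigenvalues i) = 0 := by
      rw [Rc_root]
      refine ⟨(hB.eigenvectorBasis i).ofLp, ?_, hB.mulVec_eigenvectorBasis i⟩
      intro h0
      have h2 := hB.eigenvectorBasis.toBasis.ne_zero i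
      apply h2
      rw [OrthonormalBasis.coe_toBasis]
      ext a
      exact congrFun h0 a
    rw [← h, Rc_root] at h1
    obtain ⟨x, hx0, hx⟩ := h1
    have h3 := Rc_aev (Sd G) hx (Rc_q e1 e2 e3)
    rw [hG, Matrix.zero_mulVec] at h3
    exact (smul_eq_zero.1 h3.symm).resolve_right hx0
  have hlin : Matrix.toEuclideanLin (aeval (Sd H) (Rc_q e1 e2 e3)) = 0 := by
    refine hB.eigenvectorBasis.toBasis.ext fun i => ?_
    rw [OrthonormalBasis.coe_toBasis, LinearMap.zero_apply]
    have h4 := Rc_aev (Sd H) (hB.mulVec_eigenvectorBasis i) (Rc_q e1 e2 e3)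
    rw [hev i, zero_smul] at h4
    ext a
    exact congrFun h4 a
  exact (LinearEquiv.map_eq_zero_iff _).1 hlin

theorem cub_T [Fintype V] {K K' : SimpleGraph V} (h : ∀ a b c, T K' a b c = T K a b c)
    {e1 e2 e3 : ℝ} (hK : Cub K e1 e2 e3 0) : Cub K' e1 e2 e3 0 := by
  obtain ⟨τ, rfl⟩ := exists_sw fun a b c => (h a b c).symm
  set D : Matrix V V ℝ := Matrix.diagonal (fun x : V => if x ∈ τ then (-1 : ℝ) else 1) with hD
  have h4 : Sd (sw K τ) = D * Sd K * D := by
    ext a b
    rw [hD, Matrix.mul_diagonal, Matrix.diagonal_mul]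
    unfold Sd
    by_cases hab : a = b
    · simp [hab]
    · have h5 : (sw K τ).Adj a b ↔ Xor (K.Adj a b) (Xor (a ∈ τ) (b ∈ τ)) := by
        unfold sw
        simp [hab]
      by_cases h6 : K.Adj a b <;> by_cases h7 : a ∈ τ <;> by_cases h8 : b ∈ τ <;>
        simp [hab, h5, h6, h7, h8, Xor]
  have h9 : D * D = 1 := by
    rw [hD, Matrix.diagonal_mul_diagonal, ← Matrix.diagonal_one]
    congr 1
    funext x
    split_ifs <;> norm_num
  have hA : ∀ A B : Matrix V V ℝ, (D * A * D) * (D * B * D) = D * (A * B) * D := by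
    intro A B
    calc (D * A * D) * (D * B * D) = D * A * (D * D) * B * D := by simp only [mul_assoc]
      _ = D * (A * B) * D := by rw [h9, mul_one, mul_assoc D A B]
  have h2 : (D * Sd K * D) ^ 2 = D * Sd K ^ 2 * D := by rw [pow_two, hA, pow_two]
  have h3 : (D * Sd K * D) ^ 3 = D * Sd K ^ 3 * D := by rw [pow_succ, h2, hA, ← pow_succ]
  unfold Cub at hK ⊢
  rw [zero_smul, add_zero] at hK ⊢
  rw [h4, h3, h2, hK]
  simp only [mul_add, add_mul, Matrix.mul_smul, Matrix.smul_mul, mul_one, h9]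

private noncomputable def Rc_kv (G : SimpleGraph V) (v : V) (d : V → ZMod 2) (a b : V) : ZMod 2 :=
  if a = v ∨ b = v then s G a b else s G a b + d a + d b

private theorem Rc_kv_comm (G : SimpleGraph V) (v : V) (d : V → ZMod 2) (a b : V) :
    Rc_kv G v d a b = Rc_kv G v d b a := by
  unfold Rc_kv
  rw [s_comm G a b]
  by_cases h : a = v ∨ b = v
  · rw [if_pos h, if_pos h.symm]
  · rw [if_neg h, if_neg (fun h' => h h'.symm)]
    ring

private noncomputable def Rc_kg (G : SimpleGraph V) (v : V) (d : V → ZMod 2) : SimpleGraph V where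
  Adj a b := a ≠ b ∧ Rc_kv G v d a b = 1
  symm := ⟨fun a b h => ⟨h.1.symm, by rw [Rc_kv_comm]; exact h.2⟩⟩
  loopless := ⟨fun _ h => h.1 rfl⟩

private theorem Rc_kg_s (G : SimpleGraph V) (v : V) (d : V → ZMod 2) {a b : V}
    (h : a ≠ b) : s (Rc_kg G v d) a b = Rc_kv G v d a b := by
  have h1 : (Rc_kg G v d).Adj a b ↔ Rc_kv G v d a b = 1 := ⟨fun h' => h'.2, fun h' => ⟨h, h'⟩⟩
  unfold s
  rcases z2c (Rc_kv G v d a b) with h0 | h0
  · rw [if_neg (by rw [h1, h0]; decide), h0]
  · rw [if_pos (by rw [h1, h0]), h0]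

private theorem Rc_kg_s0 (G : SimpleGraph V) (v : V) (d : V → ZMod 2) (a : V) :
    s (Rc_kg G v d) v a = s G v a := by
  by_cases h : v = a
  · subst h
    rw [s_self, s_self]
  · rw [Rc_kg_s G v d h]
    unfold Rc_kv
    rw [if_pos (Or.inl rfl)]

private theorem Rc_kg_s1 (G : SimpleGraph V) (v : V) (d : V → ZMod 2) {a b : V}
    (ha : a ≠ v) (hb : b ≠ v) (h : a ≠ b) : s (Rc_kg G v d) a b = s G a b + d a + d b := by
  rw [Rc_kg_s G v d h]
  unfold Rc_kv
  rw [if_neg (by simp [ha, hb])]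

private theorem Rc_T0 (G : SimpleGraph V) {H' : SimpleGraph V} {v : V} {d : V → ZMod 2}
    (hd : ∀ a b, a ≠ v → b ≠ v → T H' v a b = T G v a b + d a + d b) (a b : V) :
    T (Rc_kg G v d) v a b = T H' v a b := by
  by_cases ha : a = v
  · subst ha
    rw [T_left, T_left]
  by_cases hb : b = v
  · subst hb
    rw [T_outer, T_outer]
  by_cases hab : a = b
  · subst hab
    rw [T_right, T_right]
  rw [hd a b ha hb]
  unfold T
  rw [Rc_kg_s0, Rc_kg_s0, Rc_kg_s1 G v d ha hb hab]
  ring

private theorem Rc_T (G : SimpleGraph V) {H' : SimpleGraph V} {v : V} (hoff : OffEq G H' v)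
    {d : V → ZMod 2}
    (hd : ∀ a b, a ≠ v → b ≠ v → T H' v a b = T G v a b + d a + d b) (a b c : V) :
    T (Rc_kg G v d) a b c = T H' a b c := by
  by_cases ha : a = v
  · subst ha
    exact Rc_T0 G hd b c
  by_cases hb : b = v
  · subst hb
    rw [T_swap, T_swap H']
    exact Rc_T0 G hd a c
  by_cases hc : c = v
  · subst hc
    rw [← T_rot, ← T_rot H']
    exact Rc_T0 G hd a b
  rw [hoff a b c ha hb hc]
  by_cases h1 : a = b
  · subst h1; rw [T_left, T_left]
  by_cases h2 : b = c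
  · subst h2; rw [T_right, T_right]
  by_cases h3 : a = c
  · subst h3; rw [T_outer, T_outer]
  unfold T
  rw [Rc_kg_s1 G v d ha hb h1, Rc_kg_s1 G v d hb hc h2, Rc_kg_s1 G v d ha hc h3]
  have key : ∀ a b c x y z : ZMod 2, (a + x + y) + (b + y + z) + (c + x + z) = a + b + c := by
    decide
  exact key _ _ _ _ _ _

theorem rep {G H' : SimpleGraph V} {v : V} (h : OffEq G H' v) :
    ∃ (K : SimpleGraph V) (d : V → ZMod 2), (∀ a b c, T K a b c = T H' a b c) ∧
      (∀ a, s K v a = s G v a) ∧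
      (∀ a b, a ≠ v → b ≠ v → a ≠ b → s K a b = s G a b + d a + d b) ∧
      (∀ a b, a ≠ v → b ≠ v → T H' v a b = T G v a b + d a + d b) := by
  obtain ⟨d, -, hd⟩ := cut h
  exact ⟨Rc_kg G v d, d, Rc_T G h hd, Rc_kg_s0 G v d, fun a b ha hb hab => Rc_kg_s1 G v d ha hb hab,
    hd⟩

end SWS
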