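import Pool.Agent.SWS.Defs

/-!
# SWS: the sequences of the walk have odd period

With `z = X - C ν`: an index `i` is of the first type if `z * b i = C s0 * Q` and of the second type if `b i`
vanishes at `ν`; not both, since `z ^ 2` does not divide `Q`. There are arbitrarily large indices of the first type
(otherwise high powers of `z` divide `b i`). Between two consecutive indices of the first type a quadratic invariant
shows that the sequence is symmetric; comparing degrees, their distance is odd. The pair `(b i, b (i + 1))`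
determines the whole sequence, which is therefore periodic.
-/

set_option autoImplicit false

namespace SWS

open Finset Polynomial
open scoped Classical

variable {V W : Type}

private theorem Sq_z (ν : ℚ) : (X - C ν : ℚ[X]) ≠ 0 := X_sub_C_ne_zero ν

private theorem Sq_cz (c : ℚ) (hc : c ≠ 0) : IsUnit (C c : ℚ[X]) := isUnit_C.mpr (isUnit_iff_ne_zero.mpr hc)

private theorem Sq_s0 {s0 : ℚ} (hs : s0 * s0 = 1) : s0 ≠ 0 := by
  rintro rfl
  norm_num at hs

/-- the two types exclude each other -/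
private theorem Sq_excl {ν s0 : ℚ} {Q p : ℚ[X]} (hs : s0 * s0 = 1) (hQ1 : ¬ (X - C ν) ^ 2 ∣ Q)
    (h1 : (X - C ν) * p = C s0 * Q) (h2 : p.eval ν = 0) : False := by
  obtain ⟨q, hq⟩ := dvd_iff_isRoot.mpr h2
  apply hQ1
  have h3 : (X - C ν) ^ 2 ∣ C s0 * Q := ⟨q, by rw [← h1, hq]; ring⟩
  exact ((Sq_cz s0 (Sq_s0 hs)).dvd_mul_left).mp h3

private theorem Sq_cancel {ν : ℚ} {p q : ℚ[X]} (h : (X - C ν) * p = (X - C ν) * q) : p = q :=
  mul_left_cancel₀ (Sq_z ν) h

/-- there are large indices of the first type -/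
private theorem Sq_large {ν s0 : ℚ} {Q : ℚ[X]} {m : ℕ} (hs : s0 * s0 = 1) {b : ℕ → ℚ[X]}
    (hdeg : ∀ i, (b i).natDegree = m) (hne : ∀ i, b i ≠ 0)
    (hstep : ∀ i, ((X - C ν) * b (i + 1) = C s0 * Q ∧ b (i + 2) = b i) ∨
      ((b (i + 1)).eval ν = 0 ∧ (X - C ν) * (b (i + 2) + b i) = C (2 * s0) * b (i + 1))) (i0 : ℕ) :
    ∃ i, i0 ≤ i ∧ (X - C ν) * b (i + 1) = C s0 * Q := by
  by_contra hcon
  push Not at hcon
  have hrec : ∀ i, i0 ≤ i → (X - C ν) * (b (i + 2) + b i) = C (2 * s0) * b (i + 1) := by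
    intro i hi
    rcases hstep i with h | h
    · exact absurd h.1 (hcon i hi)
    · exact h.2
  have hpow : ∀ k : ℕ, ∀ i, i0 + 1 + k ≤ i → (X - C ν) ^ k ∣ b i := by
    intro k
    induction k with
    | zero => intro i _; simp
    | succ k ih =>
      intro i hi
      obtain ⟨j, rfl⟩ : ∃ j, i = j + 1 := ⟨i - 1, by omega⟩
      have h1 : (X - C ν) ^ k ∣ b (j + 2) + b j :=
        dvd_add (ih (j + 2) (by omega)) (ih j (by omega))
      have h2 : (X - C ν) ^ (k + 1) ∣ C (2 * s0) * b (j + 1) := by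
        rw [← hrec j (by omega), pow_succ']
        exact mul_dvd_mul_left _ h1
      have h3 : (2 * s0 : ℚ) ≠ 0 := mul_ne_zero two_ne_zero (Sq_s0 hs)
      exact ((Sq_cz _ h3).dvd_mul_left).mp h2
  have h4 := natDegree_le_of_dvd (hpow (m + 1) (i0 + 1 + (m + 1)) le_rfl) (hne _)
  rw [hdeg, natDegree_pow, natDegree_X_sub_C] at h4
  omega

theorem seq_odd {ν s0 : ℚ} {Q : ℚ[X]} {m : ℕ} (hs : s0 * s0 = 1) (hQd : Q.natDegree = m + 1)
    (hQ1 : ¬ (X - C ν) ^ 2 ∣ Q) {b : ℕ → ℚ[X]} (hdeg : ∀ i, (b i).natDegree = m)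
    (hne : ∀ i, b i ≠ 0)
    (hstep : ∀ i, ((X - C ν) * b (i + 1) = C s0 * Q ∧ b (i + 2) = b i) ∨
      ((b (i + 1)).eval ν = 0 ∧ (X - C ν) * (b (i + 2) + b i) = C (2 * s0) * b (i + 1))) :
    ∃ l, Odd l ∧ ∀ i, b (i + l) = b i := by
  have h2s : (2 * s0 : ℚ) ≠ 0 := mul_ne_zero two_ne_zero (Sq_s0 hs)
  -- the first index of the first type
  obtain ⟨a0, -, hP0'⟩ := Sq_large hs hdeg hne hstep 0
  obtain ⟨i0, hi0⟩ : ∃ i0, i0 = a0 + 1 := ⟨_, rfl⟩
  have hP0 : (X - C ν) * b i0 = C s0 * Q := by rw [hi0]; exact hP0'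
  -- the next index of the first type
  have hex : ∃ l, 1 ≤ l ∧ (X - C ν) * b (i0 + l) = C s0 * Q := by
    obtain ⟨i, hi, h⟩ := Sq_large hs hdeg hne hstep i0
    exact ⟨i + 1 - i0, by omega, by rw [show i0 + (i + 1 - i0) = i + 1 by omega]; exact h⟩
  obtain ⟨l, hl⟩ : ∃ l, l = Nat.find hex := ⟨_, rfl⟩
  have hl1 : 1 ≤ l := by rw [hl]; exact (Nat.find_spec hex).1
  have hPl : (X - C ν) * b (i0 + l) = C s0 * Q := by rw [hl]; exact (Nat.find_spec hex).2
  have hmin : ∀ j, 1 ≤ j → j < l → ¬ (X - C ν) * b (i0 + j) = C s0 * Q := by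
    intro j hj hjl hc
    rw [hl] at hjl
    exact Nat.find_min hex hjl ⟨hj, hc⟩
  obtain ⟨F, hF⟩ : ∃ F : ℕ → ℚ[X], F = fun j => b (i0 + j) := ⟨_, rfl⟩
  have hFj : ∀ j, F j = b (i0 + j) := fun j => by rw [hF]
  have hrec : ∀ j, j + 1 < l → (X - C ν) * (F (j + 2) + F j) = C (2 * s0) * F (j + 1) := by
    intro j hj
    rw [hFj, hFj, hFj]
    rcases hstep (i0 + j) with h | h
    · exact absurd h.1 (hmin (j + 1) (by omega) hj)
    · exact h.2
  have hF0 : F 0 = F l := by
    rw [hFj, hFj]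
    exact Sq_cancel (hP0.trans hPl.symm)
  have hzF0 : (X - C ν) * F 0 = C s0 * Q := by rw [hFj]; exact hP0
  -- the invariant
  have hinv : ∀ j, j < l → (X - C ν) * (F j ^ 2 + F (j + 1) ^ 2) - C (2 * s0) * F j * F (j + 1) =
      (X - C ν) * (F 0 ^ 2 + F 1 ^ 2) - C (2 * s0) * F 0 * F 1 := by
    intro j
    induction j with
    | zero => intro _; rfl
    | succ j ih =>
      intro hj
      rw [← ih (by omega)]
      have h := hrec j hj
      have h' : (F (j + 2) - F j) * ((X - C ν) * (F (j + 2) + F j) - C (2 * s0) * F (j + 1)) = 0 := by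
        rw [h, sub_self, mul_zero]
      linear_combination h'
  have hF1 : F (l - 1) = F 1 := by
    have h := hinv (l - 1) (by omega)
    rw [show l - 1 + 1 = l by omega, ← hF0] at h
    have h' : (F 1 - F (l - 1)) * ((X - C ν) * (F 1 + F (l - 1)) - C (2 * s0) * F 0) = 0 := by
      linear_combination -h
    rcases mul_eq_zero.mp h' with h1 | h1
    · exact (sub_eq_zero.mp h1).symm
    · exfalso
      apply hQ1
      have h2 : (X - C ν) ^ 2 * (F 1 + F (l - 1)) = C 2 * Q := by
        have h3 : (C (2 * s0) : ℚ[X]) * C s0 = C 2 := by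
          rw [← C_mul]
          congr 1
          linear_combination 2 * hs
        calc (X - C ν) ^ 2 * (F 1 + F (l - 1)) = (X - C ν) * (C (2 * s0) * F 0) := by
              linear_combination (X - C ν) * h1
          _ = C (2 * s0) * ((X - C ν) * F 0) := by ring
          _ = C (2 * s0) * C s0 * Q := by rw [hzF0]; ring
          _ = C 2 * Q := by rw [h3]
      have h4 : (X - C ν) ^ 2 ∣ C 2 * Q := ⟨_, h2.symm⟩
      exact ((Sq_cz 2 two_ne_zero).dvd_mul_left).mp h4
  -- symmetry
  have hsym : ∀ j, j ≤ l → F (l - j) = F j ∧ (j + 1 ≤ l → F (l - (j + 1)) = F (j + 1)) := by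
    intro j
    induction j with
    | zero => intro _; exact ⟨by rw [Nat.sub_zero]; exact hF0.symm, fun _ => hF1⟩
    | succ j ih =>
      intro hj
      obtain ⟨h1, h2⟩ := ih (by omega)
      have h2' := h2 hj
      refine ⟨h2', fun hj2 => ?_⟩
      have h3 := hrec j (by omega)
      have h4 := hrec (l - (j + 2)) (by omega)
      rw [show l - (j + 2) + 2 = l - j by omega, show l - (j + 2) + 1 = l - (j + 1) by omega, h1, h2'] at h4
      have h5 : (X - C ν) * F (l - (j + 1 + 1)) = (X - C ν) * F (j + 1 + 1) := by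
        linear_combination h4 - h3
      exact Sq_cancel h5
  -- the distance is odd
  have hodd : Odd l := by
    by_contra hno
    rw [Nat.not_odd_iff_even] at hno
    obtain ⟨q, hq⟩ := hno
    have hq1 : 1 ≤ q := by omega
    obtain ⟨r, rfl⟩ : ∃ r, q = r + 1 := ⟨q - 1, by omega⟩
    have h1 := hrec r (by omega)
    have h2 := (hsym r (by omega)).1
    rw [show l - r = r + 2 by omega] at h2
    rw [h2] at h1
    have h3 : (C 2 : ℚ[X]) * ((X - C ν) * F r) = C (2 * s0) * F (r + 1) := by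
      have h4 : (C 2 : ℚ[X]) = 2 := map_ofNat C 2
      rw [h4]
      linear_combination h1
    have h5 := congrArg natDegree h3
    rw [natDegree_C_mul two_ne_zero, natDegree_C_mul h2s, natDegree_mul (Sq_z ν) (by rw [hFj]; exact hne _),
      natDegree_X_sub_C, hFj, hFj, hdeg, hdeg] at h5
    omega
  -- periodicity
  have hfor : ∀ i j, b j = b i → b (j + 1) = b (i + 1) → b (j + 2) = b (i + 2) := by
    intro i j h0 h1
    rcases hstep j with hj | hj <;> rcases hstep i with hi | hi
    · rw [hj.2, hi.2, h0]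
    · exact (Sq_excl hs hQ1 hj.1 (by rw [h1]; exact hi.1)).elim
    · exact (Sq_excl hs hQ1 hi.1 (by rw [← h1]; exact hj.1)).elim
    · have h2 := hj.2
      rw [h1, h0, ← hi.2] at h2
      exact add_right_cancel (Sq_cancel h2)
  have hback : ∀ i j, b (j + 1) = b (i + 1) → b (j + 2) = b (i + 2) → b j = b i := by
    intro i j h0 h1
    rcases hstep j with hj | hj <;> rcases hstep i with hi | hi
    · rw [← hj.2, ← hi.2, h1]
    · exact (Sq_excl hs hQ1 hj.1 (by rw [h0]; exact hi.1)).elim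
    · exact (Sq_excl hs hQ1 hi.1 (by rw [← h0]; exact hj.1)).elim
    · have h2 := hj.2
      rw [h1, h0, ← hi.2] at h2
      exact add_left_cancel (Sq_cancel h2)
  have hS0 : b (i0 + l) = b i0 ∧ b (i0 + 1 + l) = b (i0 + 1) := by
    constructor
    · have h := hF0
      rw [hFj, hFj, Nat.add_zero] at h
      exact h.symm
    · have h1 := hstep (i0 + l - 1)
      rw [show i0 + l - 1 + 1 = i0 + l by omega, show i0 + l - 1 + 2 = i0 + 1 + l by omega] at h1
      rcases h1 with h1 | h1
      · rw [h1.2]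
        have h2 := hF1
        rw [hFj, hFj] at h2
        rw [show i0 + l - 1 = i0 + (l - 1) by omega]
        exact h2
      · exact (Sq_excl hs hQ1 hPl h1.1).elim
  have hdown : ∀ k, k ≤ i0 → b (i0 - k + l) = b (i0 - k) ∧ b (i0 - k + 1 + l) = b (i0 - k + 1) := by
    intro k
    induction k with
    | zero => intro _; exact hS0
    | succ k ih =>
      intro hk
      obtain ⟨h1, h2⟩ := ih (by omega)
      obtain ⟨t, ht⟩ : ∃ t, t = i0 - (k + 1) := ⟨_, rfl⟩
      rw [show i0 - k = t + 1 by omega] at h1 h2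
      rw [← ht]
      have h3 : b (t + l) = b t := by
        apply hback t (t + l)
        · rw [show t + l + 1 = t + 1 + l by omega]; exact h1
        · rw [show t + l + 2 = t + 1 + 1 + l by omega]; exact h2
      exact ⟨h3, h1⟩
  have h00 : b (0 + l) = b 0 ∧ b (0 + 1 + l) = b (0 + 1) := by
    have h := hdown i0 le_rfl
    rwa [Nat.sub_self] at h
  have hall : ∀ i, b (i + l) = b i ∧ b (i + 1 + l) = b (i + 1) := by
    intro i
    induction i with
    | zero => exact h00
    | succ i ih =>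
      refine ⟨ih.2, ?_⟩
      have h3 := hfor i (i + l) ih.1 (by rw [show i + l + 1 = i + 1 + l by omega]; exact ih.2)
      rw [show i + 1 + 1 + l = i + l + 2 by omega]
      exact h3
  exact ⟨l, hodd, fun i => (hall i).1⟩

end SWS
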