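import Pool.Agent.SWS.Ra
import Pool.Agent.SWS.Rb
import Pool.Agent.SWS.Rc
import Pool.Agent.SWS.Qc
import Pool.Agent.SWS.Ga

/-!
# SWS: three Seidel eigenvalues
-/

set_option autoImplicit false

namespace SWS

open Finset Polynomial RGC
open scoped Classical

variable {V W : Type}

/-- the numbers of odd triples through the vertices agree -/
theorem cub_thr [Fintype V] {G : SimpleGraph V} {e1 e2 e3 : ℝ} (h : Cub G e1 e2 e3 0) (u v : V) :
    oddThrough G u = oddThrough G v := by
  have h1 : ∀ a : V, (Sd G ^ 3) a a = e1 * (Sd G ^ 2) a a + e3 := by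
    intro a
    have := congrFun (congrFun h a) a
    rw [this]
    have h2 : Sd G a a = 0 := by
      unfold Sd
      rw [if_pos rfl]
    simp [Matrix.add_apply, Matrix.smul_apply, h2]
  have h3 : ∀ a : V, (Sd G ^ 2) a a = (Fintype.card V : ℝ) - 1 := by
    intro a
    rw [pow_two, Matrix.mul_apply]
    have h4 : ∀ b, Sd G a b * Sd G b a = 1 - if a = b then 1 else 0 := by
      intro b
      by_cases hab : a = b
      · subst hab
        unfold Sd
        simp
      · have h5 := sq_mul G hab
        have h6 : Sd G b a = Sd G a b := (sd_symm G).apply a b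
        rw [h6, ← sq_map, if_neg hab, sub_zero]
        exact_mod_cast h5
    rw [sum_congr rfl fun b _ => h4 b, sum_sub_distrib, sum_ite_eq, if_pos (mem_univ a), sum_const,
      card_univ, nsmul_eq_mul, mul_one]
  have h7 : ∀ a : V, ((SQ G ^ 3) a a : ℝ) = (Sd G ^ 3) a a := by
    intro a
    have h8 : Sd G = (SQ G).map (algebraMap ℚ ℝ) := by
      ext x y
      exact (sq_map G x y).symm
    rw [h8, ← Matrix.map_pow]
    rfl
  have h9 : ∀ a : V, ((SQ G ^ 3) a a : ℝ) = e1 * ((Fintype.card V : ℝ) - 1) + e3 := by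
    intro a
    rw [h7, h1, h3]
  have h10 : (SQ G ^ 3) u u = (SQ G ^ 3) v v := by
    have := (h9 u).trans (h9 v).symm
    exact_mod_cast this
  rw [sq_thr, sq_thr] at h10
  have h11 : (oddThrough G u : ℚ) = oddThrough G v := by linarith
  exact_mod_cast h11

theorem recon_three [Fintype V] {G : SimpleGraph V} (hn : 10 ≤ Fintype.card V)
    {e1 e2 e3 : ℝ} (h : Cub G e1 e2 e3 0) : Recon G := by
  rcases Nat.even_or_odd (Fintype.card V) with hV | ho
  · exact recon_even G hV (by omega) fun u v => by rw [cub_thr h u v]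
  intro H hd
  by_contra hne
  obtain ⟨r, hr⟩ := three_of_cub hn h
  have hH : Cub H e1 e2 e3 0 := cub_cosp (chp_mate hd hr) h
  obtain ⟨π, hπ⟩ := transport hd
  have key : ∀ v, ∃ x : ℝ, (∃ a, a ≠ v ∧ gv G v a = x) ∧ (∃ a, a ≠ v ∧ gv G v a = e1 - x) ∧
      ∀ a, a ≠ v → gv G v a = x ∨ gv G v a = e1 - x := by
    intro v
    obtain ⟨H', e, -, hoff⟩ := hπ v
    obtain ⟨K, d, hT, hrow, hoffK, hcut⟩ := rep hoff
    have hK : Cub K e1 e2 e3 0 := cub_T hT (cub_iso e.symm hH)
    have hnc : ¬ ∀ a b, a ≠ v → b ≠ v → d a = d b := by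
      intro hcon
      apply hne
      have h1 : SwEq G H' := swEq_of_T fun a b c => T_eq_of_cut hoff hcut hcon a b c
      exact h1.trans (swEq_iff.2 ⟨e.toEquiv, fun a b c => T_iso e a b c⟩)
    push Not at hnc
    obtain ⟨p, q, hp, hq, hpq⟩ := hnc
    have hsum : ∀ a b, a ≠ v → b ≠ v → d a ≠ d b → gv G v a + gv G v b = e1 := by
      intro a b ha hb hab
      have h2 := cub_cut h hK hrow hoffK ha hb hab
      have h3 : ∀ x, x ≠ v → Sd G v x ≠ 0 := by
        intro x hx
        have h4 := sq_mul G hx.symm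
        rw [← sq_map]
        intro h5
        have h6 : SQ G v x = 0 := by exact_mod_cast h5
        rw [h6] at h4
        norm_num at h4
      rcases mul_eq_zero.1 h2 with h5 | h5
      · rcases mul_eq_zero.1 h5 with h6 | h6
        · exact absurd h6 (h3 a ha)
        · exact absurd h6 (h3 b hb)
      · linarith
    refine ⟨gv G v p, ⟨p, hp, rfl⟩, ⟨q, hq, by linarith [hsum p q hp hq hpq]⟩, ?_⟩
    intro a ha
    by_cases hap : d a = d p
    · left
      have h7 := hsum a q ha hq (by rw [hap]; exact hpq)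
      have h8 := hsum p q hp hq hpq
      linarith
    · right
      have h7 := hsum a p ha hp hap
      linarith
  have hn2 : Nonempty V := Fintype.card_pos_iff.1 (by omega)
  obtain ⟨v0⟩ := hn2
  obtain ⟨x, -, -, hx⟩ := key v0
  refine hne (gap_two hn ho (x := x) (y := e1 - x) ?_ H hd)
  intro a b hab
  by_cases ha : a = v0
  · subst ha
    exact hx b hab.symm
  · obtain ⟨y, -, -, hy⟩ := key a
    have h1 := hx a ha
    have h2 := hy v0 (fun hh => ha hh.symm)
    have h3 := hy b hab.symm
    have h4 : gv G a v0 = gv G v0 a := by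
      unfold gv
      rw [cd_comm]
    rw [h4] at h2
    have h5 : y = x ∨ y = e1 - x := by
      rcases h1 with h1 | h1 <;> rcases h2 with h2 | h2
      · left; linarith
      · right; linarith
      · right; linarith
      · left; linarith
    rcases h5 with h5 | h5 <;> rcases h3 with h3 | h3
    · left; rw [h3, h5]
    · right; rw [h3, h5]
    · right; rw [h3, h5]
    · left; rw [h3, h5]; ring

end SWS
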