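import Pool.Agent.SWS.Sq

/-!
# SWS: an odd walk that exchanges two vertices

With `z = X - C ν`: walk through the system by mutations at `a k`, `a k = v` for even `k` and `a k = w` for odd `k`.
For `y ≠ v, w` the entries `b y k` of the current matrix in the row `a (k + 1)` and the column `y` form a sequence to
which `seq_odd` applies, so it has an odd period; let `N` be the product of these periods. After `N` steps the rows of
`v` and `w` are exchanged. The leading coefficients of the other entries change in each step by a product of two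
signs, one for each of the two sequences, and the product of these signs over a period is `1`.
-/

set_option autoImplicit false

namespace SWS

open Finset Polynomial
open scoped Classical

variable {V W : Type}

private theorem Wk_excl {ν s0 : ℚ} {Q p : ℚ[X]} (hs : s0 * s0 = 1) (hQ1 : ¬ (X - C ν) ^ 2 ∣ Q)
    (h1 : (X - C ν) * p = C s0 * Q) (h2 : p.eval ν = 0) : False := by
  obtain ⟨q, hq⟩ := dvd_iff_isRoot.mpr h2
  apply hQ1
  have h0 : s0 ≠ 0 := by
    rintro rfl
    norm_num at hs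
  have h3 : (X - C ν) ^ 2 ∣ C s0 * Q := ⟨q, by rw [← h1, hq]; ring⟩
  exact ((isUnit_C.mpr (isUnit_iff_ne_zero.mpr h0)).dvd_mul_left).mp h3

private theorem Wk_coeff {ν s : ℚ} {p q r : ℚ[X]} {m : ℕ} (hp : p.natDegree = m) (hq : q.natDegree = m)
    (hr : r.natDegree = m) (h : (X - C ν) * (p + q) = C s * r) : p.coeff m = - q.coeff m := by
  have h1 : ((X - C ν) * (p + q)).coeff (m + 1) = (C s * r).coeff (m + 1) := by rw [h]
  have hz : ∀ t : ℚ[X], t.natDegree = m → t.coeff (m + 1) = 0 := fun t ht =>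
    coeff_eq_zero_of_natDegree_lt (by omega)
  rw [sub_mul, coeff_sub, coeff_X_mul, coeff_C_mul, coeff_C_mul, coeff_add, coeff_add, hz p hp, hz q hq,
    hz r hr] at h1
  linarith

/-- a periodic sequence of signs -/
private theorem Wk_prod {c : ℕ → ℚ} (hc : ∀ k, c k * c k = 1) {N : ℕ} (hN : ∀ k, c (k + N) = c k) :
    ∏ k ∈ range N, (c (k + 2) * c k) = 1 := by
  have h1 : ∀ n, (∏ k ∈ range n, (c (k + 2) * c k)) * (c 0 * c 1) = c (n + 1) * c n := by
    intro n
    induction n with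
    | zero => rw [range_zero, prod_empty, one_mul, zero_add, mul_comm]
    | succ n ih =>
      rw [prod_range_succ]
      calc (∏ k ∈ range n, (c (k + 2) * c k)) * (c (n + 2) * c n) * (c 0 * c 1)
          = ((∏ k ∈ range n, (c (k + 2) * c k)) * (c 0 * c 1)) * (c (n + 2) * c n) := by ring
        _ = (c (n + 1) * c n) * (c (n + 2) * c n) := by rw [ih]
        _ = c (n + 2) * c (n + 1) * (c n * c n) := by ring
        _ = c (n + 1 + 1) * c (n + 1) := by rw [hc, mul_one]
  have h2 := h1 N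
  have h3 : c N = c 0 := by have := hN 0; rwa [zero_add] at this
  have h4 : c (N + 1) = c 1 := by have := hN 1; rwa [add_comm 1 N] at this
  rw [h3, h4] at h2
  have h5 : (c 0 * c 1) * (c 0 * c 1) = 1 := by
    calc (c 0 * c 1) * (c 0 * c 1) = (c 0 * c 0) * (c 1 * c 1) := by ring
      _ = 1 := by rw [hc, hc, one_mul]
  calc ∏ k ∈ range N, (c (k + 2) * c k)
      = (∏ k ∈ range N, (c (k + 2) * c k)) * ((c 0 * c 1) * (c 0 * c 1)) := by rw [h5, mul_one]
    _ = ((∏ k ∈ range N, (c (k + 2) * c k)) * (c 0 * c 1)) * (c 0 * c 1) := by ring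
    _ = (c 1 * c 0) * (c 0 * c 1) := by rw [h2]
    _ = (c 0 * c 1) * (c 0 * c 1) := by ring
    _ = 1 := h5

/-- the walk -/
private theorem Wk_walk {U : Bool → Set (V → V → ℚ[X])} {ν s0 : ℚ} {Q : ℚ[X]} {m : ℕ}
    (h : NSys U ν s0 Q m) (b0 : Bool) {A : V → V → ℚ[X]} (hA : A ∈ U b0) (a : ℕ → V) :
    ∃ (bb : ℕ → Bool) (S : ℕ → V → V → ℚ[X]), bb 0 = b0 ∧ (∀ k, bb (k + 1) = !(bb k)) ∧ S 0 = A ∧
      (∀ k, S k ∈ U (bb k)) ∧ ∀ k, (∀ j, S (k + 1) (a k) j = S k (a k) j) ∧
      ∀ i j, i ≠ a k → j ≠ a k →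
      ((((X - C ν) * S k (a k) i = C s0 * Q ∧ (X - C ν) * S k (a k) j = C s0 * Q) ∨
        ((S k (a k) i).eval ν = 0 ∧ (S k (a k) j).eval ν = 0)) → S (k + 1) i j = S k i j) ∧
      ((X - C ν) * S k (a k) i = C s0 * Q → (S k (a k) j).eval ν = 0 →
        (X - C ν) * (S (k + 1) i j + S k i j) = C (2 * s0) * S k (a k) j) := by
  let St : Type := Σ b : Bool, {B : V → V → ℚ[X] // B ∈ U b}
  have hnext : ∀ (x : St) (v : V), ∃ y : St, y.1 = (!x.1) ∧ (∀ j, y.2.1 v j = x.2.1 v j) ∧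
      ∀ i j, i ≠ v → j ≠ v →
      ((((X - C ν) * x.2.1 v i = C s0 * Q ∧ (X - C ν) * x.2.1 v j = C s0 * Q) ∨
        ((x.2.1 v i).eval ν = 0 ∧ (x.2.1 v j).eval ν = 0)) → y.2.1 i j = x.2.1 i j) ∧
      ((X - C ν) * x.2.1 v i = C s0 * Q → (x.2.1 v j).eval ν = 0 →
        (X - C ν) * (y.2.1 i j + x.2.1 i j) = C (2 * s0) * x.2.1 v j) := by
    intro x v
    obtain ⟨A', hA', h1, h2⟩ := h.mt x.1 x.2.1 x.2.2 v
    exact ⟨⟨!x.1, ⟨A', hA'⟩⟩, rfl, h1, h2⟩
  choose nx hnx using hnext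
  let st : ℕ → St := fun k => Nat.rec (⟨b0, ⟨A, hA⟩⟩ : St) (fun k x => nx x (a k)) k
  have hst0 : st 0 = ⟨b0, ⟨A, hA⟩⟩ := rfl
  have hstS : ∀ k, st (k + 1) = nx (st k) (a k) := fun k => rfl
  refine ⟨fun k => (st k).1, fun k => (st k).2.1, rfl, fun k => ?_, rfl, fun k => (st k).2.2, fun k => ?_⟩
  · exact (hnx (st k) (a k)).1
  · exact (hnx (st k) (a k)).2

theorem NSys.swap [Fintype V] {U : Bool → Set (V → V → ℚ[X])} {ν s0 : ℚ} {Q : ℚ[X]} {m : ℕ}
    (h : NSys U ν s0 Q m) (b0 : Bool) {A : V → V → ℚ[X]} (hA : A ∈ U b0) {v w : V}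
    (hvw : v ≠ w) (hP : (X - C ν) * A v w = C s0 * Q) :
    ∃ A' ∈ U (!b0), A' v w = A v w ∧
      (∀ y, y ≠ v → y ≠ w → A' v y = A w y ∧ A' w y = A v y) ∧
      (∀ y y', y ≠ v → y ≠ w → y' ≠ v → y' ≠ w → y ≠ y' →
        (A' y y').coeff m = (A y y').coeff m) := by
  obtain ⟨a, ha⟩ : ∃ a : ℕ → V, a = fun k => if Even k then v else w := ⟨_, rfl⟩
  have ha0 : a 0 = v := by rw [ha]; simp
  have ha1 : a 1 = w := by rw [ha]; simp
  have ha2 : ∀ k, a (k + 2) = a k := by
    intro k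
    rw [ha]
    simp only [Nat.even_add, even_two, iff_true]
  have haw : ∀ k, (a k = v ∧ a (k + 1) = w) ∨ (a k = w ∧ a (k + 1) = v) := by
    intro k
    rw [ha]
    by_cases hk : Even k
    · left
      simp [hk, Nat.even_add_one]
    · right
      simp [hk, Nat.even_add_one]
  have hane : ∀ k, a (k + 1) ≠ a k := by
    intro k
    rcases haw k with h1 | h1
    · rw [h1.1, h1.2]; exact hvw.symm
    · rw [h1.1, h1.2]; exact hvw
  obtain ⟨bb, S, hbb0, hbb, hS0, hSU, hS⟩ := Wk_walk h b0 hA a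
  have hsym : ∀ k i j, S k i j = S k j i := fun k => h.symm (bb k) (S k) (hSU k)
  have hdeg : ∀ k i j, i ≠ j → (S k i j).natDegree = m ∧ (S k i j).coeff m * (S k i j).coeff m = 1 :=
    fun k => h.deg (bb k) (S k) (hSU k)
  have htyp : ∀ k i j, i ≠ j → (X - C ν) * S k i j = C s0 * Q ∨ (S k i j).eval ν = 0 :=
    fun k => h.typ (bb k) (S k) (hSU k)
  -- the pair v w
  have hSvw : ∀ k, S k v w = A v w := by
    intro k
    induction k with
    | zero => rw [hS0]
    | succ k ih =>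
      rcases haw k with h1 | h1
      · have h2 := (hS k).1 w
        rw [h1.1] at h2
        rw [h2, ih]
      · have h2 := (hS k).1 v
        rw [h1.1] at h2
        rw [hsym (k + 1), h2, hsym k, ih]
  have hPa : ∀ k, (X - C ν) * S k (a k) (a (k + 1)) = C s0 * Q := by
    intro k
    rcases haw k with h1 | h1
    · rw [h1.1, h1.2, hSvw, hP]
    · rw [h1.1, h1.2, hsym, hSvw, hP]
  -- the sequences
  obtain ⟨b, hb⟩ : ∃ b : V → ℕ → ℚ[X], b = fun y k => S k (a (k + 1)) y := ⟨_, rfl⟩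
  have hbk : ∀ y k, b y k = S k (a (k + 1)) y := fun y k => by rw [hb]
  have hbs : ∀ y k, b y (k + 1) = S k (a k) y := by
    intro y k
    rw [hbk, ha2, (hS k).1]
  have hya : ∀ y, y ≠ v → y ≠ w → ∀ k, y ≠ a k := by
    intro y h1 h2 k
    rcases haw k with h3 | h3
    · rw [h3.1]; exact h1
    · rw [h3.1]; exact h2
  have hstep : ∀ y, y ≠ v → y ≠ w → ∀ k,
      ((X - C ν) * b y (k + 1) = C s0 * Q ∧ b y (k + 2) = b y k) ∨
      ((b y (k + 1)).eval ν = 0 ∧ (X - C ν) * (b y (k + 2) + b y k) = C (2 * s0) * b y (k + 1)) := by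
    intro y h1 h2 k
    have hyk := hya y h1 h2 k
    have h3 := (hS k).2 (a (k + 1)) y (hane k) hyk
    have h4 : b y (k + 2) = S (k + 1) (a (k + 1)) y := hbs y (k + 1)
    rw [h4, hbs y k, hbk y k]
    rcases htyp k (a k) y hyk.symm with h5 | h5
    · exact Or.inl ⟨h5, h3.1 (Or.inl ⟨hPa k, h5⟩)⟩
    · exact Or.inr ⟨h5, h3.2 (hPa k) h5⟩
  have hbdeg : ∀ y, y ≠ v → y ≠ w → ∀ k, (b y k).natDegree = m ∧ (b y k).coeff m * (b y k).coeff m = 1 := by
    intro y h1 h2 k
    rw [hbk]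
    exact hdeg k _ _ (hya y h1 h2 (k + 1)).symm
  have hper : ∀ y, ∃ l, Odd l ∧ (y ≠ v → y ≠ w → ∀ i, b y (i + l) = b y i) := by
    intro y
    by_cases h12 : y ≠ v ∧ y ≠ w
    · obtain ⟨h1, h2⟩ := h12
      obtain ⟨l, hl, hl2⟩ := seq_odd (b := b y) h.hs h.hQd h.hQ1 (fun i => (hbdeg y h1 h2 i).1)
        (fun i hi => by
          have h3 := (hbdeg y h1 h2 i).2
          rw [hi, coeff_zero, mul_zero] at h3
          exact zero_ne_one h3) (hstep y h1 h2)
      exact ⟨l, hl, fun _ _ => hl2⟩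
    · exact ⟨1, odd_one, fun h1 h2 => absurd ⟨h1, h2⟩ h12⟩
  choose l hl hl2 using hper
  obtain ⟨N, hN⟩ : ∃ N, N = ∏ y : V, l y := ⟨_, rfl⟩
  have hNodd : Odd N := by
    rw [hN]
    exact prod_induction l Odd (fun x y hx hy => hx.mul hy) odd_one (fun y _ => hl y)
  have hNper : ∀ y, y ≠ v → y ≠ w → ∀ i, b y (i + N) = b y i := by
    intro y h1 h2 i
    obtain ⟨q, hq⟩ : l y ∣ N := by
      rw [hN]
      exact dvd_prod_of_mem l (mem_univ y)
    rw [hq]
    have : ∀ q i, b y (i + l y * q) = b y i := by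
      intro q
      induction q with
      | zero => intro i; rw [mul_zero, add_zero]
      | succ q ih => intro i; rw [mul_add, mul_one, ← add_assoc, hl2 y h1 h2, ih]
    exact this q i
  have haN : a N = w := by
    rw [ha]
    simp [Nat.not_even_iff_odd.mpr hNodd]
  have haN1 : a (N + 1) = v := by
    rcases haw N with h1 | h1
    · exact absurd (haN.symm.trans h1.1) hvw.symm
    · exact h1.2
  have hbbN : bb N = !b0 := by
    obtain ⟨q, hq⟩ := hNodd
    have hev : ∀ q, bb (2 * q) = b0 := by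
      intro q
      induction q with
      | zero => exact hbb0
      | succ q ih =>
        rw [show 2 * (q + 1) = 2 * q + 1 + 1 by ring, hbb, hbb, ih, Bool.not_not]
    rw [hq, hbb, hev]
  refine ⟨S N, by rw [← hbbN]; exact hSU N, hSvw N, fun y h1 h2 => ⟨?_, ?_⟩, ?_⟩
  · have h3 := hNper y h1 h2 0
    rw [zero_add, hbk, hbk, haN1, ha1, hS0] at h3
    exact h3
  · have h3 := hNper y h1 h2 1
    rw [add_comm 1 N, hbs, show (1 : ℕ) = 0 + 1 from rfl, hbs, haN, ha0, hS0] at h3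
    exact h3
  · intro y y' h1 h2 h1' h2' hyy
    -- signs of one sequence
    have hP1 : ∀ z, z ≠ v → z ≠ w → ∀ k, (X - C ν) * b z (k + 1) = C s0 * Q →
        (b z (k + 2)).coeff m * (b z k).coeff m = 1 := by
      intro z hz1 hz2 k hk
      rcases hstep z hz1 hz2 k with h3 | h3
      · rw [h3.2]; exact (hbdeg z hz1 hz2 k).2
      · exact (Wk_excl h.hs h.hQ1 hk h3.1).elim
    have hR1 : ∀ z, z ≠ v → z ≠ w → ∀ k, (b z (k + 1)).eval ν = 0 →
        (b z (k + 2)).coeff m * (b z k).coeff m = -1 := by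
      intro z hz1 hz2 k hk
      rcases hstep z hz1 hz2 k with h3 | h3
      · exact (Wk_excl h.hs h.hQ1 h3.1 hk).elim
      · rw [Wk_coeff (hbdeg z hz1 hz2 (k + 2)).1 (hbdeg z hz1 hz2 k).1 (hbdeg z hz1 hz2 (k + 1)).1 h3.2,
          neg_mul, (hbdeg z hz1 hz2 k).2]
    have he : ∀ k, (S (k + 1) y y').coeff m = (((b y (k + 2)).coeff m * (b y k).coeff m) *
        ((b y' (k + 2)).coeff m * (b y' k).coeff m)) * (S k y y').coeff m := by
      intro k
      have hyk := hya y h1 h2 k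
      have hyk' := hya y' h1' h2' k
      have h3 := (hS k).2 y y' hyk hyk'
      have h3' := (hS k).2 y' y hyk' hyk
      rcases htyp k (a k) y hyk.symm with h5 | h5 <;> rcases htyp k (a k) y' hyk'.symm with h6 | h6
      · rw [h3.1 (Or.inl ⟨h5, h6⟩), hP1 y h1 h2 k (by rw [hbs]; exact h5),
          hP1 y' h1' h2' k (by rw [hbs]; exact h6), one_mul, one_mul]
      · rw [Wk_coeff (hdeg (k + 1) y y' hyy).1 (hdeg k y y' hyy).1 (hdeg k (a k) y' hyk'.symm).1 (h3.2 h5 h6),
          hP1 y h1 h2 k (by rw [hbs]; exact h5), hR1 y' h1' h2' k (by rw [hbs]; exact h6)]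
        ring
      · have h7 := h3'.2 h6 h5
        rw [hsym (k + 1) y' y, hsym k y' y] at h7
        rw [Wk_coeff (hdeg (k + 1) y y' hyy).1 (hdeg k y y' hyy).1 (hdeg k (a k) y hyk.symm).1 h7,
          hR1 y h1 h2 k (by rw [hbs]; exact h5), hP1 y' h1' h2' k (by rw [hbs]; exact h6)]
        ring
      · rw [h3.1 (Or.inr ⟨h5, h6⟩), hR1 y h1 h2 k (by rw [hbs]; exact h5),
          hR1 y' h1' h2' k (by rw [hbs]; exact h6)]
        ring
    have heN : ∀ n, (S n y y').coeff m = ((∏ k ∈ range n, ((b y (k + 2)).coeff m * (b y k).coeff m)) *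
        (∏ k ∈ range n, ((b y' (k + 2)).coeff m * (b y' k).coeff m))) * (S 0 y y').coeff m := by
      intro n
      induction n with
      | zero => rw [range_zero, prod_empty, prod_empty, one_mul, one_mul]
      | succ n ih =>
        rw [he n, ih, prod_range_succ, prod_range_succ]
        ring
    rw [heN N, Wk_prod (c := fun k => (b y k).coeff m) (fun k => (hbdeg y h1 h2 k).2)
      (fun k => by rw [hNper y h1 h2 k]),
      Wk_prod (c := fun k => (b y' k).coeff m) (fun k => (hbdeg y' h1' h2' k).2)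
      (fun k => by rw [hNper y' h1' h2' k]), one_mul, one_mul, hS0]

end SWS
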